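import Pool.Agent.Lib.MP_0d3db7.D1.Spec

/-!
# THEOREM D1, module An: a family of Gaussian approximations
-/

set_option autoImplicit false

noncomputable section

namespace MP0d3db7D1

open MeasureTheory ProbabilityTheory Filter Topology Pool.Agent.MP0d3db7

namespace An_aux

/-- `√(K / L) → 0`. -/
theorem sqrt_lim (K : ℝ) : Tendsto (fun L : ℕ => Real.sqrt (K / L)) atTop (𝓝 0) := by
  have h1 : Tendsto (fun L : ℕ => K / (L : ℝ)) atTop (𝓝 0) :=
    tendsto_const_div_atTop_nhds_zero_nat K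
  have h2 := (Real.continuous_sqrt.tendsto 0).comp h1
  rw [Real.sqrt_zero] at h2
  exact h2

/-- Real form of the norms. -/
theorem norm_eq (x y : ℝ) :
    ‖Complex.exp ((x : ℝ) : ℂ) - Complex.exp ((y : ℝ) : ℂ)‖ = |Real.exp x - Real.exp y| := by
  rw [← Complex.ofReal_exp, ← Complex.ofReal_exp, ← Complex.ofReal_sub, Complex.norm_real,
    Real.norm_eq_abs]

theorem cmp (φ : ℕ → ℝ → ℂ) (a : ℕ → ℝ) (K : ℝ)
    (h : ∀ L : ℕ, 1 ≤ L → ∀ t ε : ℝ, 0 < ε → ∀ᶠ n : ℕ in atTop,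
      ‖φ n t - Complex.exp ((-(t ^ 2 * a L / 2) : ℝ) : ℂ)‖ ≤ |t| * Real.sqrt (K / L) + ε)
    (L L' : ℕ) (hL : 1 ≤ L) (hL' : 1 ≤ L') (t : ℝ) :
    |Real.exp (-(t ^ 2 * a L / 2)) - Real.exp (-(t ^ 2 * a L' / 2))| ≤
      |t| * Real.sqrt (K / L) + |t| * Real.sqrt (K / L') := by
  refine le_of_forall_pos_le_add fun ε hε => ?_
  obtain ⟨n, h1, h2⟩ := ((h L hL t (ε / 2) (by positivity)).and
    (h L' hL' t (ε / 2) (by positivity))).exists
  rw [← norm_eq]
  calc ‖Complex.exp ((-(t ^ 2 * a L / 2) : ℝ) : ℂ) - Complex.exp ((-(t ^ 2 * a L' / 2) : ℝ) : ℂ)‖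
      = ‖(φ n t - Complex.exp ((-(t ^ 2 * a L' / 2) : ℝ) : ℂ)) -
          (φ n t - Complex.exp ((-(t ^ 2 * a L / 2) : ℝ) : ℂ))‖ := by
        congr 1
        ring
    _ ≤ ‖φ n t - Complex.exp ((-(t ^ 2 * a L' / 2) : ℝ) : ℂ)‖ +
          ‖φ n t - Complex.exp ((-(t ^ 2 * a L / 2) : ℝ) : ℂ)‖ := norm_sub_le _ _
    _ ≤ (|t| * Real.sqrt (K / L') + ε / 2) + (|t| * Real.sqrt (K / L) + ε / 2) :=
        add_le_add h2 h1
    _ = |t| * Real.sqrt (K / L) + |t| * Real.sqrt (K / L') + ε := by ring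

theorem sqrt_le (K : ℝ) (hK : 0 ≤ K) (L : ℕ) (hL : 1 ≤ L) :
    Real.sqrt (K / L) ≤ Real.sqrt K := by
  apply Real.sqrt_le_sqrt
  have : (1 : ℝ) ≤ L := by exact_mod_cast hL
  exact div_le_self hK this

/-- The `a L` are bounded. -/
theorem bdd (a : ℕ → ℝ) (K : ℝ) (hK : 0 ≤ K) (ha : ∀ L, 0 ≤ a L)
    (hc : ∀ L L' : ℕ, 1 ≤ L → 1 ≤ L' → ∀ t : ℝ,
      |Real.exp (-(t ^ 2 * a L / 2)) - Real.exp (-(t ^ 2 * a L' / 2))| ≤
        |t| * Real.sqrt (K / L) + |t| * Real.sqrt (K / L')) :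
    ∃ B : ℝ, ∀ L : ℕ, 1 ≤ L → a L ≤ B := by
  set r : ℝ := Real.sqrt K with hr
  have hr0 : 0 ≤ r := Real.sqrt_nonneg _
  set t : ℝ := 1 / (8 * (r + 1) + 2 * (a 1 + 1)) with ht
  have ha1 := ha 1
  have hden : 0 < 8 * (r + 1) + 2 * (a 1 + 1) := by positivity
  have ht0 : 0 < t := by rw [ht]; positivity
  have ht1 : t ≤ 1 := by
    rw [ht, div_le_one hden]
    nlinarith
  have h1 : 2 * t * r ≤ 1 / 4 := by
    rw [ht]
    rw [show 2 * (1 / (8 * (r + 1) + 2 * (a 1 + 1))) * r = (2 * r) / (8 * (r + 1) + 2 * (a 1 + 1)) by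
      field_simp]
    rw [div_le_div_iff₀ hden (by norm_num)]
    nlinarith
  have h2 : t * a 1 ≤ 1 / 2 := by
    rw [ht]
    rw [show 1 / (8 * (r + 1) + 2 * (a 1 + 1)) * a 1 = (a 1) / (8 * (r + 1) + 2 * (a 1 + 1)) by
      field_simp]
    rw [div_le_div_iff₀ hden (by norm_num)]
    nlinarith
  have h3 : t ^ 2 * a 1 / 2 ≤ 1 / 4 := by
    have h0 : t ^ 2 ≤ t := by nlinarith
    have : t ^ 2 * a 1 ≤ t * a 1 := mul_le_mul_of_nonneg_right h0 ha1
    linarith
  have h4 : 3 / 4 ≤ Real.exp (-(t ^ 2 * a 1 / 2)) := by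
    have := Real.add_one_le_exp (-(t ^ 2 * a 1 / 2))
    linarith
  refine ⟨2 * Real.log 4 / t ^ 2, fun L hL => ?_⟩
  have h5 := hc L 1 hL le_rfl t
  have h6 := sqrt_le K hK L hL
  have h7 := sqrt_le K hK 1 le_rfl
  rw [abs_of_pos ht0] at h5
  have h8 : t * Real.sqrt (K / L) ≤ t * r := mul_le_mul_of_nonneg_left h6 ht0.le
  have h9 : t * Real.sqrt (K / (1 : ℕ)) ≤ t * r := mul_le_mul_of_nonneg_left h7 ht0.le
  have h10 : 1 / 4 ≤ Real.exp (-(t ^ 2 * a L / 2)) := by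
    have := (abs_le.1 h5).1
    linarith
  have h11 : Real.log (1 / 4) ≤ -(t ^ 2 * a L / 2) := by
    rw [Real.log_le_iff_le_exp (by norm_num)]
    exact h10
  rw [one_div, Real.log_inv] at h11
  rw [le_div_iff₀ (by positivity)]
  nlinarith

end An_aux

open An_aux

theorem tAn : S_An := by
  intro φ a K hK ha h
  have hc := cmp φ a K h
  obtain ⟨B, hB⟩ := bdd a K hK ha (fun L L' hL hL' t => hc L L' hL hL' t)
  -- the sequence at `t = 1` is Cauchy
  have hcau : CauchySeq (fun L : ℕ => Real.exp (-(a L / 2))) := by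
    rw [Metric.cauchySeq_iff]
    intro ε hε
    have h1 := (sqrt_lim K).eventually (gt_mem_nhds (show (0 : ℝ) < ε / 2 by positivity))
    obtain ⟨M, hM⟩ := Filter.eventually_atTop.1 h1
    refine ⟨max M 1, fun L hL L' hL' => ?_⟩
    have h2 := hc L L' (le_trans (le_max_right _ _) hL) (le_trans (le_max_right _ _) hL') 1
    rw [Real.dist_eq]
    have h3 := hM L (le_trans (le_max_left _ _) hL)
    have h4 := hM L' (le_trans (le_max_left _ _) hL')
    simp only [one_pow, one_mul, abs_one] at h2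
    linarith
  obtain ⟨l, hl⟩ := cauchySeq_tendsto_of_complete hcau
  have hl0 : 0 < l := by
    have h1 : Real.exp (-(B / 2)) ≤ l := by
      refine ge_of_tendsto hl ?_
      filter_upwards [Filter.eventually_ge_atTop 1] with L hL
      apply Real.exp_le_exp.2
      have := hB L hL
      linarith
    exact lt_of_lt_of_le (Real.exp_pos _) h1
  have hl1 : l ≤ 1 := by
    refine le_of_tendsto hl (Filter.Eventually.of_forall fun L => ?_)
    rw [Real.exp_le_one_iff]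
    have := ha L
    linarith
  have hlog : Tendsto (fun L : ℕ => -(a L / 2)) atTop (𝓝 (Real.log l)) := by
    have h1 := (Real.continuousAt_log hl0.ne').tendsto.comp hl
    refine h1.congr fun L => ?_
    simp [Function.comp]
  have hs : Tendsto a atTop (𝓝 (-2 * Real.log l)) := by
    have h1 := hlog.const_mul (-2 : ℝ)
    refine h1.congr fun L => ?_
    ring
  refine ⟨-2 * Real.log l, ?_, hs, fun t => ?_⟩
  · have := Real.log_nonpos hl0.le hl1
    linarith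
  · rw [Metric.tendsto_atTop]
    intro ε hε
    have h1 : Tendsto (fun L : ℕ => |t| * Real.sqrt (K / L)) atTop (𝓝 0) := by
      have := (sqrt_lim K).const_mul |t|
      simpa using this
    have h2 : Tendsto (fun L : ℕ => Real.exp (-(t ^ 2 * a L / 2))) atTop
        (𝓝 (Real.exp (-(t ^ 2 * (-2 * Real.log l) / 2)))) := by
      have h3 : Tendsto (fun L : ℕ => -(t ^ 2 * a L / 2)) atTop
          (𝓝 (-(t ^ 2 * (-2 * Real.log l) / 2))) :=
        ((hs.const_mul (t ^ 2)).div_const 2).neg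
      exact (Real.continuous_exp.tendsto _).comp h3
    have h3 := h1.eventually (gt_mem_nhds (show (0 : ℝ) < ε / 4 by positivity))
    have h4 := (Metric.tendsto_nhds.1 h2) (ε / 4) (by positivity)
    obtain ⟨L, ⟨h5, h6⟩, hL⟩ := ((h3.and h4).and (Filter.eventually_ge_atTop 1)).exists
    obtain ⟨n0, hn0⟩ := Filter.eventually_atTop.1 (h L hL t (ε / 4) (by positivity))
    refine ⟨n0, fun n hn => ?_⟩
    have h7 := hn0 n hn
    rw [Real.dist_eq] at h6
    rw [dist_eq_norm]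
    calc ‖φ n t - Complex.exp ((-(t ^ 2 * (-2 * Real.log l) / 2) : ℝ) : ℂ)‖
        = ‖(φ n t - Complex.exp ((-(t ^ 2 * a L / 2) : ℝ) : ℂ)) +
            (Complex.exp ((-(t ^ 2 * a L / 2) : ℝ) : ℂ) -
              Complex.exp ((-(t ^ 2 * (-2 * Real.log l) / 2) : ℝ) : ℂ))‖ := by
          congr 1
          ring
      _ ≤ ‖φ n t - Complex.exp ((-(t ^ 2 * a L / 2) : ℝ) : ℂ)‖ +
            ‖Complex.exp ((-(t ^ 2 * a L / 2) : ℝ) : ℂ) -
              Complex.exp ((-(t ^ 2 * (-2 * Real.log l) / 2) : ℝ) : ℂ)‖ := norm_add_le _ _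
      _ ≤ (|t| * Real.sqrt (K / L) + ε / 4) + ε / 4 := by
          refine add_le_add h7 ?_
          rw [norm_eq]
          exact h6.le
      _ < ε := by linarith

end MP0d3db7D1
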