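import Pool.Agent.Lib.MP_0d3db7.D1.Spec

/-! # MP_0d3db7_pr, theorem D1, module Ar: the law of the arrows -/

set_option autoImplicit false

namespace MP0d3db7D1

open MeasureTheory ProbabilityTheory Filter Topology Pool.Agent.MP0d3db7

namespace Ar_aux

section box

variable {ι X : Type} [MeasurableSpace X]

theorem map_curry (μ : Measure X) [IsProbabilityMeasure μ] :
    (PI ι μ).map (MeasurableEquiv.curry ι ℕ X).symm = Measure.infinitePi fun _ : ι × ℕ => μ :=
  Measure.infinitePi_map_curry_symm (ι := ι) (κ := ℕ) fun _ _ => μ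

/-- boxes -/
theorem PI_box (μ : Measure X) [IsProbabilityMeasure μ] (s : Finset (ι × ℕ)) (t : ι × ℕ → Set X)
    (ht : ∀ κ, MeasurableSet (t κ)) :
    PI ι μ {a | ∀ κ ∈ s, a κ.1 κ.2 ∈ t κ} = ∏ κ ∈ s, μ (t κ) := by
  rw [← Measure.infinitePi_pi (fun _ : ι × ℕ => μ) (fun κ _ => ht κ), ← map_curry μ,
    MeasurableEquiv.map_apply]
  rfl

/-- uniqueness -/
theorem PI_unique (μ : Measure X) [IsProbabilityMeasure μ] (ν : Measure (ι → ℕ → X))
    (h : ∀ (s : Finset (ι × ℕ)) (t : ι × ℕ → Set X), (∀ κ, MeasurableSet (t κ)) →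
      ν {a | ∀ κ ∈ s, a κ.1 κ.2 ∈ t κ} = ∏ κ ∈ s, μ (t κ)) : ν = PI ι μ := by
  apply (MeasurableEquiv.curry ι ℕ X).symm.map_measurableEquiv_injective
  rw [map_curry μ]
  refine Measure.eq_infinitePi _ fun s t ht => ?_
  rw [MeasurableEquiv.map_apply, ← h s t ht]
  rfl

/-- one coordinate -/
theorem PI_one (μ : Measure X) [IsProbabilityMeasure μ] (z : ι) (i : ℕ) (t : Set X)
    (ht : MeasurableSet t) : PI ι μ {a | a z i ∈ t} = μ t := by
  have h := PI_box (ι := ι) μ {(z, i)} (fun _ => t) fun _ => ht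
  simpa using h

theorem PI_indep (μ : Measure X) [IsProbabilityMeasure μ] {Y : Type} [MeasurableSpace Y]
    (f : ι × ℕ → X → Y) (hf : ∀ κ, Measurable (f κ)) :
    iIndepFun (fun (κ : ι × ℕ) (a : ι → ℕ → X) => f κ (a κ.1 κ.2)) (PI ι μ) :=
  iIndepFun_uncurry_infinitePi' (ι := ι) (κ := ℕ) (Ω := fun _ _ => X) (𝓧 := fun _ _ => Y)
    (X := fun z i => f (z, i)) (fun _ _ => μ) fun z i => hf (z, i)

end box

theorem U01_lt {x : ℝ} (_ : 0 ≤ x) (h1 : x ≤ 1) : U01 (Set.Iio x) = ENNReal.ofReal x := by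
  rw [U01, Measure.restrict_apply measurableSet_Iio]
  have : Set.Iio x ∩ Set.Icc 0 1 = Set.Ico 0 x := by
    ext u
    simp only [Set.mem_inter_iff, Set.mem_Icc, Set.mem_Ico, Set.mem_Iio]
    constructor
    · rintro ⟨a, b, c⟩
      exact ⟨b, a⟩
    · rintro ⟨a, b⟩
      exact ⟨b, a, le_trans b.le h1⟩
  rw [this, Real.volume_Ico, sub_zero]

theorem U01_ge {x : ℝ} (h0 : 0 ≤ x) (h1 : x ≤ 1) :
    U01 (Set.Iio x)ᶜ = ENNReal.ofReal (1 - x) := by
  rw [prob_compl_eq_one_sub measurableSet_Iio, U01_lt h0 h1, ← ENNReal.ofReal_one,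
    ← ENNReal.ofReal_sub _ h0]

theorem meas_ar1 (x : ℝ) : Measurable fun u : ℝ => decide (u < x) := by
  refine measurable_to_bool ?_
  have : (fun u : ℝ => decide (u < x)) ⁻¹' {true} = Set.Iio x := by
    ext u
    simp
  rw [this]
  exact measurableSet_Iio

theorem meas_ar2 : Measurable fun w : ℝ × ℝ => decide (w.2 < w.1) := by
  refine measurable_to_bool ?_
  have : (fun w : ℝ × ℝ => decide (w.2 < w.1)) ⁻¹' {true} = {w | w.2 < w.1} := by
    ext u
    simp
  rw [this]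
  exact measurableSet_lt measurable_snd measurable_fst

theorem ar_apply {ι : Type} (o u : ι → ℕ → ℝ) (z : ι) (i : ℕ) :
    ar o u z i = decide (u z i < o z i) := by
  unfold ar
  congr

open Classical in
/-- the law of one arrow -/
theorem ber_apply {p : ℝ} (t : Set Bool) : Ber p t =
    ENNReal.ofReal p * (if true ∈ t then 1 else 0) + ENNReal.ofReal (1 - p) *
      (if false ∈ t then 1 else 0) := by
  unfold Ber
  rw [Measure.add_apply, Measure.smul_apply, Measure.smul_apply,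
    Measure.dirac_apply, Measure.dirac_apply]
  simp only [Set.indicator, Pi.one_apply, smul_eq_mul]

theorem ber_prob {p : ℝ} (h0 : 0 ≤ p) (h1 : p ≤ 1) : IsProbabilityMeasure (Ber p) := by
  constructor
  rw [ber_apply]
  simp only [Set.mem_univ, if_true, mul_one]
  rw [← ENNReal.ofReal_add h0 (by linarith)]
  norm_num

theorem U01_dec {x : ℝ} (h0 : 0 ≤ x) (h1 : x ≤ 1) (t : Set Bool) :
    U01 {u | decide (u < x) ∈ t} = Ber x t := by
  rw [ber_apply]
  by_cases ht : true ∈ t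
  · by_cases hf : false ∈ t
    · have : {u : ℝ | decide (u < x) ∈ t} = Set.univ := by
        ext u
        by_cases h : u < x <;> simp [h, ht, hf]
      rw [this, measure_univ, if_pos ht, if_pos hf, mul_one, mul_one,
        ← ENNReal.ofReal_add h0 (by linarith)]
      norm_num
    · have : {u : ℝ | decide (u < x) ∈ t} = Set.Iio x := by
        ext u
        by_cases h : u < x
        · simp [h, ht]
        · simp [h, hf]
      rw [this, U01_lt h0 h1, if_pos ht, if_neg hf, mul_one, mul_zero, add_zero]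
  · by_cases hf : false ∈ t
    · have : {u : ℝ | decide (u < x) ∈ t} = (Set.Iio x)ᶜ := by
        ext u
        by_cases h : u < x
        · simp [h, ht]
        · simp [h, hf, not_lt.1 h]
      rw [this, U01_ge h0 h1, if_neg ht, if_pos hf, mul_one, mul_zero, zero_add]
    · have : {u : ℝ | decide (u < x) ∈ t} = ∅ := by
        ext u
        by_cases h : u < x <;> simp [h, ht, hf]
      rw [this, measure_empty, if_neg ht, if_neg hf, mul_zero, mul_zero, add_zero]

section law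

variable {μ₀ : Measure ℝ} {p : ℝ}

theorem law_int (h : Law μ₀ p) : Integrable (fun x : ℝ => x) μ₀ := by
  have := h.prob
  refine Integrable.mono' (g := fun _ => (1 : ℝ)) (integrable_const 1)
    measurable_id.aestronglyMeasurable ?_
  filter_upwards [h.supp] with x hx
  rw [Real.norm_of_nonneg hx.1]
  exact hx.2

theorem law_bd (h : Law μ₀ p) : 0 ≤ p ∧ p ≤ 1 := by
  have := h.prob
  rw [← h.mean]
  constructor
  · exact integral_nonneg_of_ae (h.supp.mono fun x hx => hx.1)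
  · calc ∫ x, x ∂μ₀ ≤ ∫ _, (1 : ℝ) ∂μ₀ :=
          integral_mono_ae (law_int h) (integrable_const 1) (h.supp.mono fun x hx => hx.2)
      _ = 1 := by simp

theorem law_lint (h : Law μ₀ p) : ∫⁻ x, ENNReal.ofReal x ∂μ₀ = ENNReal.ofReal p := by
  rw [← h.mean, ofReal_integral_eq_lintegral_ofReal (law_int h)
    (h.supp.mono fun x hx => hx.1)]

theorem law_lint' (h : Law μ₀ p) : ∫⁻ x, ENNReal.ofReal (1 - x) ∂μ₀ = ENNReal.ofReal (1 - p) := by
  have := h.prob
  have h2 : Integrable (fun x : ℝ => 1 - x) μ₀ := (integrable_const 1).sub (law_int h)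
  have h3 : 0 ≤ᵐ[μ₀] fun x : ℝ => 1 - x := h.supp.mono fun x hx => by
    show (0 : ℝ) ≤ 1 - x
    linarith [hx.2]
  rw [← ofReal_integral_eq_lintegral_ofReal h2 h3]
  congr 1
  rw [integral_sub (integrable_const 1) (law_int h), h.mean]
  simp

theorem law_dec (h : Law μ₀ p) (t : Set Bool) :
    ∫⁻ x, U01 {u | decide (u < x) ∈ t} ∂μ₀ = Ber p t := by
  have e : ∫⁻ x, U01 {u | decide (u < x) ∈ t} ∂μ₀ = ∫⁻ x, Ber x t ∂μ₀ :=
    lintegral_congr_ae (h.supp.mono fun x hx => U01_dec hx.1 hx.2 t)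
  rw [e]
  simp only [ber_apply]
  rw [lintegral_add_left ((ENNReal.measurable_ofReal).mul_const _),
    lintegral_mul_const _ ENNReal.measurable_ofReal, law_lint h,
    lintegral_mul_const _ (show Measurable fun x : ℝ => ENNReal.ofReal (1 - x) by fun_prop),
    law_lint' h]

end law

theorem meas_h (t : Set Bool) : Measurable fun x : ℝ => U01 {u | decide (u < x) ∈ t} := by
  have h : MeasurableSet {w : ℝ × ℝ | decide (w.2 < w.1) ∈ t} := meas_ar2 (Set.toFinite t).measurableSet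
  exact measurable_measure_prodMk_left h

theorem meas_ar {ι : Type} : Measurable fun x : (ι → ℕ → ℝ) × (ι → ℕ → ℝ) => ar x.1 x.2 := by
  refine measurable_pi_lambda _ fun z => measurable_pi_lambda _ fun i => ?_
  have h : (fun x : (ι → ℕ → ℝ) × (ι → ℕ → ℝ) => ar x.1 x.2 z i) =
      fun x => (fun w : ℝ × ℝ => decide (w.2 < w.1)) (x.1 z i, x.2 z i) :=
    funext fun x => ar_apply _ _ _ _
  rw [h]
  exact meas_ar2.comp (by fun_prop)

end Ar_aux

open Ar_aux

theorem tAr : S_Ar := by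
  refine ⟨fun ι _ μ₀ p h => ?_, fun ι _ o ho => ⟨?_, fun z i => ?_⟩, fun ι _ p h0 h1 => ?_,
    fun ι _ μ₀ p h => ?_⟩
  · have hp := h.prob
    obtain ⟨h0, h1⟩ := law_bd h
    have hb := ber_prob h0 h1
    refine ⟨h0, h1, PI_unique (Ber p) _ fun s t ht => ?_⟩
    have hA : MeasurableSet {a : ι → ℕ → Bool | ∀ κ ∈ s, a κ.1 κ.2 ∈ t κ} := by
      have : {a : ι → ℕ → Bool | ∀ κ ∈ s, a κ.1 κ.2 ∈ t κ} =
          ⋂ κ ∈ s, (fun a : ι → ℕ → Bool => a κ.1 κ.2) ⁻¹' t κ := by
        ext a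
        simp
      rw [this]
      exact Finset.measurableSet_biInter _ fun κ _ =>
        ((measurable_pi_apply κ.2).comp (measurable_pi_apply κ.1)) (ht κ)
    rw [Measure.map_apply meas_ar hA, Measure.prod_apply (meas_ar hA)]
    have e1 : ∀ o : ι → ℕ → ℝ, PI ι U01 (Prod.mk o ⁻¹' ((fun x : (ι → ℕ → ℝ) × (ι → ℕ → ℝ) =>
        ar x.1 x.2) ⁻¹' {a | ∀ κ ∈ s, a κ.1 κ.2 ∈ t κ})) =
        ∏ κ ∈ s, U01 {u | decide (u < o κ.1 κ.2) ∈ t κ} := by
      intro o
      rw [← PI_box U01 s (fun κ => {u | decide (u < o κ.1 κ.2) ∈ t κ}) fun κ => meas_ar1 _ (ht κ)]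
      rfl
    simp only [e1]
    have e2 := lintegral_prod_eq_prod_lintegral_of_indepFun s
      (fun (κ : ι × ℕ) (o : ι → ℕ → ℝ) => U01 {u | decide (u < o κ.1 κ.2) ∈ t κ})
      (PI_indep μ₀ (fun κ x => U01 {u | decide (u < x) ∈ t κ}) fun κ => meas_h (t κ))
      (fun κ => (meas_h (t κ)).comp ((measurable_pi_apply κ.2).comp (measurable_pi_apply κ.1)))
    rw [e2]
    refine Finset.prod_congr rfl fun κ _ => ?_
    rw [← law_dec h (t κ)]
    have e3 : (PI ι μ₀).map (fun o => o κ.1 κ.2) = μ₀ := by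
      ext A hA
      rw [Measure.map_apply (by fun_prop) hA]
      exact PI_one μ₀ κ.1 κ.2 A hA
    conv_rhs => rw [← e3]
    rw [lintegral_map (meas_h (t κ)) ((measurable_pi_apply κ.2).comp (measurable_pi_apply κ.1))]
  · have h := PI_indep (ι := ι) U01 (fun κ x => decide (x < o κ.1 κ.2)) fun κ => meas_ar1 _
    have e : (fun (κ : ι × ℕ) (u : ι → ℕ → ℝ) => ar o u κ.1 κ.2) =
        fun (κ : ι × ℕ) (u : ι → ℕ → ℝ) => decide (u κ.1 κ.2 < o κ.1 κ.2) :=
      funext fun κ => funext fun u => ar_apply _ _ _ _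
    rw [e]
    exact h
  · have e : {u : ι → ℕ → ℝ | ar o u z i = true} = {u | u z i ∈ Set.Iio (o z i)} := by
      ext u
      simp [ar_apply]
    rw [e, Measure.real, PI_one U01 z i _ measurableSet_Iio, U01_lt (ho z i).1 (ho z i).2,
      ENNReal.toReal_ofReal (ho z i).1]
  · have hb := ber_prob h0 h1
    refine ⟨PI_indep (ι := ι) (Ber p) (fun _ x => x) fun _ => measurable_id, fun z i => ?_⟩
    have e : {a : ι → ℕ → Bool | a z i = true} = {a | a z i ∈ ({true} : Set Bool)} := rfl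
    rw [e, Measure.real, PI_one (Ber p) z i _ (Set.toFinite _).measurableSet, ber_apply]
    simp [ENNReal.toReal_ofReal h0]
  · have hp := h.prob
    rw [ae_all_iff]
    intro z
    rw [ae_all_iff]
    intro i
    have h1 : μ₀ {x : ℝ | ¬ (0 ≤ x ∧ x ≤ 1)} = 0 := h.supp
    have h2 : MeasurableSet {x : ℝ | ¬ (0 ≤ x ∧ x ≤ 1)} :=
      (measurableSet_Icc (a := (0 : ℝ)) (b := 1)).compl
    have h3 := PI_one (ι := ι) μ₀ z i _ h2
    rw [h1] at h3
    exact h3

end MP0d3db7D1
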