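import Pool.Agent.Lib.MP_0d3db7.D1.Spec

/-!
# MP_0d3db7_pr, theorem D1: assembly
-/

set_option autoImplicit false

namespace MP0d3db7D1

open MeasureTheory ProbabilityTheory Filter Topology Pool.Agent.MP0d3db7

namespace Asm_aux

theorem pos_succ (a : ℤ → ℕ → Bool) (n : ℕ) :
    pos (hist a (n + 1)) = pos (hist a n) + 1 ∨ pos (hist a (n + 1)) = pos (hist a n) - 1 := by
  show pos (_ :: hist a n) = _ ∨ pos (_ :: hist a n) = _
  rw [pos]
  cases a (pos (hist a n)) (vis (hist a n)) with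
  | true => left; rfl
  | false => right; rfl

theorem pos_le (a : ℤ → ℕ → Bool) (n : ℕ) : pos (hist a n) ≤ n := by
  induction n with
  | zero => exact le_rfl
  | succ n ih =>
    push_cast
    rcases pos_succ a n with h | h <;> omega

theorem visit (a : ℤ → ℕ → Bool) (n k : ℕ) (h : (k : ℤ) ≤ pos (hist a n)) :
    ∃ m ≤ n, pos (hist a m) = k := by
  induction n with
  | zero =>
    have h0 : pos (hist a 0) = 0 := rfl
    refine ⟨0, le_rfl, ?_⟩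
    omega
  | succ n ih =>
    by_cases h1 : (k : ℤ) ≤ pos (hist a n)
    · obtain ⟨m, hm, hk⟩ := ih h1
      exact ⟨m, by omega, hk⟩
    · refine ⟨n + 1, le_rfl, ?_⟩
      rcases pos_succ a n with h2 | h2 <;> omega

theorem ss_le (n : ℕ) : ((Nat.sqrt (Nat.sqrt n) : ℕ) : ℝ) / Real.sqrt n ≤
    1 / Real.sqrt (Nat.sqrt n : ℕ) := by
  rcases Nat.eq_zero_or_pos n with hn | hn
  · subst hn
    simp
  have h1 : 0 < Nat.sqrt n := Nat.sqrt_pos.2 hn
  have h1' : (0 : ℝ) < (Nat.sqrt n : ℕ) := by exact_mod_cast h1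
  have h2 : ((Nat.sqrt (Nat.sqrt n) : ℕ) : ℝ) ≤ Real.sqrt (Nat.sqrt n : ℕ) :=
    Real.nat_sqrt_le_real_sqrt
  have h3 : ((Nat.sqrt n : ℕ) : ℝ) ≤ Real.sqrt n := Real.nat_sqrt_le_real_sqrt
  have h4 : 0 < Real.sqrt (Nat.sqrt n : ℕ) := Real.sqrt_pos.2 h1'
  calc ((Nat.sqrt (Nat.sqrt n) : ℕ) : ℝ) / Real.sqrt n
      ≤ Real.sqrt (Nat.sqrt n : ℕ) / (Nat.sqrt n : ℕ) := by
        exact div_le_div₀ h4.le h2 h1' h3
    _ = 1 / Real.sqrt (Nat.sqrt n : ℕ) := by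
        rw [div_eq_div_iff h1'.ne' h4.ne', Real.mul_self_sqrt h1'.le, one_mul]

theorem ss_tendsto : Tendsto (fun n : ℕ => ((Nat.sqrt (Nat.sqrt n) : ℕ) : ℝ) / Real.sqrt n) atTop
    (𝓝 0) := by
  have h1 : Tendsto (fun n : ℕ => Nat.sqrt n) atTop atTop := by
    refine tendsto_atTop.2 fun b => ?_
    filter_upwards [eventually_ge_atTop (b * b)] with n hn
    exact Nat.le_sqrt.2 hn
  have h2 : Tendsto (fun n : ℕ => 1 / Real.sqrt (Nat.sqrt n : ℕ)) atTop (𝓝 0) := by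
    refine Tendsto.div_atTop tendsto_const_nhds ?_
    exact Real.tendsto_sqrt_atTop.comp (tendsto_natCast_atTop_atTop.comp h1)
  refine squeeze_zero (fun n => by positivity) ss_le h2

/-- the properties of a good environment -/
structure Good (o : ℤ → ℕ → ℝ) (s κ : ℝ) : Prop where
  h01 : ∀ z i, 0 ≤ o z i ∧ o z i ≤ 1
  th : ∀ᵐ u ∂PI ℤ U01, (∀ z, Gd (ar o u z)) ∧ ∀ n : ℕ, ∃ m, pos (hist (ar o u) m) = n
  nu : ∃ K : ℝ, ∀ n : ℕ, ∫⁻ u, nu (ar o u) n ∂PI ℤ U01 ≤ ENNReal.ofReal K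
  ph : ∀ t : ℝ, Tendsto (fun n : ℕ => ph (St U01) fw n (ps o) t) atTop
    (𝓝 (Complex.exp ((-(t ^ 2 * s / 2) : ℝ) : ℂ)))
  mono : ∀ k, mh (St U01) fw k (ps o) ≤ mh (St U01) fw (k + 1) (ps o)
  lim : Tendsto (fun n : ℕ => mh (St U01) fw n (ps o) / n) atTop (𝓝 κ)
  reg : ∀ (D : ℕ) (ε : ℝ), 0 < ε → ∀ᶠ n : ℕ in atTop, ∀ k k' : ℕ, k ≤ k' → k' ≤ D * n →
    (k' : ℝ) - k ≤ D * Real.sqrt n →
    |mh (St U01) fw k' (ps o) - mh (St U01) fw k (ps o) - ((k' : ℝ) - k) * κ| ≤ ε * Real.sqrt n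
  bt : ∃ δ : ℕ → ℝ, Tendsto δ atTop (𝓝 0) ∧ ∀ n k : ℕ, k ≤ n →
    (PI ℤ U01).real {u | (∃ m ≤ n, pos (hist (ar o u) m) = k) ∧
      pos (hist (ar o u) n) < (k : ℤ) - (Nat.sqrt (Nat.sqrt n) : ℕ)} ≤ δ n

theorem mh_zero (o : ℕ → ℕ → ℝ) : mh (St U01) fw 0 o = 0 := by
  simp [mh, SN]

theorem fixed (hHi : S_Hi) (hAr : S_Ar) (hMs : S_Ms) (hTc : S_Tc) (hIva : S_Iva) (hIvb : S_Ivb)
    (hWk : S_Wk) {o : ℤ → ℕ → ℝ} {s κ : ℝ} (hs : 0 < s) (hκ : 0 ≤ κ) (hg : Good o s κ) :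
    ∃ c : ℕ → ℝ, ∀ f : BoundedContinuousFunction ℝ ℝ, Tendsto
      (fun n : ℕ => quenchE o n fun x => f ((x - c n) / Real.sqrt n)) atTop
      (𝓝 (∫ x, f x ∂gaussianReal 0 (Real.toNNReal (4 * s / (1 + 2 * κ) ^ 3)))) := by
  have hκ' : 0 < 1 + 2 * κ := by linarith
  have hm0 : mm o 0 = 0 := by simp [mm, mh_zero]
  have hm1 : ∀ k, mm o k + 1 ≤ mm o (k + 1) := by
    intro k
    have := hg.mono k
    simp only [mm]
    push_cast
    linarith
  have hmlim : Tendsto (fun n : ℕ => mm o n / n) atTop (𝓝 (1 + 2 * κ)) := by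
    have h1 := (hg.lim.const_mul 2).const_add 1
    refine h1.congr' ?_
    filter_upwards [eventually_gt_atTop 0] with n hn
    have hn' : (n : ℝ) ≠ 0 := by exact_mod_cast hn.ne'
    simp only [mm]
    field_simp
  have hmreg : ∀ (D : ℕ) (ε : ℝ), 0 < ε → ∀ᶠ n : ℕ in atTop, ∀ k k' : ℕ, k ≤ k' → k' ≤ D * n →
      (k' : ℝ) - k ≤ D * Real.sqrt n →
      |mm o k' - mm o k - ((k' : ℝ) - k) * (1 + 2 * κ)| ≤ ε * Real.sqrt n := by
    intro D ε hε
    filter_upwards [hg.reg D (ε / 2) (by positivity)] with n hn k k' h1 h2 h3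
    have h4 := hn k k' h1 h2 h3
    have h5 : mm o k' - mm o k - ((k' : ℝ) - k) * (1 + 2 * κ) =
        2 * (mh (St U01) fw k' (ps o) - mh (St U01) fw k (ps o) - ((k' : ℝ) - k) * κ) := by
      simp only [mm]
      ring
    rw [h5, abs_mul, abs_two]
    linarith
  obtain ⟨K, hK1, hK2⟩ := hIva (mm o) (1 + 2 * κ) hκ' hm0 hm1 hmlim hmreg
  obtain ⟨δ, hδ, hbt⟩ := hg.bt
  set Q : Measure (ℤ → ℕ → ℝ) := PI ℤ U01 with hQ
  let q : ℕ → ℝ → ℝ := fun k y => Q.real {u | ∃ m : ℕ, (m : ℝ) ≤ y ∧ pos (hist (ar o u) m) = k}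
  let H : ℕ → ℤ → ℝ := fun n z => Q.real {u | z ≤ pos (hist (ar o u) n)}
  have hδ0 : ∀ n, 0 ≤ δ n := fun n => measureReal_nonneg.trans (hbt n 0 (Nat.zero_le n))
  have hH : ∀ x : ℝ, Tendsto (fun n : ℕ => H n ⌈(K n : ℝ) + x * Real.sqrt n⌉) atTop
      (𝓝 ((gaussianReal 0 (Real.toNNReal (4 * s / (1 + 2 * κ) ^ 3))).real (Set.Ici x))) := by
    refine hIvb q H (mm o) (1 + 2 * κ) (4 * s) K (fun n => Nat.sqrt (Nat.sqrt n)) δ hκ'
      (by positivity) ?_ ?_ hmreg hK1 hK2 hδ ss_tendsto ?_ ?_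
    · intro k y y' hy
      exact measureReal_mono fun u ⟨m, h1, h2⟩ => ⟨m, h1.trans hy, h2⟩
    · exact hTc o s hs hg.th hg.nu hg.ph
    · intro n k
      refine measureReal_mono fun u hu => ?_
      obtain ⟨m, h1, h2⟩ := visit _ n k hu
      exact ⟨m, by exact_mod_cast h1, h2⟩
    · intro n k
      by_cases hkn : k + Nat.sqrt (Nat.sqrt n) ≤ n
      · have h1 := hbt n (k + Nat.sqrt (Nat.sqrt n)) hkn
        have h2 : {u | ∃ m : ℕ, (m : ℝ) ≤ (n : ℝ) ∧ pos (hist (ar o u) m) =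
            ((k + Nat.sqrt (Nat.sqrt n) : ℕ) : ℤ)} ⊆ {u | (k : ℤ) ≤ pos (hist (ar o u) n)} ∪
            {u | (∃ m ≤ n, pos (hist (ar o u) m) = ((k + Nat.sqrt (Nat.sqrt n) : ℕ) : ℤ)) ∧
              pos (hist (ar o u) n) < ((k + Nat.sqrt (Nat.sqrt n) : ℕ) : ℤ) -
                (Nat.sqrt (Nat.sqrt n) : ℕ)} := by
          rintro u ⟨m, h3, h4⟩
          by_cases h5 : (k : ℤ) ≤ pos (hist (ar o u) n)
          · exact Or.inl h5
          · refine Or.inr ⟨⟨m, by exact_mod_cast h3, h4⟩, ?_⟩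
            push_cast
            push Not at h5
            omega
        exact (measureReal_mono h2).trans ((measureReal_union_le _ _).trans (by
          have : H n k = Q.real {u | (k : ℤ) ≤ pos (hist (ar o u) n)} := rfl
          linarith))
      · have h1 : {u | ∃ m : ℕ, (m : ℝ) ≤ (n : ℝ) ∧ pos (hist (ar o u) m) =
            ((k + Nat.sqrt (Nat.sqrt n) : ℕ) : ℤ)} = ∅ := by
          rw [Set.eq_empty_iff_forall_notMem]
          rintro u ⟨m, h3, h4⟩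
          have h5 := pos_le (ar o u) m
          rw [h4] at h5
          have h6 : m ≤ n := by exact_mod_cast h3
          have h7 : k + Nat.sqrt (Nat.sqrt n) ≤ m := by exact_mod_cast h5
          omega
        have h2 : q (k + Nat.sqrt (Nat.sqrt n)) n = 0 := by
          show Q.real _ = 0
          rw [h1]
          simp
        show q (k + Nat.sqrt (Nat.sqrt n)) n ≤ H n k + δ n
        rw [h2]
        exact add_nonneg measureReal_nonneg (hδ0 n)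
  obtain ⟨hind, hprob⟩ := hAr.2.1 ℤ o hg.h01
  have harm : Measurable fun u : ℤ → ℕ → ℝ => ar o u :=
    (hMs.2.2.2.2.2.2.2 ℤ).comp (measurable_const.prodMk measurable_id)
  have hmeas : ∀ z i, Measurable fun u : ℤ → ℕ → ℝ => ar o u z i := fun z i =>
    (measurable_pi_iff.1 (measurable_pi_iff.1 harm z) i)
  have hlaw := hHi (ℤ → ℕ → ℝ) Q (fun u => ar o u) o hmeas hind hprob
  refine ⟨fun n => K n, fun f => ?_⟩
  let Z : ℕ → (ℤ → ℕ → ℝ) → ℝ := fun n u =>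
    (((pos (hist (ar o u) n) : ℤ) : ℝ) - K n) / Real.sqrt n
  have hZ : ∀ n, AEMeasurable (Z n) Q := fun n =>
    (hlaw n fun h => (((pos h : ℤ) : ℝ) - K n) / Real.sqrt n).1.aemeasurable
  have hpr : ∀ n, IsProbabilityMeasure (Q.map (Z n)) := fun n =>
    Measure.isProbabilityMeasure_map (hZ n)
  have hw := hWk (fun n => Q.map (Z n)) (gaussianReal 0 (Real.toNNReal (4 * s / (1 + 2 * κ) ^ 3)))
    ?_ ?_ f
  · refine hw.congr fun n => ?_
    rw [integral_map (hZ n) f.continuous.aestronglyMeasurable]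
    have h1 := (hlaw n fun h => f ((((pos h : ℤ) : ℝ) - K n) / Real.sqrt n)).2
    show ∫ u, f ((((pos (hist (ar o u) n) : ℤ) : ℝ) - K n) / Real.sqrt n) ∂Q = _
    rw [h1, ← sum_wt]
    rfl
  · intro x
    have hv : Real.toNNReal (4 * s / (1 + 2 * κ) ^ 3) ≠ 0 := by
      rw [Ne, Real.toNNReal_eq_zero, not_le]
      positivity
    have := noAtoms_gaussianReal (μ := 0) hv
    exact measure_singleton x
  · intro x
    refine (hH x).congr' ?_
    filter_upwards [eventually_gt_atTop 0] with n hn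
    have hn' : 0 < Real.sqrt n := Real.sqrt_pos.2 (by exact_mod_cast hn)
    show Q.real _ = (Q.map (Z n)).real _
    rw [map_measureReal_apply_of_aemeasurable (hZ n) measurableSet_Ici]
    congr 1
    ext u
    show ⌈(K n : ℝ) + x * Real.sqrt n⌉ ≤ pos (hist (ar o u) n) ↔
      x ≤ (((pos (hist (ar o u) n) : ℤ) : ℝ) - K n) / Real.sqrt n
    rw [Int.ceil_le, le_div_iff₀ hn']
    constructor <;> intro h <;> linarith

/-- canonical environments, `p > 1/2` -/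
theorem canon (hHi : S_Hi) (hAr : S_Ar) (hMs : S_Ms) (hTc : S_Tc) (hIva : S_Iva) (hIvb : S_Ivb)
    (hWk : S_Wk) (hIfw : S_Ifw) (hG1 : S_G1) (hSp : S_Sp) (hM4 : S_M4) (hCh : S_Ch) (hSh : S_Sh)
    (hF4 : S_F4) (hX4 : S_X4) (hTh : S_Th) (hNu : S_Nu) (hBt : S_Bt)
    {μ₀ : Measure ℝ} {p : ℝ} (hL : Law μ₀ p) (hp : 1 / 2 < p) (hp1 : p < 1)
    (hnd : 0 < ∫ x, x * (1 - x) ∂μ₀) :
    ∃ v : NNReal, v ≠ 0 ∧ ∀ᵐ o ∂PI ℤ μ₀, ∃ c : ℕ → ℝ, ∀ f : BoundedContinuousFunction ℝ ℝ,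
      Tendsto (fun n : ℕ => quenchE o n fun x => f ((x - c n) / Real.sqrt n)) atTop
      (𝓝 (∫ x, f x ∂gaussianReal 0 v)) := by
  have := hL.prob
  obtain ⟨C, θ, hIF⟩ := hIfw μ₀ p hL hp hp1
  obtain ⟨s, hs0, hsl, hsa⟩ := hG1 _ _ (St μ₀) (St U01) fw C θ hIF
  obtain ⟨hmm, κ, K, hκ, hK⟩ := hM4 _ _ (St μ₀) (St U01) fw C θ hIF
  have hF := (hF4 _ _ (St μ₀) (St U01) fw C θ hIF).2.2
  obtain ⟨hX1, hX2, -⟩ := hX4 _ _ (St μ₀) (St U01) fw C θ hIF
  have hmono : ∀ᵐ o ∂St (St μ₀), ∀ k, mh (St U01) fw k o ≤ mh (St U01) fw (k + 1) o := by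
    filter_upwards [hF] with o ho k
    refine integral_mono ?_ ?_ fun u => hX1 k o u
    · exact (hX2 k o ho).integrable (by norm_num)
    · exact (hX2 (k + 1) o ho).integrable (by norm_num)
  have hch := hCh _ (St (St μ₀)) (mh (St U01) fw) κ K hκ hmm mh_zero hmono hK
  have hspos : 0 < s := by
    have h1 : ∫ x, x * (1 - x) ∂μ₀ ≤ s := by
      refine ge_of_tendsto hsl ?_
      filter_upwards [eventually_gt_atTop 0] with L hL0
      have hL' : (0 : ℝ) < L := by exact_mod_cast hL0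
      rw [le_div_iff₀ hL', mul_comm]
      exact hSp μ₀ p C θ hL (by linarith) hIF L
    linarith
  have hps : Tendsto (fun a : ℤ → ℕ → ℝ => ps a) (ae (PI ℤ μ₀)) (ae (St (St μ₀))) :=
    (hSh.2 ℝ μ₀).quasiMeasurePreserving.tendsto_ae
  refine ⟨Real.toNNReal (4 * s / (1 + 2 * κ) ^ 3), ?_, ?_⟩
  · rw [Ne, Real.toNNReal_eq_zero, not_le]
    positivity
  · filter_upwards [hAr.2.2.2 ℤ μ₀ p hL, hTh μ₀ p hL hp hp1, hNu μ₀ p hL hp hp1,
      hps.eventually hsa, hps.eventually hmono, hps.eventually hch, hBt μ₀ p hL hp hp1]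
      with o h1 h2 h3 h4 h5 h6 h7
    exact fixed hHi hAr hMs hTc hIva hIvb hWk hspos hκ ⟨h1, h2, h3, h4, h5, h6.1, h6.2, h7⟩

/-- `p > 1/2` -/
theorem right (hHi : S_Hi) (hAr : S_Ar) (hMs : S_Ms) (hTc : S_Tc) (hIva : S_Iva) (hIvb : S_Ivb)
    (hWk : S_Wk) (hIfw : S_Ifw) (hG1 : S_G1) (hSp : S_Sp) (hM4 : S_M4) (hCh : S_Ch) (hSh : S_Sh)
    (hF4 : S_F4) (hX4 : S_X4) (hTh : S_Th) (hNu : S_Nu) (hBt : S_Bt) (hCu : S_Cu)
    {Ω : Type} [MeasurableSpace Ω] (P : Measure Ω) [IsProbabilityMeasure P] (ω : ℤ → ℕ → Ω → ℝ)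
    (hm : ∀ z i, Measurable (ω z i)) (h01 : ∀ z i o, ω z i o ∈ Set.Icc (0 : ℝ) 1)
    (hind : iIndepFun (fun κ : ℤ × ℕ => ω κ.1 κ.2) P)
    (hid : ∀ z i, IdentDistrib (ω z i) (ω 0 1) P P) (hp : 1 / 2 < ∫ o, ω 0 1 o ∂P)
    (hnd : 0 < P {o | 0 < ω 0 1 o ∧ ω 0 1 o < 1}) :
    ∃ v : NNReal, v ≠ 0 ∧ ∀ᵐ o ∂P, ∃ c : ℕ → ℝ, ∀ f : BoundedContinuousFunction ℝ ℝ,
      Tendsto (fun n : ℕ => quenchE (fun z i => ω z i o) n fun x => f ((x - c n) / Real.sqrt n))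
      atTop (𝓝 (∫ x, f x ∂gaussianReal 0 v)) := by
  have hL : Law (P.map (ω 0 1)) (∫ o, ω 0 1 o ∂P) := by
    refine ⟨Measure.isProbabilityMeasure_map (hm 0 1).aemeasurable, ?_, ?_⟩
    · rw [ae_map_iff (hm 0 1).aemeasurable measurableSet_Icc]
      exact Eventually.of_forall fun o => h01 0 1 o
    · exact integral_map (hm 0 1).aemeasurable aestronglyMeasurable_id
  have hint : Integrable (fun o => ω 0 1 o) P := by
    refine Integrable.of_bound (hm 0 1).aestronglyMeasurable 1 (Eventually.of_forall fun o => ?_)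
    rw [Real.norm_eq_abs, abs_le]
    exact ⟨by linarith [(h01 0 1 o).1], (h01 0 1 o).2⟩
  have hint2 : Integrable (fun o => ω 0 1 o * (1 - ω 0 1 o)) P := by
    refine Integrable.of_bound ((hm 0 1).mul ((hm 0 1).const_sub 1)).aestronglyMeasurable 1
      (Eventually.of_forall fun o => ?_)
    have h1 := (h01 0 1 o).1
    have h2 := (h01 0 1 o).2
    rw [Real.norm_eq_abs, abs_le]
    constructor <;> nlinarith
  have hpos : 0 < ∫ x, x * (1 - x) ∂(P.map (ω 0 1)) := by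
    rw [integral_map (hm 0 1).aemeasurable (by fun_prop : AEStronglyMeasurable
      (fun x : ℝ => x * (1 - x)) (P.map (ω 0 1)))]
    rw [integral_pos_iff_support_of_nonneg (fun o => ?_) hint2]
    · refine hnd.trans_le (measure_mono fun o ho => ?_)
      exact (mul_pos ho.1 (by linarith [ho.2])).ne'
    · exact mul_nonneg (h01 0 1 o).1 (by linarith [(h01 0 1 o).2])
  have hp1 : ∫ o, ω 0 1 o ∂P < 1 := by
    have h1 : ∫ x, x * (1 - x) ∂(P.map (ω 0 1)) = ∫ o, ω 0 1 o * (1 - ω 0 1 o) ∂P :=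
      integral_map (hm 0 1).aemeasurable (by fun_prop : AEStronglyMeasurable
        (fun x : ℝ => x * (1 - x)) (P.map (ω 0 1)))
    have h2 : ∫ o, ω 0 1 o * (1 - ω 0 1 o) ∂P ≤ ∫ o, (1 - ω 0 1 o) ∂P := by
      refine integral_mono hint2 ((integrable_const 1).sub hint) fun o => ?_
      have h3 := (h01 0 1 o).1
      have h4 := (h01 0 1 o).2
      show ω 0 1 o * (1 - ω 0 1 o) ≤ 1 - ω 0 1 o
      nlinarith
    rw [integral_sub (integrable_const 1) hint] at h2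
    simp only [integral_const, probReal_univ, smul_eq_mul, mul_one] at h2
    linarith
  obtain ⟨v, hv, hae⟩ := canon hHi hAr hMs hTc hIva hIvb hWk hIfw hG1 hSp hM4 hCh hSh hF4 hX4 hTh
    hNu hBt hL hp hp1 hpos
  refine ⟨v, hv, ?_⟩
  rw [← hCu Ω P ω hm hind hid] at hae
  have hmm : Measurable fun o z i => ω z i o :=
    measurable_pi_iff.2 fun z => measurable_pi_iff.2 fun i => hm z i
  exact ae_of_ae_map hmm.aemeasurable hae

theorem neg_gauss (v : NNReal) (f : BoundedContinuousFunction ℝ ℝ) :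
    ∫ x, f (-x) ∂gaussianReal 0 v = ∫ x, f x ∂gaussianReal 0 v := by
  have h1 : (gaussianReal 0 v).map (fun x => -x) = gaussianReal 0 v := by
    rw [gaussianReal_map_neg, neg_zero]
  conv_rhs => rw [← h1]
  rw [integral_map measurable_neg.aemeasurable f.continuous.aestronglyMeasurable]

end Asm_aux

/-- **THEOREM D1** from the modules. -/
theorem asm (hHi : S_Hi) (hAr : S_Ar) (hMs : S_Ms) (hTc : S_Tc) (hIva : S_Iva) (hIvb : S_Ivb)
    (hWk : S_Wk) (hIfw : S_Ifw) (hG1 : S_G1) (hSp : S_Sp) (hM4 : S_M4) (hCh : S_Ch) (hSh : S_Sh)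
    (hF4 : S_F4) (hX4 : S_X4) (hTh : S_Th) (hNu : S_Nu) (hBt : S_Bt) (hCu : S_Cu) (hRf : S_Rf)
    {Ω : Type} [MeasurableSpace Ω] (P : Measure Ω) [IsProbabilityMeasure P] (ω : ℤ → ℕ → Ω → ℝ)
    (hm : ∀ z i, Measurable (ω z i)) (h01 : ∀ z i o, ω z i o ∈ Set.Icc (0 : ℝ) 1)
    (hind : iIndepFun (fun κ : ℤ × ℕ => ω κ.1 κ.2) P)
    (hid : ∀ z i, IdentDistrib (ω z i) (ω 0 1) P P) (hp : ∫ o, ω 0 1 o ∂P ≠ 1 / 2)
    (hnd : 0 < P {o | 0 < ω 0 1 o ∧ ω 0 1 o < 1}) :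
    ∃ v : NNReal, v ≠ 0 ∧ ∀ᵐ o ∂P, ∃ c : ℕ → ℝ, ∀ f : BoundedContinuousFunction ℝ ℝ,
      Tendsto (fun n : ℕ => quenchE (fun z i => ω z i o) n fun x => f ((x - c n) / Real.sqrt n))
      atTop (𝓝 (∫ x, f x ∂gaussianReal 0 v)) := by
  rcases lt_or_gt_of_ne hp with hlt | hgt
  · let ω' : ℤ → ℕ → Ω → ℝ := fun z i o => 1 - ω (-z) i o
    have hm' : ∀ z i, Measurable (ω' z i) := fun z i => (hm (-z) i).const_sub 1
    have h01' : ∀ z i o, ω' z i o ∈ Set.Icc (0 : ℝ) 1 := fun z i o =>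
      ⟨by show 0 ≤ 1 - ω (-z) i o; linarith [(h01 (-z) i o).2],
        by show 1 - ω (-z) i o ≤ 1; linarith [(h01 (-z) i o).1]⟩
    have hind' : iIndepFun (fun κ : ℤ × ℕ => ω' κ.1 κ.2) P := by
      have h1 : iIndepFun (fun κ : ℤ × ℕ => ω (-κ.1) κ.2) P := by
        refine hind.precomp (g := fun κ : ℤ × ℕ => (-κ.1, κ.2)) ?_
        rintro ⟨a, b⟩ ⟨c, d⟩ h
        simp only [Prod.mk.injEq, neg_inj] at h
        exact Prod.ext h.1 h.2
      exact h1.comp (fun _ x => 1 - x) fun _ => measurable_const.sub measurable_id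
    have hid' : ∀ z i, IdentDistrib (ω' z i) (ω' 0 1) P P := by
      intro z i
      have h1 : IdentDistrib (ω (-z) i) (ω (-0) 1) P P := by
        rw [neg_zero]
        exact hid (-z) i
      exact h1.comp (measurable_const.sub measurable_id : Measurable fun x : ℝ => 1 - x)
    have hint : Integrable (fun o => ω 0 1 o) P := by
      refine Integrable.of_bound (hm 0 1).aestronglyMeasurable 1 (Eventually.of_forall fun o => ?_)
      rw [Real.norm_eq_abs, abs_le]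
      exact ⟨by linarith [(h01 0 1 o).1], (h01 0 1 o).2⟩
    have hp' : 1 / 2 < ∫ o, ω' 0 1 o ∂P := by
      have h1 : ∫ o, ω' 0 1 o ∂P = 1 - ∫ o, ω 0 1 o ∂P := by
        show ∫ o, (1 - ω (-0) 1 o) ∂P = _
        rw [neg_zero, integral_sub (integrable_const 1) hint]
        simp
      rw [h1]
      linarith
    have hnd' : 0 < P {o | 0 < ω' 0 1 o ∧ ω' 0 1 o < 1} := by
      refine hnd.trans_le (measure_mono fun o ho => ?_)
      show 0 < 1 - ω (-0) 1 o ∧ 1 - ω (-0) 1 o < 1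
      rw [neg_zero]
      exact ⟨by linarith [ho.2], by linarith [ho.1]⟩
    obtain ⟨v, hv, hae⟩ := Asm_aux.right hHi hAr hMs hTc hIva hIvb hWk hIfw hG1 hSp hM4 hCh hSh hF4
      hX4 hTh hNu hBt hCu P ω' hm' h01' hind' hid' hp' hnd'
    refine ⟨v, hv, ?_⟩
    filter_upwards [hae] with o ho
    obtain ⟨c, hc⟩ := ho
    refine ⟨fun n => -c n, fun f => ?_⟩
    have h1 := hc (f.compContinuous ⟨fun x => -x, continuous_neg⟩)
    have h2 : ∫ x, (f.compContinuous ⟨fun x => -x, continuous_neg⟩) x ∂gaussianReal 0 v =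
        ∫ x, f x ∂gaussianReal 0 v := Asm_aux.neg_gauss v f
    rw [h2] at h1
    refine h1.congr fun n => ?_
    rw [hRf (fun z i => ω z i o) n]
    show quenchE (fun z i => 1 - ω (-z) i o) n _ = quenchE (fun z i => 1 - ω (-z) i o) n _
    congr 1
    funext x
    show f (-((x - c n) / Real.sqrt n)) = f ((((-x : ℤ) : ℝ) - -c n) / Real.sqrt n)
    congr 1
    push_cast
    ring
  · exact Asm_aux.right hHi hAr hMs hTc hIva hIvb hWk hIfw hG1 hSp hM4 hCh hSh hF4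
      hX4 hTh hNu hBt hCu P ω hm h01 hind hid hgt hnd

end MP0d3db7D1
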