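import Pool.Agent.Lib.MP_0d3db7.D1.Spec

/-!
# MP_0d3db7_pr, theorem D1: the central limit theorem for the blocks (task Bi)
-/

set_option autoImplicit false

namespace MP0d3db7D1

open MeasureTheory ProbabilityTheory Filter Topology Pool.Agent.MP0d3db7

namespace Bi_aux

lemma sh_sh {X : Type} (k j : ℕ) (x : ℕ → X) : sh k (sh j x) = sh (j + k) x := by
  funext i
  simp only [sh, Nat.add_assoc]

variable {A B : Type} [MeasurableSpace A] [MeasurableSpace B] {μ : Measure A} {ν : Measure B}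
  [IsProbabilityMeasure μ] [IsProbabilityMeasure ν] {f : ℕ → (ℕ → A) → (ℕ → B) → ℝ} {C θ : ℝ}

/-- measurability of the sections -/
lemma meas_SN
    (h : ∀ l k, Measurable fun x : (ℕ → A) × (ℕ → B) => f l (sh k x.1) (sh k x.2))
    (n : ℕ) (o : ℕ → A) : Measurable (SN f n o) := by
  unfold SN
  refine Finset.measurable_sum _ fun k _ => Finset.measurable_sum _ fun l _ => ?_
  exact (h l k).comp measurable_prodMk_left

/-- the shifted environment is good -/
lemma F4_sh (hSh : S_Sh)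
    (h : ∀ l k, Measurable fun x : (ℕ → A) × (ℕ → B) => f l (sh k x.1) (sh k x.2))
    {o : ℕ → A} (ho : F4 ν f o) (j : ℕ) : F4 ν f (sh j o) := by
  intro l k
  have hmp := hSh.1 B ν j
  have hm : Measurable fun u : ℕ → B => f l (sh k (sh j o)) (sh k u) :=
    (h l k).comp (measurable_prodMk_left (x := sh j o))
  have h1 := ho l (j + k)
  have h2 : (fun u : ℕ → B => f l (sh (j + k) o) (sh (j + k) u)) =
      (fun u : ℕ → B => f l (sh k (sh j o)) (sh k u)) ∘ sh j := by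
    funext u
    simp only [Function.comp, sh_sh]
  rw [h2] at h1
  rw [← hmp.map_eq]
  exact (memLp_map_measure_iff hm.aestronglyMeasurable hmp.measurable.aemeasurable).2 h1

/-- integrals of shifted functions -/
lemma int_sh (hSh : S_Sh) (j : ℕ) {g : (ℕ → B) → ℝ} (hg : Measurable g) :
    ∫ u, g (sh j u) ∂St ν = ∫ u, g u ∂St ν := by
  have hmp := hSh.1 B ν j
  conv_rhs => rw [← hmp.map_eq]
  rw [integral_map hmp.measurable.aemeasurable hg.aestronglyMeasurable]

/-- the centered block number `j` -/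
noncomputable def Z (ν : Measure B) (f : ℕ → (ℕ → A) → (ℕ → B) → ℝ) (L : ℕ) (o : ℕ → A) (j : ℕ)
    (u : ℕ → B) : ℝ :=
  SN f L (sh (j * L) o) (sh (j * L) u) - mh ν f L (sh (j * L) o)

lemma meas_Z (hSh : S_Sh)
    (h : ∀ l k, Measurable fun x : (ℕ → A) × (ℕ → B) => f l (sh k x.1) (sh k x.2))
    (L : ℕ) (o : ℕ → A) (j : ℕ) : Measurable (Z ν f L o j) := by
  have hmp := hSh.1 B ν (j * L)
  exact ((meas_SN h L (sh (j * L) o)).comp hmp.measurable).sub_const _

/-- the blocks have fourth moments -/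
lemma mem_SN (hSh : S_Sh)
    (hX : ∀ n o, F4 ν f o → MemLp (SN f n o) 4 (St ν))
    (h : ∀ l k, Measurable fun x : (ℕ → A) × (ℕ → B) => f l (sh k x.1) (sh k x.2))
    {o : ℕ → A} (ho : F4 ν f o) (L j : ℕ) :
    MemLp (fun u => SN f L (sh (j * L) o) (sh (j * L) u)) 4 (St ν) := by
  have hmp := hSh.1 B ν (j * L)
  exact (hX L (sh (j * L) o) (F4_sh hSh h ho (j * L))).comp_measurePreserving hmp

lemma mem_Z (hSh : S_Sh)
    (hX : ∀ n o, F4 ν f o → MemLp (SN f n o) 4 (St ν))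
    (h : ∀ l k, Measurable fun x : (ℕ → A) × (ℕ → B) => f l (sh k x.1) (sh k x.2))
    {o : ℕ → A} (ho : F4 ν f o) (L j : ℕ) : MemLp (Z ν f L o j) 4 (St ν) :=
  (mem_SN hSh hX h ho L j).sub (memLp_const _)

omit [IsProbabilityMeasure μ] in
/-- the blocks are independent -/
lemma ind_Z (hInd : S_Ind) (hSh : S_Sh) (hF : IF μ ν f C θ)
    (h : ∀ l k, Measurable fun x : (ℕ → A) × (ℕ → B) => f l (sh k x.1) (sh k x.2))
    (L : ℕ) (o : ℕ → A) (φ : ℝ → ℝ) (hφ : Measurable φ) :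
    iIndepFun (fun j u => φ (Z ν f L o j u)) (St ν) := by
  refine hInd ℕ ℕ B ν (fun j => Finset.Ico (j * L) (j * L + L)) _ ?_ ?_ ?_
  · intro j j' hjj
    rw [Finset.disjoint_left]
    intro i hi hi'
    rw [Finset.mem_Ico] at hi hi'
    rcases Nat.lt_or_gt_of_ne hjj with hlt | hlt
    · have h1 : (j + 1) * L ≤ j' * L := Nat.mul_le_mul_right L hlt
      have h2 : (j + 1) * L = j * L + L := by ring
      omega
    · have h1 : (j' + 1) * L ≤ j * L := Nat.mul_le_mul_right L hlt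
      have h2 : (j' + 1) * L = j' * L + L := by ring
      omega
  · intro j
    exact hφ.comp (meas_Z hSh h L o j)
  · intro j u u' huu
    have h1 : SN f L (sh (j * L) o) (sh (j * L) u) = SN f L (sh (j * L) o) (sh (j * L) u') := by
      unfold SN
      refine Finset.sum_congr rfl fun k hk => Finset.sum_congr rfl fun l hl => ?_
      rw [Finset.mem_range] at hk hl
      refine hF.dep l _ _ _ _ (fun i _ => rfl) fun i hi => ?_
      simp only [sh]
      apply huu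
      rw [Finset.coe_Ico, Set.mem_Ico]
      omega
    show φ (Z ν f L o j u) = φ (Z ν f L o j u')
    unfold Z
    rw [h1]

/-- the mean -/
lemma int_Z (hSh : S_Sh)
    (hX : ∀ n o, F4 ν f o → MemLp (SN f n o) 4 (St ν))
    (h : ∀ l k, Measurable fun x : (ℕ → A) × (ℕ → B) => f l (sh k x.1) (sh k x.2))
    {o : ℕ → A} (ho : F4 ν f o) (L j : ℕ) : ∫ u, Z ν f L o j u ∂St ν = 0 := by
  have h1 : Integrable (fun u => SN f L (sh (j * L) o) (sh (j * L) u)) (St ν) :=
    (mem_SN hSh hX h ho L j).integrable (by norm_num)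
  unfold Z
  rw [integral_sub h1 (integrable_const _),
    int_sh hSh (j * L) (g := SN f L (sh (j * L) o)) (meas_SN h L _)]
  simp [mh]

/-- the variance -/
lemma sq_Z (hSh : S_Sh)
    (h : ∀ l k, Measurable fun x : (ℕ → A) × (ℕ → B) => f l (sh k x.1) (sh k x.2))
    (o : ℕ → A) (L j : ℕ) :
    ∫ u, Z ν f L o j u ^ 2 ∂St ν = vq ν f L (sh (j * L) o) := by
  unfold Z vq
  exact int_sh hSh (j * L)
    (g := fun u => (SN f L (sh (j * L) o) u - mh ν f L (sh (j * L) o)) ^ 2)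
    (((meas_SN h L _).sub_const _).pow_const 2)

/-- the third moment -/
lemma cu_Z (hSh : S_Sh)
    (h : ∀ l k, Measurable fun x : (ℕ → A) × (ℕ → B) => f l (sh k x.1) (sh k x.2))
    (o : ℕ → A) (L j : ℕ) :
    ∫ u, |Z ν f L o j u| ^ 3 ∂St ν =
      ∫ u, |SN f L (sh (j * L) o) u - mh ν f L (sh (j * L) o)| ^ 3 ∂St ν := by
  unfold Z
  exact int_sh hSh (j * L)
    (g := fun u => |SN f L (sh (j * L) o) u - mh ν f L (sh (j * L) o)| ^ 3)
    ((((meas_SN h L _).sub_const _).abs).pow_const 3)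

omit [MeasurableSpace A] [IsProbabilityMeasure ν] in
lemma MB_eq (L J : ℕ) (o : ℕ → A) (u : ℕ → B) :
    MB f L J o u = (∑ j ∈ Finset.range J, Z ν f L o j u) +
      ∑ j ∈ Finset.range J, mh ν f L (sh (j * L) o) := by
  unfold MB Z
  rw [← Finset.sum_add_distrib]
  refine Finset.sum_congr rfl fun j _ => ?_
  ring

lemma MB_mem (hSh : S_Sh)
    (hX : ∀ n o, F4 ν f o → MemLp (SN f n o) 4 (St ν))
    (h : ∀ l k, Measurable fun x : (ℕ → A) × (ℕ → B) => f l (sh k x.1) (sh k x.2))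
    {o : ℕ → A} (ho : F4 ν f o) (L J : ℕ) : MemLp (MB f L J o) 4 (St ν) := by
  unfold MB
  exact memLp_finsetSum _ fun j _ => mem_SN hSh hX h ho L j

/-- the centered sum of the blocks -/
lemma MB_sub (hSh : S_Sh)
    (hX : ∀ n o, F4 ν f o → MemLp (SN f n o) 4 (St ν))
    (h : ∀ l k, Measurable fun x : (ℕ → A) × (ℕ → B) => f l (sh k x.1) (sh k x.2))
    {o : ℕ → A} (ho : F4 ν f o) (L J : ℕ) (u : ℕ → B) :
    MB f L J o u - ∫ u', MB f L J o u' ∂St ν = ∑ j ∈ Finset.range J, Z ν f L o j u := by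
  have h1 : ∫ u', MB f L J o u' ∂St ν = ∑ j ∈ Finset.range J, mh ν f L (sh (j * L) o) := by
    have h2 : ∀ u', MB f L J o u' = (∑ j ∈ Finset.range J, Z ν f L o j u') +
        ∑ j ∈ Finset.range J, mh ν f L (sh (j * L) o) := fun u' => MB_eq L J o u'
    have h3 : ∀ j ∈ Finset.range J, Integrable (Z ν f L o j) (St ν) := fun j _ =>
      (mem_Z hSh hX h ho L j).integrable (by norm_num)
    simp only [h2]
    rw [integral_add (integrable_finsetSum _ h3) (integrable_const _), integral_finsetSum _ h3,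
      Finset.sum_eq_zero fun j _ => int_Z hSh hX h ho L j]
    simp
  rw [h1, MB_eq (ν := ν) L J o u]
  ring

omit [IsProbabilityMeasure μ] in
/-- the variance of the sum of the blocks -/
lemma MB_var (hInd : S_Ind) (hSh : S_Sh) (hF : IF μ ν f C θ)
    (hX : ∀ n o, F4 ν f o → MemLp (SN f n o) 4 (St ν))
    (h : ∀ l k, Measurable fun x : (ℕ → A) × (ℕ → B) => f l (sh k x.1) (sh k x.2))
    {o : ℕ → A} (ho : F4 ν f o) (L J : ℕ) :
    variance (MB f L J o) (St ν) = ∑ j ∈ Finset.range J, vq ν f L (sh (j * L) o) := by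
  have hi := ind_Z hInd hSh hF h L o id measurable_id
  have h1 : variance (MB f L J o) (St ν) =
      variance (∑ j ∈ Finset.range J, Z ν f L o j) (St ν) := by
    have h2 : MB f L J o = fun u => (∑ j ∈ Finset.range J, Z ν f L o j) u +
        ∑ j ∈ Finset.range J, mh ν f L (sh (j * L) o) := by
      funext u
      rw [Finset.sum_apply]
      exact MB_eq L J o u
    rw [h2, variance_add_const]
    exact (Finset.aestronglyMeasurable_sum _ fun j _ =>
      (meas_Z hSh h L o j).aestronglyMeasurable)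
  rw [h1, IndepFun.variance_sum]
  · refine Finset.sum_congr rfl fun j _ => ?_
    rw [variance_eq_integral (meas_Z hSh h L o j).aemeasurable, int_Z hSh hX h ho L j]
    simp only [sub_zero]
    exact sq_Z hSh h o L j
  · intro j _
    exact (mem_Z hSh hX h ho L j).mono_exponent (by norm_num)
  · intro j _ j' _ hjj
    exact hi.indepFun hjj

/-- the estimate of the error terms -/
lemma err_bound (J : ℕ) (hJ : 1 ≤ J) (L : ℕ) (hL : 1 ≤ L) (T v : ℕ → ℝ) (hT : ∀ j, 0 ≤ T j) (K t : ℝ)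
    (hK : ∑ j ∈ Finset.range J, (T j + v j ^ 2) ≤ K * J) :
    ∑ j ∈ Finset.range J, (|t| ^ 3 * (T j / Real.sqrt (J * L) ^ 3) +
      t ^ 4 * (v j / Real.sqrt (J * L) ^ 2) ^ 2) ≤
      (|t| ^ 3 + t ^ 4) * K * (Real.sqrt J)⁻¹ := by
  have hJ1 : (1 : ℝ) ≤ J := by exact_mod_cast hJ
  have hL1 : (1 : ℝ) ≤ L := by exact_mod_cast hL
  have hJL : (1 : ℝ) ≤ (J : ℝ) * L := by nlinarith
  have hJJL : (J : ℝ) ≤ (J : ℝ) * L := by nlinarith
  set r : ℝ := Real.sqrt (J * L) with hr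
  have hr1 : 1 ≤ r := by
    rw [hr]
    exact Real.one_le_sqrt.2 hJL
  have hr0 : 0 < r := by linarith
  have hr2 : r ^ 2 = J * L := Real.sq_sqrt (by linarith)
  have hs : Real.sqrt J ≤ r := Real.sqrt_le_sqrt hJJL
  have hs0 : 0 < Real.sqrt J := Real.sqrt_pos.2 (by linarith)
  have ht3 : 0 ≤ |t| ^ 3 := by positivity
  have ht4 : 0 ≤ t ^ 4 := by positivity
  have hS0 : 0 ≤ ∑ j ∈ Finset.range J, (T j + v j ^ 2) :=
    Finset.sum_nonneg fun j _ => add_nonneg (hT j) (sq_nonneg _)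
  have hK0 : 0 ≤ K := by
    by_contra hc
    push Not at hc
    nlinarith
  have h34 : r ^ 3 ≤ r ^ 4 := by
    have h5 : r ^ 3 * 1 ≤ r ^ 3 * r := mul_le_mul_of_nonneg_left hr1 (by positivity)
    calc r ^ 3 = r ^ 3 * 1 := by ring
      _ ≤ r ^ 3 * r := h5
      _ = r ^ 4 := by ring
  have h1 : ∀ j ∈ Finset.range J, |t| ^ 3 * (T j / r ^ 3) + t ^ 4 * (v j / r ^ 2) ^ 2 ≤
      (|t| ^ 3 + t ^ 4) * (T j + v j ^ 2) / r ^ 3 := by
    intro j _
    have h2 : t ^ 4 * (v j / r ^ 2) ^ 2 ≤ t ^ 4 * v j ^ 2 / r ^ 3 := by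
      have h6 : (v j / r ^ 2) ^ 2 = v j ^ 2 / r ^ 4 := by
        rw [div_pow]
        congr 1
        ring
      rw [h6, mul_div_assoc]
      refine mul_le_mul_of_nonneg_left ?_ ht4
      exact div_le_div_of_nonneg_left (sq_nonneg _) (by positivity) h34
    have h3 : |t| ^ 3 * (T j / r ^ 3) = |t| ^ 3 * T j / r ^ 3 := by ring
    rw [h3]
    refine (add_le_add_right h2 _).trans ?_
    rw [← add_div]
    refine div_le_div_of_nonneg_right ?_ (by positivity)
    have h7 : 0 ≤ |t| ^ 3 * v j ^ 2 := by positivity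
    have h8 : 0 ≤ t ^ 4 * T j := mul_nonneg ht4 (hT j)
    nlinarith
  refine (Finset.sum_le_sum h1).trans ?_
  rw [← Finset.sum_div, ← Finset.mul_sum]
  have h9 : (|t| ^ 3 + t ^ 4) * ∑ j ∈ Finset.range J, (T j + v j ^ 2) ≤
      (|t| ^ 3 + t ^ 4) * (K * J) := mul_le_mul_of_nonneg_left hK (by positivity)
  have h10 : (J : ℝ) / r ^ 3 ≤ (Real.sqrt J)⁻¹ := by
    have h11 : (J : ℝ) ≤ r ^ 2 := by rw [hr2]; exact hJJL
    calc (J : ℝ) / r ^ 3 ≤ r ^ 2 / r ^ 3 := div_le_div_of_nonneg_right h11 (by positivity)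
      _ = r⁻¹ := by
        field_simp
      _ ≤ (Real.sqrt J)⁻¹ := inv_anti₀ hs0 hs
  calc (|t| ^ 3 + t ^ 4) * (∑ j ∈ Finset.range J, (T j + v j ^ 2)) / r ^ 3
      ≤ (|t| ^ 3 + t ^ 4) * (K * J) / r ^ 3 := div_le_div_of_nonneg_right h9 (by positivity)
    _ = (|t| ^ 3 + t ^ 4) * K * ((J : ℝ) / r ^ 3) := by ring
    _ ≤ (|t| ^ 3 + t ^ 4) * K * (Real.sqrt J)⁻¹ :=
        mul_le_mul_of_nonneg_left h10 (by positivity)

omit [IsProbabilityMeasure μ] in
/-- the characteristic function of the sum of the blocks -/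
lemma cf_bound (hInd : S_Ind) (hSh : S_Sh) (hCf : S_Cf) (hF : IF μ ν f C θ)
    (hX : ∀ n o, F4 ν f o → MemLp (SN f n o) 4 (St ν))
    (h : ∀ l k, Measurable fun x : (ℕ → A) × (ℕ → B) => f l (sh k x.1) (sh k x.2))
    {o : ℕ → A} (ho : F4 ν f o) (L J : ℕ) (hL : 1 ≤ L) (hJ : 1 ≤ J) (K t : ℝ)
    (hK : ∑ j ∈ Finset.range J,
        (∫ u, |SN f L (sh (j * L) o) u - mh ν f L (sh (j * L) o)| ^ 3 ∂St ν +
          vq ν f L (sh (j * L) o) ^ 2) ≤ K * J) :
    ‖(∫ u, Complex.exp (((t * ((MB f L J o u -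
        ∫ u', MB f L J o u' ∂St ν) / Real.sqrt (J * L)) : ℝ) : ℂ) * Complex.I) ∂St ν) -
      Complex.exp (((-(t ^ 2 / 2 * ((∑ j ∈ Finset.range J, vq ν f L (sh (j * L) o)) / J / L)) :
        ℝ) : ℂ))‖ ≤ (|t| ^ 3 + t ^ 4) * K * (Real.sqrt J)⁻¹ := by
  have hJ1 : (1 : ℝ) ≤ J := by exact_mod_cast hJ
  have hL1 : (1 : ℝ) ≤ L := by exact_mod_cast hL
  have hJL : (1 : ℝ) ≤ (J : ℝ) * L := by nlinarith
  have hr0 : 0 < Real.sqrt (J * L) := Real.sqrt_pos.2 (by linarith)
  have hr2 : Real.sqrt (J * L) ^ 2 = J * L := Real.sq_sqrt (by linarith)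
  have h1 := hCf (ℕ → B) (St ν) J (fun j u => Z ν f L o j u / Real.sqrt (J * L))
    (ind_Z hInd hSh hF h L o (fun x => x / Real.sqrt (J * L)) (measurable_id.div_const _))
    (fun j => (meas_Z hSh h L o j).div_const _)
    (fun j => by
      have h2 := (mem_Z hSh hX h ho L j).const_mul (Real.sqrt (J * L))⁻¹
      refine h2.congr_norm ?_ ?_
      · exact ((meas_Z hSh h L o j).div_const _).aestronglyMeasurable
      · refine Filter.Eventually.of_forall fun u => ?_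
        show ‖(Real.sqrt (J * L))⁻¹ * Z ν f L o j u‖ = ‖Z ν f L o j u / Real.sqrt (J * L)‖
        rw [div_eq_inv_mul])
    (fun j => by
      rw [integral_div, int_Z hSh hX h ho L j, zero_div]) t
  have e1 : ∀ u, ∑ j ∈ Finset.range J, Z ν f L o j u / Real.sqrt (J * L) =
      (MB f L J o u - ∫ u', MB f L J o u' ∂St ν) / Real.sqrt (J * L) := by
    intro u
    rw [MB_sub hSh hX h ho L J u, Finset.sum_div]
  have e2 : ∀ j, ∫ u, (Z ν f L o j u / Real.sqrt (J * L)) ^ 2 ∂St ν =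
      vq ν f L (sh (j * L) o) / Real.sqrt (J * L) ^ 2 := by
    intro j
    simp only [div_pow]
    rw [integral_div, sq_Z hSh h o L j]
  have e3 : ∀ j, ∫ u, |Z ν f L o j u / Real.sqrt (J * L)| ^ 3 ∂St ν =
      (∫ u, |SN f L (sh (j * L) o) u - mh ν f L (sh (j * L) o)| ^ 3 ∂St ν) /
        Real.sqrt (J * L) ^ 3 := by
    intro j
    simp only [abs_div, div_pow, abs_of_pos hr0]
    rw [integral_div, cu_Z hSh h o L j]
  have e4 : ∑ j ∈ Finset.range J, vq ν f L (sh (j * L) o) / Real.sqrt (J * L) ^ 2 =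
      (∑ j ∈ Finset.range J, vq ν f L (sh (j * L) o)) / J / L := by
    rw [← Finset.sum_div, hr2, div_div]
  simp only [e1, e2, e3] at h1
  rw [e4] at h1
  refine h1.trans ?_
  exact err_bound J hJ L hL _ _
    (fun j => integral_nonneg fun u => by positivity) K t hK

end Bi_aux

open Bi_aux in
theorem tBi (hInd : S_Ind) (hSh : S_Sh) (hCf : S_Cf) (hF4 : S_F4) (hX4 : S_X4) (hBv : S_Bv) :
    S_Bi := by
  intro A B _ _ μ ν _ _ f C θ hF L hL
  obtain ⟨hm, -, hae⟩ := hF4 A B μ ν f C θ hF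
  obtain ⟨-, hX, -⟩ := hX4 A B μ ν f C θ hF
  obtain ⟨-, hb⟩ := hBv A B μ ν f C θ hF L hL
  filter_upwards [hae, hb] with o ho hbo
  obtain ⟨hlim, K, hK⟩ := hbo
  refine ⟨fun J => MB_mem hSh hX hm ho L J, ⟨1 + K, fun J => ?_⟩, fun t => ?_⟩
  · rw [MB_var hInd hSh hF hX hm ho L J]
    have h1 : ∀ j ∈ Finset.range J, vq ν f L (sh (j * L) o) ≤ 1 +
        (∫ u, |SN f L (sh (j * L) o) u - mh ν f L (sh (j * L) o)| ^ 3 ∂St ν +
          vq ν f L (sh (j * L) o) ^ 2) := by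
      intro j _
      have h2 : 0 ≤ ∫ u, |SN f L (sh (j * L) o) u - mh ν f L (sh (j * L) o)| ^ 3 ∂St ν :=
        integral_nonneg fun u => by positivity
      nlinarith [sq_nonneg (vq ν f L (sh (j * L) o) - 1)]
    refine (Finset.sum_le_sum h1).trans ?_
    rw [Finset.sum_add_distrib, Finset.sum_const, Finset.card_range, nsmul_eq_mul, mul_one,
      add_mul, one_mul]
    exact add_le_add_right (hK J) _
  · have hA : Tendsto (fun J : ℕ => Complex.exp (((-(t ^ 2 / 2 *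
        ((∑ j ∈ Finset.range J, vq ν f L (sh (j * L) o)) / J / L)) : ℝ) : ℂ))) atTop
        (𝓝 (Complex.exp ((-(t ^ 2 * (VL μ ν f L / L) / 2) : ℝ) : ℂ))) := by
      have h1 : Tendsto (fun J : ℕ => -(t ^ 2 / 2 *
          ((∑ j ∈ Finset.range J, vq ν f L (sh (j * L) o)) / J / L))) atTop
          (𝓝 (-(t ^ 2 / 2 * (VL μ ν f L / L)))) :=
        ((hlim.div_const _).const_mul _).neg
      have h2 : -(t ^ 2 / 2 * (VL μ ν f L / L)) = -(t ^ 2 * (VL μ ν f L / L) / 2) := by ring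
      rw [h2] at h1
      exact ((Complex.continuous_exp.comp Complex.continuous_ofReal).tendsto _).comp h1
    have hB : Tendsto (fun J : ℕ => (∫ u, Complex.exp (((t * ((MB f L J o u -
        ∫ u', MB f L J o u' ∂St ν) / Real.sqrt (J * L)) : ℝ) : ℂ) * Complex.I) ∂St ν) -
        Complex.exp (((-(t ^ 2 / 2 *
        ((∑ j ∈ Finset.range J, vq ν f L (sh (j * L) o)) / J / L)) : ℝ) : ℂ))) atTop (𝓝 0) := by
      refine squeeze_zero_norm' (a := fun J : ℕ => (|t| ^ 3 + t ^ 4) * K * (Real.sqrt J)⁻¹) ?_ ?_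
      · filter_upwards [eventually_ge_atTop 1] with J hJ
        exact cf_bound hInd hSh hCf hF hX hm ho L J hL hJ K t (hK J)
      · have h3 : Tendsto (fun J : ℕ => (Real.sqrt (J : ℝ))⁻¹) atTop (𝓝 0) :=
          tendsto_inv_atTop_zero.comp (Real.tendsto_sqrt_atTop.comp tendsto_natCast_atTop_atTop)
        have h4 := h3.const_mul ((|t| ^ 3 + t ^ 4) * K)
        rw [mul_zero] at h4
        exact h4
    have h5 := hB.add hA
    simp only [sub_add_cancel, zero_add] at h5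
    exact h5

end MP0d3db7D1
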