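import Pool.Agent.Lib.MP_0d3db7.D1.Spec

/-!
# MP_0d3db7_pr, theorem D1, module Bk: splitting into blocks
-/

set_option autoImplicit false

namespace MP0d3db7D1

open MeasureTheory ProbabilityTheory Filter Topology Pool.Agent.MP0d3db7

namespace Bk_aux

theorem swap (n : ℕ) (g : ℕ → ℕ → ℝ) :
    ∑ k ∈ Finset.range n, ∑ l ∈ Finset.range (n - k), g l k =
      ∑ l ∈ Finset.range n, ∑ k ∈ Finset.range (n - l), g l k := by
  refine Finset.sum_comm' fun k l => ?_
  simp only [Finset.mem_range]
  omega

theorem sh_sh {X : Type} (a b : ℕ) (x : ℕ → X) : sh a (sh b x) = sh (b + a) x := by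
  funext i
  show x (b + (a + i)) = x (b + a + i)
  rw [Nat.add_assoc]

/-- the pairs in the blocks -/
theorem blocks (L J : ℕ) (hL : 1 ≤ L) (g : ℕ → ℕ → ℝ) :
    ∑ j ∈ Finset.range J, ∑ k ∈ Finset.range L, ∑ l ∈ Finset.range (L - k), g l (j * L + k) =
      ∑ k ∈ Finset.range (J * L), ∑ l ∈ (Finset.range (J * L - k)).filter
        (fun l => k % L + l < L), g l k := by
  have h1 : ∀ F : ℕ → ℝ, ∑ k ∈ Finset.range (J * L), F k =
      ∑ j ∈ Finset.range J, ∑ k ∈ Finset.range L, F (j * L + k) := by
    intro F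
    induction J with
    | zero => simp
    | succ J ih =>
      rw [Finset.sum_range_succ, ← ih, Nat.succ_mul, Finset.sum_range_add]
  rw [h1]
  refine Finset.sum_congr rfl fun j hj => Finset.sum_congr rfl fun k hk => ?_
  rw [Finset.mem_range] at hj hk
  have h2 : (j * L + k) % L = k := by
    rw [Nat.add_comm, Nat.add_mul_mod_self_right, Nat.mod_eq_of_lt hk]
  refine Finset.sum_congr ?_ fun _ _ => rfl
  ext l
  simp only [Finset.mem_range, Finset.mem_filter, h2]
  have h3 : (j + 1) * L ≤ J * L := Nat.mul_le_mul_right L hj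
  have h4 : (j + 1) * L = j * L + L := by ring
  omega

end Bk_aux

open Bk_aux in
theorem tBk : S_Bk := by
  intro A B f L J hL o u
  have hM : MB f L J o u = ∑ k ∈ Finset.range (J * L), ∑ l ∈ (Finset.range (J * L - k)).filter
      (fun l => k % L + l < L), f l (sh k o) (sh k u) := by
    rw [← blocks L J hL fun l k => f l (sh k o) (sh k u)]
    unfold MB SN
    simp only [sh_sh]
  have hR : RB f L (J * L) o u = ∑ k ∈ Finset.range (J * L),
      ∑ l ∈ (Finset.range (J * L - k)).filter (fun l => ¬ (k % L + l < L)),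
        f l (sh k o) (sh k u) := by
    unfold RB
    simp only [Finset.sum_filter]
    rw [← swap (J * L) fun l k => if L ≤ k % L + l then f l (sh k o) (sh k u) else 0]
    simp only [not_lt]
  rw [hM, hR, ← Finset.sum_add_distrib]
  unfold SN
  refine Finset.sum_congr rfl fun k _ => ?_
  rw [Finset.sum_filter_add_sum_filter_not]

end MP0d3db7D1
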