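import Pool.Agent.Lib.MP_0d3db7.D1.Spec

/-!
# MP_0d3db7_pr, theorem D1: the strong law for blocks
-/

set_option autoImplicit false

namespace MP0d3db7D1

open MeasureTheory ProbabilityTheory Filter Topology Pool.Agent.MP0d3db7

namespace Bl_aux

theorem sh_zero {X : Type} (x : ℕ → X) : sh 0 x = x := by
  funext i
  simp [sh]

theorem disj (L : ℕ) {j j' : ℕ} (h : j < j') :
    Disjoint (Finset.Ico (j * L) (j * L + L)) (Finset.Ico (j' * L) (j' * L + L)) := by
  rw [Finset.disjoint_left]
  intro a ha hb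
  rw [Finset.mem_Ico] at ha hb
  have h1 : (j + 1) * L ≤ j' * L := Nat.mul_le_mul_right L h
  have h2 : (j + 1) * L = j * L + L := by ring
  omega

end Bl_aux

open Bl_aux in
theorem tBl (hInd : S_Ind) (hSh : S_Sh) : S_Bl := by
  intro A _ μ _ h L _ hm hd hi
  have hmp : ∀ k, MeasurePreserving (sh k) (St μ) (St μ) := fun k => hSh.1 A μ k
  have hmeas : ∀ j : ℕ, Measurable (fun o : ℕ → A => h (sh (j * L) o)) := fun j =>
    hm.comp (hmp _).measurable
  have hind : iIndepFun (fun (j : ℕ) (o : ℕ → A) => h (sh (j * L) o)) (St μ) := by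
    refine hInd ℕ ℕ A μ (fun j => Finset.Ico (j * L) (j * L + L)) _ ?_ hmeas ?_
    · intro j j' hj
      rcases lt_or_gt_of_ne hj with h1 | h1
      · exact disj L h1
      · exact (disj L h1).symm
    · intro j x y hxy
      refine hd fun i hi' => ?_
      refine hxy _ ?_
      rw [Finset.mem_coe, Finset.mem_Ico]
      have h2 : i < L := hi'
      omega
  have hmap : ∀ j : ℕ, (St μ).map (fun o : ℕ → A => h (sh (j * L) o)) = (St μ).map h := by
    intro j
    have h3 : (fun o : ℕ → A => h (sh (j * L) o)) = h ∘ sh (j * L) := rfl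
    rw [h3, ← Measure.map_map hm (hmp _).measurable, (hmp _).map_eq]
  have h0 : (fun o : ℕ → A => h (sh (0 * L) o)) = h := by
    funext o
    rw [zero_mul, sh_zero]
  have key := strong_law_ae_real (μ := St μ) (fun (j : ℕ) (o : ℕ → A) => h (sh (j * L) o))
    (by simpa only [h0] using hi)
    (fun i j hij => hind.indepFun hij)
    (fun j => ⟨(hmeas j).aemeasurable, (hmeas 0).aemeasurable, by rw [hmap, hmap]⟩)
  have h4 : ∫ o, h (sh (0 * L) o) ∂St μ = ∫ o, h o ∂St μ := by
    simp only [zero_mul, sh_zero]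
  rw [h4] at key
  exact key

end MP0d3db7D1
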