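import Pool.Agent.Lib.MP_0d3db7.D1.Spec

/-!
# MP_0d3db7_pr, theorem D1, module Bt: backtracking
-/

set_option autoImplicit false

namespace MP0d3db7D1

open MeasureTheory ProbabilityTheory Filter Topology Pool.Agent.MP0d3db7

namespace Bt_aux

/-- the site `k` was visited (or is the current position) -/
def vt (k : ℤ) (h : List Bool) : Prop := pos h = k ∨ 0 < pv k h

theorem vt_cons (k : ℤ) (b : Bool) (h : List Bool) :
    vt k (b :: h) ↔ pos (b :: h) = k ∨ vt k h := by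
  unfold vt
  have h0 : pv k (b :: h) = pv k h + if pos h = k then 1 else 0 := rfl
  rw [h0]
  split_ifs with h1
  · simp [h1]
  · simp [h1]

theorem vt_hist (a : ℤ → ℕ → Bool) (k : ℤ) (m : ℕ) (h : pos (hist a m) = k) (n : ℕ) (hm : m ≤ n) :
    vt k (hist a n) := by
  induction n with
  | zero =>
    have h1 : m = 0 := by omega
    subst h1
    exact Or.inl h
  | succ n ih =>
    rcases Nat.lt_or_ge m (n + 1) with h1 | h1
    · have h2 := ih (by omega)
      show vt k (_ :: hist a n)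
      rw [vt_cons]
      exact Or.inr h2
    · have h2 : m = n + 1 := by omega
      subst h2
      exact Or.inl h

open Classical in
/-- the martingale -/
noncomputable def gg (ρ : ℝ) (k : ℤ) (R : ℕ) (h : List Bool) : ℝ :=
  if vt k h then ρ ^ (pos h - k + (R : ℤ)) else ρ ^ (R : ℤ)

theorem gg_step {p ρ : ℝ} (hp : 0 < p) (hp1 : p < 1) (hρ : ρ = (1 - p) / p) (k : ℤ) (R : ℕ)
    (h : List Bool) :
    p * gg ρ k R (true :: h) + (1 - p) * gg ρ k R (false :: h) = gg ρ k R h := by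
  have hp2 : 0 < 1 - p := by linarith
  have hρ0 : 0 < ρ := by rw [hρ]; exact div_pos hp2 hp
  have e1 : p * ρ = 1 - p := by rw [hρ]; field_simp
  by_cases hv : vt k h
  · have h1 : vt k (true :: h) := (vt_cons k true h).2 (Or.inr hv)
    have h2 : vt k (false :: h) := (vt_cons k false h).2 (Or.inr hv)
    have h3 : pos (true :: h) - k + (R : ℤ) = (pos h - k + (R : ℤ)) + 1 := by
      show pos h + stp true - k + (R : ℤ) = _
      simp only [stp, if_true]
      ring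
    have h4 : pos (false :: h) - k + (R : ℤ) = (pos h - k + (R : ℤ)) - 1 := by
      show pos h + stp false - k + (R : ℤ) = _
      simp only [stp]
      norm_num
      ring
    unfold gg
    rw [if_pos h1, if_pos h2, if_pos hv, h3, h4, zpow_add_one₀ hρ0.ne', zpow_sub_one₀ hρ0.ne']
    have e2 : (1 - p) * ρ⁻¹ = p := by
      rw [← e1]
      field_simp
    calc p * (ρ ^ (pos h - k + (R : ℤ)) * ρ) + (1 - p) * (ρ ^ (pos h - k + (R : ℤ)) * ρ⁻¹)
        = ρ ^ (pos h - k + (R : ℤ)) * (p * ρ + (1 - p) * ρ⁻¹) := by ring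
      _ = ρ ^ (pos h - k + (R : ℤ)) := by
          rw [e1, e2]
          ring
  · have key : ∀ b : Bool, gg ρ k R (b :: h) = ρ ^ (R : ℤ) := by
      intro b
      unfold gg
      split_ifs with h1
      · rcases (vt_cons k b h).1 h1 with h2 | h2
        · rw [h2]
          congr 1
          ring
        · exact absurd h2 hv
      · rfl
    rw [key, key]
    unfold gg
    rw [if_neg hv]
    ring

theorem gg_nonneg {ρ : ℝ} (hρ : 0 < ρ) (k : ℤ) (R : ℕ) (h : List Bool) : 0 ≤ gg ρ k R h := by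
  unfold gg
  split_ifs <;> positivity

theorem gg_nil {ρ : ℝ} (k : ℤ) (R : ℕ) : gg ρ k R [] = ρ ^ R := by
  unfold gg
  split_ifs with h
  · rcases h with h | h
    · have h1 : (0 : ℤ) = k := h
      have h2 : pos [] - k + (R : ℤ) = (R : ℤ) := by
        show (0 : ℤ) - k + (R : ℤ) = (R : ℤ)
        rw [← h1]
        ring
      rw [h2, zpow_natCast]
    · exact absurd h (lt_irrefl 0)
  · rw [zpow_natCast]

theorem Ex_gg {p ρ : ℝ} (hp : 0 < p) (hp1 : p < 1) (hρ : ρ = (1 - p) / p) (k : ℤ) (R n : ℕ)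
    (h : List Bool) : Ex (fun _ => p) (gg ρ k R) n h = gg ρ k R h := by
  induction n generalizing h with
  | zero => rfl
  | succ n ih =>
    show p * Ex _ _ n (true :: h) + (1 - p) * Ex _ _ n (false :: h) = _
    rw [ih, ih]
    exact gg_step hp hp1 hρ k R h

open Classical in
theorem Ex_le {p ρ : ℝ} (hp : 0 < p) (hp1 : p < 1) (hρ : ρ = (1 - p) / p) (hρ1 : ρ < 1) (k : ℤ)
    (R n : ℕ) :
    Ex (fun _ => p) (fun h => if vt k h ∧ pos h < k - (R : ℤ) then 1 else 0) n [] ≤ ρ ^ R := by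
  have hρ0 : 0 < ρ := by rw [hρ]; exact div_pos (by linarith) hp
  rw [← gg_nil (ρ := ρ) k R, ← Ex_gg hp hp1 hρ k R n []]
  refine Ex_mono (fun _ => ⟨hp.le, hp1.le⟩) n [] fun h _ => ?_
  split_ifs with h1
  · unfold gg
    rw [if_pos h1.1]
    exact one_le_zpow_of_nonpos₀ hρ0 hρ1.le (by linarith [h1.2])
  · exact gg_nonneg hρ0 k R h

/-- the event -/
def FF (n : ℕ) (k : ℤ) (R : ℕ) : Set (ℤ → ℕ → Bool) :=
  {a | vt k (hist a n) ∧ pos (hist a n) < k - (R : ℤ)}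

theorem meas_FF (hMs : S_Ms) (n : ℕ) (k : ℤ) (R : ℕ) : MeasurableSet (FF n k R) := by
  obtain ⟨_, _, _, _, _, _, h1, _⟩ := hMs
  have h2 : FF n k R = ⋃ h ∈ {h : List Bool | vt k h ∧ pos h < k - (R : ℤ)}, {a | hist a n = h} := by
    ext a
    simp [FF]
  rw [h2]
  exact MeasurableSet.biUnion (Set.to_countable _) fun h _ => h1 n h

/-- its probability -/
theorem prob_FF (hMs : S_Ms) (hAr : S_Ar) (hHi : S_Hi) {p ρ : ℝ} (hp : 0 < p) (hp1 : p < 1)
    (hρ : ρ = (1 - p) / p) (hρ1 : ρ < 1) [IsProbabilityMeasure (PI ℤ (Ber p))] (n : ℕ) (k : ℤ)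
    (R : ℕ) : (PI ℤ (Ber p)) (FF n k R) ≤ ENNReal.ofReal (ρ ^ R) := by
  classical
  obtain ⟨_, _, h3, _⟩ := hAr
  obtain ⟨hi, hpr⟩ := h3 ℤ p hp.le hp1.le
  have h4 := (hHi (ℤ → ℕ → Bool) (PI ℤ (Ber p)) (fun a => a) (fun _ _ => p)
    (fun z i => by fun_prop) hi hpr n
    (fun h => if vt k h ∧ pos h < k - (R : ℤ) then 1 else 0)).2
  have h5 : ∫ a : ℤ → ℕ → Bool, (if vt k (hist a n) ∧ pos (hist a n) < k - (R : ℤ) then (1 : ℝ) else 0)
      ∂(PI ℤ (Ber p)) = (PI ℤ (Ber p)).real (FF n k R) := by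
    rw [← integral_indicator_one (meas_FF hMs n k R)]
    refine integral_congr_ae (Eventually.of_forall fun a => ?_)
    simp only [Set.indicator_apply, FF, Set.mem_ofPred_eq, Pi.one_apply]
  rw [h5] at h4
  have h6 : (PI ℤ (Ber p)).real (FF n k R) ≤ ρ ^ R := by
    rw [h4]
    exact Ex_le hp hp1 hρ hρ1 k R n
  rw [← ENNReal.ofReal_toReal (measure_ne_top (PI ℤ (Ber p)) (FF n k R))]
  exact ENNReal.ofReal_le_ofReal h6

/-- the sum converges -/
theorem summ {ρ : ℝ} (hρ : 0 < ρ) (hρ1 : ρ < 1) :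
    Summable fun n : ℕ => ((n : ℝ) + 1) * ρ ^ Nat.sqrt (Nat.sqrt n) := by
  obtain ⟨C, hC⟩ := (tendsto_pow_const_mul_const_pow_of_abs_lt_one 12
    (by rw [abs_of_pos hρ]; exact hρ1 : |ρ| < 1)).bddAbove_range
  have hC' : ∀ n : ℕ, (n : ℝ) ^ 12 * ρ ^ n ≤ C := fun n => hC ⟨n, rfl⟩
  have hs : Summable fun n : ℕ => C / ρ * (1 / ((n : ℝ) + 1) ^ 2) := by
    refine Summable.mul_left _ ?_
    have h1 : Summable fun n : ℕ => 1 / ((n : ℝ)) ^ 2 := by
      rw [Real.summable_one_div_nat_pow]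
      norm_num
    have h2 := (summable_nat_add_iff 1).2 h1
    refine h2.congr fun n => ?_
    push_cast
    ring
  refine Summable.of_nonneg_of_le (fun n => by positivity) (fun n => ?_) hs
  set r := Nat.sqrt (Nat.sqrt n) with hr
  have h1 : n + 1 ≤ (r + 1) ^ 4 := by
    have e1 : n < (Nat.sqrt n + 1) * (Nat.sqrt n + 1) := Nat.lt_succ_sqrt n
    have e2 : Nat.sqrt n < (r + 1) * (r + 1) := Nat.lt_succ_sqrt (Nat.sqrt n)
    have e3 : Nat.sqrt n + 1 ≤ (r + 1) * (r + 1) := e2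
    calc n + 1 ≤ (Nat.sqrt n + 1) * (Nat.sqrt n + 1) := e1
      _ ≤ ((r + 1) * (r + 1)) * ((r + 1) * (r + 1)) := Nat.mul_le_mul e3 e3
      _ = (r + 1) ^ 4 := by ring
  have h2 : (n : ℝ) + 1 ≤ ((r : ℝ) + 1) ^ 4 := by exact_mod_cast h1
  have hn0 : (0 : ℝ) < (n : ℝ) + 1 := by positivity
  have h3 := hC' (r + 1)
  push_cast at h3
  have h4 : C / ρ * (1 / ((n : ℝ) + 1) ^ 2) = C / (ρ * ((n : ℝ) + 1) ^ 2) := by
    field_simp
  rw [h4, le_div_iff₀ (by positivity)]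
  calc ((n : ℝ) + 1) * ρ ^ r * (ρ * ((n : ℝ) + 1) ^ 2) = ((n : ℝ) + 1) ^ 3 * ρ ^ (r + 1) := by ring
    _ ≤ (((r : ℝ) + 1) ^ 4) ^ 3 * ρ ^ (r + 1) := by gcongr
    _ = ((r : ℝ) + 1) ^ 12 * ρ ^ (r + 1) := by ring
    _ ≤ C := h3

end Bt_aux

open Bt_aux

theorem tBt (hMs : S_Ms) (hAr : S_Ar) (hHi : S_Hi) : S_Bt := by
  intro μ₀ p hL hp hp1
  have := hL.prob
  have hp0 : 0 < p := by linarith
  obtain ⟨ρ, hρ⟩ : ∃ ρ : ℝ, ρ = (1 - p) / p := ⟨_, rfl⟩
  have hρ0 : 0 < ρ := by rw [hρ]; exact div_pos (by linarith) hp0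
  have hρ1 : ρ < 1 := by
    rw [hρ, div_lt_one hp0]
    linarith
  have hmap := (hAr.1 ℤ μ₀ p hL).2.2
  have har : Measurable fun x : (ℤ → ℕ → ℝ) × (ℤ → ℕ → ℝ) => ar x.1 x.2 := hMs.2.2.2.2.2.2.2 ℤ
  have hpm : IsProbabilityMeasure (PI ℤ (Ber p)) := by
    rw [← hmap]
    exact Measure.isProbabilityMeasure_map har.aemeasurable
  -- the quantity
  set D : ℕ → (ℤ → ℕ → ℝ) → ENNReal := fun n o => ∑ k ∈ Finset.range (n + 1),
    (PI ℤ U01) {u | ar o u ∈ FF n (k : ℤ) (Nat.sqrt (Nat.sqrt n))} with hD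
  have hset : ∀ (n : ℕ) (k : ℤ) (R : ℕ), MeasurableSet {x : (ℤ → ℕ → ℝ) × (ℤ → ℕ → ℝ) |
      ar x.1 x.2 ∈ FF n k R} := fun n k R => har (meas_FF hMs n k R)
  have hm1 : ∀ (n : ℕ) (k : ℤ) (R : ℕ), Measurable fun o : ℤ → ℕ → ℝ =>
      (PI ℤ U01) {u | ar o u ∈ FF n k R} := fun n k R =>
    measurable_measure_prodMk_left (hset n k R)
  have hmD : ∀ n, Measurable (D n) := fun n =>
    Finset.measurable_fun_sum _ fun k _ => hm1 n k _
  have hint : ∀ n, ∫⁻ o, D n o ∂PI ℤ μ₀ ≤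
      ENNReal.ofReal (((n : ℝ) + 1) * ρ ^ Nat.sqrt (Nat.sqrt n)) := by
    intro n
    rw [hD]
    simp only
    rw [lintegral_finsetSum _ fun (k : ℕ) _ => hm1 n (k : ℤ) (Nat.sqrt (Nat.sqrt n))]
    calc ∑ k ∈ Finset.range (n + 1), ∫⁻ o, (PI ℤ U01)
          {u | ar o u ∈ FF n (k : ℤ) (Nat.sqrt (Nat.sqrt n))} ∂PI ℤ μ₀
        ≤ ∑ k ∈ Finset.range (n + 1), ENNReal.ofReal (ρ ^ Nat.sqrt (Nat.sqrt n)) := by
          refine Finset.sum_le_sum fun k _ => ?_
          have h1 := Measure.prod_apply (μ := PI ℤ μ₀) (ν := PI ℤ U01)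
            (hset n k (Nat.sqrt (Nat.sqrt n)))
          have h2 := Measure.map_apply (μ := (PI ℤ μ₀).prod (PI ℤ U01)) har
            (meas_FF hMs n k (Nat.sqrt (Nat.sqrt n)))
          rw [hmap] at h2
          have h3 := prob_FF hMs hAr hHi hp0 hp1 hρ hρ1 n k (Nat.sqrt (Nat.sqrt n))
          rw [h2] at h3
          exact h1.symm.le.trans h3
      _ = ENNReal.ofReal (((n : ℝ) + 1) * ρ ^ Nat.sqrt (Nat.sqrt n)) := by
          rw [Finset.sum_const, Finset.card_range, nsmul_eq_mul, ENNReal.ofReal_mul (by positivity)]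
          congr 1
          rw [ENNReal.ofReal_add (by positivity) zero_le_one, ENNReal.ofReal_natCast,
            ENNReal.ofReal_one]
          push_cast
          rfl
  have hfin : ∫⁻ o, ∑' n, D n o ∂PI ℤ μ₀ ≠ ⊤ := by
    rw [lintegral_tsum fun n => (hmD n).aemeasurable]
    refine ne_top_of_le_ne_top (summ hρ0 hρ1).tsum_ofReal_ne_top (ENNReal.tsum_le_tsum hint)
  have hae := ae_lt_top (Measurable.tsum hmD) hfin
  filter_upwards [hae] with o ho
  have hlim : Tendsto (fun n => D n o) atTop (𝓝 0) :=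
    ENNReal.tendsto_atTop_zero_of_tsum_ne_top ho.ne
  have hDfin : ∀ n, D n o ≠ ⊤ := by
    intro n
    rw [hD]
    simp only
    exact ENNReal.sum_ne_top.2 fun k _ => measure_ne_top _ _
  refine ⟨fun n => (D n o).toReal, ?_, ?_⟩
  · have := (ENNReal.tendsto_toReal ENNReal.zero_ne_top).comp hlim
    rw [ENNReal.toReal_zero] at this
    exact this
  · intro n k hk
    refine ENNReal.toReal_mono (hDfin n) ?_
    have h1 : (PI ℤ U01) {u | ar o u ∈ FF n (k : ℤ) (Nat.sqrt (Nat.sqrt n))} ≤ D n o := by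
      rw [hD]
      exact Finset.single_le_sum (f := fun k : ℕ => (PI ℤ U01)
        {u | ar o u ∈ FF n (k : ℤ) (Nat.sqrt (Nat.sqrt n))}) (fun _ _ => zero_le)
        (Finset.mem_range.2 (by omega))
    refine le_trans (measure_mono ?_) h1
    rintro u ⟨⟨m, hm, hpos⟩, hlt⟩
    exact ⟨vt_hist _ _ m hpos n hm, hlt⟩

end MP0d3db7D1
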