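import Pool.Agent.Lib.MP_0d3db7.D1.F4

/-!
# MP_0d3db7_pr, theorem D1: laws of large numbers for the blocks
-/

set_option autoImplicit false

namespace MP0d3db7D1

open MeasureTheory ProbabilityTheory Filter Topology Pool.Agent.MP0d3db7

namespace Bv_aux

theorem int4 {Ω : Type} [MeasurableSpace Ω] {P : Measure Ω} {X : Ω → ℝ} (hX : MemLp X 4 P) :
    Integrable (fun u => X u ^ 4) P := by
  have h := MemLp.integrable_norm_pow (p := 4) hX (by norm_num)
  refine h.congr (Eventually.of_forall fun u => ?_)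
  show ‖X u‖ ^ 4 = X u ^ 4
  rw [Real.norm_eq_abs, ← abs_pow, abs_of_nonneg (by positivity)]

theorem sq_int {Ω : Type} [MeasurableSpace Ω] (P : Measure Ω) [IsProbabilityMeasure P] {X : Ω → ℝ}
    (hX : MemLp X 2 P) :
    (∫ u, X u ∂P) ^ 2 ≤ ∫ u, X u ^ 2 ∂P ∧
      ∫ u, (X u - ∫ u', X u' ∂P) ^ 2 ∂P ≤ ∫ u, X u ^ 2 ∂P := by
  have h1 := variance_eq_sub hX
  have h2 := variance_nonneg X P
  have h3 := variance_eq_integral (μ := P) (X := X) hX.aestronglyMeasurable.aemeasurable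
  rw [h3] at h1 h2
  simp only [Pi.pow_apply] at h1
  constructor
  · linarith
  · nlinarith [sq_nonneg (∫ u, X u ∂P)]

theorem moments {Ω : Type} [MeasurableSpace Ω] (P : Measure Ω) [IsProbabilityMeasure P] {X : Ω → ℝ}
    (hX : MemLp X 4 P) :
    (∫ u, (X u - ∫ u', X u' ∂P) ^ 2 ∂P) ^ 2 ≤ ∫ u, X u ^ 4 ∂P ∧
      ∫ u, |X u - ∫ u', X u' ∂P| ^ 3 ∂P ≤ 1 + 16 * ∫ u, X u ^ 4 ∂P := by
  have hX2 : MemLp X 2 P := hX.mono_exponent (by norm_num)
  have hi4 := int4 hX
  obtain ⟨a1, a2⟩ := sq_int P hX2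
  have hsq : MemLp (fun u => X u ^ 2) 2 P := by
    refine (memLp_two_iff_integrable_sq (f := fun u => X u ^ 2)
      (hX.aestronglyMeasurable.pow 2)).mpr ?_
    refine hi4.congr (Eventually.of_forall fun u => ?_)
    show X u ^ 4 = (X u ^ 2) ^ 2
    ring
  obtain ⟨a3, -⟩ := sq_int P hsq
  have e1 : ∫ u, (X u ^ 2) ^ 2 ∂P = ∫ u, X u ^ 4 ∂P := by
    congr 1
    funext u
    ring
  rw [e1] at a3
  have a4 : 0 ≤ ∫ u, (X u - ∫ u', X u' ∂P) ^ 2 ∂P := integral_nonneg fun u => sq_nonneg _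
  set m : ℝ := ∫ u, X u ∂P with hm
  constructor
  · refine le_trans ?_ a3
    exact pow_le_pow_left₀ a4 a2 2
  · have a5 : m ^ 4 ≤ ∫ u, X u ^ 4 ∂P := by
      have : m ^ 4 = (m ^ 2) ^ 2 := by ring
      rw [this]
      exact (pow_le_pow_left₀ (sq_nonneg m) a1 2).trans a3
    have a6 : ∀ u, |X u - m| ^ 3 ≤ 1 + 8 * m ^ 4 + 8 * X u ^ 4 := by
      intro u
      have b1 : |X u - m| ^ 3 ≤ 1 + |X u - m| ^ 4 := by
        have h0 := abs_nonneg (X u - m)
        rcases le_total |X u - m| 1 with h | h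
        · have h1 : |X u - m| ^ 3 ≤ 1 := pow_le_one₀ h0 h
          have h2 : 0 ≤ |X u - m| ^ 4 := by positivity
          linarith
        · have h1 : |X u - m| ^ 3 ≤ |X u - m| ^ 4 := pow_le_pow_right₀ h (by norm_num)
          linarith
      have b2 : |X u - m| ^ 4 = (X u - m) ^ 4 := by
        rw [← abs_pow, abs_of_nonneg (by positivity)]
      have b3 : (X u - m) ^ 4 ≤ 8 * m ^ 4 + 8 * X u ^ 4 := by
        have c1 : (X u - m) ^ 2 ≤ 2 * X u ^ 2 + 2 * m ^ 2 := by nlinarith [sq_nonneg (X u + m)]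
        have c2 : (X u - m) ^ 4 = ((X u - m) ^ 2) ^ 2 := by ring
        rw [c2]
        refine (pow_le_pow_left₀ (sq_nonneg _) c1 2).trans ?_
        nlinarith [sq_nonneg (X u ^ 2 - m ^ 2)]
      rw [b2] at b1
      linarith
    have a7 : ∫ u, |X u - m| ^ 3 ∂P ≤ ∫ u, (1 + 8 * m ^ 4 + 8 * X u ^ 4) ∂P :=
      integral_mono_of_nonneg (Eventually.of_forall fun u => by positivity)
        ((integrable_const _).add (hi4.const_mul 8)) (Eventually.of_forall a6)
    have a8 : ∫ u, (1 + 8 * m ^ 4 + 8 * X u ^ 4) ∂P = 1 + 8 * m ^ 4 + 8 * ∫ u, X u ^ 4 ∂P := by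
      rw [integral_add (integrable_const _) (hi4.const_mul 8), integral_const_mul, integral_const]
      simp
    rw [a8] at a7
    linarith

/-- a convergent sequence is bounded -/
theorem bdd {s : ℕ → ℝ} {c : ℝ} (h0 : s 0 = 0) (h : Tendsto (fun J : ℕ => s J / J) atTop (𝓝 c)) :
    ∃ K : ℝ, ∀ J : ℕ, s J ≤ K * J := by
  obtain ⟨K, hK⟩ := h.bddAbove_range
  refine ⟨K, fun J => ?_⟩
  rcases Nat.eq_zero_or_pos J with rfl | hJ
  · simp [h0]
  · have h1 : (0 : ℝ) < J := by exact_mod_cast hJ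
    have h2 := hK ⟨J, rfl⟩
    exact (div_le_iff₀ h1).mp h2

end Bv_aux

open Bv_aux in
theorem tBv (hBl : S_Bl) (hF4 : S_F4) (hX4 : S_X4) : S_Bv := by
  intro A B _ _ μ ν _ _ f C θ hf L hL
  obtain ⟨m1, -, m3⟩ := hF4 A B μ ν f C θ hf
  obtain ⟨-, x2, K, x3⟩ := hX4 A B μ ν f C θ hf
  -- measurability
  have hSm : Measurable fun x : (ℕ → A) × (ℕ → B) => SN f L x.1 x.2 := by
    unfold SN
    exact Finset.measurable_sum _ fun k _ => Finset.measurable_sum _ fun l _ => m1 l k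
  have hmm : Measurable (mh ν f L) := by
    have h := (hSm.stronglyMeasurable.integral_prod_right' (ν := St ν)).measurable
    exact h
  have hDm : Measurable fun x : (ℕ → A) × (ℕ → B) => SN f L x.1 x.2 - mh ν f L x.1 :=
    hSm.sub (hmm.comp measurable_fst)
  have hvm : Measurable (vq ν f L) := by
    have h := ((hDm.pow_const 2).stronglyMeasurable.integral_prod_right' (ν := St ν)).measurable
    exact h
  have h3m : Measurable fun o : ℕ → A => ∫ u, |SN f L o u - mh ν f L o| ^ 3 ∂St ν := by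
    have h5 : Measurable fun x : (ℕ → A) × (ℕ → B) =>
        |SN f L x.1 x.2 - mh ν f L x.1| ^ 3 := (hDm.abs).pow_const 3
    have h := (h5.stronglyMeasurable.integral_prod_right' (ν := St ν)).measurable
    exact h
  -- dependence
  have hdS : ∀ o o' : ℕ → A, (∀ i ∈ Set.Iio L, o i = o' i) → ∀ u, SN f L o u = SN f L o' u := by
    intro o o' h u
    unfold SN
    refine Finset.sum_congr rfl fun k hk => Finset.sum_congr rfl fun l hl => ?_
    rw [Finset.mem_range] at hk hl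
    refine hf.dep l _ _ _ _ (fun i hi => ?_) fun i _ => rfl
    refine h (k + i) ?_
    show k + i < L
    omega
  have hdm : ∀ o o' : ℕ → A, (∀ i ∈ Set.Iio L, o i = o' i) → mh ν f L o = mh ν f L o' := by
    intro o o' h
    unfold mh
    simp only [hdS o o' h]
  have hdv : DependsOn (vq ν f L) (Set.Iio L) := by
    intro o o' h
    unfold vq
    simp only [hdS o o' h, hdm o o' h]
  have hd3 : DependsOn (fun o : ℕ → A => ∫ u, |SN f L o u - mh ν f L o| ^ 3 ∂St ν)
      (Set.Iio L) := by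
    intro o o' h
    simp only [hdS o o' h, hdm o o' h]
  -- integrability
  have hS0 : ∀ x : (ℕ → A) × (ℕ → B), 0 ≤ SN f L x.1 x.2 := fun x =>
    Finset.sum_nonneg fun k _ => Finset.sum_nonneg fun l _ => hf.nonneg l _ _
  have hS4 : MemLp (fun x : (ℕ → A) × (ℕ → B) => SN f L x.1 x.2) 4 ((St μ).prod (St ν)) := by
    refine F4_aux.memLp4 _ _ hSm hS0 ?_
    have h := x3 0 L
    simp only [Nat.zero_add] at h
    have h0 : ∀ x : (ℕ → A) × (ℕ → B), SN f 0 x.1 x.2 = 0 := fun x => by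
      unfold SN
      simp
    simp only [h0, sub_zero] at h
    exact lt_of_le_of_lt h ENNReal.ofReal_lt_top
  have hM4 : Integrable (fun o : ℕ → A => ∫ u, SN f L o u ^ 4 ∂St ν) (St μ) :=
    (int4 hS4).integral_prod_left
  have hmom : ∀ᵐ o ∂St μ, vq ν f L o ^ 2 ≤ ∫ u, SN f L o u ^ 4 ∂St ν ∧
      ∫ u, |SN f L o u - mh ν f L o| ^ 3 ∂St ν ≤ 1 + 16 * ∫ u, SN f L o u ^ 4 ∂St ν := by
    filter_upwards [m3] with o ho
    exact moments (St ν) (x2 L o ho)
  have hv0 : ∀ o, 0 ≤ vq ν f L o := fun o => integral_nonneg fun u => sq_nonneg _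
  have hv2i : Integrable (fun o => vq ν f L o ^ 2) (St μ) := by
    refine Integrable.mono' hM4 (hvm.pow_const 2).aestronglyMeasurable ?_
    filter_upwards [hmom] with o ho
    rw [Real.norm_eq_abs, abs_of_nonneg (sq_nonneg _)]
    exact ho.1
  have hvi : Integrable (vq ν f L) (St μ) := by
    refine Integrable.mono' ((integrable_const (1 : ℝ)).add hv2i) hvm.aestronglyMeasurable
      (Eventually.of_forall fun o => ?_)
    rw [Real.norm_eq_abs, abs_of_nonneg (hv0 o)]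
    show vq ν f L o ≤ 1 + vq ν f L o ^ 2
    nlinarith [sq_nonneg (vq ν f L o - 1), hv0 o]
  have h3i : Integrable (fun o : ℕ → A => ∫ u, |SN f L o u - mh ν f L o| ^ 3 ∂St ν) (St μ) := by
    refine Integrable.mono' ((integrable_const (1 : ℝ)).add (hM4.const_mul 16))
      h3m.aestronglyMeasurable ?_
    filter_upwards [hmom] with o ho
    rw [Real.norm_eq_abs, abs_of_nonneg (integral_nonneg fun u => by positivity)]
    exact ho.2
  refine ⟨hvi, ?_⟩
  have hd2 : DependsOn (fun o : ℕ → A => vq ν f L o ^ 2) (Set.Iio L) := by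
    intro o o' h
    show vq ν f L o ^ 2 = vq ν f L o' ^ 2
    rw [hdv h]
  filter_upwards [hBl A μ (vq ν f L) L hL hvm hdv hvi,
    hBl A μ _ L hL h3m hd3 h3i, hBl A μ _ L hL (hvm.pow_const 2) hd2 hv2i] with o o1 o2 o3
  refine ⟨o1, ?_⟩
  refine bdd (by simp) ((o2.add o3).congr fun J => ?_)
  rw [← add_div, ← Finset.sum_add_distrib]

end MP0d3db7D1
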