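import Pool.Agent.Lib.MP_0d3db7.D1.Spec

/-!
# MP_0d3db7_pr, theorem D1: the characteristic function of an independent sum (`S_Cf`)
-/

set_option autoImplicit false

namespace MP0d3db7D1

open MeasureTheory ProbabilityTheory Filter Topology Pool.Agent.MP0d3db7

namespace Cf_aux

theorem pt (x : ℝ) : ‖Complex.exp ((x : ℂ) * Complex.I) -
    (1 + (x : ℂ) * Complex.I - (x : ℂ) ^ 2 / 2)‖ ≤ |x| ^ 3 := by
  have hn : ‖(x : ℂ) * Complex.I‖ = |x| := by simp
  have h0 := abs_nonneg x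
  rcases le_or_gt |x| 2 with h | h
  · have h1 := Complex.exp_bound' (x := (x : ℂ) * Complex.I) (n := 3) (by
      rw [hn]
      norm_num
      linarith)
    rw [hn] at h1
    have h2 : ∑ m ∈ Finset.range 3, ((x : ℂ) * Complex.I) ^ m / (m.factorial : ℂ) =
        1 + (x : ℂ) * Complex.I - (x : ℂ) ^ 2 / 2 := by
      have h3 : ((x : ℂ) * Complex.I) ^ 2 = -(x : ℂ) ^ 2 := by
        rw [mul_pow, Complex.I_sq]
        ring
      simp only [Finset.sum_range_succ, Finset.range_zero, Finset.sum_empty, Nat.factorial, h3]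
      push_cast
      ring
    rw [h2] at h1
    refine h1.trans ?_
    have h3 : 0 ≤ |x| ^ 3 := by positivity
    have h4 : ((3 : ℕ).factorial : ℝ) = 6 := by norm_num [Nat.factorial]
    rw [h4]
    linarith
  · have h1 : ‖Complex.exp ((x : ℂ) * Complex.I) - 1‖ ≤ |x| := by
      have := @Real.norm_exp_I_mul_ofReal_sub_one_le x
      rw [mul_comm, Real.norm_eq_abs] at this
      exact this
    have h2 : Complex.exp ((x : ℂ) * Complex.I) - (1 + (x : ℂ) * Complex.I - (x : ℂ) ^ 2 / 2) =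
        (Complex.exp ((x : ℂ) * Complex.I) - 1) - (x : ℂ) * Complex.I + (x : ℂ) ^ 2 / 2 := by
      ring
    have h3 : ‖(x : ℂ) ^ 2 / 2‖ = |x| ^ 2 / 2 := by
      rw [norm_div, norm_pow, Complex.norm_real, Real.norm_eq_abs]
      norm_num
    rw [h2]
    refine (norm_add_le _ _).trans ?_
    have h4 := norm_sub_le (Complex.exp ((x : ℂ) * Complex.I) - 1) ((x : ℂ) * Complex.I)
    rw [hn] at h4
    rw [h3]
    nlinarith [mul_nonneg h0 (sub_nonneg.2 h.le), mul_nonneg (mul_nonneg h0 h0) (sub_nonneg.2 h.le)]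

theorem ex (y : ℝ) (hy : 0 ≤ y) : |Real.exp (-y) - 1 + y| ≤ y ^ 2 := by
  rcases le_or_gt y 1 with h | h
  · have h1 := @Real.abs_exp_sub_one_sub_id_le (-y) (by rw [abs_neg, abs_of_nonneg hy]; exact h)
    rw [sub_neg_eq_add, neg_sq] at h1
    exact h1
  · have h1 := Real.add_one_le_exp (-y)
    have h2 : Real.exp (-y) ≤ 1 := Real.exp_le_one_iff.2 (by linarith)
    rw [abs_of_nonneg (by linarith)]
    nlinarith

theorem prod_le (J : ℕ) (z w : ℕ → ℂ) (hz : ∀ j, ‖z j‖ ≤ 1) (hw : ∀ j, ‖w j‖ ≤ 1) :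
    ‖∏ j ∈ Finset.range J, z j - ∏ j ∈ Finset.range J, w j‖ ≤
      ∑ j ∈ Finset.range J, ‖z j - w j‖ := by
  induction J with
  | zero => simp
  | succ J ih =>
    rw [Finset.prod_range_succ, Finset.prod_range_succ, Finset.sum_range_succ]
    have h1 : (∏ j ∈ Finset.range J, z j) * z J - (∏ j ∈ Finset.range J, w j) * w J =
        (∏ j ∈ Finset.range J, z j - ∏ j ∈ Finset.range J, w j) * z J +
          (∏ j ∈ Finset.range J, w j) * (z J - w J) := by ring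
    rw [h1]
    refine (norm_add_le _ _).trans (add_le_add ?_ ?_)
    · rw [norm_mul]
      exact (mul_le_of_le_one_right (norm_nonneg _) (hz J)).trans ih
    · rw [norm_mul, norm_prod]
      exact mul_le_of_le_one_left (norm_nonneg _)
        (Finset.prod_le_one (fun j _ => norm_nonneg _) fun j _ => hw j)

theorem one {Ω : Type} [MeasurableSpace Ω] (P : Measure Ω) [IsProbabilityMeasure P] (Y : Ω → ℝ)
    (hY : Measurable Y) (h4 : MemLp Y 4 P) (h0 : ∫ u, Y u ∂P = 0) (t : ℝ) :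
    ‖(∫ u, Complex.exp ((t : ℂ) * (Y u : ℂ) * Complex.I) ∂P) -
        Complex.exp (((-(t ^ 2 / 2 * ∫ u, Y u ^ 2 ∂P) : ℝ) : ℂ))‖ ≤
      |t| ^ 3 * ∫ u, |Y u| ^ 3 ∂P + t ^ 4 * (∫ u, Y u ^ 2 ∂P) ^ 2 := by
  have i1 : Integrable Y P := (h4.mono_exponent (p := 1) (by norm_num)).integrable le_rfl
  have m2 : MemLp Y 2 P := h4.mono_exponent (by norm_num)
  have i2 : Integrable (fun u => Y u ^ 2) P := m2.integrable_sq
  have i3 : Integrable (fun u => |Y u| ^ 3) P := by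
    have m3 : MemLp Y ((3 : ℕ) : ENNReal) P := h4.mono_exponent (by norm_num)
    exact m3.integrable_norm_pow (by norm_num)
  have ie : Integrable (fun u => Complex.exp ((t : ℂ) * (Y u : ℂ) * Complex.I)) P := by
    refine Integrable.of_bound (C := 1) (by fun_prop) (ae_of_all _ fun u => ?_)
    rw [← Complex.ofReal_mul, Complex.norm_exp_ofReal_mul_I]
  set s : ℝ := ∫ u, Y u ^ 2 ∂P with hs
  have hs0 : 0 ≤ s := integral_nonneg fun u => sq_nonneg _
  have c1 : Integrable (fun u => (Y u : ℂ)) P := i1.ofReal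
  have c2 : Integrable (fun u => ((Y u ^ 2 : ℝ) : ℂ)) P := i2.ofReal
  have e1 : ∫ u, (1 + (t : ℂ) * (Y u : ℂ) * Complex.I - ((t : ℂ) * (Y u : ℂ)) ^ 2 / 2) ∂P =
      1 - (t : ℂ) ^ 2 / 2 * (s : ℂ) := by
    have h1 : ∀ u, (1 + (t : ℂ) * (Y u : ℂ) * Complex.I - ((t : ℂ) * (Y u : ℂ)) ^ 2 / 2) =
        (1 + ((t : ℂ) * Complex.I) * (Y u : ℂ)) - (t : ℂ) ^ 2 / 2 * ((Y u ^ 2 : ℝ) : ℂ) := by
      intro u
      push_cast
      ring
    simp only [h1]
    have k1 : ∫ u, (Y u : ℂ) ∂P = ((∫ u, Y u ∂P : ℝ) : ℂ) := integral_ofReal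
    have k2 : ∫ u, ((Y u ^ 2 : ℝ) : ℂ) ∂P = ((∫ u, Y u ^ 2 ∂P : ℝ) : ℂ) := integral_ofReal
    have i5 : Integrable (fun u => (1 : ℂ) + ((t : ℂ) * Complex.I) * (Y u : ℂ)) P :=
      (integrable_const _).add (c1.const_mul _)
    rw [integral_sub i5 (c2.const_mul _), integral_add (integrable_const _) (c1.const_mul _),
      integral_const_mul, integral_const_mul, k1, k2, h0, ← hs]
    simp
  have ip : Integrable (fun u => 1 + (t : ℂ) * (Y u : ℂ) * Complex.I -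
      ((t : ℂ) * (Y u : ℂ)) ^ 2 / 2) P := by
    have h1 : ∀ u, (1 + (t : ℂ) * (Y u : ℂ) * Complex.I - ((t : ℂ) * (Y u : ℂ)) ^ 2 / 2) =
        (1 + ((t : ℂ) * Complex.I) * (Y u : ℂ)) - (t : ℂ) ^ 2 / 2 * ((Y u ^ 2 : ℝ) : ℂ) := by
      intro u
      push_cast
      ring
    simp only [h1]
    exact ((integrable_const _).add (c1.const_mul _)).sub (c2.const_mul _)
  have b1 : ‖(∫ u, Complex.exp ((t : ℂ) * (Y u : ℂ) * Complex.I) ∂P) -
      (1 - (t : ℂ) ^ 2 / 2 * (s : ℂ))‖ ≤ |t| ^ 3 * ∫ u, |Y u| ^ 3 ∂P := by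
    rw [← e1, ← integral_sub ie ip, ← integral_const_mul]
    refine norm_integral_le_of_norm_le (i3.const_mul _) (ae_of_all _ fun u => ?_)
    have h1 := pt (t * Y u)
    rw [abs_mul, mul_pow] at h1
    push_cast at h1
    exact h1
  have b2 : ‖(1 - (t : ℂ) ^ 2 / 2 * (s : ℂ)) - Complex.exp (((-(t ^ 2 / 2 * s) : ℝ) : ℂ))‖ ≤
      t ^ 4 * s ^ 2 := by
    have h1 : (1 - (t : ℂ) ^ 2 / 2 * (s : ℂ)) - Complex.exp (((-(t ^ 2 / 2 * s) : ℝ) : ℂ)) =
        ((-(Real.exp (-(t ^ 2 / 2 * s)) - 1 + t ^ 2 / 2 * s) : ℝ) : ℂ) := by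
      push_cast
      ring
    rw [h1, Complex.norm_real, Real.norm_eq_abs, abs_neg]
    refine (ex _ (by positivity)).trans ?_
    have h2 : 0 ≤ t ^ 4 * s ^ 2 := by positivity
    calc (t ^ 2 / 2 * s) ^ 2 = t ^ 4 * s ^ 2 / 4 := by ring
      _ ≤ t ^ 4 * s ^ 2 := by linarith
  calc ‖(∫ u, Complex.exp ((t : ℂ) * (Y u : ℂ) * Complex.I) ∂P) -
        Complex.exp (((-(t ^ 2 / 2 * s) : ℝ) : ℂ))‖
      = ‖((∫ u, Complex.exp ((t : ℂ) * (Y u : ℂ) * Complex.I) ∂P) -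
        (1 - (t : ℂ) ^ 2 / 2 * (s : ℂ))) + ((1 - (t : ℂ) ^ 2 / 2 * (s : ℂ)) -
          Complex.exp (((-(t ^ 2 / 2 * s) : ℝ) : ℂ)))‖ := by
        congr 1
        ring
    _ ≤ _ := (norm_add_le _ _).trans (add_le_add b1 b2)

end Cf_aux

open Cf_aux in
theorem tCf : S_Cf := by
  intro Ω _ P _ J Y hI hm h4 h0 t
  have e1 : (∫ u, Complex.exp (((t * ∑ j ∈ Finset.range J, Y j u : ℝ) : ℂ) * Complex.I) ∂P) =
      ∏ j ∈ Finset.range J, ∫ u, Complex.exp ((t : ℂ) * (Y j u : ℂ) * Complex.I) ∂P := by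
    have h1 := iIndepFun.charFun_map_fun_finsetSum_eq_prod (P := P) (s := Finset.range J) (X := Y)
      (fun i _ => (hm i).aemeasurable) (hI.restrict _)
    have h2 := congrFun h1 t
    have hms : Measurable fun u => ∑ j ∈ Finset.range J, Y j u :=
      Finset.measurable_fun_sum _ fun j _ => hm j
    rw [charFun_apply_real, integral_map hms.aemeasurable (by fun_prop), Finset.prod_apply] at h2
    calc _ = ∫ u, Complex.exp ((t : ℂ) * ((∑ j ∈ Finset.range J, Y j u : ℝ) : ℂ) *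
          Complex.I) ∂P := by
          refine integral_congr_ae (ae_of_all _ fun u => ?_)
          push_cast
          rfl
      _ = _ := h2
      _ = _ := by
          refine Finset.prod_congr rfl fun j _ => ?_
          rw [charFun_apply_real, integral_map (hm j).aemeasurable (by fun_prop)]
  have e2 : Complex.exp (((-(t ^ 2 / 2 * ∑ j ∈ Finset.range J, ∫ u, Y j u ^ 2 ∂P) : ℝ) : ℂ)) =
      ∏ j ∈ Finset.range J, Complex.exp (((-(t ^ 2 / 2 * ∫ u, Y j u ^ 2 ∂P) : ℝ) : ℂ)) := by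
    rw [← Complex.exp_sum]
    congr 1
    push_cast
    rw [Finset.mul_sum, Finset.sum_neg_distrib]
  rw [e1, e2]
  refine (prod_le J _ _ (fun j => ?_) fun j => ?_).trans
    (Finset.sum_le_sum fun j _ => one P (Y j) (hm j) (h4 j) (h0 j) t)
  · refine (norm_integral_le_of_norm_le_const (C := 1) (ae_of_all _ fun u => ?_)).trans (by simp)
    rw [← Complex.ofReal_mul, Complex.norm_exp_ofReal_mul_I]
  · rw [Complex.norm_exp, Complex.ofReal_re]
    refine Real.exp_le_one_iff.2 ?_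
    have : 0 ≤ ∫ u, Y j u ^ 2 ∂P := integral_nonneg fun u => sq_nonneg _
    have : 0 ≤ t ^ 2 / 2 * ∫ u, Y j u ^ 2 ∂P := by positivity
    linarith

end MP0d3db7D1
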