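import Pool.Agent.Lib.MP_0d3db7.D1.Spec

/-!
# MP_0d3db7_pr, theorem D1, module Ch: regularity by chaining (helper61)
-/

set_option autoImplicit false

namespace MP0d3db7D1

open MeasureTheory ProbabilityTheory Filter Topology Pool.Agent.MP0d3db7

namespace Ch_aux

open scoped ENNReal

/-- Borel-Cantelli in the form used here -/
theorem ae_tendsto {Ω : Type} [MeasurableSpace Ω] {P : Measure Ω} {g : ℕ → Ω → ℝ≥0∞}
    (hg : ∀ j, Measurable (g j)) {a : ℕ → ℝ} (ha : ∀ j, 0 ≤ a j) (hs : Summable a)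
    (h : ∀ j, ∫⁻ o, g j o ∂P ≤ ENNReal.ofReal (a j)) :
    ∀ᵐ o ∂P, Tendsto (fun j => g j o) atTop (𝓝 0) := by
  have h1 : ∫⁻ o, ∑' j, g j o ∂P ≠ ⊤ := by
    rw [lintegral_tsum (fun j => (hg j).aemeasurable)]
    refine ne_top_of_le_ne_top ?_ (ENNReal.tsum_le_tsum h)
    rw [← ENNReal.ofReal_tsum_of_nonneg ha hs]
    exact ENNReal.ofReal_ne_top
  filter_upwards [ae_lt_top (Measurable.ennreal_tsum hg) h1] with o ho
  exact ENNReal.tendsto_atTop_zero_of_tsum_ne_top ho.ne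

/-- comparison of fourth powers -/
theorem small {x c : ℝ} (hc : 0 ≤ c) (h : ENNReal.ofReal (x ^ 4) ≤ ENNReal.ofReal (c ^ 4)) :
    |x| ≤ c := by
  have h1 : x ^ 4 ≤ c ^ 4 := (ENNReal.ofReal_le_ofReal_iff (by positivity)).1 h
  have h2 : |x| ^ 4 ≤ c ^ 4 := by
    rw [Even.pow_abs (by decide)]
    exact h1
  exact (pow_le_pow_iff_left₀ (abs_nonneg x) hc (by norm_num)).1 h2

/-- the deterministic part -/
theorem det {m : ℕ → ℝ} {κ η : ℝ} (hκ : 0 ≤ κ) (mono : Monotone m) {D L h n : ℕ} (hh : 0 < h)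
    (hn2 : n ≤ 4 * (L * h) ^ 2)
    (H : ∀ p q : ℕ, p ≤ 4 * D * L ^ 2 * h + 1 → q ≤ 2 * D * L + 2 →
      |m ((p + q) * h) - m (p * h) - ((((p + q) * h : ℕ) : ℝ) - ((p * h : ℕ) : ℝ)) * κ| ≤ η)
    {k k' : ℕ} (hk : k ≤ k') (hk' : k' ≤ D * n) (hd : (k' : ℝ) - k ≤ D * Real.sqrt n) :
    |m k' - m k - ((k' : ℝ) - k) * κ| ≤ 2 * h * κ + η := by
  have hs : Real.sqrt n ≤ 2 * (L * h) := by
    rw [Real.sqrt_le_left (by positivity)]
    have : (n : ℝ) ≤ 4 * (L * h) ^ 2 := by exact_mod_cast hn2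
    calc (n : ℝ) ≤ 4 * (L * h) ^ 2 := this
      _ = (2 * (L * h)) ^ 2 := by ring
  have hd' : k' ≤ k + 2 * D * L * h := by
    have h1 : (k' : ℝ) ≤ k + 2 * D * L * h := by
      have h2 : (D : ℝ) * Real.sqrt n ≤ D * (2 * (L * h)) :=
        mul_le_mul_of_nonneg_left hs (Nat.cast_nonneg D)
      linarith
    exact_mod_cast h1
  set p : ℕ := k / h with hp
  set p' : ℕ := k' / h with hp'
  have e1 : p * h ≤ k := Nat.div_mul_le_self k h
  have e2 : k < p * h + h := Nat.lt_div_mul_add hh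
  have e1' : p' * h ≤ k' := Nat.div_mul_le_self k' h
  have e2' : k' < p' * h + h := Nat.lt_div_mul_add hh
  have hpp : p ≤ p' := Nat.div_le_div_right hk
  have hp4 : p' ≤ 4 * D * L ^ 2 * h := by
    have h1 : p' * h ≤ (4 * D * L ^ 2 * h) * h := by
      calc p' * h ≤ k' := e1'
        _ ≤ D * n := hk'
        _ ≤ D * (4 * (L * h) ^ 2) := Nat.mul_le_mul_left D hn2
        _ = (4 * D * L ^ 2 * h) * h := by ring
    exact Nat.le_of_mul_le_mul_right h1 hh
  obtain ⟨d, hd1⟩ := Nat.exists_eq_add_of_le hpp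
  have hdq : d + 1 ≤ 2 * D * L + 2 := by
    have h1 : (d + 1) * h < (2 * D * L + 2) * h := by
      have h2 : p' * h = p * h + d * h := by rw [hd1]; ring
      have h3 : (d + 1) * h = d * h + h := by ring
      have h4 : (2 * D * L + 2) * h = 2 * D * L * h + 2 * h := by ring
      omega
    exact (Nat.lt_of_mul_lt_mul_right h1).le
  have c1 : (p : ℝ) * h ≤ k := by exact_mod_cast e1
  have c2 : (k : ℝ) < p * h + h := by exact_mod_cast e2
  have c1' : (p' : ℝ) * h ≤ k' := by exact_mod_cast e1'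
  have c2' : (k' : ℝ) < p' * h + h := by exact_mod_cast e2'
  have ck : (k : ℝ) ≤ k' := by exact_mod_cast hk
  have ch : (0 : ℝ) < h := by exact_mod_cast hh
  have cd : (p' : ℝ) = p + d := by rw [hd1]; push_cast; ring
  rw [abs_le]
  constructor
  · rcases Nat.eq_zero_or_pos d with h0 | h0
    · have h1 : m k ≤ m k' := mono hk
      have h2 : (k' : ℝ) - k ≤ h := by
        rw [h0, Nat.cast_zero, add_zero] at cd
        rw [cd] at c2'
        linarith
      have h3 : ((k' : ℝ) - k) * κ ≤ h * κ := mul_le_mul_of_nonneg_right h2 hκ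
      have h4 : 0 ≤ η := (abs_nonneg _).trans (H 0 0 (Nat.zero_le _) (Nat.zero_le _))
      have h5 : 0 ≤ h * κ := mul_nonneg ch.le hκ
      linarith
    · have h1 := (abs_le.1 (H (p + 1) (d - 1) (by omega) (by omega))).1
      have h2 : p + 1 + (d - 1) = p' := by omega
      rw [h2] at h1
      push_cast at h1
      have h3 : m (p' * h) ≤ m k' := mono e1'
      have h4 : m k ≤ m ((p + 1) * h) := mono (by
        have : (p + 1) * h = p * h + h := by ring
        omega)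
      have h5 : ((k' : ℝ) - k - 2 * h) * κ ≤ ((p' : ℝ) * h - (p + 1) * h) * κ :=
        mul_le_mul_of_nonneg_right (by nlinarith) hκ
      nlinarith
  · have h1 := (abs_le.1 (H p (d + 1) (by omega) hdq)).2
    have h2 : p + (d + 1) = p' + 1 := by omega
    rw [h2] at h1
    push_cast at h1
    have h3 : m k' ≤ m ((p' + 1) * h) := mono (by
      have : (p' + 1) * h = p' * h + h := by ring
      omega)
    have h4 : m (p * h) ≤ m k := mono e1
    have h5 : (((p' : ℝ) + 1) * h - p * h) * κ ≤ ((k' : ℝ) - k + 2 * h) * κ :=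
      mul_le_mul_of_nonneg_right (by nlinarith) hκ
    nlinarith

/-- the scale of `n` -/
theorem scale {L n : ℕ} (hL : 0 < L) (j₀ : ℕ) (hn : L ^ 2 * 4 ^ j₀ ≤ n) :
    ∃ j, j₀ ≤ j ∧ (L * 2 ^ j) ^ 2 ≤ n ∧ n ≤ 4 * (L * 2 ^ j) ^ 2 := by
  have hL2 : 0 < L ^ 2 := by positivity
  have h4 : ∀ j : ℕ, (L * 2 ^ j) ^ 2 = 4 ^ j * L ^ 2 := by
    intro j
    rw [mul_pow, ← pow_mul, mul_comm j 2, pow_mul]
    norm_num
    ring
  have h1 : 4 ^ j₀ ≤ n / L ^ 2 := by
    rw [Nat.le_div_iff_mul_le hL2]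
    rwa [mul_comm]
  have h0 : n / L ^ 2 ≠ 0 := by
    have : 0 < 4 ^ j₀ := by positivity
    omega
  refine ⟨Nat.log 4 (n / L ^ 2), Nat.le_log_of_pow_le (by norm_num) h1, ?_, ?_⟩
  · rw [h4, ← Nat.le_div_iff_mul_le hL2]
    exact Nat.pow_log_le_self 4 h0
  · have h2 : n / L ^ 2 < 4 ^ (Nat.log 4 (n / L ^ 2) + 1) :=
      Nat.lt_pow_succ_log_self (by norm_num) _
    rw [Nat.div_lt_iff_lt_mul hL2] at h2
    rw [h4]
    calc n ≤ 4 ^ (Nat.log 4 (n / L ^ 2) + 1) * L ^ 2 := h2.le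
      _ = 4 * (4 ^ Nat.log 4 (n / L ^ 2) * L ^ 2) := by ring

/-- the pairs at the scale `2 ^ j` -/
noncomputable def FF {Ω : Type} (m : ℕ → Ω → ℝ) (κ : ℝ) (D L j : ℕ) (o : Ω) : ℝ≥0∞ :=
  ∑ p ∈ Finset.range (4 * D * L ^ 2 * 2 ^ j + 2), ∑ q ∈ Finset.range (2 * D * L + 3),
    ENNReal.ofReal ((m ((p + q) * 2 ^ j) o - m (p * 2 ^ j) o -
      ((((p + q) * 2 ^ j : ℕ) : ℝ) - ((p * 2 ^ j : ℕ) : ℝ)) * κ) ^ 4)

theorem FF_meas {Ω : Type} [MeasurableSpace Ω] {m : ℕ → Ω → ℝ} (hm : ∀ k, Measurable (m k))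
    (κ : ℝ) (D L j : ℕ) : Measurable (FF m κ D L j) := by
  unfold FF
  refine Finset.measurable_sum _ fun p _ => Finset.measurable_sum _ fun q _ => ?_
  exact ((((hm _).sub (hm _)).sub measurable_const).pow_const 4).ennreal_ofReal

theorem FF_int {Ω : Type} [MeasurableSpace Ω] {P : Measure Ω} {m : ℕ → Ω → ℝ} {κ K : ℝ}
    (hm : ∀ k, Measurable (m k))
    (hb : ∀ k k' : ℕ, k ≤ k' → ∫⁻ o, ENNReal.ofReal ((m k' o - m k o - ((k' : ℝ) - k) * κ) ^ 4) ∂P ≤
      ENNReal.ofReal (K * ((k' : ℝ) - k + 1) ^ 2)) (D L j : ℕ) :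
    ∫⁻ o, FF m κ D L j o ∂P ≤ ENNReal.ofReal
      ((4 * D * L ^ 2 + 2) * (2 * D * L + 3) ^ 3 * |K| * 8 ^ j) := by
  have hmeas : ∀ p q : ℕ, Measurable fun o => ENNReal.ofReal ((m ((p + q) * 2 ^ j) o -
      m (p * 2 ^ j) o - ((((p + q) * 2 ^ j : ℕ) : ℝ) - ((p * 2 ^ j : ℕ) : ℝ)) * κ) ^ 4) :=
    fun p q => ((((hm _).sub (hm _)).sub measurable_const).pow_const 4).ennreal_ofReal
  unfold FF
  rw [lintegral_finset_sum _ fun p _ => Finset.measurable_sum _ fun q _ => hmeas p q]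
  have h1 : ∀ p ∈ Finset.range (4 * D * L ^ 2 * 2 ^ j + 2),
      ∫⁻ o, ∑ q ∈ Finset.range (2 * D * L + 3),
        ENNReal.ofReal ((m ((p + q) * 2 ^ j) o - m (p * 2 ^ j) o -
          ((((p + q) * 2 ^ j : ℕ) : ℝ) - ((p * 2 ^ j : ℕ) : ℝ)) * κ) ^ 4) ∂P ≤
      ENNReal.ofReal ((2 * D * L + 3) * (|K| * ((2 * D * L + 3) * 2 ^ j) ^ 2)) := by
    intro p _
    rw [lintegral_finset_sum _ fun q _ => hmeas p q]
    have h2 : ∀ q ∈ Finset.range (2 * D * L + 3),
        ∫⁻ o, ENNReal.ofReal ((m ((p + q) * 2 ^ j) o - m (p * 2 ^ j) o -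
          ((((p + q) * 2 ^ j : ℕ) : ℝ) - ((p * 2 ^ j : ℕ) : ℝ)) * κ) ^ 4) ∂P ≤
        ENNReal.ofReal (|K| * ((2 * D * L + 3) * 2 ^ j) ^ 2) := by
      intro q hq
      rw [Finset.mem_range] at hq
      refine (hb _ _ (Nat.mul_le_mul_right _ (Nat.le_add_right p q))).trans
        (ENNReal.ofReal_le_ofReal ?_)
      have h3 : (((p + q) * 2 ^ j : ℕ) : ℝ) - ((p * 2 ^ j : ℕ) : ℝ) = q * 2 ^ j := by
        push_cast
        ring
      rw [h3]
      have h4 : (q : ℝ) + 1 ≤ 2 * D * L + 3 := by exact_mod_cast hq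
      have h5 : (1 : ℝ) ≤ 2 ^ j := one_le_pow₀ (by norm_num)
      have h6 : (q : ℝ) * 2 ^ j + 1 ≤ (2 * D * L + 3) * 2 ^ j := by nlinarith
      calc K * ((q : ℝ) * 2 ^ j + 1) ^ 2 ≤ |K| * ((q : ℝ) * 2 ^ j + 1) ^ 2 :=
            mul_le_mul_of_nonneg_right (le_abs_self K) (by positivity)
        _ ≤ |K| * ((2 * D * L + 3) * 2 ^ j) ^ 2 :=
            mul_le_mul_of_nonneg_left (pow_le_pow_left₀ (by positivity) h6 2) (abs_nonneg K)
    refine (Finset.sum_le_sum h2).trans (le_of_eq ?_)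
    rw [Finset.sum_const, Finset.card_range, nsmul_eq_mul,
      ENNReal.ofReal_mul (p := 2 * (D : ℝ) * L + 3) (by positivity)]
    congr 1
    rw [← ENNReal.ofReal_natCast]
    congr 1
    push_cast
    ring
  refine (Finset.sum_le_sum h1).trans ?_
  rw [Finset.sum_const, Finset.card_range, nsmul_eq_mul, ← ENNReal.ofReal_natCast,
    ← ENNReal.ofReal_mul (by positivity)]
  refine ENNReal.ofReal_le_ofReal ?_
  have h5 : (1 : ℝ) ≤ 2 ^ j := one_le_pow₀ (by norm_num)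
  have h6 : ((4 * D * L ^ 2 * 2 ^ j + 2 : ℕ) : ℝ) ≤ (4 * D * L ^ 2 + 2) * 2 ^ j := by
    push_cast
    nlinarith
  have h8 : (8 : ℝ) ^ j = 2 ^ j * (2 ^ j) ^ 2 := by
    rw [← pow_mul, mul_comm j 2, pow_mul, ← mul_pow]
    norm_num
  rw [h8]
  calc ((4 * D * L ^ 2 * 2 ^ j + 2 : ℕ) : ℝ) *
        ((2 * D * L + 3) * (|K| * ((2 * D * L + 3) * 2 ^ j) ^ 2))
      ≤ ((4 * D * L ^ 2 + 2) * 2 ^ j) * ((2 * D * L + 3) * (|K| * ((2 * D * L + 3) * 2 ^ j) ^ 2)) :=
        mul_le_mul_of_nonneg_right h6 (by positivity)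
    _ = _ := by ring

end Ch_aux

open Ch_aux in
theorem tCh : S_Ch := by
  intro Ω _ P _ m κ K hκ hm h0 hmono hb
  -- the law of large numbers
  have A1 : ∀ᵐ o ∂P, Tendsto (fun n : ℕ => ENNReal.ofReal (((m n o - n * κ) / n) ^ 4)) atTop
      (𝓝 0) := by
    refine ae_tendsto (a := fun n : ℕ => 4 * |K| * (1 / (n : ℝ) ^ 2)) ?_ (fun n => by positivity)
      ((Real.summable_one_div_nat_pow.2 (by norm_num)).mul_left _) ?_
    · intro n
      exact ((((hm n).sub measurable_const).div_const _).pow_const 4).ennreal_ofReal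
    · intro n
      rcases Nat.eq_zero_or_pos n with hn | hn
      · subst hn
        simp
      · have hn' : (1 : ℝ) ≤ n := by exact_mod_cast hn
        have h1 : ∀ o, ENNReal.ofReal (((m n o - n * κ) / n) ^ 4) =
            ENNReal.ofReal (((n : ℝ) ^ 4)⁻¹) *
              ENNReal.ofReal ((m n o - m 0 o - ((n : ℝ) - (0 : ℕ)) * κ) ^ 4) := by
          intro o
          rw [← ENNReal.ofReal_mul (by positivity), h0 o]
          congr 1
          rw [div_pow, Nat.cast_zero]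
          field_simp
          ring
        have hme : Measurable fun o =>
            ENNReal.ofReal ((m n o - m 0 o - ((n : ℝ) - (0 : ℕ)) * κ) ^ 4) :=
          ((((hm n).sub (hm 0)).sub measurable_const).pow_const 4).ennreal_ofReal
        simp_rw [h1]
        rw [lintegral_const_mul _ hme]
        refine (mul_le_mul_right (hb 0 n (Nat.zero_le n)) _).trans ?_
        rw [← ENNReal.ofReal_mul (by positivity)]
        refine ENNReal.ofReal_le_ofReal ?_
        rw [Nat.cast_zero, sub_zero]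
        have h2 : K * ((n : ℝ) + 1) ^ 2 ≤ |K| * (2 * n) ^ 2 := by
          calc K * ((n : ℝ) + 1) ^ 2 ≤ |K| * ((n : ℝ) + 1) ^ 2 :=
                mul_le_mul_of_nonneg_right (le_abs_self K) (by positivity)
            _ ≤ |K| * (2 * n) ^ 2 :=
                mul_le_mul_of_nonneg_left (pow_le_pow_left₀ (by positivity) (by linarith) 2)
                  (abs_nonneg K)
        calc ((n : ℝ) ^ 4)⁻¹ * (K * ((n : ℝ) + 1) ^ 2) ≤ ((n : ℝ) ^ 4)⁻¹ * (|K| * (2 * n) ^ 2) :=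
              mul_le_mul_of_nonneg_left h2 (by positivity)
          _ = 4 * |K| * (1 / (n : ℝ) ^ 2) := by
              field_simp
              ring
  -- the pairs
  have A2 : ∀ D L : ℕ, ∀ᵐ o ∂P, Tendsto (fun j : ℕ => ENNReal.ofReal ((1 / 16) ^ j) *
      FF m κ D L j o) atTop (𝓝 0) := by
    intro D L
    refine ae_tendsto (a := fun j : ℕ => (4 * D * L ^ 2 + 2) * (2 * D * L + 3) ^ 3 * |K| *
      (1 / 2) ^ j) ?_ (fun n => by positivity)
      ((summable_geometric_of_lt_one (by norm_num) (by norm_num)).mul_left _) ?_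
    · intro j
      exact (FF_meas hm κ D L j).const_mul _
    · intro j
      rw [lintegral_const_mul _ (FF_meas hm κ D L j)]
      refine (mul_le_mul_right (FF_int hm hb D L j) _).trans ?_
      rw [← ENNReal.ofReal_mul (by positivity)]
      refine ENNReal.ofReal_le_ofReal (le_of_eq ?_)
      have h1 : ((1 : ℝ) / 2) ^ j = (1 / 16) ^ j * 8 ^ j := by
        rw [← mul_pow]
        norm_num
      rw [h1]
      ring
  have A2' : ∀ᵐ o ∂P, ∀ D L : ℕ, Tendsto (fun j : ℕ => ENNReal.ofReal ((1 / 16) ^ j) *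
      FF m κ D L j o) atTop (𝓝 0) := ae_all_iff.2 fun D => ae_all_iff.2 fun L => A2 D L
  filter_upwards [hmono, A1, A2'] with o ho h1 h2
  have hmo : Monotone fun k => m k o := monotone_nat_of_le_succ ho
  constructor
  · have hx : Tendsto (fun n : ℕ => (m n o - n * κ) / n) atTop (𝓝 0) := by
      rw [Metric.tendsto_nhds]
      intro ε hε
      have h3 : ∀ᶠ n : ℕ in atTop, ENNReal.ofReal (((m n o - n * κ) / n) ^ 4) <
          ENNReal.ofReal ((ε / 2) ^ 4) :=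
        h1.eventually (gt_mem_nhds (ENNReal.ofReal_pos.2 (by positivity)))
      filter_upwards [h3] with n hn
      rw [Real.dist_eq, sub_zero]
      have := small (by positivity) hn.le
      linarith
    have h3 := hx.add_const κ
    rw [zero_add] at h3
    refine h3.congr' ?_
    filter_upwards [eventually_gt_atTop 0] with n hn
    have hn' : (n : ℝ) ≠ 0 := by exact_mod_cast hn.ne'
    field_simp
    ring
  · intro D ε hε
    obtain ⟨L, hL⟩ := exists_nat_gt ((2 * κ + 1) / ε)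
    have hL0 : (0 : ℝ) < L := lt_of_le_of_lt (by positivity) hL
    have hLpos : 0 < L := by exact_mod_cast hL0
    rw [div_lt_iff₀ hε] at hL
    obtain ⟨j₀, hj₀⟩ := eventually_atTop.1 ((h2 D L).eventually (gt_mem_nhds one_pos))
    filter_upwards [eventually_ge_atTop (L ^ 2 * 4 ^ j₀)] with n hn k k' hk hk' hd
    obtain ⟨j, hj, hn1, hn2⟩ := scale hLpos j₀ hn
    have hFF := hj₀ j hj
    have hFF' : FF m κ D L j o ≤ ENNReal.ofReal (((2 : ℝ) ^ j) ^ 4) := by
      have e1 : ENNReal.ofReal (((2 : ℝ) ^ j) ^ 4) * ENNReal.ofReal ((1 / 16) ^ j) = 1 := by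
        rw [← ENNReal.ofReal_mul (by positivity), ← pow_mul, mul_comm j 4, pow_mul, ← mul_pow]
        norm_num
      calc FF m κ D L j o = ENNReal.ofReal (((2 : ℝ) ^ j) ^ 4) *
            (ENNReal.ofReal ((1 / 16) ^ j) * FF m κ D L j o) := by
              rw [← mul_assoc, e1, one_mul]
        _ ≤ ENNReal.ofReal (((2 : ℝ) ^ j) ^ 4) * 1 := mul_le_mul_right hFF.le _
        _ = _ := mul_one _
    have H : ∀ p q : ℕ, p ≤ 4 * D * L ^ 2 * 2 ^ j + 1 → q ≤ 2 * D * L + 2 →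
        |m ((p + q) * 2 ^ j) o - m (p * 2 ^ j) o -
          ((((p + q) * 2 ^ j : ℕ) : ℝ) - ((p * 2 ^ j : ℕ) : ℝ)) * κ| ≤ 2 ^ j := by
      intro p q hp hq
      refine small (by positivity) (le_trans ?_ hFF')
      unfold FF
      refine le_trans ?_ (Finset.single_le_sum (f := fun p => ∑ q ∈ Finset.range (2 * D * L + 3),
        ENNReal.ofReal ((m ((p + q) * 2 ^ j) o - m (p * 2 ^ j) o -
          ((((p + q) * 2 ^ j : ℕ) : ℝ) - ((p * 2 ^ j : ℕ) : ℝ)) * κ) ^ 4))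
        (fun _ _ => zero_le) (Finset.mem_range.2 (show p < 4 * D * L ^ 2 * 2 ^ j + 2 by omega)))
      exact Finset.single_le_sum (f := fun q =>
        ENNReal.ofReal ((m ((p + q) * 2 ^ j) o - m (p * 2 ^ j) o -
          ((((p + q) * 2 ^ j : ℕ) : ℝ) - ((p * 2 ^ j : ℕ) : ℝ)) * κ) ^ 4))
        (fun _ _ => zero_le) (Finset.mem_range.2 (show q < 2 * D * L + 3 by omega))
    have hfin := det (m := fun k => m k o) hκ hmo (h := 2 ^ j) (L := L) (D := D) (n := n)
      (by positivity) hn2 H hk hk' hd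
    refine hfin.trans ?_
    have hs : (L : ℝ) * 2 ^ j ≤ Real.sqrt n := by
      refine Real.le_sqrt_of_sq_le ?_
      exact_mod_cast hn1
    have h5 : (0 : ℝ) < 2 ^ j := by positivity
    push_cast
    calc 2 * (2 : ℝ) ^ j * κ + 2 ^ j = (2 * κ + 1) * 2 ^ j := by ring
      _ ≤ (L * ε) * 2 ^ j := mul_le_mul_of_nonneg_right hL.le h5.le
      _ = ε * (L * 2 ^ j) := by ring
      _ ≤ ε * Real.sqrt n := mul_le_mul_of_nonneg_left hs hε.le

end MP0d3db7D1
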