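import Pool.Agent.Lib.MP_0d3db7.D1.Spec

/-!
# MP_0d3db7_pr, theorem D1, module Cr: crossings
-/

set_option autoImplicit false

namespace MP0d3db7D1

open MeasureTheory ProbabilityTheory Filter Topology Pool.Agent.MP0d3db7

namespace Cr_aux

theorem pv_eq (h : List Bool) (k : ℤ) : pv k h = Lc k h + Rc k h := by
  induction h with
  | nil => rfl
  | cons b h ih =>
    show pv k h + (if pos h = k then 1 else 0) = (Lc k h + if pos h = k ∧ b = false then 1 else 0) +
      (Rc k h + if pos h = k ∧ b = true then 1 else 0)
    rw [ih]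
    by_cases hk : pos h = k <;> cases b <;> simp [hk] <;> omega

theorem net (h : List Bool) (k : ℤ) : (Rc k h : ℤ) = Lc (k + 1) h +
    (if 0 ≤ k ∧ k < pos h then 1 else 0) - (if pos h ≤ k ∧ k < 0 then 1 else 0) := by
  induction h with
  | nil =>
    show ((0 : ℕ) : ℤ) = ((0 : ℕ) : ℤ) + (if 0 ≤ k ∧ k < 0 then 1 else 0) -
      (if 0 ≤ k ∧ k < 0 then 1 else 0)
    have h1 : ¬ (0 ≤ k ∧ k < 0) := by omega
    rw [if_neg h1]
    norm_num
  | cons b h ih =>
    have e1 : Rc k (b :: h) = Rc k h + if pos h = k ∧ b = true then 1 else 0 := rfl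
    have e2 : Lc (k + 1) (b :: h) = Lc (k + 1) h + if pos h = k + 1 ∧ b = false then 1 else 0 := rfl
    have e3 : pos (b :: h) = pos h + stp b := rfl
    rw [e1, e2, e3]
    push_cast
    rw [ih]
    cases b with
    | true =>
      have e4 : stp true = 1 := rfl
      rw [e4]
      simp only [and_true, Bool.true_eq_false, and_false, if_false, reduceIte]
      split_ifs <;> omega
    | false =>
      have e4 : stp false = -1 := rfl
      rw [e4]
      simp only [and_true, Bool.false_eq_true, and_false, if_false, reduceIte]
      split_ifs <;> omega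

theorem abs_pos_le (h : List Bool) : |pos h| ≤ h.length := by
  induction h with
  | nil => exact le_rfl
  | cons b h ih =>
    have e3 : pos (b :: h) = pos h + stp b := rfl
    rw [e3, List.length_cons]
    push_cast
    rw [abs_le] at ih ⊢
    cases b with
    | true =>
      have e4 : stp true = 1 := rfl
      rw [e4]
      omega
    | false =>
      have e4 : stp false = -1 := rfl
      rw [e4]
      omega

theorem far (h : List Bool) (k : ℤ) (hk : (h.length : ℤ) < |k|) : Lc k h = 0 ∧ Rc k h = 0 := by
  induction h with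
  | nil => exact ⟨rfl, rfl⟩
  | cons b h ih =>
    rw [List.length_cons] at hk
    push_cast at hk
    obtain ⟨h1, h2⟩ := ih (by omega)
    have h3 : pos h ≠ k := by
      rintro rfl
      have := abs_pos_le h
      omega
    have e1 : Rc k (b :: h) = Rc k h + if pos h = k ∧ b = true then 1 else 0 := rfl
    have e2 : Lc k (b :: h) = Lc k h + if pos h = k ∧ b = false then 1 else 0 := rfl
    rw [e1, e2, h1, h2, if_neg (fun h => h3 h.1), if_neg (fun h => h3 h.1)]
    exact ⟨rfl, rfl⟩

theorem total (h : List Bool) (M : ℕ) (hM : h.length ≤ M) :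
    h.length = ∑ k ∈ Finset.Icc (-(M : ℤ)) M, (Lc k h + Rc k h) := by
  induction h with
  | nil =>
    have : ∀ k : ℤ, Lc k [] + Rc k [] = 0 := fun _ => rfl
    simp [this]
  | cons b h ih =>
    rw [List.length_cons] at hM ⊢
    have hpos := abs_le.1 (abs_pos_le h)
    have h1 : ∀ k : ℤ, Lc k (b :: h) + Rc k (b :: h) = (Lc k h + Rc k h) +
        if k = pos h then 1 else 0 := by
      intro k
      rw [← pv_eq, ← pv_eq]
      show pv k h + (if pos h = k then 1 else 0) = _
      simp only [eq_comm]
    simp only [h1]
    rw [Finset.sum_add_distrib, ← ih (by omega), Finset.sum_ite_eq', if_pos]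
    rw [Finset.mem_Icc]
    constructor <;> omega

theorem last (a : ℤ → ℕ → Bool) (n : ℕ) (k : ℤ) (h1 : k < pos (hist a n))
    (h2 : 0 < pv k (hist a n)) : a k (pv k (hist a n)) = true := by
  induction n with
  | zero => exact absurd h2 (lt_irrefl 0)
  | succ n ih =>
    have e1 : hist a (n + 1) = a (pos (hist a n)) (vis (hist a n)) :: hist a n := rfl
    have e2 : pv k (hist a (n + 1)) = pv k (hist a n) + if pos (hist a n) = k then 1 else 0 := rfl
    have e3 : pos (hist a (n + 1)) = pos (hist a n) + stp (a (pos (hist a n)) (vis (hist a n))) := rfl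
    by_cases hk : pos (hist a n) = k
    · rw [e2, if_pos hk]
      rw [e3] at h1
      have e4 : vis (hist a n) = pv k (hist a n) + 1 := by rw [vis, hk]
      rw [hk, e4] at h1
      by_contra hb
      rw [Bool.not_eq_true] at hb
      rw [hb] at h1
      have e5 : stp false = -1 := rfl
      rw [e5] at h1
      omega
    · rw [e2, if_neg hk, add_zero]
      rw [e2, if_neg hk, add_zero] at h2
      refine ih ?_ h2
      rw [e3] at h1
      have h3 : stp (a (pos (hist a n)) (vis (hist a n))) ≤ 1 := by
        cases a (pos (hist a n)) (vis (hist a n)) with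
        | true => exact le_rfl
        | false => show (-1 : ℤ) ≤ 1; norm_num
      omega

theorem count (a : ℤ → ℕ → Bool) (n : ℕ) (k : ℤ) :
    ((Finset.range (pv k (hist a n))).filter fun i => a k (i + 1) = true).card =
      Rc k (hist a n) := by
  induction n with
  | zero => rfl
  | succ n ih =>
    have e2 : pv k (hist a (n + 1)) = pv k (hist a n) + if pos (hist a n) = k then 1 else 0 := rfl
    have e3 : Rc k (hist a (n + 1)) = Rc k (hist a n) + if pos (hist a n) = k ∧
        a (pos (hist a n)) (vis (hist a n)) = true then 1 else 0 := rfl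
    rw [e2, e3]
    by_cases hk : pos (hist a n) = k
    · have e4 : vis (hist a n) = pv k (hist a n) + 1 := by rw [vis, hk]
      rw [if_pos hk, Finset.range_add_one, Finset.filter_insert, hk, e4]
      by_cases hb : a k (pv k (hist a n) + 1) = true
      · rw [if_pos hb, if_pos ⟨rfl, hb⟩, Finset.card_insert_of_notMem (by simp), ih]
      · rw [if_neg hb, if_neg (fun h => hb h.2), ih]
        rfl
    · rw [if_neg hk, if_neg (fun h => hk h.1), add_zero, add_zero, ih]

end Cr_aux

open Cr_aux in
theorem tCr : S_Cr :=
  ⟨pv_eq, net, far, total, last, count⟩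

end MP0d3db7D1
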