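import Pool.Agent.Lib.MP_0d3db7.D1.Spec

/-!
# MP_0d3db7_pr, theorem D1: the law of the environment
-/

set_option autoImplicit false

namespace MP0d3db7D1

open MeasureTheory ProbabilityTheory Filter Topology Pool.Agent.MP0d3db7

theorem tCu : S_Cu := by
  intro Ω _ P _ ω hm hind hid
  have h1 : P.map (fun o (κ : ℤ × ℕ) => ω κ.1 κ.2 o) =
      Measure.infinitePi fun κ : ℤ × ℕ => P.map (ω κ.1 κ.2) :=
    hind.map_fun_eq_infinitePi_map fun κ => hm κ.1 κ.2
  have h2 : ∀ z i, P.map (ω z i) = P.map (ω 0 1) := fun z i => (hid z i).map_eq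
  have h3 : IsProbabilityMeasure (P.map (ω 0 1)) :=
    Measure.isProbabilityMeasure_map (hm 0 1).aemeasurable
  simp only [h2] at h1
  have h4 := Measure.infinitePi_map_curry (ι := ℤ) (κ := ℕ) (X := ℝ)
    (fun _ _ => P.map (ω 0 1))
  have h5 : Measurable fun o (κ : ℤ × ℕ) => ω κ.1 κ.2 o :=
    measurable_pi_lambda _ fun κ => hm κ.1 κ.2
  unfold PI St
  rw [← h4, ← h1, Measure.map_map (MeasurableEquiv.measurable _) h5]
  rfl

end MP0d3db7D1
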