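import Pool.Agent.Lib.MP_0d3db7.Defs

/-!
# MP_0d3db7_pr, theorem D1: definitions

Quenched central limit theorem, with random centering, for the one-dimensional excited random walk
with i.i.d. cookies and drift. Arrows: the walk uses the arrow `a z i` (`true` = right) at its `i`-th
visit of the site `z`. The histories, `pos`, `vis`, `wt`, `quenchE`, `Ex` are those of
`Lib/MP_0d3db7/Defs.lean`.
-/

set_option autoImplicit false

namespace MP0d3db7D1

open MeasureTheory ProbabilityTheory Filter Topology Pool.Agent.MP0d3db7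

/-! ### the walk driven by arrows -/

/-- the history of the walk driven by the arrows `a` -/
def hist (a : ℤ → ℕ → Bool) : ℕ → List Bool
  | 0 => []
  | n + 1 => a (pos (hist a n)) (vis (hist a n)) :: hist a n

/-- the number of steps to the left from `k` -/
def Lc (k : ℤ) : List Bool → ℕ
  | [] => 0
  | b :: h => Lc k h + if pos h = k ∧ b = false then 1 else 0

/-- the number of steps to the right from `k` -/
def Rc (k : ℤ) : List Bool → ℕ
  | [] => 0
  | b :: h => Rc k h + if pos h = k ∧ b = true then 1 else 0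

/-- infinitely many right arrows in the stack `a 1, a 2, …` -/
def Gd (a : ℕ → Bool) : Prop := ∃ᶠ i in atTop, a (i + 1) = true

open Classical in
/-- the number of left arrows before the `r`-th right arrow of the stack `a 1, a 2, …` -/
noncomputable def lf (a : ℕ → Bool) : ℕ → ℕ
  | 0 => 0
  | r + 1 => if Gd a then Nat.nth (fun i => a (i + 1) = true) r - r else 0

/-- the number of steps to the left from the site of `c 0` before the walk has passed the sites of
`c 0, …, c (m - 1)` -/
noncomputable def G : ℕ → (ℕ → ℕ → Bool) → ℕ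
  | 0, _ => 0
  | m + 1, c => lf (c 0) (G m (fun i => c (i + 1)) + 1)

/-- the number of steps to the left from the sites of `c 0, …, c (n - 1)` before the walk has passed
these sites -/
noncomputable def SS (n : ℕ) (c : ℕ → ℕ → Bool) : ℕ :=
  ∑ k ∈ Finset.range n, G (n - k) (fun i => c (k + i))

/-- the number of steps to the left from the site `-j`, if there are `x` steps to the left from `0` -/
noncomputable def Hh (a : ℤ → ℕ → Bool) (x : ℕ) : ℕ → ℕ
  | 0 => x
  | j + 1 => lf (a (-((j : ℤ) + 1))) (Hh a x j)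

/-- the sites `0, 1, 2, …` -/
def ps {X : Type} (a : ℤ → X) : ℕ → X := fun k => a k

/-- the number of steps to the left from the negative sites -/
noncomputable def nu (a : ℤ → ℕ → Bool) (n : ℕ) : ENNReal :=
  ∑' j : ℕ, (Hh a (G n (ps a)) (j + 1) : ENNReal)

open Classical in
/-- the arrows: `o z i` is the probability of a right arrow, `u z i` is uniform -/
noncomputable def ar {ι : Type} (o u : ι → ℕ → ℝ) : ι → ℕ → Bool :=
  fun z i => decide (u z i < o z i)

/-! ### the measures -/

/-- the uniform law on `[0, 1]` -/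
noncomputable def U01 : Measure ℝ := volume.restrict (Set.Icc 0 1)

instance : IsProbabilityMeasure U01 :=
  ⟨by rw [U01, Measure.restrict_apply_univ, Real.volume_Icc]; norm_num⟩

/-- one stack with i.i.d. entries -/
noncomputable def St {X : Type} [MeasurableSpace X] (μ : Measure X) : Measure (ℕ → X) :=
  Measure.infinitePi fun _ => μ

instance {X : Type} [MeasurableSpace X] (μ : Measure X) [IsProbabilityMeasure μ] :
    IsProbabilityMeasure (St μ) := by
  unfold St
  infer_instance

/-- i.i.d. stacks at the sites `ι` -/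
noncomputable def PI (ι : Type) {X : Type} [MeasurableSpace X] (μ : Measure X) :
    Measure (ι → ℕ → X) :=
  Measure.infinitePi fun _ => St μ

instance (ι : Type) {X : Type} [MeasurableSpace X] (μ : Measure X) [IsProbabilityMeasure μ] :
    IsProbabilityMeasure (PI ι μ) := by
  unfold PI
  infer_instance

/-- the law of one arrow -/
noncomputable def Ber (p : ℝ) : Measure Bool :=
  ENNReal.ofReal p • Measure.dirac true + ENNReal.ofReal (1 - p) • Measure.dirac false

/-- the law of one cookie: on `[0, 1]`, with mean `p` -/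
structure Law (μ₀ : Measure ℝ) (p : ℝ) : Prop where
  prob : IsProbabilityMeasure μ₀
  supp : ∀ᵐ x ∂μ₀, 0 ≤ x ∧ x ≤ 1
  mean : ∫ x, x ∂μ₀ = p

/-! ### interval functionals -/

section intervals

variable {A B : Type}

/-- the shift -/
def sh {X : Type} (k : ℕ) (x : ℕ → X) : ℕ → X := fun i => x (k + i)

/-- `f l` is a function of the sites `0, …, l` of the environment and of the uniform variables, with
fourth moments which decrease exponentially -/
structure IF [MeasurableSpace A] [MeasurableSpace B] (μ : Measure A) (ν : Measure B)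
    (f : ℕ → (ℕ → A) → (ℕ → B) → ℝ) (C θ : ℝ) : Prop where
  meas : ∀ l, Measurable fun x : (ℕ → A) × (ℕ → B) => f l x.1 x.2
  nonneg : ∀ l o u, 0 ≤ f l o u
  dep : ∀ l o o' u u', (∀ i ≤ l, o i = o' i) → (∀ i ≤ l, u i = u' i) → f l o u = f l o' u'
  c0 : 0 ≤ C
  t0 : 0 < θ
  t1 : θ < 1
  mom : ∀ l, ∫⁻ x, ENNReal.ofReal (f l x.1 x.2 ^ 4) ∂(St μ).prod (St ν) ≤
    ENNReal.ofReal (C * θ ^ (4 * l))

/-- the sum over all intervals `[k, k + l]` in `[0, n)` -/
noncomputable def SN (f : ℕ → (ℕ → A) → (ℕ → B) → ℝ) (n : ℕ) (o : ℕ → A) (u : ℕ → B) : ℝ :=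
  ∑ k ∈ Finset.range n, ∑ l ∈ Finset.range (n - k), f l (sh k o) (sh k u)

/-- the quenched mean of `SN` -/
noncomputable def mh [MeasurableSpace B] (ν : Measure B) (f : ℕ → (ℕ → A) → (ℕ → B) → ℝ) (n : ℕ)
    (o : ℕ → A) : ℝ := ∫ u, SN f n o u ∂St ν

/-- the quenched variance of `SN` -/
noncomputable def vq [MeasurableSpace B] (ν : Measure B) (f : ℕ → (ℕ → A) → (ℕ → B) → ℝ) (n : ℕ)
    (o : ℕ → A) : ℝ := ∫ u, (SN f n o u - mh ν f n o) ^ 2 ∂St ν

/-- its mean -/
noncomputable def VL [MeasurableSpace A] [MeasurableSpace B] (μ : Measure A) (ν : Measure B)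
    (f : ℕ → (ℕ → A) → (ℕ → B) → ℝ) (n : ℕ) : ℝ := ∫ o, vq ν f n o ∂St μ

/-- the environment `o` is good: all fourth moments are finite -/
def F4 [MeasurableSpace B] (ν : Measure B) (f : ℕ → (ℕ → A) → (ℕ → B) → ℝ) (o : ℕ → A) : Prop :=
  ∀ l k, MemLp (fun u => f l (sh k o) (sh k u)) 4 (St ν)

/-- the sum of the blocks `[j L, j L + L)`, `j < J` -/
noncomputable def MB (f : ℕ → (ℕ → A) → (ℕ → B) → ℝ) (L J : ℕ) (o : ℕ → A) (u : ℕ → B) : ℝ :=
  ∑ j ∈ Finset.range J, SN f L (sh (j * L) o) (sh (j * L) u)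

/-- the sum over the intervals `[k, k + l]` in `[0, N)` which are not in one block of length `L` -/
noncomputable def RB (f : ℕ → (ℕ → A) → (ℕ → B) → ℝ) (L N : ℕ) (o : ℕ → A) (u : ℕ → B) : ℝ :=
  ∑ l ∈ Finset.range N, ∑ k ∈ (Finset.range (N - l)).filter (fun k => L ≤ k % L + l),
    f l (sh k o) (sh k u)

/-- the bound of the variance of `RB` -/
noncomputable def WB [MeasurableSpace B] (ν : Measure B) (f : ℕ → (ℕ → A) → (ℕ → B) → ℝ) (θ : ℝ)
    (L N : ℕ) (o : ℕ → A) : ℝ :=
  ∑ l ∈ Finset.range N, ∑ k ∈ (Finset.range (N - l)).filter (fun k => L ≤ k % L + l),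
    ((l : ℝ) + 1) * (θ ^ l)⁻¹ * ∫ u, f l (sh k o) (sh k u) ^ 2 ∂St ν

/-- the characteristic function of the centered and normed sum, for fixed `o` -/
noncomputable def ph [MeasurableSpace B] (ν : Measure B) (f : ℕ → (ℕ → A) → (ℕ → B) → ℝ) (n : ℕ)
    (o : ℕ → A) (t : ℝ) : ℂ :=
  ∫ u, Complex.exp (((t * ((SN f n o u - mh ν f n o) / Real.sqrt n) : ℝ) : ℂ) * Complex.I) ∂St ν

end intervals

/-- the interval functionals of the walk -/
noncomputable def fw (l : ℕ) (o u : ℕ → ℕ → ℝ) : ℝ :=
  (G (l + 1) (ar o u) : ℝ) - G l (ar o u)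

/-- the centering of the hitting times -/
noncomputable def mm (o : ℤ → ℕ → ℝ) (k : ℕ) : ℝ := k + 2 * mh (St U01) fw k (ps o)

end MP0d3db7D1
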