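import Pool.Agent.Lib.MP_0d3db7.Lim

/-!
# MP_0d3db7_pr, theorem D1: cookies in `{0, 1}`
-/

set_option autoImplicit false

namespace MP0d3db7D1

open MeasureTheory ProbabilityTheory Filter Topology Pool.Agent.MP0d3db7

namespace Deg_aux

theorem Ex_det {β : List Bool → ℝ} (hβ : ∀ h, β h = 0 ∨ β h = 1) (n : ℕ) :
    ∀ h : List Bool, ∃ h', ∀ Φ, Ex β Φ n h = Φ h' := by
  induction n with
  | zero => exact fun h => ⟨h, fun Φ => rfl⟩
  | succ n ih =>
    intro h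
    rcases hβ h with h0 | h1
    · obtain ⟨h', hh⟩ := ih (false :: h)
      refine ⟨h', fun Φ => ?_⟩
      show β h * Ex β Φ n (true :: h) + (1 - β h) * Ex β Φ n (false :: h) = _
      rw [h0, hh Φ]
      ring
    · obtain ⟨h', hh⟩ := ih (true :: h)
      refine ⟨h', fun Φ => ?_⟩
      show β h * Ex β Φ n (true :: h) + (1 - β h) * Ex β Φ n (false :: h) = _
      rw [h1, hh Φ]
      ring

theorem det {w : ℤ → ℕ → ℝ} (hw : ∀ z i, w z i = 0 ∨ w z i = 1) (n : ℕ) :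
    ∃ x : ℤ, ∀ g : ℤ → ℝ, quenchE w n g = g x := by
  obtain ⟨h', hh⟩ := Ex_det (β := fun h => w (pos h) (vis h)) (fun h => hw _ _) n []
  refine ⟨pos h', fun g => ?_⟩
  rw [quenchE_eq, hh]

theorem lim {w : ℤ → ℕ → ℝ} (hw : ∀ z i, w z i = 0 ∨ w z i = 1) (c : ℕ → ℝ) (μ : Measure ℝ)
    [IsProbabilityMeasure μ] (h : ∀ f : BoundedContinuousFunction ℝ ℝ, Tendsto (fun n : ℕ =>
      quenchE w n fun x => f ((x - c n) / Real.sqrt n)) atTop (𝓝 (∫ x, f x ∂μ))) :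
    ∃ x, μ = Measure.dirac x := by
  have hbd : ∀ x : ℝ, |Real.arctan x| ≤ 2 := by
    intro x
    have h1 := Real.arctan_lt_pi_div_two x
    have h2 := Real.neg_pi_div_two_lt_arctan x
    have h3 := Real.pi_lt_four
    rw [abs_le]
    constructor <;> linarith
  let f1 : BoundedContinuousFunction ℝ ℝ := BoundedContinuousFunction.ofNormedAddCommGroup
    Real.arctan Real.continuous_arctan 2 fun x => by rw [Real.norm_eq_abs]; exact hbd x
  let f2 : BoundedContinuousFunction ℝ ℝ := BoundedContinuousFunction.ofNormedAddCommGroup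
    (fun x => Real.arctan x ^ 2) (Real.continuous_arctan.pow 2) 4 fun x => by
      rw [Real.norm_eq_abs, abs_pow]
      calc |Real.arctan x| ^ 2 ≤ 2 ^ 2 := pow_le_pow_left₀ (abs_nonneg _) (hbd x) 2
        _ = 4 := by norm_num
  refine dirac_of_var ?_
  have h1 := h f1
  have h2 := h f2
  have h3 : Tendsto (fun n : ℕ => quenchE w n (fun x => f2 ((x - c n) / Real.sqrt n)) -
      (quenchE w n fun x => f1 ((x - c n) / Real.sqrt n)) ^ 2) atTop
      (𝓝 ((∫ x, f2 x ∂μ) - (∫ x, f1 x ∂μ) ^ 2)) := h2.sub (h1.pow 2)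
  have h4 : ∀ n : ℕ, quenchE w n (fun x => f2 ((x - c n) / Real.sqrt n)) -
      (quenchE w n fun x => f1 ((x - c n) / Real.sqrt n)) ^ 2 = 0 := by
    intro n
    obtain ⟨x, hx⟩ := det hw n
    rw [hx, hx]
    show Real.arctan _ ^ 2 - Real.arctan _ ^ 2 = 0
    ring
  simp only [h4] at h3
  have h5 := tendsto_nhds_unique h3 tendsto_const_nhds
  exact le_of_eq h5

end Deg_aux

/-- cookies in `{0, 1}`: the walk is deterministic, given the environment -/
theorem deg {Ω : Type} [MeasurableSpace Ω] (P : Measure Ω) [IsProbabilityMeasure P]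
    (ω : ℤ → ℕ → Ω → ℝ) (h01 : ∀ z i o, ω z i o ∈ Set.Icc (0 : ℝ) 1)
    (hid : ∀ z i, IdentDistrib (ω z i) (ω 0 1) P P)
    (hd : P {o | 0 < ω 0 1 o ∧ ω 0 1 o < 1} = 0) :
    ∀ᵐ o ∂P, ∀ (c : ℕ → ℝ) (μ : Measure ℝ), IsProbabilityMeasure μ →
      (∀ f : BoundedContinuousFunction ℝ ℝ, Tendsto (fun n : ℕ =>
        quenchE (fun z i => ω z i o) n fun x => f ((x - c n) / Real.sqrt n)) atTop
          (𝓝 (∫ x, f x ∂μ))) →
      ∃ x, μ = Measure.dirac x := by
  have h1 : ∀ z i, ∀ᵐ o ∂P, ω z i o = 0 ∨ ω z i o = 1 := by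
    intro z i
    have h2 : P {o | 0 < ω z i o ∧ ω z i o < 1} = 0 := by
      have h3 := (hid z i).measure_mem_eq (measurableSet_Ioo (a := (0 : ℝ)) (b := 1))
      have h4 : {o | 0 < ω z i o ∧ ω z i o < 1} = ω z i ⁻¹' Set.Ioo 0 1 := rfl
      have h5 : {o | 0 < ω 0 1 o ∧ ω 0 1 o < 1} = ω 0 1 ⁻¹' Set.Ioo 0 1 := rfl
      rw [h4, h3, ← h5, hd]
    have h6 := measure_eq_zero_iff_ae_notMem.1 h2
    filter_upwards [h6] with o ho
    have h7 := h01 z i o
    by_contra hcon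
    push Not at hcon
    exact ho ⟨lt_of_le_of_ne h7.1 (Ne.symm hcon.1), lt_of_le_of_ne h7.2 hcon.2⟩
  have h2 : ∀ᵐ o ∂P, ∀ z i, ω z i o = 0 ∨ ω z i o = 1 := by
    rw [ae_all_iff]
    intro z
    rw [ae_all_iff]
    exact h1 z
  filter_upwards [h2] with o ho c μ hμ h
  exact Deg_aux.lim (w := fun z i => ω z i o) ho c μ h

end MP0d3db7D1
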