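import Pool.Agent.Lib.MP_0d3db7.D1.Spec

/-!
# MP_0d3db7_pr, theorem D1: the hitting time (deterministic)
-/

set_option autoImplicit false

namespace MP0d3db7D1

open MeasureTheory ProbabilityTheory Filter Topology Pool.Agent.MP0d3db7

namespace Dt_aux

theorem length_hist (a : ℤ → ℕ → Bool) (n : ℕ) : (hist a n).length = n := by
  induction n with
  | zero => rfl
  | succ n ih => simp [hist, ih]

theorem pos_lt (a : ℤ → ℕ → Bool) (n N : ℕ) (h : ∀ m < N, pos (hist a m) ≠ n) :
    ∀ m < N, pos (hist a m) < n := by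
  intro m
  induction m with
  | zero =>
    intro hm
    have h0 := h 0 hm
    have h1 : pos (hist a 0) = 0 := rfl
    rw [h1] at h0 ⊢
    omega
  | succ m ih =>
    intro hm
    have h1 := ih (by omega)
    have h2 := h (m + 1) hm
    have h3 : pos (hist a (m + 1)) =
        pos (hist a m) + stp (a (pos (hist a m)) (vis (hist a m))) := rfl
    have h4 : stp (a (pos (hist a m)) (vis (hist a m))) ≤ 1 := by
      unfold stp
      split_ifs <;> norm_num
    omega

theorem pv_zero (a : ℤ → ℕ → Bool) (k : ℤ) (N : ℕ) (h : ∀ m < N, pos (hist a m) ≠ k) :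
    pv k (hist a N) = 0 := by
  induction N with
  | zero => rfl
  | succ N ih =>
    have h1 := ih fun m hm => h m (by omega)
    have h2 := h N (by omega)
    change pv k (hist a N) + (if pos (hist a N) = k then 1 else 0) = 0
    rw [h1, if_neg h2]

theorem lf_eq (a : ℕ → Bool) (hG : Gd a) (m R L : ℕ) (hm : a (m + 1) = true)
    (hc : ((Finset.range (m + 1)).filter fun i => a (i + 1) = true).card = R)
    (hL : m + 1 = L + R) : lf a R = L := by
  have h1 : Nat.count (fun i => a (i + 1) = true) (m + 1) = R := by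
    rw [Nat.count_eq_card_filter_range]
    exact hc
  rw [Nat.count_succ, if_pos hm] at h1
  have h2 : Nat.nth (fun i => a (i + 1) = true) (Nat.count (fun i => a (i + 1) = true) m) = m :=
    Nat.nth_count hm
  rw [← h1]
  rw [lf, if_pos hG, h2]
  omega

theorem sum_Icc (f : ℤ → ℕ) (M : ℕ) : ∑ k ∈ Finset.Icc (-(M : ℤ)) M, f k =
    ∑ k ∈ Finset.range (M + 1), f k + ∑ j ∈ Finset.range M, f (-((j : ℤ) + 1)) := by
  induction M with
  | zero => simp
  | succ M ih =>
    have h1 : Finset.Icc (-((M + 1 : ℕ) : ℤ)) ((M + 1 : ℕ) : ℤ) =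
        insert (((M + 1 : ℕ) : ℤ)) (insert (-((M : ℤ) + 1)) (Finset.Icc (-(M : ℤ)) M)) := by
      ext x
      simp only [Finset.mem_Icc, Finset.mem_insert]
      push_cast
      omega
    rw [h1, Finset.sum_insert, Finset.sum_insert, ih, Finset.sum_range_succ _ (M + 1),
      Finset.sum_range_succ (fun j : ℕ => f (-((j : ℤ) + 1))) M]
    · ring
    · simp only [Finset.mem_Icc]
      omega
    · simp only [Finset.mem_Icc, Finset.mem_insert]
      push_cast
      omega

end Dt_aux

open Dt_aux in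
theorem tDt (hCr : S_Cr) : S_Dt := by
  intro a hG n N hpos hne
  obtain ⟨hc1, hc2, hc3, hc4, hc5, hc6⟩ := hCr
  obtain ⟨h, hh⟩ : ∃ h, h = hist a N := ⟨_, rfl⟩
  have hlen : h.length = N := by rw [hh, length_hist]
  have hposh : pos h = n := by rw [hh]; exact hpos
  -- the sites not visited
  have hz : ∀ k : ℤ, (n : ℤ) ≤ k → Lc k h = 0 ∧ Rc k h = 0 := by
    intro k hk
    have h1 : pv k h = 0 := by
      rw [hh]
      refine pv_zero a k N fun m hm he => ?_
      have h2 := pos_lt a n N hne m hm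
      omega
    have h2 := hc1 h k
    omega
  -- the sites below `n`
  have hl : ∀ k : ℤ, k < n → Lc k h = lf (a k) (Rc k h) := by
    intro k hk
    have h1 := hc1 h k
    rcases Nat.eq_zero_or_pos (pv k h) with h0 | h0
    · have h2 : Rc k h = 0 := by omega
      have h3 : Lc k h = 0 := by omega
      rw [h2, h3]
      rfl
    · obtain ⟨m, hm⟩ : ∃ m, pv k h = m + 1 := ⟨pv k h - 1, by omega⟩
      have h2 : a k (pv k h) = true := by
        rw [hh] at h0 ⊢
        exact hc5 a N k (by rw [hpos]; exact hk) h0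
      have h3 : ((Finset.range (pv k h)).filter fun i => a k (i + 1) = true).card = Rc k h := by
        rw [hh]
        exact hc6 a N k
      rw [hm] at h1 h2 h3
      exact (lf_eq (a k) (hG k) m _ _ h2 h3 h1).symm
  have hr1 : ∀ k : ℕ, Rc k h = Lc ((k : ℤ) + 1) h + if k < n then 1 else 0 := by
    intro k
    have h1 := hc2 h k
    rw [hposh] at h1
    rw [if_neg (show ¬ ((n : ℤ) ≤ k ∧ (k : ℤ) < 0) by omega)] at h1
    by_cases hk : k < n
    · rw [if_pos (show (0 : ℤ) ≤ k ∧ (k : ℤ) < n by omega)] at h1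
      rw [if_pos hk]
      omega
    · rw [if_neg (show ¬ ((0 : ℤ) ≤ k ∧ (k : ℤ) < n) by omega)] at h1
      rw [if_neg hk]
      omega
  have hr2 : ∀ j : ℕ, Rc (-((j : ℤ) + 1)) h = Lc (-(j : ℤ)) h := by
    intro j
    have h1 := hc2 h (-((j : ℤ) + 1))
    rw [hposh, if_neg (show ¬ ((0 : ℤ) ≤ -((j : ℤ) + 1) ∧ -((j : ℤ) + 1) < n) by omega),
      if_neg (show ¬ ((n : ℤ) ≤ -((j : ℤ) + 1) ∧ -((j : ℤ) + 1) < 0) by omega)] at h1
    have h2 : -((j : ℤ) + 1) + 1 = -(j : ℤ) := by ring
    rw [h2] at h1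
    omega
  -- the functions `G`
  have hE : ∀ j : ℕ, ∀ k : ℕ, k + j = n → Lc (k : ℤ) h = G j (fun i => ps a (k + i)) := by
    intro j
    induction j with
    | zero =>
      intro k hk
      exact (hz k (by omega)).1
    | succ j ih =>
      intro k hk
      have h1 := hl k (by omega)
      have h2 := hr1 k
      rw [if_pos (by omega)] at h2
      have h3 := ih (k + 1) (by omega)
      push_cast at h3
      rw [h1, h2, h3]
      change lf (a k) (G j (fun i => ps a (k + 1 + i)) + 1) =
        lf (ps a (k + 0)) (G j (fun i => ps a (k + (i + 1))) + 1)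
      have h4 : (fun i => ps a (k + 1 + i)) = fun i => ps a (k + (i + 1)) := by
        funext i
        congr 1
        ring
      rw [h4]
      rfl
  have h0 : Lc 0 h = G n (ps a) := by
    have h1 := hE n 0 (by omega)
    have h2 : (fun i => ps a (0 + i)) = ps a := by
      funext i
      rw [zero_add]
    rw [h2] at h1
    exact_mod_cast h1
  have hF : ∀ j : ℕ, Lc (-(j : ℤ)) h = Hh a (G n (ps a)) j := by
    intro j
    induction j with
    | zero =>
      change Lc (-((0 : ℕ) : ℤ)) h = G n (ps a)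
      rw [← h0]
      simp
    | succ j ih =>
      have h1 := hl (-((j : ℤ) + 1)) (by omega)
      rw [hr2, ih] at h1
      push_cast
      exact h1
  -- the sums
  obtain ⟨M, hM⟩ : ∃ M : ℕ, M = N + n + 1 := ⟨_, rfl⟩
  have hsum := hc4 h M (by omega)
  rw [hlen, Finset.sum_add_distrib, sum_Icc, sum_Icc] at hsum
  have hR1 : ∑ k ∈ Finset.range (M + 1), Rc (k : ℤ) h =
      ∑ k ∈ Finset.range (M + 1), Lc ((k : ℤ) + 1) h + n := by
    rw [Finset.sum_congr rfl fun k _ => hr1 k, Finset.sum_add_distrib]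
    congr 1
    rw [← Finset.sum_filter]
    have h1 : (Finset.range (M + 1)).filter (fun k => k < n) = Finset.range n := by
      ext k
      simp only [Finset.mem_filter, Finset.mem_range]
      omega
    rw [h1]
    simp
  have hT1 : ∑ k ∈ Finset.range (M + 1), Lc ((k : ℤ) + 1) h + Lc 0 h =
      ∑ k ∈ Finset.range (M + 1), Lc (k : ℤ) h := by
    have h1 := Finset.sum_range_succ' (fun k : ℕ => Lc (k : ℤ) h) (M + 1)
    have h2 := Finset.sum_range_succ (fun k : ℕ => Lc (k : ℤ) h) (M + 1)
    have h3 : Lc (((M + 1 : ℕ) : ℤ)) h = 0 := (hz _ (by omega)).1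
    rw [h2, h3, add_zero] at h1
    push_cast at h1
    exact h1.symm
  have hT2 : ∑ j ∈ Finset.range M, Rc (-((j : ℤ) + 1)) h =
      Lc 0 h + ∑ j ∈ Finset.range M, Lc (-((j : ℤ) + 1)) h := by
    rw [Finset.sum_congr rfl fun j _ => hr2 j]
    have h1 := Finset.sum_range_succ' (fun k : ℕ => Lc (-(k : ℤ)) h) M
    have h2 := Finset.sum_range_succ (fun k : ℕ => Lc (-(k : ℤ)) h) M
    have h3 : Lc (-(M : ℤ)) h = 0 := by
      refine (hc3 h (-(M : ℤ)) ?_).1
      rw [abs_neg, Nat.abs_cast, hlen, hM]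
      push_cast
      omega
    rw [h2, h3, add_zero] at h1
    push_cast at h1
    rw [neg_zero] at h1
    omega
  have hS1 : ∑ k ∈ Finset.range (M + 1), Lc (k : ℤ) h = SS n (ps a) := by
    rw [SS]
    have h1 : Finset.range n ⊆ Finset.range (M + 1) := by
      intro k hk
      rw [Finset.mem_range] at hk ⊢
      omega
    rw [← Finset.sum_subset h1]
    · refine Finset.sum_congr rfl fun k hk => ?_
      rw [Finset.mem_range] at hk
      exact hE (n - k) k (by omega)
    · intro k _ hk
      rw [Finset.mem_range] at hk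
      exact (hz k (by omega)).1
  have hS2 : ∀ j : ℕ, Lc (-((j : ℤ) + 1)) h = Hh a (G n (ps a)) (j + 1) := by
    intro j
    have h1 := hF (j + 1)
    push_cast at h1
    exact h1
  have hnu : nu a n = ((∑ j ∈ Finset.range M, Lc (-((j : ℤ) + 1)) h : ℕ) : ENNReal) := by
    rw [nu, tsum_eq_sum (s := Finset.range M)]
    · push_cast
      exact Finset.sum_congr rfl fun j _ => by rw [hS2]
    · intro j hj
      rw [Finset.mem_range] at hj
      have h1 : Lc (-((j : ℤ) + 1)) h = 0 := by
        refine (hc3 h _ ?_).1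
        rw [abs_neg, hlen]
        have h2 : |(j : ℤ) + 1| = (j : ℤ) + 1 := abs_of_nonneg (by positivity)
        rw [h2]
        omega
      rw [← hS2, h1, Nat.cast_zero]
  refine ⟨by rw [hnu]; exact ENNReal.natCast_ne_top _, ?_⟩
  rw [hnu, ENNReal.toReal_natCast]
  have hfin : N = n + 2 * SS n (ps a) + 2 * ∑ j ∈ Finset.range M, Lc (-((j : ℤ) + 1)) h := by
    omega
  exact_mod_cast hfin

end MP0d3db7D1
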