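import Pool.Agent.Lib.MP_0d3db7.D1.Spec

set_option autoImplicit false

namespace MP0d3db7D1

open MeasureTheory ProbabilityTheory Filter Topology Pool.Agent.MP0d3db7

namespace F4_aux

/-- Finite fourth moment from the lower integral. -/
theorem memLp4 {Ω : Type} [MeasurableSpace Ω] (P : Measure Ω) (g : Ω → ℝ) (hg : Measurable g)
    (h0 : ∀ o, 0 ≤ g o) (h : ∫⁻ o, ENNReal.ofReal (g o ^ 4) ∂P < ⊤) : MemLp g 4 P := by
  refine ⟨hg.aestronglyMeasurable, ?_⟩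
  rw [eLpNorm_lt_top_iff_lintegral_rpow_enorm_lt_top (by norm_num) (by norm_num)]
  have h1 : ∀ o, ‖g o‖ₑ ^ (4 : ENNReal).toReal = ENNReal.ofReal (g o ^ 4) := by
    intro o
    rw [Real.enorm_of_nonneg (h0 o)]
    have h2 : (4 : ENNReal).toReal = ((4 : ℕ) : ℝ) := by norm_num
    rw [h2, ENNReal.rpow_natCast, ENNReal.ofReal_pow (h0 o)]
  rw [lintegral_congr h1]
  exact h

end F4_aux

theorem tF4 (hSh : S_Sh) : S_F4 := by
  intro A B _ _ μ ν _ _ f C θ hf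
  have hprod : ∀ k : ℕ, MeasurePreserving
      (Prod.map (sh k : (ℕ → A) → (ℕ → A)) (sh k : (ℕ → B) → (ℕ → B)))
      ((St μ).prod (St ν)) ((St μ).prod (St ν)) := fun k =>
    (hSh.1 A μ k).prod (hSh.1 B ν k)
  have h1 : ∀ l k, Measurable fun x : (ℕ → A) × (ℕ → B) => f l (sh k x.1) (sh k x.2) :=
    fun l k => (hf.meas l).comp (hprod k).measurable
  have h2 : ∀ l k, ∫⁻ x, ENNReal.ofReal (f l (sh k x.1) (sh k x.2) ^ 4) ∂(St μ).prod (St ν) ≤
      ENNReal.ofReal (C * θ ^ (4 * l)) := by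
    intro l k
    have h3 := (hprod k).lintegral_comp
      (f := fun x : (ℕ → A) × (ℕ → B) => ENNReal.ofReal (f l x.1 x.2 ^ 4))
      (((hf.meas l).pow_const 4).ennreal_ofReal)
    exact le_trans (le_of_eq h3) (hf.mom l)
  refine ⟨h1, h2, ?_⟩
  have h4 : ∀ l k, ∀ᵐ o ∂St μ,
      ∫⁻ u, ENNReal.ofReal (f l (sh k o) (sh k u) ^ 4) ∂St ν < ⊤ := by
    intro l k
    have hm : Measurable fun x : (ℕ → A) × (ℕ → B) =>
        ENNReal.ofReal (f l (sh k x.1) (sh k x.2) ^ 4) := ((h1 l k).pow_const 4).ennreal_ofReal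
    have h5 : ∫⁻ o, ∫⁻ u, ENNReal.ofReal (f l (sh k o) (sh k u) ^ 4) ∂St ν ∂St μ ≠ ⊤ := by
      have h6 := lintegral_prod (μ := St μ) (ν := St ν)
        (fun x : (ℕ → A) × (ℕ → B) => ENNReal.ofReal (f l (sh k x.1) (sh k x.2) ^ 4))
        hm.aemeasurable
      rw [← h6]
      exact ne_top_of_le_ne_top ENNReal.ofReal_ne_top (h2 l k)
    exact ae_lt_top (Measurable.lintegral_prod_right' hm) h5
  have h7 : ∀ᵐ o ∂St μ, ∀ l k, ∫⁻ u, ENNReal.ofReal (f l (sh k o) (sh k u) ^ 4) ∂St ν < ⊤ := by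
    rw [ae_all_iff]
    intro l
    rw [ae_all_iff]
    exact h4 l
  filter_upwards [h7] with o ho l k
  refine F4_aux.memLp4 (St ν) (fun u => f l (sh k o) (sh k u)) ?_
    (fun u => hf.nonneg l _ _) (ho l k)
  exact (h1 l k).comp measurable_prodMk_left

end MP0d3db7D1
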