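import Pool.Agent.Lib.MP_0d3db7.D1.Spec

/-! MP_0d3db7_pr, theorem D1: fourth moments of sums of interval functions. -/

set_option autoImplicit false

namespace MP0d3db7D1

open MeasureTheory ProbabilityTheory Filter Topology Pool.Agent.MP0d3db7

namespace Fd_aux

lemma pow4 {ι : Type} (s : Finset ι) (a : ι → ℝ) :
    (∑ c ∈ s, a c) ^ 4 ≤ (s.card : ℝ) ^ 3 * ∑ c ∈ s, a c ^ 4 := by
  have h1 : (∑ c ∈ s, a c) ^ 2 ≤ (s.card : ℝ) * ∑ c ∈ s, a c ^ 2 := sq_sum_le_card_mul_sum_sq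
  have h2 : (∑ c ∈ s, a c ^ 2) ^ 2 ≤ (s.card : ℝ) * ∑ c ∈ s, (a c ^ 2) ^ 2 :=
    sq_sum_le_card_mul_sum_sq
  have h3 : ∑ c ∈ s, (a c ^ 2) ^ 2 = ∑ c ∈ s, a c ^ 4 :=
    Finset.sum_congr rfl fun c _ => by ring
  rw [h3] at h2
  have h4 : 0 ≤ (∑ c ∈ s, a c) ^ 2 := sq_nonneg _
  have hc : (0 : ℝ) ≤ (s.card : ℝ) := Nat.cast_nonneg _
  calc (∑ c ∈ s, a c) ^ 4 = ((∑ c ∈ s, a c) ^ 2) ^ 2 := by ring
    _ ≤ ((s.card : ℝ) * ∑ c ∈ s, a c ^ 2) ^ 2 := pow_le_pow_left₀ h4 h1 2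
    _ = (s.card : ℝ) ^ 2 * (∑ c ∈ s, a c ^ 2) ^ 2 := by ring
    _ ≤ (s.card : ℝ) ^ 2 * ((s.card : ℝ) * ∑ c ∈ s, a c ^ 4) :=
        mul_le_mul_of_nonneg_left h2 (by positivity)
    _ = _ := by ring

lemma integrable4 {Ω : Type} [MeasurableSpace Ω] {P : Measure Ω} {f : Ω → ℝ} (h : MemLp f 4 P) :
    Integrable (fun u => f u ^ 4) P := by
  have h1 : Integrable (fun u => ‖f u‖ ^ 4) P := by
    have := h.integrable_norm_pow (p := 4) (by norm_num)
    exact this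
  refine h1.congr (Eventually.of_forall fun u => ?_)
  have h2 : ‖f u‖ ^ 2 = f u ^ 2 := by rw [Real.norm_eq_abs, sq_abs]
  change ‖f u‖ ^ 4 = f u ^ 4
  calc ‖f u‖ ^ 4 = (‖f u‖ ^ 2) ^ 2 := by ring
    _ = (f u ^ 2) ^ 2 := by rw [h2]
    _ = f u ^ 4 := by ring

end Fd_aux

theorem tFd (hInd : S_Ind) (hFi : S_Fi) : S_Fd := by
  intro B _ ν _ l K z M hz hdep hmem hmean hM
  rcases K.eq_empty_or_nonempty with hK | hK
  · subst hK
    simp
  have hM0 : 0 ≤ M := by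
    obtain ⟨k, hk⟩ := hK
    refine le_trans (integral_nonneg fun u => ?_) (hM k hk)
    exact (by decide : Even 4).pow_nonneg _
  set Kc : ℕ → Finset ℕ := fun c => K.filter (fun k => k % (l + 1) = c) with hKc
  have hmaps : ∀ k ∈ K, k % (l + 1) ∈ Finset.range (l + 1) := fun k _ =>
    Finset.mem_range.2 (Nat.mod_lt _ (Nat.succ_pos l))
  have hsum : ∀ u, ∑ k ∈ K, z k u = ∑ c ∈ Finset.range (l + 1), ∑ k ∈ Kc c, z k u := fun u =>
    (Finset.sum_fiberwise_of_maps_to hmaps (fun k => z k u)).symm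
  have hcard : K.card = ∑ c ∈ Finset.range (l + 1), (Kc c).card :=
    Finset.card_eq_sum_card_fiberwise hmaps
  have hsub : ∀ c, Kc c ⊆ K := fun c => Finset.filter_subset _ _
  -- each class
  have hclass : ∀ c, ∫ u, (∑ k ∈ Kc c, z k u) ^ 4 ∂St ν ≤ 3 * ((Kc c).card : ℝ) ^ 2 * M := by
    intro c
    refine hFi (ℕ → B) (St ν) (Kc c) z M ?_ hz (fun k hk => hmem k (hsub c hk))
      (fun k hk => hmean k (hsub c hk)) (fun k hk => hM k (hsub c hk))
    have h1 := hInd ℕ (Kc c) B ν (fun j => Finset.Icc (j : ℕ) (j + l)) (fun j => z j) ?_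
      (fun j => hz j) ?_
    · exact h1
    · intro j j' hjj
      have hne : (j : ℕ) ≠ j' := fun h => hjj (Subtype.ext h)
      have hj : (j : ℕ) % (l + 1) = c := (Finset.mem_filter.1 j.2).2
      have hj' : (j' : ℕ) % (l + 1) = c := (Finset.mem_filter.1 j'.2).2
      rw [Finset.disjoint_left]
      intro x hx hx'
      rw [Finset.mem_Icc] at hx hx'
      have hd := Nat.div_add_mod (j : ℕ) (l + 1)
      have hd' := Nat.div_add_mod (j' : ℕ) (l + 1)
      rw [hj] at hd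
      rw [hj'] at hd'
      rcases lt_trichotomy ((j : ℕ) / (l + 1)) ((j' : ℕ) / (l + 1)) with h | h | h
      · have : (l + 1) * ((j : ℕ) / (l + 1) + 1) ≤ (l + 1) * ((j' : ℕ) / (l + 1)) :=
          Nat.mul_le_mul_left _ h
        rw [mul_add] at this
        omega
      · rw [h] at hd
        omega
      · have : (l + 1) * ((j' : ℕ) / (l + 1) + 1) ≤ (l + 1) * ((j : ℕ) / (l + 1)) :=
          Nat.mul_le_mul_left _ h
        rw [mul_add] at this
        omega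
    · intro j
      have := hdep j
      rwa [Finset.coe_Icc]
  have hmemc : ∀ c, MemLp (fun u => ∑ k ∈ Kc c, z k u) 4 (St ν) := fun c =>
    memLp_finsetSum _ fun k hk => hmem k (hsub c hk)
  have hint : ∀ c, Integrable (fun u => (∑ k ∈ Kc c, z k u) ^ 4) (St ν) := fun c =>
    Fd_aux.integrable4 (hmemc c)
  have hintK : Integrable (fun u => (∑ k ∈ K, z k u) ^ 4) (St ν) :=
    Fd_aux.integrable4 (memLp_finsetSum _ fun k hk => hmem k hk)
  have hstep : ∫ u, (∑ k ∈ K, z k u) ^ 4 ∂St ν ≤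
      ((l : ℝ) + 1) ^ 3 * ∑ c ∈ Finset.range (l + 1), ∫ u, (∑ k ∈ Kc c, z k u) ^ 4 ∂St ν := by
    rw [← integral_finsetSum _ fun c _ => hint c, ← integral_const_mul]
    refine integral_mono hintK ((integrable_finsetSum _ fun c _ => hint c).const_mul _) fun u => ?_
    have h1 := Fd_aux.pow4 (Finset.range (l + 1)) (fun c => ∑ k ∈ Kc c, z k u)
    rw [Finset.card_range] at h1
    push_cast at h1
    rw [← hsum u] at h1
    exact h1
  refine hstep.trans ?_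
  have hsq : ∑ c ∈ Finset.range (l + 1), ((Kc c).card : ℝ) ^ 2 ≤ (K.card : ℝ) ^ 2 := by
    calc ∑ c ∈ Finset.range (l + 1), ((Kc c).card : ℝ) ^ 2
        ≤ ∑ c ∈ Finset.range (l + 1), (K.card : ℝ) * ((Kc c).card : ℝ) := by
          refine Finset.sum_le_sum fun c _ => ?_
          rw [sq]
          refine mul_le_mul_of_nonneg_right ?_ (Nat.cast_nonneg _)
          exact_mod_cast Finset.card_le_card (hsub c)
      _ = (K.card : ℝ) * (K.card : ℝ) := by
          rw [← Finset.mul_sum]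
          congr 1
          rw [hcard]
          push_cast
          rfl
      _ = _ := by ring
  calc ((l : ℝ) + 1) ^ 3 * ∑ c ∈ Finset.range (l + 1), ∫ u, (∑ k ∈ Kc c, z k u) ^ 4 ∂St ν
      ≤ ((l : ℝ) + 1) ^ 3 * ∑ c ∈ Finset.range (l + 1), 3 * ((Kc c).card : ℝ) ^ 2 * M :=
        mul_le_mul_of_nonneg_left (Finset.sum_le_sum fun c _ => hclass c) (by positivity)
    _ = 3 * ((l : ℝ) + 1) ^ 3 * M * ∑ c ∈ Finset.range (l + 1), ((Kc c).card : ℝ) ^ 2 := by
        rw [Finset.mul_sum, Finset.mul_sum]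
        exact Finset.sum_congr rfl fun c _ => by ring
    _ ≤ 3 * ((l : ℝ) + 1) ^ 3 * M * (K.card : ℝ) ^ 2 :=
        mul_le_mul_of_nonneg_left hsq (by positivity)
    _ = _ := by ring

end MP0d3db7D1
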