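import Pool.Agent.Lib.MP_0d3db7.D1.Spec

/-! MP_0d3db7_pr, theorem D1, module Fi: fourth moments of independent centered sums. -/

set_option autoImplicit false

namespace MP0d3db7D1

open MeasureTheory ProbabilityTheory Filter Topology Pool.Agent.MP0d3db7

namespace Fi_aux

variable {Ω : Type} [MeasurableSpace Ω] {P : Measure Ω} [IsProbabilityMeasure P]

/-- powers up to the fourth are integrable -/
lemma int_pow {f : Ω → ℝ} (hf : MemLp f 4 P) (j : ℕ) (hj : j ≤ 4) :
    Integrable (fun u => f u ^ j) P := by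
  rcases Nat.eq_zero_or_pos j with h0 | h0
  · subst h0
    simp
  have h1 : MemLp f (j : ENNReal) P := hf.mono_exponent (by exact_mod_cast hj)
  have h2 := h1.integrable_norm_pow (by omega)
  refine (integrable_norm_iff (hf.aestronglyMeasurable.pow j)).1 ?_
  refine h2.congr (Filter.Eventually.of_forall fun u => ?_)
  simp [norm_pow]

/-- the second moment is at most the root of the fourth -/
lemma sq_le {f : Ω → ℝ} (hf : MemLp f 4 P) (hm : Measurable f) (M : ℝ)
    (h4 : ∫ u, f u ^ 4 ∂P ≤ M) : ∫ u, f u ^ 2 ∂P ≤ Real.sqrt M := by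
  have h2 : MemLp (fun u => f u ^ 2) 2 P := by
    rw [memLp_two_iff_integrable_sq (hm.pow_const 2).aestronglyMeasurable]
    refine (int_pow hf 4 le_rfl).congr (Filter.Eventually.of_forall fun u => ?_)
    simp only
    ring
  have h3 := variance_eq_sub h2
  have h5 := variance_nonneg (fun u => f u ^ 2) P
  have h6 : ∫ x, ((fun u => f u ^ 2) ^ 2) x ∂P = ∫ u, f u ^ 4 ∂P := by
    apply integral_congr_ae
    refine Filter.Eventually.of_forall fun u => ?_
    simp only [Pi.pow_apply]
    ring
  rw [h6] at h3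
  apply Real.le_sqrt_of_sq_le
  linarith

omit [IsProbabilityMeasure P] in
lemma int3 {a b c : Ω → ℝ} (ha : Integrable a P) (hb : Integrable b P) (hc : Integrable c P) :
    ∫ u, (a u + b u) + c u ∂P = ∫ u, a u ∂P + ∫ u, b u ∂P + ∫ u, c u ∂P := by
  have h1 : ∫ u, (fun u => a u + b u) u + c u ∂P = ∫ u, (fun u => a u + b u) u ∂P + ∫ u, c u ∂P :=
    integral_add (ha.add hb) hc
  have h2 : ∫ u, a u + b u ∂P = ∫ u, a u ∂P + ∫ u, b u ∂P := integral_add ha hb
  simp only at h1
  rw [h1, h2]

omit [IsProbabilityMeasure P] in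
lemma int5 {a b c d e : Ω → ℝ} (ha : Integrable a P) (hb : Integrable b P) (hc : Integrable c P)
    (hd : Integrable d P) (he : Integrable e P) :
    ∫ u, (((a u + b u) + c u) + d u) + e u ∂P =
      ∫ u, a u ∂P + ∫ u, b u ∂P + ∫ u, c u ∂P + ∫ u, d u ∂P + ∫ u, e u ∂P := by
  have h1 : ∫ u, ((fun u => (a u + b u) + c u) u + d u) + e u ∂P =
      ∫ u, (fun u => (a u + b u) + c u) u ∂P + ∫ u, d u ∂P + ∫ u, e u ∂P :=
    int3 ((ha.add hb).add hc) hd he
  simp only at h1
  rw [h1, int3 ha hb hc]

/-- one step: moments of the sum of two independent functions -/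
lemma step {S z : Ω → ℝ} (hi : IndepFun S z P) (hS : MemLp S 4 P) (hz : MemLp z 4 P)
    (hSm : Measurable S) (hzm : Measurable z) (hz0 : ∫ u, z u ∂P = 0) (hS0 : ∫ u, S u ∂P = 0) :
    ∫ u, (S u + z u) ^ 2 ∂P = ∫ u, S u ^ 2 ∂P + ∫ u, z u ^ 2 ∂P ∧
    ∫ u, (S u + z u) ^ 4 ∂P = ∫ u, S u ^ 4 ∂P + 6 * ((∫ u, S u ^ 2 ∂P) * ∫ u, z u ^ 2 ∂P) +
      ∫ u, z u ^ 4 ∂P := by
  have hij : ∀ i j : ℕ, IndepFun (fun u => S u ^ i) (fun u => z u ^ j) P := fun i j =>
    hi.comp (measurable_id.pow_const i) (measurable_id.pow_const j)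
  have hm : ∀ i j : ℕ, ∫ u, S u ^ i * z u ^ j ∂P = (∫ u, S u ^ i ∂P) * ∫ u, z u ^ j ∂P := fun i j =>
    (hij i j).integral_fun_mul_eq_mul_integral (hSm.pow_const i).aestronglyMeasurable
      (hzm.pow_const j).aestronglyMeasurable
  have hI : ∀ i j : ℕ, i ≤ 4 → j ≤ 4 → Integrable (fun u => S u ^ i * z u ^ j) P := fun i j h1 h2 =>
    (hij i j).integrable_mul (int_pow hS i h1) (int_pow hz j h2)
  have hS1 : ∫ u, S u ^ 1 ∂P = 0 := by simpa using hS0
  have hz1 : ∫ u, z u ^ 1 ∂P = 0 := by simpa using hz0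
  have i02 : Integrable (fun u => z u ^ 2) P := int_pow hz 2 (by norm_num)
  have i04 : Integrable (fun u => z u ^ 4) P := int_pow hz 4 (by norm_num)
  have i20 : Integrable (fun u => S u ^ 2) P := int_pow hS 2 (by norm_num)
  have i40 : Integrable (fun u => S u ^ 4) P := int_pow hS 4 (by norm_num)
  constructor
  · have e : (fun u => (S u + z u) ^ 2) =
        fun u => (S u ^ 2 + 2 * (S u ^ 1 * z u ^ 1)) + z u ^ 2 := by
      funext u; ring
    rw [e, int3 i20 ((hI 1 1 (by norm_num) (by norm_num)).const_mul 2) i02, integral_const_mul,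
      hm 1 1, hS1]
    ring
  · have e : (fun u => (S u + z u) ^ 4) =
        fun u => (((S u ^ 4 + 4 * (S u ^ 3 * z u ^ 1)) + 6 * (S u ^ 2 * z u ^ 2)) +
          4 * (S u ^ 1 * z u ^ 3)) + z u ^ 4 := by
      funext u; ring
    have j31 := (hI 3 1 (by norm_num) (by norm_num)).const_mul 4
    have j22 := (hI 2 2 (by norm_num) (by norm_num)).const_mul 6
    have j13 := (hI 1 3 (by norm_num) (by norm_num)).const_mul 4
    rw [e, int5 i40 j31 j22 j13 i04, integral_const_mul, integral_const_mul, integral_const_mul,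
      hm 3 1, hm 2 2, hm 1 3, hz1, hS1]
    ring

end Fi_aux

open Fi_aux in
theorem tFi : S_Fi := by
  intro Ω _ P _ K
  classical
  have key : ∀ (z : ℕ → Ω → ℝ) (M : ℝ) (s : Finset ℕ), iIndepFun (fun k : s => z k) P →
      (∀ k, Measurable (z k)) → (∀ k ∈ s, MemLp (z k) 4 P) → (∀ k ∈ s, ∫ u, z k u ∂P = 0) →
      (∀ k ∈ s, ∫ u, z k u ^ 4 ∂P ≤ M) →
      MemLp (fun u => ∑ k ∈ s, z k u) 4 P ∧ ∫ u, ∑ k ∈ s, z k u ∂P = 0 ∧
      ∫ u, (∑ k ∈ s, z k u) ^ 2 ∂P ≤ s.card * Real.sqrt M ∧
      ∫ u, (∑ k ∈ s, z k u) ^ 4 ∂P ≤ 3 * (s.card : ℝ) ^ 2 * M := by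
    intro z M s
    induction s using Finset.induction_on with
    | empty =>
      intro _ _ _ _ _
      refine ⟨by simp, by simp, by simp, by simp⟩
    | insert a s ha ih =>
      intro hi hm hL h0 h4
      have hinj : Function.Injective (fun k : s => (⟨k.1, Finset.mem_insert_of_mem k.2⟩ :
          ↥(insert a s))) := by
        intro k l h
        apply Subtype.ext
        exact congrArg (fun x => x.1) h
      have his : iIndepFun (fun k : s => z k) P := iIndepFun.precomp hinj hi
      obtain ⟨I1, I2, I3, I4⟩ := ih his hm (fun k hk => hL k (Finset.mem_insert_of_mem hk))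
        (fun k hk => h0 k (Finset.mem_insert_of_mem hk))
        (fun k hk => h4 k (Finset.mem_insert_of_mem hk))
      have ha' : a ∈ insert a s := Finset.mem_insert_self a s
      set A : ↥(insert a s) := ⟨a, ha'⟩ with hA
      have hind : IndepFun (fun u => ∑ k ∈ s, z k u) (z a) P := by
        have h1 := hi.indepFun_finsetSum_of_notMem (fun k => hm k)
          (s := Finset.univ.erase A) (i := A) (Finset.notMem_erase A _)
        have h2 : (∑ j ∈ Finset.univ.erase A, z j) = fun u => ∑ k ∈ s, z k u := by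
          have e1 := Finset.sum_coe_sort (insert a s) z
          have e2 := Finset.add_sum_erase Finset.univ (fun j : ↥(insert a s) => z j)
            (Finset.mem_univ A)
          have e3 := Finset.sum_insert (f := z) ha
          have e4 : z a + ∑ j ∈ Finset.univ.erase A, z j = z a + ∑ k ∈ s, z k := by
            rw [← e3, ← e1]
            exact e2
          have e5 := add_left_cancel e4
          rw [e5]
          funext u
          rw [Finset.sum_apply]
        rw [h2] at h1
        exact h1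
      have hSm : Measurable (fun u => ∑ k ∈ s, z k u) :=
        Finset.measurable_sum s (fun k _ => hm k)
      have hLa := hL a ha'
      have hst := step hind I1 hLa hSm (hm a) (h0 a ha') I2
      have hM : 0 ≤ M := by
        refine le_trans ?_ (h4 a ha')
        apply integral_nonneg
        intro u
        positivity
      have hes : ∀ u, ∑ k ∈ insert a s, z k u = (∑ k ∈ s, z k u) + z a u := by
        intro u
        rw [Finset.sum_insert ha]
        ring
      have hc : ((insert a s).card : ℝ) = (s.card : ℝ) + 1 := by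
        rw [Finset.card_insert_of_notMem ha]
        push_cast
        ring
      simp only [hes]
      have hza2 := sq_le hLa (hm a) M (h4 a ha')
      have hr : Real.sqrt M * Real.sqrt M = M := Real.mul_self_sqrt hM
      have hr0 := Real.sqrt_nonneg M
      have hza0 : 0 ≤ ∫ u, z a u ^ 2 ∂P := integral_nonneg fun u => by positivity
      have hn0 : (0 : ℝ) ≤ s.card := Nat.cast_nonneg _
      refine ⟨I1.add hLa, ?_, ?_, ?_⟩
      · rw [integral_add (I1.integrable (by norm_num)) (hLa.integrable (by norm_num)), I2, h0 a ha']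
        ring
      · rw [hst.1, hc]
        nlinarith
      · rw [hst.2, hc]
        have h5 : (∫ u, (∑ k ∈ s, z k u) ^ 2 ∂P) * ∫ u, z a u ^ 2 ∂P ≤ (s.card : ℝ) * M := by
          calc _ ≤ ((s.card : ℝ) * Real.sqrt M) * Real.sqrt M :=
                mul_le_mul I3 hza2 hza0 (by positivity)
            _ = (s.card : ℝ) * M := by rw [mul_assoc, hr]
        have h6 := h4 a ha'
        nlinarith
  intro z M hi hm hL h0 h4
  exact (key z M K hi hm hL h0 h4).2.2.2

end MP0d3db7D1
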