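import Pool.Agent.Lib.MP_0d3db7.D1.Main

/-!
# MP_0d3db7_pr, theorem D1: the final form
-/

set_option autoImplicit false

namespace MP0d3db7D1

open MeasureTheory ProbabilityTheory Filter Topology Pool.Agent.MP0d3db7

/-- **THEOREM D1**: the quenched central limit theorem in `d = 1`, `v ≠ 0` -/
theorem d1 {Ω : Type} [MeasurableSpace Ω] (P : Measure Ω) [IsProbabilityMeasure P]
    (ω : ℤ → ℕ → Ω → ℝ)
    (hm : ∀ z i, Measurable (ω z i)) (h01 : ∀ z i o, ω z i o ∈ Set.Icc (0 : ℝ) 1)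
    (hind : iIndepFun (fun κ : ℤ × ℕ => ω κ.1 κ.2) P)
    (hid : ∀ z i, IdentDistrib (ω z i) (ω 0 1) P P) (hp : ∫ o, ω 0 1 o ∂P ≠ 1 / 2)
    (hnd : 0 < P {o | 0 < ω 0 1 o ∧ ω 0 1 o < 1}) :
    ∃ v : NNReal, v ≠ 0 ∧ ∀ᵐ o ∂P, ∃ c : ℕ → ℝ, ∀ f : BoundedContinuousFunction ℝ ℝ,
      Tendsto (fun n : ℕ => quenchE (fun z i => ω z i o) n fun x => f ((x - c n) / Real.sqrt n))
      atTop (𝓝 (∫ x, f x ∂gaussianReal 0 v)) :=
  main P ω hm h01 hind hid hp hnd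

end MP0d3db7D1
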