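import Pool.Agent.Lib.MP_0d3db7.D1.Spec

/-!
# MP_0d3db7_pr, theorem D1, module G1: quenched central limit theorem for interval functionals
-/

set_option autoImplicit false

namespace MP0d3db7D1

open MeasureTheory ProbabilityTheory Filter Topology Pool.Agent.MP0d3db7

theorem tG1 (hGl : S_Gl) (hAn : S_An) : S_G1 := by
  intro A B _ _ μ ν _ _ f C θ hIF
  obtain ⟨K, hK, hae⟩ := hGl A B μ ν f C θ hIF
  have hV : ∀ L, 0 ≤ VL μ ν f L := fun L => integral_nonneg fun o => integral_nonneg fun u =>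
    sq_nonneg _
  have ha : ∀ L : ℕ, 0 ≤ VL μ ν f L / L := fun L => div_nonneg (hV L) (Nat.cast_nonneg L)
  obtain ⟨o₀, ho₀⟩ := hae.exists
  obtain ⟨s, hs, hlim, -⟩ := hAn (fun n => ph ν f n o₀) (fun L => VL μ ν f L / L) K hK ha ho₀
  refine ⟨s, hs, hlim, ?_⟩
  filter_upwards [hae] with o ho
  obtain ⟨s', -, hlim', h⟩ := hAn (fun n => ph ν f n o) (fun L => VL μ ν f L / L) K hK ha ho
  have := tendsto_nhds_unique hlim hlim'
  subst this
  exact h

end MP0d3db7D1
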