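import Pool.Agent.Lib.MP_0d3db7.D1.Spec

/-! # MP_0d3db7_pr, theorem D1: fixed block length -/

set_option autoImplicit false

namespace MP0d3db7D1

open MeasureTheory ProbabilityTheory Filter Topology Pool.Agent.MP0d3db7

namespace Gl_aux

section gen

variable {Ω : Type} [MeasurableSpace Ω] {P : Measure Ω} [IsProbabilityMeasure P]

lemma lip (x y : ℝ) : ‖Complex.exp ((x : ℂ) * Complex.I) - Complex.exp ((y : ℂ) * Complex.I)‖ ≤
    |x - y| := by
  have h1 : Complex.exp ((x : ℂ) * Complex.I) - Complex.exp ((y : ℂ) * Complex.I) =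
      Complex.exp ((y : ℂ) * Complex.I) * (Complex.exp (Complex.I * ((x - y : ℝ) : ℂ)) - 1) := by
    rw [mul_sub, mul_one, ← Complex.exp_add]
    congr 2
    push_cast
    ring
  rw [h1, norm_mul, Complex.norm_exp_ofReal_mul_I, one_mul]
  exact Real.norm_exp_I_mul_ofReal_sub_one_le

lemma int_exp {X : Ω → ℝ} (hX : AEStronglyMeasurable X P) (t : ℝ) :
    Integrable (fun u => Complex.exp (((t * X u : ℝ) : ℂ) * Complex.I)) P := by
  refine Integrable.of_bound (C := 1) ?_ (Eventually.of_forall fun u => ?_)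
  · exact Complex.continuous_exp.comp_aestronglyMeasurable
      ((Complex.continuous_ofReal.comp_aestronglyMeasurable (hX.const_mul t)).mul_const Complex.I)
  · rw [Complex.norm_exp_ofReal_mul_I]

lemma char_le {X Y : Ω → ℝ} (hX : Integrable X P) (hY : Integrable Y P) (t : ℝ) :
    ‖(∫ u, Complex.exp (((t * X u : ℝ) : ℂ) * Complex.I) ∂P) -
      ∫ u, Complex.exp (((t * Y u : ℝ) : ℂ) * Complex.I) ∂P‖ ≤ |t| * ∫ u, |X u - Y u| ∂P := by
  rw [← integral_sub (int_exp hX.aestronglyMeasurable t) (int_exp hY.aestronglyMeasurable t)]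
  refine (norm_integral_le_integral_norm _).trans ?_
  rw [← integral_const_mul]
  refine integral_mono_of_nonneg (Eventually.of_forall fun u => norm_nonneg _)
    ((hX.sub hY).abs.const_mul _) (Eventually.of_forall fun u => ?_)
  refine (lip _ _).trans (le_of_eq ?_)
  rw [← mul_sub, abs_mul]

lemma l1_le {W : Ω → ℝ} (hW : MemLp W 2 P) : ∫ u, |W u| ∂P ≤ √(∫ u, W u ^ 2 ∂P) := by
  apply Real.le_sqrt_of_sq_le
  have h1 : MemLp (fun u => |W u|) 2 P := hW.abs
  have h2 := variance_nonneg (fun u => |W u|) P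
  rw [variance_eq_sub h1] at h2
  have h3 : (∫ u, ((fun u => |W u|) ^ 2) u ∂P) = ∫ u, W u ^ 2 ∂P := by
    refine integral_congr_ae (Eventually.of_forall fun u => ?_)
    simp
  rw [h3] at h2
  linarith

lemma l1_var {W : Ω → ℝ} (hW : MemLp W 2 P) :
    ∫ u, |W u - ∫ u', W u' ∂P| ∂P ≤ √(variance W P) := by
  have h1 : MemLp (fun u => W u - ∫ u', W u' ∂P) 2 P := hW.sub (memLp_const _)
  rw [variance_eq_integral hW.aemeasurable]
  exact l1_le h1

lemma comb {S M R D : Ω → ℝ} (hM : MemLp M 2 P) (hR : MemLp R 2 P) (hD : MemLp D 2 P)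
    (hS : ∀ u, S u = M u + R u + D u) {s r : ℝ} (hs : 0 < s) (hr : 0 < r) (t : ℝ) :
    ‖(∫ u, Complex.exp (((t * ((S u - ∫ u', S u' ∂P) / s) : ℝ) : ℂ) * Complex.I) ∂P) -
      ∫ u, Complex.exp (((t * ((M u - ∫ u', M u' ∂P) / r) : ℝ) : ℂ) * Complex.I) ∂P‖ ≤
      |t| * (√(variance R P) / s + √(∫ u, D u ^ 2 ∂P) / s +
        |r / s - 1| * (√(variance M P) / r)) := by
  have iM : Integrable M P := hM.integrable (by norm_num)
  have iR : Integrable R P := hR.integrable (by norm_num)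
  have iD : Integrable D P := hD.integrable (by norm_num)
  have hS' : S = fun u => M u + R u + D u := funext hS
  have iS : Integrable S P := by
    rw [hS']
    exact (iM.add iR).add iD
  have iMR : Integrable (fun u => M u + R u) P := iM.add iR
  have eS : ∫ u, S u ∂P = (∫ u, M u ∂P) + (∫ u, R u ∂P) + ∫ u, D u ∂P := by
    rw [hS', ← integral_add iM iR, ← integral_add iMR iD]
  have iX : Integrable (fun u => (S u - ∫ u', S u' ∂P) / s) P :=
    (iS.sub (integrable_const _)).div_const s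
  have iY : Integrable (fun u => (M u - ∫ u', M u' ∂P) / r) P :=
    (iM.sub (integrable_const _)).div_const r
  refine (char_le iX iY t).trans (mul_le_mul_of_nonneg_left ?_ (abs_nonneg t))
  have jR : Integrable (fun u => |R u - ∫ u', R u' ∂P| / s) P :=
    (iR.sub (integrable_const _)).abs.div_const s
  have jD : Integrable (fun u => |D u - ∫ u', D u' ∂P| / s) P :=
    (iD.sub (integrable_const _)).abs.div_const s
  have jM : Integrable (fun u => |r / s - 1| * (|M u - ∫ u', M u' ∂P| / r)) P :=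
    ((iM.sub (integrable_const _)).abs.div_const r).const_mul _
  have h1 : ∫ u, |(S u - ∫ u', S u' ∂P) / s - (M u - ∫ u', M u' ∂P) / r| ∂P ≤
      ∫ u, (|R u - ∫ u', R u' ∂P| / s + |D u - ∫ u', D u' ∂P| / s +
        |r / s - 1| * (|M u - ∫ u', M u' ∂P| / r)) ∂P := by
    refine integral_mono_of_nonneg (Eventually.of_forall fun u => abs_nonneg _)
      ((jR.add jD).add jM) (Eventually.of_forall fun u => ?_)
    show |(S u - ∫ u', S u' ∂P) / s - (M u - ∫ u', M u' ∂P) / r| ≤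
      |R u - ∫ u', R u' ∂P| / s + |D u - ∫ u', D u' ∂P| / s +
        |r / s - 1| * (|M u - ∫ u', M u' ∂P| / r)
    have e : (S u - ∫ u', S u' ∂P) / s - (M u - ∫ u', M u' ∂P) / r =
        (R u - ∫ u', R u' ∂P) / s + (D u - ∫ u', D u' ∂P) / s +
          (r / s - 1) * ((M u - ∫ u', M u' ∂P) / r) := by
      rw [hS u, eS]
      field_simp
      ring
    rw [e]
    refine (abs_add_le _ _).trans (add_le_add ((abs_add_le _ _).trans (add_le_add ?_ ?_)) ?_)
    · rw [abs_div, abs_of_pos hs]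
    · rw [abs_div, abs_of_pos hs]
    · rw [abs_mul, abs_div, abs_of_pos hr]
  refine h1.trans ?_
  have jRD : Integrable (fun u => |R u - ∫ u', R u' ∂P| / s + |D u - ∫ u', D u' ∂P| / s) P :=
    jR.add jD
  rw [integral_add jRD jM, integral_add jR jD, integral_div, integral_div,
    integral_const_mul, integral_div]
  have h2 := l1_var hR
  have h3 : ∫ u, |D u - ∫ u', D u' ∂P| ∂P ≤ √(∫ u, D u ^ 2 ∂P) :=
    (l1_var hD).trans (Real.sqrt_le_sqrt (variance_le_expectation_sq hD.aestronglyMeasurable))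
  have h4 := l1_var hM
  gcongr

end gen

/-- elementary limits -/
lemma ratio {L : ℕ} (hL : 1 ≤ L) :
    Tendsto (fun n : ℕ => √(((n / L : ℕ) : ℝ) * L) / √n) atTop (𝓝 1) := by
  have h1 : Tendsto (fun n : ℕ => (((n / L : ℕ) : ℝ) * L) / n) atTop (𝓝 1) := by
    have h2 : Tendsto (fun n : ℕ => (1 : ℝ) - (L : ℝ) / n) atTop (𝓝 (1 - 0)) :=
      tendsto_const_nhds.sub (tendsto_const_div_atTop_nhds_zero_nat _)
    rw [sub_zero] at h2
    refine tendsto_of_tendsto_of_tendsto_of_le_of_le' h2 tendsto_const_nhds ?_ ?_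
    · filter_upwards [eventually_gt_atTop 0] with n hn
      have hn' : (0 : ℝ) < n := by exact_mod_cast hn
      rw [le_div_iff₀ hn', sub_mul, div_mul_cancel₀ _ hn'.ne', one_mul]
      have h3 : n < n / L * L + L := by
        have := Nat.div_add_mod n L
        have h4 := Nat.mod_lt n (by omega : L > 0)
        nlinarith
      have h5 : (n : ℝ) < (n / L : ℕ) * L + L := by exact_mod_cast h3
      linarith
    · filter_upwards [eventually_gt_atTop 0] with n hn
      have hn' : (0 : ℝ) < n := by exact_mod_cast hn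
      rw [div_le_one hn']
      exact_mod_cast Nat.div_mul_le_self n L
  have h2 := (Real.continuous_sqrt.tendsto 1).comp h1
  rw [Real.sqrt_one] at h2
  refine h2.congr fun n => ?_
  show √((((n / L : ℕ) : ℝ) * L) / n) = _
  rw [Real.sqrt_div (by positivity)]

end Gl_aux

open Gl_aux in
/-- fixed block length -/
theorem tGl (hF4 : S_F4) (hX4 : S_X4) (hUp : S_Up) (hBk : S_Bk) (hRl : S_Rl) (hBi : S_Bi) :
    S_Gl := by
  intro A B _ _ μ ν _ _ f C θ hf
  obtain ⟨K, hK, hR⟩ := hRl A B μ ν f C θ hf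
  have hF := (hF4 A B μ ν f C θ hf).2.2
  obtain ⟨-, hSm, -⟩ := hX4 A B μ ν f C θ hf
  have hU : ∀ᵐ o ∂St μ, ∀ L : ℕ, 1 ≤ L → Tendsto (fun n : ℕ =>
      (∫ u, (SN f n o u - SN f (n / L * L) o u) ^ 2 ∂St ν) / n) atTop (𝓝 0) := by
    rw [ae_all_iff]
    intro L
    by_cases h : 1 ≤ L
    · filter_upwards [hUp A B μ ν f C θ hf L h] with o ho _
      exact ho
    · exact Eventually.of_forall fun o h' => absurd h' h
  have hB : ∀ᵐ o ∂St μ, ∀ L : ℕ, 1 ≤ L →
      (∀ J, MemLp (MB f L J o) 4 (St ν)) ∧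
      (∃ K : ℝ, ∀ J : ℕ, variance (MB f L J o) (St ν) ≤ K * J) ∧
      ∀ t : ℝ, Tendsto (fun J : ℕ => ∫ u, Complex.exp (((t * ((MB f L J o u -
        ∫ u', MB f L J o u' ∂St ν) / Real.sqrt (J * L)) : ℝ) : ℂ) * Complex.I) ∂St ν) atTop
        (𝓝 (Complex.exp ((-(t ^ 2 * (VL μ ν f L / L) / 2) : ℝ) : ℂ))) := by
    rw [ae_all_iff]
    intro L
    by_cases h : 1 ≤ L
    · filter_upwards [hBi A B μ ν f C θ hf L h] with o ho _
      exact ho
    · exact Eventually.of_forall fun o h' => absurd h' h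
  refine ⟨K, hK, ?_⟩
  filter_upwards [hR, hF, hU, hB] with o h1 h2 h3 h4 L hL t ε hε
  obtain ⟨hMm, ⟨K', hK'⟩, hlim⟩ := h4 L hL
  have hLp : (0 : ℝ) < L := by exact_mod_cast (show 0 < L by omega)
  have hdiv : Tendsto (fun n : ℕ => n / L) atTop atTop :=
    Nat.tendsto_div_const_atTop (by omega)
  have e1 : ∀ᶠ n : ℕ in atTop, variance (RB f L (n / L * L) o) (St ν) ≤ K * ((n / L : ℕ) : ℝ) :=
    hdiv.eventually (h1 L hL)
  have e2 : ∀ᶠ n : ℕ in atTop, ‖(∫ u, Complex.exp (((t * ((MB f L (n / L) o u -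
        ∫ u', MB f L (n / L) o u' ∂St ν) / Real.sqrt (((n / L : ℕ) : ℝ) * L)) : ℝ) : ℂ) *
          Complex.I) ∂St ν) -
        Complex.exp ((-(t ^ 2 * (VL μ ν f L / L) / 2) : ℝ) : ℂ)‖ < ε / 3 := by
    have := ((hlim t).comp hdiv)
    rw [Metric.tendsto_nhds] at this
    filter_upwards [this (ε / 3) (by positivity)] with n hn
    rw [dist_eq_norm] at hn
    exact hn
  have e3 : ∀ᶠ n : ℕ in atTop, |t| * √((∫ u, (SN f n o u - SN f (n / L * L) o u) ^ 2 ∂St ν) / n) <
      ε / 3 := by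
    have h5 := ((Real.continuous_sqrt.tendsto 0).comp (h3 L hL)).const_mul |t|
    rw [Real.sqrt_zero, mul_zero] at h5
    exact h5.eventually (gt_mem_nhds (by positivity))
  have e4 : ∀ᶠ n : ℕ in atTop, |t| * (|√(((n / L : ℕ) : ℝ) * L) / √n - 1| * √(|K'| / L)) < ε / 3 := by
    have h5 := ((((ratio hL).sub_const 1).abs).mul_const √(|K'| / L)).const_mul |t|
    rw [sub_self, abs_zero, zero_mul, mul_zero] at h5
    exact h5.eventually (gt_mem_nhds (by positivity))
  filter_upwards [e1, e2, e3, e4, eventually_ge_atTop L] with n g1 g2 g3 g4 g5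
  set J : ℕ := n / L with hJ
  have hJ1 : 1 ≤ J := Nat.div_pos g5 (by omega)
  have hn : (0 : ℝ) < n := by exact_mod_cast (show 0 < n by omega)
  have hJp : (0 : ℝ) < J := by exact_mod_cast hJ1
  have hJn : (J : ℝ) * L ≤ n := by exact_mod_cast Nat.div_mul_le_self n L
  have hs : 0 < √(n : ℝ) := Real.sqrt_pos.2 hn
  have hr : 0 < √((J : ℝ) * L) := Real.sqrt_pos.2 (by positivity)
  have m24 : ∀ {W : (ℕ → B) → ℝ}, MemLp W 4 (St ν) → MemLp W 2 (St ν) := fun h =>
    h.mono_exponent (by norm_num)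
  have hM2 : MemLp (MB f L J o) 2 (St ν) := m24 (hMm J)
  have hS2 : ∀ n, MemLp (SN f n o) 2 (St ν) := fun n => m24 (hSm n o h2)
  have hRe : RB f L (J * L) o = fun u => SN f (J * L) o u - MB f L J o u := by
    funext u
    rw [hBk A B f L J hL o u]
    ring
  have hR2 : MemLp (RB f L (J * L) o) 2 (St ν) := by
    rw [hRe]
    exact (hS2 _).sub hM2
  have hD2 : MemLp (fun u => SN f n o u - SN f (J * L) o u) 2 (St ν) := (hS2 _).sub (hS2 _)
  have key := comb (P := St ν) (S := SN f n o) (M := MB f L J o) (R := RB f L (J * L) o)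
    (D := fun u => SN f n o u - SN f (J * L) o u) hM2 hR2 hD2
    (fun u => by rw [hBk A B f L J hL o u]; ring) hs hr t
  have f1 : √(variance (RB f L (J * L) o) (St ν)) / √(n : ℝ) ≤ √(K / L) := by
    rw [← Real.sqrt_div (variance_nonneg _ _)]
    refine Real.sqrt_le_sqrt ?_
    rw [div_le_div_iff₀ hn hLp]
    calc variance (RB f L (J * L) o) (St ν) * L ≤ K * J * L :=
          mul_le_mul_of_nonneg_right g1 hLp.le
      _ = K * ((J : ℝ) * L) := by ring
      _ ≤ K * n := mul_le_mul_of_nonneg_left hJn hK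
  have f2 : √(∫ u, (SN f n o u - SN f (J * L) o u) ^ 2 ∂St ν) / √(n : ℝ) =
      √((∫ u, (SN f n o u - SN f (J * L) o u) ^ 2 ∂St ν) / n) := by
    rw [Real.sqrt_div (integral_nonneg fun u => sq_nonneg _)]
  have f3 : √(variance (MB f L J o) (St ν)) / √((J : ℝ) * L) ≤ √(|K'| / L) := by
    rw [← Real.sqrt_div (variance_nonneg _ _)]
    refine Real.sqrt_le_sqrt ?_
    rw [div_le_div_iff₀ (by positivity) hLp]
    have h5 : variance (MB f L J o) (St ν) ≤ |K'| * J :=
      (hK' J).trans (mul_le_mul_of_nonneg_right (le_abs_self _) hJp.le)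
    calc variance (MB f L J o) (St ν) * L ≤ |K'| * J * L := mul_le_mul_of_nonneg_right h5 hLp.le
      _ = |K'| * ((J : ℝ) * L) := by ring
  have f4 : |t| * (√(variance (RB f L (J * L) o) (St ν)) / √(n : ℝ) +
      √(∫ u, (SN f n o u - SN f (J * L) o u) ^ 2 ∂St ν) / √(n : ℝ) +
      |√((J : ℝ) * L) / √(n : ℝ) - 1| * (√(variance (MB f L J o) (St ν)) / √((J : ℝ) * L))) ≤
      |t| * √(K / L) + ε / 3 + ε / 3 := by
    rw [mul_add, mul_add, f2]
    refine add_le_add (add_le_add (mul_le_mul_of_nonneg_left f1 (abs_nonneg t)) g3.le)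
      (le_trans ?_ g4.le)
    gcongr
  have f5 : ‖ph ν f n o t - ∫ u, Complex.exp (((t * ((MB f L J o u -
        ∫ u', MB f L J o u' ∂St ν) / Real.sqrt ((J : ℝ) * L)) : ℝ) : ℂ) *
          Complex.I) ∂St ν‖ ≤ |t| * √(K / L) + ε / 3 + ε / 3 := key.trans f4
  calc ‖ph ν f n o t - Complex.exp ((-(t ^ 2 * (VL μ ν f L / L) / 2) : ℝ) : ℂ)‖
      ≤ ‖ph ν f n o t - ∫ u, Complex.exp (((t * ((MB f L J o u -
        ∫ u', MB f L J o u' ∂St ν) / Real.sqrt ((J : ℝ) * L)) : ℝ) : ℂ) *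
          Complex.I) ∂St ν‖ + ‖(∫ u, Complex.exp (((t * ((MB f L J o u -
        ∫ u', MB f L J o u' ∂St ν) / Real.sqrt ((J : ℝ) * L)) : ℝ) : ℂ) *
          Complex.I) ∂St ν) - Complex.exp ((-(t ^ 2 * (VL μ ν f L / L) / 2) : ℝ) : ℂ)‖ :=
        norm_sub_le_norm_sub_add_norm_sub _ _ _
    _ ≤ |t| * Real.sqrt (K / L) + ε := by linarith

end MP0d3db7D1
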