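import Pool.Agent.Lib.MP_0d3db7.D1.Spec

/-!
# MP_0d3db7_pr, theorem D1, module Gm: moments of the interval functionals
-/

set_option autoImplicit false

namespace MP0d3db7D1

open MeasureTheory ProbabilityTheory Filter Topology Pool.Agent.MP0d3db7

namespace Gm_aux

theorem ber_prob {p : ℝ} (h0 : 0 ≤ p) (h1 : p ≤ 1) : IsProbabilityMeasure (Ber p) := by
  refine ⟨?_⟩
  unfold Ber
  rw [Measure.add_apply, Measure.smul_apply, Measure.smul_apply, measure_univ, measure_univ,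
    smul_eq_mul, smul_eq_mul, mul_one, mul_one, ← ENNReal.ofReal_add h0 (by linarith),
    add_sub_cancel, ENNReal.ofReal_one]

section split

variable {X : Type} [MeasurableSpace X]

/-- the first member and the others -/
def cns (x : X × (ℕ → X)) : ℕ → X
  | 0 => x.1
  | n + 1 => x.2 n

theorem measurable_cns : Measurable (cns (X := X)) := by
  refine measurable_pi_lambda _ fun n => ?_
  cases n with
  | zero => exact measurable_fst
  | succ n => exact (measurable_pi_apply n).comp measurable_snd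

theorem map_cns (μ : Measure X) [IsProbabilityMeasure μ] :
    (μ.prod (Measure.infinitePi fun _ : ℕ => μ)).map cns = Measure.infinitePi fun _ : ℕ => μ := by
  classical
  refine Measure.eq_infinitePi (fun _ : ℕ => μ) ?_
  intro s t ht
  obtain ⟨N, hN⟩ : ∃ N, s ⊆ Finset.range (N + 1) :=
    ⟨s.sup id, fun i hi => Finset.mem_range.2 (Nat.lt_succ_of_le (Finset.le_sup (f := id) hi))⟩
  set t' : ℕ → Set X := fun i => if i ∈ s then t i else Set.univ with ht'd
  have ht' : ∀ i, MeasurableSet (t' i) := by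
    intro i
    simp only [ht'd]
    split_ifs
    · exact ht i
    · exact MeasurableSet.univ
  have h1 : Set.pi (s : Set ℕ) t = Set.pi ((Finset.range (N + 1) : Finset ℕ) : Set ℕ) t' := by
    ext x
    simp only [Set.mem_pi, Finset.mem_coe]
    constructor
    · intro h i _
      simp only [ht'd]
      split_ifs with hi
      · exact h i hi
      · exact Set.mem_univ _
    · intro h i hi
      have h2 := h i (hN hi)
      simp only [ht'd, if_pos hi] at h2
      exact h2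
  have h2 : ∏ i ∈ s, μ (t i) = ∏ i ∈ Finset.range (N + 1), μ (t' i) := by
    have h3 : ∏ i ∈ s, μ (t i) = ∏ i ∈ s, μ (t' i) := by
      refine Finset.prod_congr rfl fun i hi => ?_
      simp only [ht'd, if_pos hi]
    rw [h3]
    refine Finset.prod_subset hN fun i _ hi => ?_
    simp only [ht'd, if_neg hi, measure_univ]
  rw [h1, h2, Measure.map_apply measurable_cns
    (MeasurableSet.pi (Finset.countable_toSet _) fun i _ => ht' i)]
  have h3 : cns ⁻¹' (Set.pi ((Finset.range (N + 1) : Finset ℕ) : Set ℕ) t') =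
      t' 0 ×ˢ Set.pi ((Finset.range N : Finset ℕ) : Set ℕ) (fun i => t' (i + 1)) := by
    ext x
    simp only [Set.mem_preimage, Set.mem_pi, Finset.mem_coe, Finset.mem_range, Set.mem_prod]
    constructor
    · intro h
      exact ⟨h 0 (by omega), fun i hi => h (i + 1) (by omega)⟩
    · rintro ⟨ha, hb⟩ i hi
      cases i with
      | zero => exact ha
      | succ i => exact hb i (by omega)
  rw [h3, Measure.prod_prod, Measure.infinitePi_pi _ (fun i _ => ht' (i + 1)),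
    Finset.prod_range_succ', mul_comm]

theorem lint_split (μ : Measure X) [IsProbabilityMeasure μ] (Φ : X × (ℕ → X) → ENNReal)
    (hΦ : Measurable Φ) :
    ∫⁻ c, Φ (c 0, fun i => c (i + 1)) ∂(Measure.infinitePi fun _ : ℕ => μ) =
      ∫⁻ c', ∫⁻ a, Φ (a, c') ∂μ ∂(Measure.infinitePi fun _ : ℕ => μ) := by
  conv_lhs => rw [← map_cns μ]
  have hm : Measurable fun c : ℕ → X => Φ (c 0, fun i => c (i + 1)) :=
    hΦ.comp ((measurable_pi_apply 0).prodMk
      (measurable_pi_lambda _ fun i => measurable_pi_apply (i + 1)))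
  rw [lintegral_map hm measurable_cns]
  have h : ∀ y : X × (ℕ → X), Φ (cns y 0, fun i => cns y (i + 1)) = Φ y := fun y => rfl
  simp only [h]
  exact lintegral_prod_symm _ hΦ.aemeasurable

end split

/-- the differences -/
noncomputable def Y (l : ℕ) (c : ℕ → ℕ → Bool) : ℕ := G (l + 1) c - G l c

theorem G_succ (m : ℕ) (c : ℕ → ℕ → Bool) :
    G (m + 1) c = lf (c 0) (G m (fun i => c (i + 1)) + 1) := rfl

theorem lf_zero (a : ℕ → Bool) : lf a 0 = 0 := rfl

theorem nat_sub_meas {A : Type} [MeasurableSpace A] {f g : A → ℕ} (hf : Measurable f)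
    (hg : Measurable g) : Measurable fun x => f x - g x :=
  (measurable_of_countable fun p : ℕ × ℕ => p.1 - p.2).comp (hf.prodMk hg)

theorem lfG_meas (hMs : S_Ms) (m : ℕ) :
    Measurable fun x : (ℕ → Bool) × (ℕ → ℕ → Bool) => lf x.1 (G m x.2 + 1) := by
  have h1 := hMs.2.1
  have h2 := hMs.2.2.1 m
  have h3 : Measurable fun x : (ℕ → Bool) × (ℕ → ℕ → Bool) => (x.1, G m x.2 + 1) :=
    measurable_fst.prodMk ((measurable_of_countable fun n : ℕ => n + 1).comp
      (h2.comp measurable_snd))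
  exact h1.comp h3

/-- the generating function -/
noncomputable def ul (p : ℝ) (l : ℕ) (s : ℝ) : ENNReal :=
  ∫⁻ c, ENNReal.ofReal (s ^ (Y l c)) ∂PI ℕ (Ber p)

theorem ul_zero {p : ℝ} (hp : 0 < p) (hp1 : p ≤ 1) (hMs : S_Ms) (hLg : S_Lg) (s : ℝ)
    (hs : 1 ≤ s) (hs2 : (1 - p) * s < 1) :
    ul p 0 s ≤ ENNReal.ofReal (p / (1 - (1 - p) * s)) := by
  have _ := ber_prob hp.le hp1
  have hm : Measurable fun x : (ℕ → Bool) × (ℕ → ℕ → Bool) =>
      ENNReal.ofReal (s ^ (lf x.1 (G 0 x.2 + 1) - 0)) :=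
    (measurable_of_countable fun n : ℕ => ENNReal.ofReal (s ^ (n - 0))).comp (lfG_meas hMs 0)
  have h1 := lint_split (St (Ber p)) _ hm
  have h2 : ul p 0 s = ∫⁻ c : ℕ → ℕ → Bool, ENNReal.ofReal
      (s ^ (lf (c 0) (G 0 (fun i => c (i + 1)) + 1) - 0)) ∂(Measure.infinitePi fun _ : ℕ =>
        St (Ber p)) := rfl
  rw [h2, h1]
  have h3 := (hLg p hp hp1).2.1 s hs hs2 0 1
  calc ∫⁻ c' : ℕ → ℕ → Bool, ∫⁻ a, ENNReal.ofReal (s ^ (lf a (G 0 c' + 1) - 0)) ∂St (Ber p)
        ∂(Measure.infinitePi fun _ : ℕ => St (Ber p))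
      ≤ ∫⁻ _ : ℕ → ℕ → Bool, ENNReal.ofReal (p / (1 - (1 - p) * s))
        ∂(Measure.infinitePi fun _ : ℕ => St (Ber p)) := by
        refine lintegral_mono fun c' => ?_
        rw [pow_one] at h3
        exact h3
    _ = ENNReal.ofReal (p / (1 - (1 - p) * s)) := by
        rw [lintegral_const, measure_univ, mul_one]

theorem ul_succ {p : ℝ} (hp : 0 < p) (hp1 : p ≤ 1) (hMo : S_Mo) (hMs : S_Ms) (hLg : S_Lg)
    (l : ℕ) (s : ℝ) (hs : 1 ≤ s) (hs2 : (1 - p) * s < 1) :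
    ul p (l + 1) s ≤ ul p l (p / (1 - (1 - p) * s)) := by
  have _ := ber_prob hp.le hp1
  have hm : Measurable fun x : (ℕ → Bool) × (ℕ → ℕ → Bool) =>
      ENNReal.ofReal (s ^ (lf x.1 (G (l + 1) x.2 + 1) - lf x.1 (G l x.2 + 1))) :=
    (measurable_of_countable fun n : ℕ => ENNReal.ofReal (s ^ n)).comp
      (nat_sub_meas (lfG_meas hMs (l + 1)) (lfG_meas hMs l))
  have h1 := lint_split (St (Ber p)) _ hm
  have h2 : ul p (l + 1) s = ∫⁻ c : ℕ → ℕ → Bool, ENNReal.ofReal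
      (s ^ (lf (c 0) (G (l + 1) (fun i => c (i + 1)) + 1) -
        lf (c 0) (G l (fun i => c (i + 1)) + 1))) ∂(Measure.infinitePi fun _ : ℕ =>
        St (Ber p)) := rfl
  rw [h2, h1]
  refine lintegral_mono fun c' => ?_
  have h3 := (hLg p hp hp1).2.1 s hs hs2 (G l c' + 1) (Y l c')
  have h4 : G l c' + 1 + Y l c' = G (l + 1) c' + 1 := by
    have h5 := hMo.2.1 l c'
    unfold Y
    omega
  rw [h4] at h3
  exact h3

/-- the bound of the generating function -/
theorem ul_le {p : ℝ} (hp : 1 / 2 < p) (hp1 : p < 1) (hMo : S_Mo) (hMs : S_Ms) (hLg : S_Lg)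
    (s0 : ℝ) (hs0 : (1 - p) * s0 < p) : ∀ (l : ℕ) (s : ℝ), 1 ≤ s → s ≤ s0 →
    ul p l s ≤ ENNReal.ofReal (1 + ((1 - p) / (1 - (1 - p) * s0)) ^ (l + 1) * (s - 1)) := by
  have hq : 0 < 1 - p := by linarith
  have hd0 : 0 < 1 - (1 - p) * s0 := by linarith
  set τ := (1 - p) / (1 - (1 - p) * s0) with hτ
  have hτ0 : 0 < τ := div_pos hq hd0
  have key : ∀ s, 1 ≤ s → s ≤ s0 → (1 - p) * s < 1 ∧ 1 ≤ p / (1 - (1 - p) * s) ∧
      p / (1 - (1 - p) * s) - 1 ≤ τ * (s - 1) := by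
    intro s h1 h2
    have h3 : (1 - p) * s ≤ (1 - p) * s0 := mul_le_mul_of_nonneg_left h2 hq.le
    have h4 : 0 < 1 - (1 - p) * s := by linarith
    refine ⟨by linarith, ?_, ?_⟩
    · rw [le_div_iff₀ h4]
      nlinarith
    · have h5 : p / (1 - (1 - p) * s) - 1 = (1 - p) / (1 - (1 - p) * s) * (s - 1) := by
        field_simp
        ring
      rw [h5]
      refine mul_le_mul_of_nonneg_right ?_ (by linarith)
      rw [hτ]
      exact div_le_div_of_nonneg_left hq.le hd0 (by linarith)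
  have hτ1 : τ < 1 := by
    rw [hτ, div_lt_one hd0]
    linarith
  intro l
  induction l with
  | zero =>
    intro s h1 h2
    obtain ⟨h3, _, h5⟩ := key s h1 h2
    refine (ul_zero (by linarith) hp1.le hMs hLg s h1 h3).trans (ENNReal.ofReal_le_ofReal ?_)
    rw [zero_add, pow_one]
    linarith
  | succ l ih =>
    intro s h1 h2
    obtain ⟨h3, h4, h5⟩ := key s h1 h2
    refine (ul_succ (by linarith) hp1.le hMo hMs hLg l s h1 h3).trans ?_
    have h6 : p / (1 - (1 - p) * s) ≤ s0 := by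
      have : τ * (s - 1) ≤ 1 * (s - 1) := mul_le_mul_of_nonneg_right hτ1.le (by linarith)
      linarith
    refine (ih _ h4 h6).trans (ENNReal.ofReal_le_ofReal ?_)
    have h7 : τ ^ (l + 1) * (p / (1 - (1 - p) * s) - 1) ≤ τ ^ (l + 1) * (τ * (s - 1)) :=
      mul_le_mul_of_nonneg_left h5 (pow_nonneg hτ0.le _)
    have h8 : τ ^ (l + 1 + 1) * (s - 1) = τ ^ (l + 1) * (τ * (s - 1)) := by ring
    rw [h8]
    linarith

theorem pow_four (s0 : ℝ) (hs : 1 < s0) : ∃ C0 : ℝ, 0 < C0 ∧ ∀ y : ℕ,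
    (y : ℝ) ^ 4 ≤ C0 * (s0 ^ y - 1) := by
  have hl : 0 < Real.log s0 := Real.log_pos hs
  refine ⟨24 / Real.log s0 ^ 4, by positivity, fun y => ?_⟩
  have hx : 0 ≤ (y : ℝ) * Real.log s0 := by positivity
  have h1 := Real.sum_le_exp_of_nonneg hx 5
  have h2 : Real.exp ((y : ℝ) * Real.log s0) = s0 ^ y := by
    rw [mul_comm, Real.exp_mul, Real.exp_log (by linarith), Real.rpow_natCast]
  rw [h2] at h1
  simp only [Finset.sum_range_succ, Finset.sum_range_zero, pow_zero, Nat.factorial,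
    Nat.cast_one, pow_one] at h1
  have h3 : ((y : ℝ) * Real.log s0) ^ 4 / 24 ≤ s0 ^ y - 1 := by
    have h4 : 0 ≤ ((y : ℝ) * Real.log s0) ^ 2 := by positivity
    have h5 : 0 ≤ ((y : ℝ) * Real.log s0) ^ 3 := by positivity
    norm_num at h1
    linarith
  calc (y : ℝ) ^ 4 = 24 / Real.log s0 ^ 4 * (((y : ℝ) * Real.log s0) ^ 4 / 24) := by
        field_simp
    _ ≤ 24 / Real.log s0 ^ 4 * (s0 ^ y - 1) := mul_le_mul_of_nonneg_left h3 (by positivity)

theorem mom (hMo : S_Mo) (hMs : S_Ms) (hLg : S_Lg) (p : ℝ) (hp : 1 / 2 < p) (hp1 : p < 1) :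
    ∃ C θ : ℝ, 0 ≤ C ∧ 0 < θ ∧ θ < 1 ∧
    ∀ l : ℕ, ∫⁻ c, ENNReal.ofReal (((G (l + 1) c : ℝ) - G l c) ^ 4) ∂PI ℕ (Ber p) ≤
      ENNReal.ofReal (C * θ ^ (4 * l)) := by
  have _ := ber_prob (by linarith : (0 : ℝ) ≤ p) hp1.le
  have hq : 0 < 1 - p := by linarith
  obtain ⟨s0, hs1, hs2⟩ : ∃ s0 : ℝ, 1 < s0 ∧ (1 - p) * s0 < p := by
    have h1 : (1 : ℝ) < p / (1 - p) := by rw [lt_div_iff₀ hq]; linarith
    obtain ⟨s0, h2, h3⟩ := exists_between h1
    refine ⟨s0, h2, ?_⟩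
    rw [lt_div_iff₀ hq] at h3
    linarith
  have hd0 : 0 < 1 - (1 - p) * s0 := by linarith
  obtain ⟨C0, hC0, hC⟩ := pow_four s0 hs1
  set τ := (1 - p) / (1 - (1 - p) * s0) with hτ
  have hτ0 : 0 < τ := div_pos hq hd0
  have hτ1 : τ < 1 := by
    rw [hτ, div_lt_one hd0]
    linarith
  refine ⟨C0 * (s0 - 1), Real.sqrt (Real.sqrt τ), by
    refine mul_nonneg hC0.le (by linarith), by positivity, ?_, fun l => ?_⟩
  · have h1 : Real.sqrt τ < 1 := by
      rw [Real.sqrt_lt' one_pos, one_pow]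
      exact hτ1
    rw [Real.sqrt_lt' one_pos, one_pow]
    exact h1
  have hθ : Real.sqrt (Real.sqrt τ) ^ (4 * l) = τ ^ l := by
    rw [pow_mul]
    congr 1
    have h1 : Real.sqrt (Real.sqrt τ) ^ 4 = (Real.sqrt (Real.sqrt τ) ^ 2) ^ 2 := by ring
    rw [h1, Real.sq_sqrt (Real.sqrt_nonneg _), Real.sq_sqrt hτ0.le]
  rw [hθ]
  have hY : ∀ c, ((G (l + 1) c : ℝ) - G l c) = (Y l c : ℝ) := by
    intro c
    unfold Y
    rw [Nat.cast_sub (hMo.2.1 l c)]
  have hYm : Measurable (Y l) := nat_sub_meas (hMs.2.2.1 (l + 1)) (hMs.2.2.1 l)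
  have h1 : ∫⁻ c, ENNReal.ofReal (((G (l + 1) c : ℝ) - G l c) ^ 4) ∂PI ℕ (Ber p) ≤
      ∫⁻ c, ENNReal.ofReal (C0 * (s0 ^ (Y l c) - 1)) ∂PI ℕ (Ber p) := by
    refine lintegral_mono fun c => ?_
    refine ENNReal.ofReal_le_ofReal ?_
    rw [hY]
    exact hC (Y l c)
  refine h1.trans ?_
  have h2 : ∫⁻ c, ENNReal.ofReal (C0 * (s0 ^ (Y l c) - 1)) ∂PI ℕ (Ber p) + ENNReal.ofReal C0 =
      ENNReal.ofReal C0 * ul p l s0 := by
    have h3 : ENNReal.ofReal C0 = ∫⁻ _ : ℕ → ℕ → Bool, ENNReal.ofReal C0 ∂PI ℕ (Ber p) := by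
      rw [lintegral_const, measure_univ, mul_one]
    have hm1 : Measurable fun c => ENNReal.ofReal (C0 * (s0 ^ (Y l c) - 1)) :=
      (measurable_of_countable fun n : ℕ => ENNReal.ofReal (C0 * (s0 ^ n - 1))).comp hYm
    have hm2 : Measurable fun c => ENNReal.ofReal (s0 ^ (Y l c)) :=
      (measurable_of_countable fun n : ℕ => ENNReal.ofReal (s0 ^ n)).comp hYm
    conv_lhs => rw [h3]
    rw [← lintegral_add_left hm1]
    unfold ul
    rw [← lintegral_const_mul _ hm2]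
    refine lintegral_congr fun c => ?_
    have h4 : 1 ≤ s0 ^ (Y l c) := one_le_pow₀ hs1.le
    rw [← ENNReal.ofReal_add (mul_nonneg hC0.le (by linarith)) hC0.le,
      ← ENNReal.ofReal_mul hC0.le]
    congr 1
    ring
  have h5 : ENNReal.ofReal C0 * ul p l s0 ≤
      ENNReal.ofReal (C0 * (s0 - 1) * τ ^ l) + ENNReal.ofReal C0 := by
    calc ENNReal.ofReal C0 * ul p l s0
        ≤ ENNReal.ofReal C0 * ENNReal.ofReal (1 + τ ^ (l + 1) * (s0 - 1)) := by
          gcongr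
          exact ul_le hp hp1 hMo hMs hLg s0 hs2 l s0 hs1.le le_rfl
      _ ≤ ENNReal.ofReal (C0 * (s0 - 1) * τ ^ l) + ENNReal.ofReal C0 := by
          have h6 : 0 ≤ C0 * (s0 - 1) * τ ^ l :=
            mul_nonneg (mul_nonneg hC0.le (by linarith)) (pow_nonneg hτ0.le _)
          rw [← ENNReal.ofReal_mul hC0.le, ← ENNReal.ofReal_add h6 hC0.le]
          refine ENNReal.ofReal_le_ofReal ?_
          have h7 : τ ^ (l + 1) ≤ τ ^ l := pow_le_pow_of_le_one hτ0.le hτ1.le (by omega)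
          have h8 : τ ^ (l + 1) * (s0 - 1) ≤ τ ^ l * (s0 - 1) :=
            mul_le_mul_of_nonneg_right h7 (by linarith)
          have h9 := mul_le_mul_of_nonneg_left h8 hC0.le
          nlinarith
  rw [← h2] at h5
  exact (ENNReal.add_le_add_iff_right ENNReal.ofReal_ne_top).1 h5

theorem mean (hMs : S_Ms) (hLg : S_Lg) (p : ℝ) (hp : 1 / 2 < p) (hp1 : p < 1) :
    ∃ C' : ℝ, ∀ l : ℕ, ∫⁻ c, (G l c : ENNReal) ∂PI ℕ (Ber p) ≤ ENNReal.ofReal C' := by
  have _ := ber_prob (by linarith : (0 : ℝ) ≤ p) hp1.le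
  have hp0 : 0 < p := by linarith
  set ρ := (1 - p) / p with hρ
  have hρ0 : 0 ≤ ρ := div_nonneg (by linarith) hp0.le
  have hρ1 : ρ < 1 := by
    rw [hρ, div_lt_one hp0]
    linarith
  refine ⟨ρ / (1 - ρ), fun l => ?_⟩
  induction l with
  | zero =>
    have h0 : ∀ c : ℕ → ℕ → Bool, ((G 0 c : ℕ) : ENNReal) = 0 := fun c => Nat.cast_zero
    simp only [h0, lintegral_zero]
    exact bot_le
  | succ l ih =>
    have hm : Measurable fun x : (ℕ → Bool) × (ℕ → ℕ → Bool) =>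
        ((lf x.1 (G l x.2 + 1) : ℕ) : ENNReal) :=
      (measurable_of_countable fun n : ℕ => (n : ENNReal)).comp (lfG_meas hMs l)
    have h1 := lint_split (St (Ber p)) _ hm
    have h2 : ∫⁻ c, ((G (l + 1) c : ℕ) : ENNReal) ∂PI ℕ (Ber p) =
        ∫⁻ c : ℕ → ℕ → Bool, ((lf (c 0) (G l (fun i => c (i + 1)) + 1) : ℕ) : ENNReal)
          ∂(Measure.infinitePi fun _ : ℕ => St (Ber p)) := rfl
    rw [h2, h1]
    have hGm : Measurable fun c : ℕ → ℕ → Bool => ((G l c : ℕ) : ENNReal) :=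
      (measurable_of_countable fun n : ℕ => (n : ENNReal)).comp (hMs.2.2.1 l)
    calc ∫⁻ c' : ℕ → ℕ → Bool, ∫⁻ a, ((lf a (G l c' + 1) : ℕ) : ENNReal) ∂St (Ber p)
          ∂(Measure.infinitePi fun _ : ℕ => St (Ber p))
        ≤ ∫⁻ c' : ℕ → ℕ → Bool, (((G l c' : ℕ) : ENNReal) + 1) * ENNReal.ofReal ρ
            ∂PI ℕ (Ber p) := by
          refine lintegral_mono fun c' => ?_
          refine ((hLg p hp0 hp1.le).2.2 (G l c' + 1)).trans (le_of_eq ?_)
          rw [ENNReal.ofReal_mul (by positivity), ENNReal.ofReal_natCast]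
          push_cast
          rfl
      _ = (∫⁻ c' : ℕ → ℕ → Bool, ((G l c' : ℕ) : ENNReal) ∂PI ℕ (Ber p) + 1) *
            ENNReal.ofReal ρ := by
          rw [lintegral_mul_const _ (hGm.add_const _), lintegral_add_left hGm, lintegral_const,
            measure_univ, mul_one]
      _ ≤ (ENNReal.ofReal (ρ / (1 - ρ)) + 1) * ENNReal.ofReal ρ := by
          gcongr
      _ = ENNReal.ofReal (ρ / (1 - ρ)) := by
          have h3 : 0 < 1 - ρ := by linarith
          rw [← ENNReal.ofReal_one, ← ENNReal.ofReal_add (by positivity) zero_le_one,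
            ← ENNReal.ofReal_mul (by positivity)]
          congr 1
          field_simp
          ring

end Gm_aux

theorem tGm (hMo : S_Mo) (hMs : S_Ms) (hLg : S_Lg) : S_Gm := by
  intro p hp hp1
  obtain ⟨C, θ, h1, h2, h3, h4⟩ := Gm_aux.mom hMo hMs hLg p hp hp1
  exact ⟨C, θ, h1, h2, h3, h4, Gm_aux.mean hMs hLg p hp hp1⟩

end MP0d3db7D1
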