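import Pool.Agent.Lib.MP_0d3db7.D1.Spec

/-!
# MP_0d3db7_pr, theorem D1, module Hi: the law of the history
-/

set_option autoImplicit false

namespace MP0d3db7D1

open MeasureTheory ProbabilityTheory Filter Topology Pool.Agent.MP0d3db7

namespace Hi_aux

/-- the arrows which are used by the history -/
def S : List Bool → Finset (ℤ × ℕ)
  | [] => ∅
  | _ :: h => insert (pos h, vis h) (S h)

/-- their values -/
def val : List Bool → ℤ × ℕ → Bool
  | [] => fun _ => false
  | b :: h => Function.update (val h) (pos h, vis h) b

theorem mem_S (h : List Bool) : ∀ κ ∈ S h, κ.2 ≤ pv κ.1 h := by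
  induction h with
  | nil =>
    intro κ hκ
    simp [S] at hκ
  | cons b h ih =>
    intro κ hκ
    rw [S, Finset.mem_insert] at hκ
    rcases hκ with rfl | hκ
    · change vis h ≤ pv (pos h) h + if pos h = pos h then 1 else 0
      rw [if_pos rfl]
      exact le_rfl
    · exact (ih κ hκ).trans (Nat.le_add_right _ _)

theorem notMem (h : List Bool) : (pos h, vis h) ∉ S h := by
  intro h1
  have h2 : pv (pos h) h + 1 ≤ pv (pos h) h := mem_S h _ h1
  omega

theorem val_mem (b : Bool) (h : List Bool) (κ : ℤ × ℕ) (hκ : κ ∈ S h) :
    val (b :: h) κ = val h κ := by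
  have hne : κ ≠ (pos h, vis h) := fun e => notMem h (e ▸ hκ)
  rw [val, Function.update_of_ne hne]

theorem hist_iff (a : ℤ → ℕ → Bool) (h : List Bool) :
    hist a h.length = h ↔ ∀ κ ∈ S h, a κ.1 κ.2 = val h κ := by
  induction h with
  | nil => simp [hist, S]
  | cons b h ih =>
    change a (pos (hist a h.length)) (vis (hist a h.length)) :: hist a h.length = b :: h ↔ _
    rw [List.cons.injEq]
    constructor
    · rintro ⟨h1, h2⟩ κ hκ
      rw [h2] at h1
      rw [S, Finset.mem_insert] at hκ
      rcases hκ with rfl | hκ
      · rw [val, Function.update_self]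
        exact h1
      · rw [val_mem b h κ hκ]
        exact ih.1 h2 κ hκ
    · intro h1
      have h2 : hist a h.length = h := ih.2 fun κ hκ => by
        have := h1 κ (Finset.mem_insert_of_mem hκ)
        rwa [val_mem b h κ hκ] at this
      refine ⟨?_, h2⟩
      rw [h2]
      have := h1 (pos h, vis h) (Finset.mem_insert_self _ _)
      rwa [val, Function.update_self] at this

theorem length_hist (a : ℤ → ℕ → Bool) (n : ℕ) : (hist a n).length = n := by
  induction n with
  | zero => rfl
  | succ n ih =>
    change (hist a n).length + 1 = n + 1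
    rw [ih]

variable {X : Type} [MeasurableSpace X] {P : Measure X} [IsProbabilityMeasure P]
  {a : X → ℤ → ℕ → Bool} {w : ℤ → ℕ → ℝ}

omit [IsProbabilityMeasure P] [MeasurableSpace X] in
theorem event_eq (a : X → ℤ → ℕ → Bool) (h : List Bool) : {x | hist (a x) h.length = h} =
    ⋂ κ ∈ S h, (fun x => a x κ.1 κ.2) ⁻¹' {val h κ} := by
  ext x
  rw [Set.mem_iInter₂]
  exact hist_iff (a x) h

omit [IsProbabilityMeasure P] in
theorem event_meas (hm : ∀ z i, Measurable fun x => a x z i) (h : List Bool) :
    MeasurableSet {x | hist (a x) h.length = h} := by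
  rw [event_eq]
  exact Finset.measurableSet_biInter _ fun κ _ => hm κ.1 κ.2 (MeasurableSet.singleton _)

theorem prob (hm : ∀ z i, Measurable fun x => a x z i)
    (hI : iIndepFun (fun (κ : ℤ × ℕ) x => a x κ.1 κ.2) P)
    (hw : ∀ z i, P.real {x | a x z i = true} = w z i) (h : List Bool) :
    P.real {x | hist (a x) h.length = h} = wt w h := by
  rw [event_eq, measureReal_def, hI.measure_inter_preimage_eq_mul (S h)
    (fun κ _ => MeasurableSet.singleton _), ENNReal.toReal_prod]
  induction h with
  | nil => simp [S, wt]
  | cons b h ih =>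
    have h1 : ∏ κ ∈ S h, (P ((fun x => a x κ.1 κ.2) ⁻¹' {val (b :: h) κ})).toReal = wt w h := by
      rw [← ih]
      refine Finset.prod_congr rfl fun κ hκ => ?_
      rw [val_mem b h κ hκ]
    rw [S, Finset.prod_insert (notMem h), h1, val, Function.update_self]
    have h2 : (P ((fun x => a x (pos h) (vis h)) ⁻¹' {true})).toReal = w (pos h) (vis h) :=
      hw (pos h) (vis h)
    cases b with
    | true =>
      change (P ((fun x => a x (pos h) (vis h)) ⁻¹' {true})).toReal * _ = wt w h * w (pos h) (vis h)
      rw [h2, mul_comm]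
    | false =>
      change (P ((fun x => a x (pos h) (vis h)) ⁻¹' {false})).toReal * _ =
        wt w h * (1 - w (pos h) (vis h))
      have h3 : (fun x => a x (pos h) (vis h)) ⁻¹' {false} =
          ((fun x => a x (pos h) (vis h)) ⁻¹' {true})ᶜ := by
        ext x
        simp
      have h4 : (P ((fun x => a x (pos h) (vis h)) ⁻¹' {false})).toReal = 1 - w (pos h) (vis h) := by
        rw [h3, ← measureReal_def, probReal_compl_eq_one_sub (hm _ _ (MeasurableSet.singleton _)),
          measureReal_def, h2]
      rw [h4, mul_comm]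

end Hi_aux

open Hi_aux

theorem tHi : S_Hi := by
  intro X _ P _ a w hm hI hw n Φ
  have hmE : ∀ e : Fin n → Bool, MeasurableSet {x | hist (a x) n = List.ofFn e} := fun e => by
    have := event_meas (a := a) hm (List.ofFn e)
    rwa [List.length_ofFn] at this
  have hpE : ∀ e : Fin n → Bool, P.real {x | hist (a x) n = List.ofFn e} = wt w (List.ofFn e) :=
    fun e => by
      have := prob hm hI hw (List.ofFn e)
      rwa [List.length_ofFn] at this
  have hdec : (fun x => Φ (hist (a x) n)) = fun x => ∑ e : Fin n → Bool,
      {x | hist (a x) n = List.ofFn e}.indicator (fun _ => Φ (List.ofFn e)) x := by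
    funext x
    have hl := length_hist (a x) n
    obtain ⟨e0, he0⟩ : ∃ e0 : Fin n → Bool, List.ofFn e0 = hist (a x) n := by
      refine ⟨fun i => (hist (a x) n).get (i.cast hl.symm), ?_⟩
      apply List.ext_get
      · rw [List.length_ofFn, hl]
      · intro i h1 h2
        simp
    rw [Finset.sum_eq_single e0]
    · rw [Set.indicator_of_mem (show x ∈ {x | hist (a x) n = List.ofFn e0} from he0.symm), he0]
    · intro e _ hne
      refine Set.indicator_of_notMem (fun h => hne ?_) _
      have h1 : hist (a x) n = List.ofFn e := h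
      rw [← he0] at h1
      exact (List.ofFn_injective h1).symm
    · intro h
      exact absurd (Finset.mem_univ _) h
  have hint : ∀ e : Fin n → Bool, Integrable
      ({x | hist (a x) n = List.ofFn e}.indicator (fun _ => Φ (List.ofFn e))) P := fun e =>
    (integrable_const _).indicator (hmE e)
  rw [hdec]
  refine ⟨integrable_finsetSum _ fun e _ => hint e, ?_⟩
  rw [integral_finsetSum _ fun e _ => hint e, ← sum_wt]
  refine Finset.sum_congr rfl fun e _ => ?_
  rw [integral_indicator_const _ (hmE e), hpE e, smul_eq_mul]

end MP0d3db7D1
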