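import Pool.Agent.Lib.MP_0d3db7.D1.Spec

/-!
# MP_0d3db7_pr, theorem D1, module Ifw: the functionals of the walk
-/

set_option autoImplicit false

namespace MP0d3db7D1

open MeasureTheory ProbabilityTheory Filter Topology Pool.Agent.MP0d3db7

/-- the functionals of the walk are interval functionals -/
theorem tIfw (hMo : S_Mo) (hMs : S_Ms) (hAr : S_Ar) (hGm : S_Gm) : S_Ifw := by
  intro μ₀ p hL hp hp1
  obtain ⟨-, hmono, hdep, -⟩ := hMo
  obtain ⟨-, -, hG, -, -, -, -, har⟩ := hMs
  obtain ⟨C, θ, hC, hθ, hθ1, hmom, -⟩ := hGm p hp hp1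
  obtain ⟨-, -, hmap⟩ := hAr.1 ℕ μ₀ p hL
  have hF : ∀ l : ℕ, Measurable fun c : ℕ → ℕ → Bool => (G (l + 1) c : ℝ) - G l c := fun l =>
    (measurable_from_nat.comp (hG (l + 1))).sub (measurable_from_nat.comp (hG l))
  refine ⟨C, θ, ?_, ?_, ?_, hC, hθ, hθ1, ?_⟩
  · intro l
    exact (hF l).comp (har ℕ)
  · intro l o u
    unfold fw
    have h := hmono l (ar o u)
    have h' : (G l (ar o u) : ℝ) ≤ G (l + 1) (ar o u) := by exact_mod_cast h
    linarith
  · intro l o o' u u' ho hu
    have h1 : ∀ i < l + 1, ar o u i = ar o' u' i := by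
      intro i hi
      unfold ar
      rw [ho i (by omega), hu i (by omega)]
    unfold fw
    rw [hdep (l + 1) _ _ h1, hdep l _ _ (fun i hi => h1 i (by omega))]
  · intro l
    have h1 := hmom l
    rw [← hmap, lintegral_map] at h1
    · exact h1
    · exact ENNReal.measurable_ofReal.comp ((hF l).pow_const 4)
    · exact har ℕ

end MP0d3db7D1
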