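import Pool.Agent.Lib.MP_0d3db7.D1.Spec

/-!
# MP_0d3db7_pr, theorem D1, module Ind (task 24005, helper99)

Independence of functions of disjoint sets of coordinates.
-/

set_option autoImplicit false

namespace MP0d3db7D1

open MeasureTheory ProbabilityTheory Filter Topology Pool.Agent.MP0d3db7

namespace Ind_aux

variable {ι A : Type} [MeasurableSpace A]

open Classical in
/-- the extension of a function on `S` by the constant `a` -/
noncomputable def ext (a : A) (S : Finset ι) (f : S → A) : ι → A :=
  fun i => if h : i ∈ S then f ⟨i, h⟩ else a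

lemma measurable_ext (a : A) (S : Finset ι) : Measurable (ext a S) := by
  refine measurable_pi_lambda _ fun i => ?_
  unfold ext
  by_cases h : i ∈ S
  · simp only [h, dif_pos]
    exact measurable_pi_apply _
  · simp only [h, dif_neg, not_false_eq_true]
    exact measurable_const

omit [MeasurableSpace A] in
lemma ext_agree (a : A) (S : Finset ι) (x : ι → A) (i : ι) (hi : i ∈ S) :
    ext a S (fun k : S => x k) i = x i := by
  unfold ext
  rw [dif_pos hi]

/-- two events which depend on disjoint finite sets of coordinates are independent -/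
lemma two (μ : Measure A) [IsProbabilityMeasure μ] (S T : Finset ι) (hST : Disjoint S T)
    (E F : Set (ι → A)) (hE : MeasurableSet E) (hF : MeasurableSet F)
    (hES : ∀ x y : ι → A, (∀ i ∈ S, x i = y i) → (x ∈ E → y ∈ E))
    (hFT : ∀ x y : ι → A, (∀ i ∈ T, x i = y i) → (x ∈ F → y ∈ F)) :
    (Measure.infinitePi fun _ : ι => μ) (E ∩ F) =
      (Measure.infinitePi fun _ : ι => μ) E * (Measure.infinitePi fun _ : ι => μ) F := by
  have hne : Nonempty A := by
    by_contra h
    rw [not_nonempty_iff] at h
    have h1 : μ Set.univ = 1 := measure_univ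
    rw [Set.eq_empty_of_isEmpty (Set.univ : Set A), measure_empty] at h1
    exact zero_ne_one h1
  obtain ⟨a⟩ := hne
  have hI : iIndepFun (fun (i : ι) (x : ι → A) => x i) (Measure.infinitePi fun _ : ι => μ) :=
    iIndepFun_infinitePi (P := fun _ : ι => μ) (X := fun _ x => x) fun _ => measurable_id
  have hI2 := hI.indepFun_finset S T hST (fun i => measurable_pi_apply i)
  have key : ∀ (R : Finset ι) (G : Set (ι → A)), (∀ x y : ι → A, (∀ i ∈ R, x i = y i) →
      (x ∈ G → y ∈ G)) → G = (fun (x : ι → A) (i : R) => x i) ⁻¹' (ext a R ⁻¹' G) := by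
    intro R G hG
    ext x
    simp only [Set.mem_preimage]
    constructor
    · intro hx
      exact hG x _ (fun i hi => (ext_agree a R x i hi).symm) hx
    · intro hx
      exact hG _ x (fun i hi => ext_agree a R x i hi) hx
  have h1 := hI2.measure_inter_preimage_eq_mul (ext a S ⁻¹' E) (ext a T ⁻¹' F)
    (measurable_ext a S hE) (measurable_ext a T hF)
  rw [← key S E hES, ← key T F hFT] at h1
  exact h1

end Ind_aux

open Ind_aux in
theorem tInd : S_Ind := by
  intro ι J A _ μ _ S z hS hz hd
  classical
  rw [iIndepFun_iff_measure_inter_preimage_eq_mul]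
  intro T sets
  induction T using Finset.induction_on with
  | empty =>
    intro _
    simp
  | insert j T hj IH =>
    intro hm
    have hm' : ∀ i ∈ T, MeasurableSet (sets i) := fun i hi => hm i (Finset.mem_insert_of_mem hi)
    rw [Finset.prod_insert hj, ← IH hm', Finset.set_biInter_insert]
    refine two μ (S j) (T.biUnion S) ?_ _ _ (hz j (hm j (Finset.mem_insert_self j T))) ?_ ?_ ?_
    · rw [Finset.disjoint_biUnion_right]
      intro i hi
      refine hS j i ?_
      rintro rfl
      exact hj hi
    · exact Finset.measurableSet_biInter _ fun i hi => hz i (hm' i hi)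
    · intro x y hxy hx
      rw [Set.mem_preimage] at hx ⊢
      rw [← hd j (fun i hi => hxy i (Finset.mem_coe.1 hi))]
      exact hx
    · intro x y hxy hx
      rw [Set.mem_iInter₂] at hx ⊢
      intro i hi
      have h1 := hx i hi
      rw [Set.mem_preimage] at h1 ⊢
      rw [← hd i (fun k hk => hxy k (Finset.mem_biUnion.2 ⟨i, hi, Finset.mem_coe.1 hk⟩))]
      exact h1

end MP0d3db7D1
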