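import Pool.Agent.Lib.MP_0d3db7.D1.Spec

/-!
# MP_0d3db7_pr, theorem D1, module Iva: inversion, the centering (helper85)
-/

set_option autoImplicit false

namespace MP0d3db7D1

open MeasureTheory ProbabilityTheory Filter Topology Pool.Agent.MP0d3db7

namespace Iva_aux

theorem le_m {m : ℕ → ℝ} (h0 : m 0 = 0) (h1 : ∀ k, m k + 1 ≤ m (k + 1)) (k : ℕ) : (k : ℝ) ≤ m k := by
  induction k with
  | zero => rw [h0]; simp
  | succ k ih =>
    push_cast
    linarith [h1 k]

end Iva_aux

open Classical in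
theorem tIva : S_Iva := by
  intro m κ hκ h0 h1 hlim hreg
  have hm := Iva_aux.le_m h0 h1
  obtain ⟨K, hK⟩ : ∃ K : ℕ → ℕ, K = fun n : ℕ => Nat.findGreatest (fun k => m k ≤ (n : ℝ)) n :=
    ⟨_, rfl⟩
  have hKn : ∀ n, K n ≤ n := fun n => by rw [hK]; exact Nat.findGreatest_le n
  have hA : ∀ n : ℕ, m (K n) ≤ n := by
    intro n
    rw [hK]
    exact Nat.findGreatest_spec (P := fun k => m k ≤ n) (Nat.zero_le n) (by
      show m 0 ≤ (n : ℝ)
      rw [h0]; exact Nat.cast_nonneg n)
  have hB : ∀ n : ℕ, (n : ℝ) < m (K n + 1) := by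
    intro n
    by_cases h : K n + 1 ≤ n
    · have h2 : ¬ m (K n + 1) ≤ n :=
        Nat.findGreatest_is_greatest (P := fun k => m k ≤ n) (by rw [hK]; exact Nat.lt_succ_self _) h
      exact not_le.1 h2
    · have h2 : n < K n + 1 := not_le.1 h
      have h3 : (n : ℝ) < ((K n + 1 : ℕ) : ℝ) := by exact_mod_cast h2
      exact h3.trans_le (hm _)
  have hinf : Tendsto K atTop atTop := by
    rw [tendsto_atTop]
    intro b
    obtain ⟨c, hc⟩ := exists_nat_ge (m b)
    filter_upwards [eventually_ge_atTop c, eventually_ge_atTop b] with n hn hnb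
    rw [hK]
    exact Nat.le_findGreatest hnb (hc.trans (by exact_mod_cast hn))
  have hinf1 : Tendsto (fun n => K n + 1) atTop atTop := tendsto_atTop_mono (fun n => Nat.le_succ _) hinf
  have hinv : Tendsto (fun n : ℕ => (n : ℝ) / m n) atTop (𝓝 (1 / κ)) := by
    have h2 := hlim.inv₀ hκ.ne'
    rw [one_div]
    refine h2.congr fun n => ?_
    rw [inv_div]
  have hup : Tendsto (fun n : ℕ => (K n : ℝ) / m (K n)) atTop (𝓝 (1 / κ)) := hinv.comp hinf
  have hlo : Tendsto (fun n : ℕ => ((K n + 1 : ℕ) : ℝ) / m (K n + 1) - 1 / (n : ℝ)) atTop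
      (𝓝 (1 / κ)) := by
    have h2 : Tendsto (fun n : ℕ => ((K n + 1 : ℕ) : ℝ) / m (K n + 1)) atTop (𝓝 (1 / κ)) :=
      hinv.comp hinf1
    have h3 := h2.sub (tendsto_one_div_atTop_nhds_zero_nat (𝕜 := ℝ))
    rwa [sub_zero] at h3
  refine ⟨K, ?_, ?_⟩
  · refine tendsto_of_tendsto_of_tendsto_of_le_of_le' hlo hup ?_ ?_
    · filter_upwards [eventually_gt_atTop 0] with n hn
      have hn' : (0 : ℝ) < n := by exact_mod_cast hn
      have h2 : ((K n + 1 : ℕ) : ℝ) / m (K n + 1) ≤ ((K n + 1 : ℕ) : ℝ) / n :=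
        div_le_div_of_nonneg_left (Nat.cast_nonneg _) hn' (hB n).le
      have h3 : ((K n + 1 : ℕ) : ℝ) / n = (K n : ℝ) / n + 1 / n := by
        push_cast
        rw [add_div]
      linarith
    · filter_upwards [eventually_gt_atTop 0, hinf.eventually_gt_atTop 0] with n hn hK0
      have hm0 : 0 < m (K n) := lt_of_lt_of_le (by exact_mod_cast hK0) (hm (K n))
      exact div_le_div_of_nonneg_left (Nat.cast_nonneg _) hm0 (hA n)
  · rw [Metric.tendsto_atTop]
    intro ε hε
    have h2 := hreg 2 (ε / 2) (by linarith)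
    have h3 : Tendsto (fun n : ℕ => κ / Real.sqrt n) atTop (𝓝 0) := by
      have h4 : Tendsto (fun n : ℕ => Real.sqrt n) atTop atTop :=
        Real.tendsto_sqrt_atTop.comp tendsto_natCast_atTop_atTop
      exact h4.const_div_atTop κ
    have h5 : ∀ᶠ n : ℕ in atTop, κ / Real.sqrt n < ε / 2 :=
      h3.eventually (gt_mem_nhds (by linarith))
    obtain ⟨N, hN⟩ := (eventually_atTop.1 (h2.and (h5.and (eventually_ge_atTop 1))))
    refine ⟨N, fun n hn => ?_⟩
    obtain ⟨h6, h7, h8⟩ := hN n hn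
    have hn1 : (1 : ℝ) ≤ n := by exact_mod_cast h8
    have hs : 1 ≤ Real.sqrt n := Real.one_le_sqrt.2 hn1
    have hs0 : 0 < Real.sqrt n := by linarith
    have h9 := h6 (K n) (K n + 1) (Nat.le_succ _) (by have := hKn n; omega) (by
      push_cast; linarith)
    have h10 : m (K n + 1) - m (K n) ≤ κ + ε / 2 * Real.sqrt n := by
      have := (abs_le.1 h9).2
      push_cast at this
      linarith
    have h11 : (0 : ℝ) ≤ (n : ℝ) - m (K n) := sub_nonneg.2 (hA n)
    rw [Real.dist_eq, sub_zero, abs_of_nonneg (div_nonneg h11 hs0.le)]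
    have h12 : ((n : ℝ) - m (K n)) / Real.sqrt n ≤ (κ + ε / 2 * Real.sqrt n) / Real.sqrt n := by
      apply div_le_div_of_nonneg_right _ hs0.le
      linarith [(hB n).le]
    have h13 : (κ + ε / 2 * Real.sqrt n) / Real.sqrt n = κ / Real.sqrt n + ε / 2 := by
      rw [add_div, mul_div_assoc, div_self hs0.ne', mul_one]
    linarith

end MP0d3db7D1
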