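import Pool.Agent.Lib.MP_0d3db7.D1.Spec

/-!
# MP_0d3db7_pr, theorem D1, module Ivb: inversion (helper76)
-/

set_option autoImplicit false

namespace MP0d3db7D1

open MeasureTheory ProbabilityTheory Filter Topology Pool.Agent.MP0d3db7

namespace Ivb_aux

theorem cont_cdf {v : ℝ} (hv : 0 < v) :
    Continuous fun y : ℝ => (gaussianReal 0 (Real.toNNReal v)).real (Set.Iic y) := by
  have hv' : Real.toNNReal v ≠ 0 := by
    rw [ne_eq, Real.toNNReal_eq_zero, not_le]
    exact hv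
  have := nullSingletonClass_gaussianReal (μ := 0) hv'
  rw [continuous_iff_continuousAt]
  intro y
  have h := IntegrableOn.continuousOn_Iic_primitive_Iic (μ := gaussianReal 0 (Real.toNNReal v))
    (f := fun _ => (1 : ℝ)) (a₀ := y + 1) (integrable_const _).integrableOn
  have h2 := h.continuousAt (x := y) (Iic_mem_nhds (by linarith))
  simpa using h2

theorem gauss {v κ : ℝ} (hκ : 0 < κ) (hv : 0 < v) (x : ℝ) :
    (gaussianReal 0 (Real.toNNReal v)).real (Set.Iic (-x * κ * Real.sqrt κ)) =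
      (gaussianReal 0 (Real.toNNReal (v / κ ^ 3))).real (Set.Ici x) := by
  have hs : 0 < Real.sqrt κ := Real.sqrt_pos.2 hκ
  have hc : 0 < κ * Real.sqrt κ := by positivity
  have h := gaussianReal_map_const_mul (μ := 0) (v := Real.toNNReal (v / κ ^ 3))
    (-(κ * Real.sqrt κ))
  have hv2 : (NNReal.mk ((-(κ * Real.sqrt κ)) ^ 2) (sq_nonneg _)) * Real.toNNReal (v / κ ^ 3) =
      Real.toNNReal v := by
    apply NNReal.coe_injective
    rw [NNReal.coe_mul, Real.coe_toNNReal _ (by positivity), Real.coe_toNNReal _ hv.le]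
    show (-(κ * Real.sqrt κ)) ^ 2 * (v / κ ^ 3) = v
    rw [neg_sq, mul_pow, Real.sq_sqrt hκ.le]
    field_simp
  rw [hv2, mul_zero] at h
  rw [← h, map_measureReal_apply (measurable_const_mul _) measurableSet_Iic]
  congr 1
  ext t
  simp only [Set.mem_preimage, Set.mem_Iic, Set.mem_Ici]
  constructor
  · intro ht
    have : (κ * Real.sqrt κ) * x ≤ (κ * Real.sqrt κ) * t := by linarith
    exact le_of_mul_le_mul_left this hc
  · intro ht
    have := mul_le_mul_of_nonneg_left ht hc.le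
    linarith

theorem sqrt_inf : Tendsto (fun n : ℕ => Real.sqrt n) atTop atTop :=
  Real.tendsto_sqrt_atTop.comp tendsto_natCast_atTop_atTop

theorem main {q : ℕ → ℝ → ℝ} {m : ℕ → ℝ} {κ v : ℝ} {K : ℕ → ℕ} (hκ : 0 < κ)
    (hv : 0 < v) (hq : ∀ k, Monotone (q k))
    (hlim : ∀ x : ℝ, Tendsto (fun k : ℕ => q k (m k + x * Real.sqrt k)) atTop
      (𝓝 ((gaussianReal 0 (Real.toNNReal v)).real (Set.Iic x))))
    (hreg : ∀ (D : ℕ) (ε : ℝ), 0 < ε → ∀ᶠ n : ℕ in atTop, ∀ k k' : ℕ, k ≤ k' → k' ≤ D * n →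
      (k' : ℝ) - k ≤ D * Real.sqrt n → |m k' - m k - ((k' : ℝ) - k) * κ| ≤ ε * Real.sqrt n)
    (hK : Tendsto (fun n : ℕ => (K n : ℝ) / n) atTop (𝓝 (1 / κ)))
    (hmK : Tendsto (fun n : ℕ => ((n : ℝ) - m (K n)) / Real.sqrt n) atTop (𝓝 0))
    (k' : ℕ → ℕ) (x : ℝ)
    (hk : Tendsto (fun n : ℕ => ((k' n : ℝ) - K n) / Real.sqrt n) atTop (𝓝 x)) :
    Tendsto (fun n : ℕ => q (k' n) n) atTop
      (𝓝 ((gaussianReal 0 (Real.toNNReal v)).real (Set.Iic (-x * κ * Real.sqrt κ)))) := by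
  have hs := sqrt_inf
  have hinv : Tendsto (fun n : ℕ => (Real.sqrt n)⁻¹) atTop (𝓝 0) := hs.inv_tendsto_atTop
  have hn0 : ∀ᶠ n : ℕ in atTop, 1 ≤ n := eventually_ge_atTop 1
  -- `k' n / n → 1 / κ`
  have hk1 : Tendsto (fun n : ℕ => (k' n : ℝ) / n) atTop (𝓝 (1 / κ)) := by
    have h := hK.add (hk.mul hinv)
    rw [mul_zero, add_zero] at h
    refine h.congr' ?_
    filter_upwards [hn0] with n hn
    have hn' : (0 : ℝ) < n := by exact_mod_cast hn
    have e : Real.sqrt n * Real.sqrt n = n := Real.mul_self_sqrt hn'.le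
    have hsn : 0 < Real.sqrt n := Real.sqrt_pos.2 hn'
    rw [← div_eq_mul_inv, div_div, e]
    ring
  have hκ1 : 0 < 1 / κ := by positivity
  -- `k' n → ∞`
  have hk2 : Tendsto (fun n : ℕ => (k' n : ℝ)) atTop atTop := by
    have h := hk1.pos_mul_atTop hκ1 (tendsto_natCast_atTop_atTop (R := ℝ))
    refine h.congr' ?_
    filter_upwards [hn0] with n hn
    have hn' : (n : ℝ) ≠ 0 := by positivity
    field_simp
  have hk3 : Tendsto k' atTop atTop := tendsto_natCast_atTop_iff.1 hk2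
  -- the centering
  obtain ⟨D, hD⟩ := exists_nat_gt (max (|x| + 1) (1 / κ + 1))
  have hD1 : |x| + 1 < D := lt_of_le_of_lt (le_max_left _ _) hD
  have hD2 : 1 / κ + 1 < D := lt_of_le_of_lt (le_max_right _ _) hD
  have hreg' : ∀ ε : ℝ, 0 < ε → ∀ᶠ n : ℕ in atTop,
      |m (k' n) - m (K n) - ((k' n : ℝ) - K n) * κ| ≤ ε * Real.sqrt n := by
    intro ε hε
    have e1 : ∀ᶠ n : ℕ in atTop, |((k' n : ℝ) - K n) / Real.sqrt n| < D := by
      have := hk.abs
      exact this.eventually (gt_mem_nhds (by linarith))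
    have e2 : ∀ᶠ n : ℕ in atTop, (k' n : ℝ) / n < D := hk1.eventually (gt_mem_nhds (by linarith))
    have e3 : ∀ᶠ n : ℕ in atTop, (K n : ℝ) / n < D := hK.eventually (gt_mem_nhds (by linarith))
    filter_upwards [hn0, e1, e2, e3, hreg D ε hε] with n hn h1 h2 h3 h4
    have hn' : (0 : ℝ) < n := by exact_mod_cast hn
    have hsn : 0 < Real.sqrt n := Real.sqrt_pos.2 hn'
    rw [abs_div, abs_of_pos hsn, div_lt_iff₀ hsn] at h1
    rw [div_lt_iff₀ hn'] at h2 h3
    have h2' : k' n ≤ D * n := by exact_mod_cast h2.le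
    have h3' : K n ≤ D * n := by exact_mod_cast h3.le
    rcases le_total (K n) (k' n) with h | h
    · exact h4 (K n) (k' n) h h2' ((le_abs_self _).trans h1.le)
    · have h5 : (K n : ℝ) - k' n ≤ D * Real.sqrt n := by
        rw [abs_sub_comm] at h1
        exact (le_abs_self _).trans h1.le
      have h6 := h4 (k' n) (K n) h h3' h5
      rw [← abs_neg] at h6
      refine le_of_eq_of_le ?_ h6
      congr 1
      ring
  have hr : Tendsto (fun n : ℕ => (m (k' n) - m (K n) - ((k' n : ℝ) - K n) * κ) / Real.sqrt n)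
      atTop (𝓝 0) := by
    rw [Metric.tendsto_atTop']
    intro ε hε
    have h := (hreg' (ε / 2) (by linarith)).and hn0
    obtain ⟨N, hN⟩ := eventually_atTop.1 h
    refine ⟨N, fun n hn => ?_⟩
    obtain ⟨h1, h2⟩ := hN n hn.le
    have hn' : (0 : ℝ) < n := by exact_mod_cast h2
    have hsn : 0 < Real.sqrt n := Real.sqrt_pos.2 hn'
    rw [Real.dist_eq, sub_zero, abs_div, abs_of_pos hsn, div_lt_iff₀ hsn]
    have : ε / 2 * Real.sqrt n < ε * Real.sqrt n := by
      apply mul_lt_mul_of_pos_right _ hsn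
      linarith
    linarith
  have hc : Tendsto (fun n : ℕ => ((n : ℝ) - m (k' n)) / Real.sqrt n) atTop (𝓝 (-x * κ)) := by
    have h := (hmK.sub hr).sub (hk.mul_const κ)
    have e : (0 : ℝ) - 0 - x * κ = -x * κ := by ring
    rw [e] at h
    refine h.congr fun n => ?_
    ring
  -- change of the scale
  have hy : Tendsto (fun n : ℕ => ((n : ℝ) - m (k' n)) / Real.sqrt (k' n)) atTop
      (𝓝 (-x * κ * Real.sqrt κ)) := by
    have h1 : Tendsto (fun n : ℕ => (Real.sqrt ((k' n : ℝ) / n))⁻¹) atTop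
        (𝓝 ((Real.sqrt (1 / κ))⁻¹)) :=
      ((Real.continuous_sqrt.tendsto _).comp hk1).inv₀ (Real.sqrt_pos.2 hκ1).ne'
    have e : (Real.sqrt (1 / κ))⁻¹ = Real.sqrt κ := by
      rw [one_div, Real.sqrt_inv, inv_inv]
    rw [e] at h1
    have h2 := hc.mul h1
    refine h2.congr' ?_
    filter_upwards [hn0, hk2.eventually_gt_atTop 0] with n hn hk0
    have hn' : (0 : ℝ) < n := by exact_mod_cast hn
    have hsn : 0 < Real.sqrt n := Real.sqrt_pos.2 hn'
    have hsk : 0 < Real.sqrt (k' n) := Real.sqrt_pos.2 hk0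
    rw [Real.sqrt_div' _ hn'.le, inv_div]
    field_simp
  -- the limit
  set y : ℝ := -x * κ * Real.sqrt κ with hydef
  have hcont := cont_cdf hv
  have hqe : ∀ᶠ n : ℕ in atTop, q (k' n) n = q (k' n)
      (m (k' n) + ((n : ℝ) - m (k' n)) / Real.sqrt (k' n) * Real.sqrt (k' n)) := by
    filter_upwards [hk2.eventually_gt_atTop 0] with n hk0
    have hsk : 0 < Real.sqrt (k' n) := Real.sqrt_pos.2 hk0
    rw [div_mul_cancel₀ _ hsk.ne']
    congr 1
    ring
  rw [tendsto_order]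
  constructor
  · intro a ha
    obtain ⟨y', hy', hy'2⟩ : ∃ y', y' < y ∧ a < (gaussianReal 0 (Real.toNNReal v)).real (Set.Iic y') := by
      have h1 : ∀ᶠ y' in 𝓝 y, a < (gaussianReal 0 (Real.toNNReal v)).real (Set.Iic y') :=
        (hcont.tendsto y).eventually (lt_mem_nhds ha)
      have h2 : ∀ᶠ y' in 𝓝[<] y, a < (gaussianReal 0 (Real.toNNReal v)).real (Set.Iic y') :=
        nhdsWithin_le_nhds h1
      have h3 : ∀ᶠ y' in 𝓝[<] y, y' < y := self_mem_nhdsWithin
      obtain ⟨y', h4, h5⟩ := (h2.and h3).exists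
      exact ⟨y', h5, h4⟩
    have h1 := ((hlim y').comp hk3).eventually (lt_mem_nhds hy'2)
    have h2 := hy.eventually (lt_mem_nhds hy')
    filter_upwards [hqe, h1, h2] with n h3 h4 h5
    rw [h3]
    refine lt_of_lt_of_le h4 (hq _ ?_)
    have := mul_le_mul_of_nonneg_right h5.le (Real.sqrt_nonneg (k' n))
    simpa using this
  · intro a ha
    obtain ⟨y', hy', hy'2⟩ : ∃ y', y < y' ∧ (gaussianReal 0 (Real.toNNReal v)).real (Set.Iic y') < a := by
      have h1 : ∀ᶠ y' in 𝓝 y, (gaussianReal 0 (Real.toNNReal v)).real (Set.Iic y') < a :=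
        (hcont.tendsto y).eventually (gt_mem_nhds ha)
      have h2 : ∀ᶠ y' in 𝓝[>] y, (gaussianReal 0 (Real.toNNReal v)).real (Set.Iic y') < a :=
        nhdsWithin_le_nhds h1
      have h3 : ∀ᶠ y' in 𝓝[>] y, y < y' := self_mem_nhdsWithin
      obtain ⟨y', h4, h5⟩ := (h2.and h3).exists
      exact ⟨y', h5, h4⟩
    have h1 := ((hlim y').comp hk3).eventually (gt_mem_nhds hy'2)
    have h2 := hy.eventually (gt_mem_nhds hy')
    filter_upwards [hqe, h1, h2] with n h3 h4 h5
    rw [h3]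
    refine lt_of_le_of_lt (hq _ ?_) h4
    have := mul_le_mul_of_nonneg_right h5.le (Real.sqrt_nonneg (k' n))
    simpa using this

end Ivb_aux

open Ivb_aux in
theorem tIvb : S_Ivb := by
  intro q H m κ v K R δ hκ hv hq hlim hreg hK hmK hδ hR h1 h2 x
  have hs := sqrt_inf
  have hinv : Tendsto (fun n : ℕ => (Real.sqrt n)⁻¹) atTop (𝓝 0) := hs.inv_tendsto_atTop
  have hκ1 : 0 < 1 / κ := by positivity
  rw [← gauss hκ hv x]
  -- the natural number
  set k : ℕ → ℕ := fun n => ⌈(K n : ℝ) + x * Real.sqrt n⌉₊ with hk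
  have hpos : ∀ᶠ n : ℕ in atTop, 0 < (K n : ℝ) + x * Real.sqrt n := by
    have h3 : Tendsto (fun n : ℕ => (K n : ℝ) / n + x * (Real.sqrt n)⁻¹) atTop
        (𝓝 (1 / κ + x * 0)) := hK.add (hinv.const_mul x)
    rw [mul_zero, add_zero] at h3
    filter_upwards [h3.eventually (lt_mem_nhds hκ1), eventually_ge_atTop 1] with n h4 h5
    have hn' : (0 : ℝ) < n := by exact_mod_cast h5
    have hsn : 0 < Real.sqrt n := Real.sqrt_pos.2 hn'
    have e : (K n : ℝ) + x * Real.sqrt n = ((K n : ℝ) / n + x * (Real.sqrt n)⁻¹) * n := by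
      have e2 : Real.sqrt n * Real.sqrt n = n := Real.mul_self_sqrt hn'.le
      have e3 : (Real.sqrt n)⁻¹ * n = Real.sqrt n := by
        nth_rewrite 2 [← e2]
        field_simp
      rw [add_mul, mul_assoc, e3, div_mul_cancel₀ _ hn'.ne']
    rw [e]
    positivity
  have hkx : Tendsto (fun n : ℕ => ((k n : ℝ) - K n) / Real.sqrt n) atTop (𝓝 x) := by
    have h3 : Tendsto (fun n : ℕ => x + (Real.sqrt n)⁻¹) atTop (𝓝 (x + 0)) :=
      tendsto_const_nhds.add hinv
    rw [add_zero] at h3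
    refine tendsto_of_tendsto_of_tendsto_of_le_of_le' tendsto_const_nhds h3 ?_ ?_
    · filter_upwards [eventually_ge_atTop 1] with n h5
      have hn' : (0 : ℝ) < n := by exact_mod_cast h5
      have hsn : 0 < Real.sqrt n := Real.sqrt_pos.2 hn'
      rw [le_div_iff₀ hsn]
      have := Nat.le_ceil ((K n : ℝ) + x * Real.sqrt n)
      simp only [hk]
      linarith
    · filter_upwards [eventually_ge_atTop 1, hpos] with n h5 h6
      have hn' : (0 : ℝ) < n := by exact_mod_cast h5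
      have hsn : 0 < Real.sqrt n := Real.sqrt_pos.2 hn'
      rw [div_le_iff₀ hsn, add_mul, inv_mul_cancel₀ hsn.ne']
      have := Nat.ceil_lt_add_one h6.le
      simp only [hk]
      linarith
  have hkR : Tendsto (fun n : ℕ => (((k n + R n : ℕ) : ℝ) - K n) / Real.sqrt n) atTop (𝓝 x) := by
    have h3 := hkx.add hR
    rw [add_zero] at h3
    refine h3.congr fun n => ?_
    push_cast
    ring
  have m1 := main hκ hv hq hlim hreg hK hmK k x hkx
  have m2 := main hκ hv hq hlim hreg hK hmK (fun n => k n + R n) x hkR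
  have m3 := m2.sub hδ
  rw [sub_zero] at m3
  have e : ∀ᶠ n : ℕ in atTop, H n ⌈(K n : ℝ) + x * Real.sqrt n⌉ = H n (k n : ℕ) := by
    filter_upwards [hpos] with n h6
    simp only [hk]
    rw [Int.natCast_ceil_eq_ceil h6.le]
  refine tendsto_of_tendsto_of_tendsto_of_le_of_le' m3 m1 ?_ ?_
  · filter_upwards [e] with n he
    rw [he]
    have := h2 n (k n)
    linarith
  · filter_upwards [e] with n he
    rw [he]
    exact h1 n (k n)

end MP0d3db7D1
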