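import Pool.Agent.Lib.MP_0d3db7.D1.Spec

set_option autoImplicit false

namespace MP0d3db7D1

open MeasureTheory ProbabilityTheory Filter Topology Pool.Agent.MP0d3db7

namespace Lg_aux

/-- left arrows before the `r`-th right arrow among `M` arrows -/
def gF : (M : ℕ) → (Fin M → Bool) → ℕ → ℕ
  | 0, _, _ => 0
  | _ + 1, _, 0 => 0
  | M + 1, v, r + 1 =>
    if v 0 then gF M (fun i => v i.succ) r else gF M (fun i => v i.succ) (r + 1) + 1

theorem gF_zero (M : ℕ) (v : Fin M → Bool) : gF M v 0 = 0 := by
  cases M <;> rfl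

theorem gF_ct (M : ℕ) (v : Fin M → Bool) (r : ℕ) :
    gF (M + 1) (Fin.cons true v) (r + 1) = gF M v r := by
  simp [gF]

theorem gF_cf (M : ℕ) (v : Fin M → Bool) (r : ℕ) :
    gF (M + 1) (Fin.cons false v) (r + 1) = gF M v (r + 1) + 1 := by
  simp [gF]

theorem ber_prob {p : ℝ} (h0 : 0 ≤ p) (h1 : p ≤ 1) : IsProbabilityMeasure (Ber p) := by
  refine ⟨?_⟩
  unfold Ber
  rw [Measure.add_apply, Measure.smul_apply, Measure.smul_apply, measure_univ, measure_univ,
    smul_eq_mul, smul_eq_mul, mul_one, mul_one, ← ENNReal.ofReal_add h0 (by linarith),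
    add_sub_cancel, ENNReal.ofReal_one]

theorem lint_ber (p : ℝ) (f : Bool → ENNReal) :
    ∫⁻ b, f b ∂Ber p = ENNReal.ofReal p * f true + ENNReal.ofReal (1 - p) * f false := by
  unfold Ber
  rw [lintegral_add_measure, lintegral_smul_measure, lintegral_smul_measure, lintegral_dirac,
    lintegral_dirac, smul_eq_mul, smul_eq_mul]

/-- the law of `M` arrows -/
noncomputable def PB (p : ℝ) (M : ℕ) : Measure (Fin M → Bool) := Measure.pi fun _ => Ber p

theorem meas_disc {M : ℕ} (F : (Fin M → Bool) → ENNReal) : Measurable F :=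
  measurable_of_countable F

theorem lint_succ {p : ℝ} [IsProbabilityMeasure (Ber p)] (M : ℕ)
    (F : (Fin (M + 1) → Bool) → ENNReal) : ∫⁻ v, F v ∂PB p (M + 1) =
      ENNReal.ofReal p * ∫⁻ v, F (Fin.cons true v) ∂PB p M +
        ENNReal.ofReal (1 - p) * ∫⁻ v, F (Fin.cons false v) ∂PB p M := by
  have h := measurePreserving_piFinSuccAbove (fun _ : Fin (M + 1) => Ber p) 0
  have hm : Measurable fun x : Bool × (Fin M → Bool) => F (Fin.cons x.1 x.2) :=
    measurable_of_countable _
  have h2 := h.lintegral_comp hm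
  have h3 : ∀ v : Fin (M + 1) → Bool,
      F (Fin.cons (MeasurableEquiv.piFinSuccAbove (fun _ => Bool) 0 v).1
        (MeasurableEquiv.piFinSuccAbove (fun _ => Bool) 0 v).2) = F v := by
    intro v
    congr 1
    funext i
    refine Fin.cases ?_ (fun j => ?_) i
    · rfl
    · rw [Fin.cons_succ]
      rfl
  have h4 : ∫⁻ v, F v ∂PB p (M + 1) =
      ∫⁻ x, F (Fin.cons x.1 x.2) ∂((Ber p).prod (PB p M)) := by
    rw [← lintegral_congr h3]
    exact h2
  haveI : IsProbabilityMeasure (PB p M) := by
    unfold PB
    infer_instance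
  rw [h4, lintegral_prod _ hm.aemeasurable, lint_ber]

theorem bnd {p s : ℝ} [IsProbabilityMeasure (Ber p)] (hp : 0 < p) (hp1 : p ≤ 1) (hs : 1 ≤ s)
    (hps : (1 - p) * s < 1) (M : ℕ) : ∀ x y : ℕ,
      ∫⁻ v, ENNReal.ofReal (s ^ (gF M v (x + y) - gF M v x)) ∂PB p M ≤
        ENNReal.ofReal ((p / (1 - (1 - p) * s)) ^ y) := by
  have hD : 0 < 1 - (1 - p) * s := by linarith
  have hψ : 1 ≤ p / (1 - (1 - p) * s) := by
    rw [one_le_div hD]
    nlinarith
  have hψ0 : 0 ≤ p / (1 - (1 - p) * s) := by linarith
  have hψD : p / (1 - (1 - p) * s) * (1 - (1 - p) * s) = p := div_mul_cancel₀ p hD.ne'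
  generalize p / (1 - (1 - p) * s) = ψ at hψ hψ0 hψD
  have hq : 0 ≤ 1 - p := by linarith
  have hs0 : 0 ≤ s := by linarith
  induction M with
  | zero =>
    intro x y
    haveI : IsProbabilityMeasure (PB p 0) := by
      unfold PB
      infer_instance
    have h1 : ∀ v : Fin 0 → Bool, ENNReal.ofReal (s ^ (gF 0 v (x + y) - gF 0 v x)) = 1 := by
      intro v
      show ENNReal.ofReal (s ^ (0 - 0)) = 1
      rw [Nat.sub_self, pow_zero, ENNReal.ofReal_one]
    rw [lintegral_congr h1, lintegral_const, measure_univ, mul_one, ← ENNReal.ofReal_one]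
    exact ENNReal.ofReal_le_ofReal (one_le_pow₀ hψ)
  | succ M ih =>
    intro x y
    rw [lint_succ]
    haveI : IsProbabilityMeasure (PB p M) := by
      unfold PB
      infer_instance
    cases x with
    | succ x =>
      have e1 : ∀ v : Fin M → Bool, ENNReal.ofReal (s ^ (gF (M + 1) (Fin.cons true v) (x + 1 + y) -
          gF (M + 1) (Fin.cons true v) (x + 1))) =
          ENNReal.ofReal (s ^ (gF M v (x + y) - gF M v x)) := by
        intro v
        rw [show x + 1 + y = (x + y) + 1 by omega, gF_ct, gF_ct]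
      have e2 : ∀ v : Fin M → Bool, ENNReal.ofReal (s ^ (gF (M + 1) (Fin.cons false v) (x + 1 + y) -
          gF (M + 1) (Fin.cons false v) (x + 1))) =
          ENNReal.ofReal (s ^ (gF M v (x + 1 + y) - gF M v (x + 1))) := by
        intro v
        rw [show x + 1 + y = (x + y) + 1 by omega, gF_cf, gF_cf, Nat.add_sub_add_right]
      rw [lintegral_congr e1, lintegral_congr e2]
      calc ENNReal.ofReal p * ∫⁻ v, ENNReal.ofReal (s ^ (gF M v (x + y) - gF M v x)) ∂PB p M +
            ENNReal.ofReal (1 - p) *
              ∫⁻ v, ENNReal.ofReal (s ^ (gF M v (x + 1 + y) - gF M v (x + 1))) ∂PB p M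
          ≤ ENNReal.ofReal p * ENNReal.ofReal (ψ ^ y) +
              ENNReal.ofReal (1 - p) * ENNReal.ofReal (ψ ^ y) := by
            gcongr
            · exact ih x y
            · exact ih (x + 1) y
        _ = ENNReal.ofReal (ψ ^ y) := by
            rw [← add_mul, ← ENNReal.ofReal_add hp.le hq, add_sub_cancel, ENNReal.ofReal_one,
              one_mul]
    | zero =>
      cases y with
      | zero =>
        have e1 : ∀ (b : Bool) (v : Fin M → Bool),
            ENNReal.ofReal (s ^ (gF (M + 1) (Fin.cons b v) (0 + 0) -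
              gF (M + 1) (Fin.cons b v) 0)) = 1 := by
          intro b v
          rw [Nat.sub_self, pow_zero, ENNReal.ofReal_one]
        rw [lintegral_congr (e1 true), lintegral_congr (e1 false), lintegral_const, measure_univ,
          mul_one, mul_one, mul_one, ← ENNReal.ofReal_add hp.le hq, add_sub_cancel, pow_zero]
      | succ y =>
        have e1 : ∀ v : Fin M → Bool, ENNReal.ofReal (s ^ (gF (M + 1) (Fin.cons true v) (0 + (y + 1)) -
            gF (M + 1) (Fin.cons true v) 0)) =
            ENNReal.ofReal (s ^ (gF M v (0 + y) - gF M v 0)) := by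
          intro v
          rw [show 0 + (y + 1) = y + 1 by omega, gF_ct, gF_zero, gF_zero, zero_add]
        have e2 : ∀ v : Fin M → Bool, ENNReal.ofReal (s ^ (gF (M + 1) (Fin.cons false v) (0 + (y + 1)) -
            gF (M + 1) (Fin.cons false v) 0)) =
            ENNReal.ofReal s * ENNReal.ofReal (s ^ (gF M v (0 + (y + 1)) - gF M v 0)) := by
          intro v
          rw [show 0 + (y + 1) = y + 1 by omega, gF_cf, gF_zero, gF_zero, Nat.sub_zero,
            Nat.sub_zero, ← ENNReal.ofReal_mul hs0, pow_succ, mul_comm]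
        rw [lintegral_congr e1, lintegral_congr e2, lintegral_const_mul _ (meas_disc _)]
        calc ENNReal.ofReal p * ∫⁻ v, ENNReal.ofReal (s ^ (gF M v (0 + y) - gF M v 0)) ∂PB p M +
              ENNReal.ofReal (1 - p) * (ENNReal.ofReal s *
                ∫⁻ v, ENNReal.ofReal (s ^ (gF M v (0 + (y + 1)) - gF M v 0)) ∂PB p M)
            ≤ ENNReal.ofReal p * ENNReal.ofReal (ψ ^ y) +
                ENNReal.ofReal (1 - p) * (ENNReal.ofReal s * ENNReal.ofReal (ψ ^ (y + 1))) := by
              gcongr
              · exact ih 0 y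
              · exact ih 0 (y + 1)
          _ = ENNReal.ofReal (ψ ^ (y + 1)) := by
              rw [← ENNReal.ofReal_mul hs0, ← ENNReal.ofReal_mul hq, ← ENNReal.ofReal_mul hp.le,
                ← ENNReal.ofReal_add (by positivity) (by positivity)]
              congr 1
              rw [pow_succ]
              linear_combination -(ψ ^ y) * hψD

theorem bnd1 {p : ℝ} [IsProbabilityMeasure (Ber p)] (hp : 0 < p) (hp1 : p ≤ 1) (M : ℕ) :
    ∀ r : ℕ, ∫⁻ v, (gF M v r : ENNReal) ∂PB p M ≤ ENNReal.ofReal (r * ((1 - p) / p)) := by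
  have hq : 0 ≤ 1 - p := by linarith
  induction M with
  | zero =>
    intro r
    have h1 : ∀ v : Fin 0 → Bool, ((gF 0 v r : ℕ) : ENNReal) = 0 := fun v => Nat.cast_zero
    rw [lintegral_congr h1, lintegral_zero]
    exact zero_le
  | succ M ih =>
    intro r
    haveI : IsProbabilityMeasure (PB p M) := by
      unfold PB
      infer_instance
    cases r with
    | zero =>
      have h1 : ∀ v : Fin (M + 1) → Bool, ((gF (M + 1) v 0 : ℕ) : ENNReal) = 0 := fun v => by
        rw [gF_zero, Nat.cast_zero]
      rw [lintegral_congr h1, lintegral_zero]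
      exact zero_le
    | succ r =>
      rw [lint_succ]
      have e1 : ∀ v : Fin M → Bool, ((gF (M + 1) (Fin.cons true v) (r + 1) : ℕ) : ENNReal) =
          (gF M v r : ENNReal) := fun v => by rw [gF_ct]
      have e2 : ∀ v : Fin M → Bool, ((gF (M + 1) (Fin.cons false v) (r + 1) : ℕ) : ENNReal) =
          (gF M v (r + 1) : ENNReal) + 1 := fun v => by rw [gF_cf, Nat.cast_add, Nat.cast_one]
      rw [lintegral_congr e1, lintegral_congr e2, lintegral_add_left (meas_disc _), lintegral_const,
        measure_univ, mul_one]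
      calc ENNReal.ofReal p * ∫⁻ v, (gF M v r : ENNReal) ∂PB p M +
            ENNReal.ofReal (1 - p) * (∫⁻ v, (gF M v (r + 1) : ENNReal) ∂PB p M + 1)
          ≤ ENNReal.ofReal p * ENNReal.ofReal (r * ((1 - p) / p)) +
              ENNReal.ofReal (1 - p) *
                (ENNReal.ofReal (((r + 1 : ℕ) : ℝ) * ((1 - p) / p)) + ENNReal.ofReal 1) := by
            gcongr
            · exact ih r
            · exact ih (r + 1)
            · rw [ENNReal.ofReal_one]
        _ = ENNReal.ofReal (((r + 1 : ℕ) : ℝ) * ((1 - p) / p)) := by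
            rw [← ENNReal.ofReal_add (by positivity) (by positivity), ← ENNReal.ofReal_mul hq,
              ← ENNReal.ofReal_mul hp.le, ← ENNReal.ofReal_add (by positivity) (by positivity)]
            congr 1
            push_cast
            field_simp
            ring

theorem law {p : ℝ} [IsProbabilityMeasure (Ber p)] (M : ℕ) :
    (St (Ber p)).map (fun a (i : Fin M) => a ((i : ℕ) + 1)) = PB p M := by
  unfold St PB
  have hinj : Function.Injective fun i : Fin M => (i : ℕ) + 1 := by
    intro i j h
    apply Fin.ext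
    simpa using h
  rw [Measure.map_infinitePi_infinitePi_of_inj (P := fun _ : ℕ => Ber p) hinj,
    Measure.infinitePi_eq_pi]

theorem meas_sh (M : ℕ) : Measurable fun (a : ℕ → Bool) (i : Fin M) => a ((i : ℕ) + 1) :=
  measurable_pi_lambda _ fun _ => measurable_pi_apply _

theorem lint_law {p : ℝ} [IsProbabilityMeasure (Ber p)] (M : ℕ) (F : (Fin M → Bool) → ENNReal) :
    ∫⁻ a, F (fun i : Fin M => a ((i : ℕ) + 1)) ∂St (Ber p) = ∫⁻ v, F v ∂PB p M := by
  rw [← law, lintegral_map (meas_disc F) (meas_sh M)]

theorem gF_card (M : ℕ) : ∀ (b : ℕ → Bool) (r : ℕ), gF M (fun i : Fin M => b i) r =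
    ((Finset.range M).filter
      (fun i => b i = false ∧ Nat.count (fun i => b i = true) i < r)).card := by
  induction M with
  | zero =>
    intro b r
    rfl
  | succ M ih =>
    intro b r
    cases r with
    | zero =>
      rw [gF_zero]
      simp
    | succ r =>
      rw [Finset.card_filter, Finset.sum_range_succ']
      have hc : ∀ i, Nat.count (fun i => b i = true) (i + 1) =
          Nat.count (fun k => b (k + 1) = true) i + if b 0 = true then 1 else 0 := fun i =>
        Nat.count_succ' (fun i => b i = true) i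
      by_cases h0 : b 0 = true
      · have e1 : gF (M + 1) (fun i : Fin (M + 1) => b i) (r + 1) =
            gF M (fun i : Fin M => b ((i : ℕ) + 1)) r := by
          show (if b ((0 : Fin (M + 1)) : ℕ) then gF M (fun i : Fin M => b (i.succ : Fin (M + 1))) r
            else gF M (fun i : Fin M => b (i.succ : Fin (M + 1))) (r + 1) + 1) = _
          rw [Fin.val_zero, if_pos h0]
          rfl
        rw [e1, ih (fun i => b (i + 1)) r, Finset.card_filter]
        have e2 : ∑ i ∈ Finset.range M, (if b (i + 1) = false ∧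
            Nat.count (fun k => b (k + 1) = true) i < r then 1 else 0) =
            ∑ k ∈ Finset.range M, if b (k + 1) = false ∧
              Nat.count (fun i => b i = true) (k + 1) < r + 1 then 1 else 0 := by
          refine Finset.sum_congr rfl fun i _ => ?_
          rw [hc i, if_pos h0]
          simp only [Nat.add_lt_add_iff_right]
        rw [e2]
        simp [h0]
      · have e1 : gF (M + 1) (fun i : Fin (M + 1) => b i) (r + 1) =
            gF M (fun i : Fin M => b ((i : ℕ) + 1)) (r + 1) + 1 := by
          show (if b ((0 : Fin (M + 1)) : ℕ) then gF M (fun i : Fin M => b (i.succ : Fin (M + 1))) r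
            else gF M (fun i : Fin M => b (i.succ : Fin (M + 1))) (r + 1) + 1) = _
          rw [Fin.val_zero, if_neg h0]
          rfl
        rw [e1, ih (fun i => b (i + 1)) (r + 1), Finset.card_filter]
        have e2 : ∑ i ∈ Finset.range M, (if b (i + 1) = false ∧
            Nat.count (fun k => b (k + 1) = true) i < r + 1 then 1 else 0) =
            ∑ k ∈ Finset.range M, if b (k + 1) = false ∧
              Nat.count (fun i => b i = true) (k + 1) < r + 1 then 1 else 0 := by
          refine Finset.sum_congr rfl fun i _ => ?_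
          rw [hc i, if_neg h0, add_zero]
        rw [e2]
        have h1 : b 0 = false := by simpa using h0
        simp [h1]

theorem ev (a : ℕ → Bool) (hG : Gd a) (r : ℕ) :
    ∀ᶠ M in atTop, gF M (fun i : Fin M => a ((i : ℕ) + 1)) r = lf a r := by
  cases r with
  | zero =>
    refine Eventually.of_forall fun M => ?_
    rw [gF_zero]
    rfl
  | succ r =>
    let P : ℕ → Prop := fun i => a (i + 1) = true
    have hinf : (Set.ofPred P).Infinite := Nat.frequently_atTop_iff_infinite.1 hG
    obtain ⟨N, hN⟩ : ∃ N, N = Nat.nth P r := ⟨_, rfl⟩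
    have hPN : P N := by
      rw [hN]
      exact Nat.nth_mem_of_infinite hinf r
    have hlt : ∀ i, Nat.count P i < r + 1 ↔ i ≤ N := by
      intro i
      have h1 := Nat.lt_nth_iff_count_lt hinf (a := r) (b := i)
      rw [← hN] at h1
      omega
    have hlf : lf a (r + 1) = N - r := by
      rw [lf, if_pos hG, hN]
    filter_upwards [eventually_ge_atTop N] with M hM
    rw [gF_card M (fun i => a (i + 1)) (r + 1), hlf]
    have h2 : (Finset.range M).filter (fun i => a (i + 1) = false ∧
        Nat.count (fun i => a (i + 1) = true) i < r + 1) =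
        (Finset.range N).filter (fun i => ¬ P i) := by
      ext i
      rw [Finset.mem_filter, Finset.mem_filter, Finset.mem_range, Finset.mem_range]
      have h3 := hlt i
      constructor
      · rintro ⟨h4, h5, h6⟩
        have h7 := h3.1 h6
        have h8 : i ≠ N := by
          rintro rfl
          have h9 : a (i + 1) = true := hPN
          rw [h5] at h9
          exact Bool.false_ne_true h9
        refine ⟨by omega, ?_⟩
        show ¬ a (i + 1) = true
        rw [h5]
        exact Bool.false_ne_true
      · rintro ⟨h4, h5⟩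
        refine ⟨by omega, ?_, h3.2 (by omega)⟩
        exact Bool.eq_false_iff.2 h5
    rw [h2]
    have h3 := Finset.card_filter_add_card_filter_not (s := Finset.range N) P
    rw [← Nat.count_eq_card_filter_range, Finset.card_range] at h3
    have h4 : Nat.count P N = r := by
      rw [hN]
      exact Nat.count_nth_of_infinite hinf r
    rw [h4] at h3
    omega

theorem ber_false {p : ℝ} : Ber p {false} = ENNReal.ofReal (1 - p) := by
  have h := lint_ber p (Set.indicator {false} fun _ => 1)
  rw [lintegral_indicator (MeasurableSet.singleton false), lintegral_const, one_mul,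
    Measure.restrict_apply_univ] at h
  rw [h]
  simp

theorem ae_gd {p : ℝ} [IsProbabilityMeasure (Ber p)] (hp : 0 < p) :
    ∀ᵐ a ∂St (Ber p), Gd a := by
  have hnull : ∀ N : ℕ, St (Ber p) {a | ∀ i, N ≤ i → a (i + 1) = false} = 0 := by
    intro N
    have h1 : ∀ M : ℕ, St (Ber p) {a | ∀ i, N ≤ i → a (i + 1) = false} ≤
        ENNReal.ofReal (1 - p) ^ M := by
      intro M
      have h2 : {a : ℕ → Bool | ∀ i, N ≤ i → a (i + 1) = false} ⊆
          Set.pi (Finset.Ico (N + 1) (N + 1 + M) : Finset ℕ) (fun _ => ({false} : Set Bool)) := by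
        intro a ha i hi
        rw [Finset.mem_coe, Finset.mem_Ico] at hi
        have h3 := ha (i - 1) (by omega)
        rw [show i - 1 + 1 = i by omega] at h3
        exact h3
      refine (measure_mono h2).trans ?_
      unfold St
      rw [Measure.infinitePi_pi _ (fun _ _ => MeasurableSet.singleton false), Finset.prod_const,
        ber_false, Nat.card_Ico, Nat.add_sub_cancel_left]
    have h3 : Tendsto (fun M : ℕ => ENNReal.ofReal (1 - p) ^ M) atTop (𝓝 0) := by
      refine ENNReal.tendsto_pow_atTop_nhds_zero_of_lt_one ?_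
      rw [← ENNReal.ofReal_one]
      exact (ENNReal.ofReal_lt_ofReal_iff one_pos).2 (by linarith)
    have h4 := ge_of_tendsto' h3 h1
    exact le_antisymm h4 zero_le
  rw [ae_iff]
  refine measure_mono_null ?_ (measure_iUnion_null hnull)
  intro a ha
  have h1 : ¬ ∃ᶠ i in atTop, a (i + 1) = true := ha
  rw [not_frequently, eventually_atTop] at h1
  obtain ⟨N, hN⟩ := h1
  refine Set.mem_iUnion.2 ⟨N, fun i hi => ?_⟩
  exact Bool.eq_false_iff.2 (hN i hi)

/-- Fatou -/
theorem fatou {p : ℝ} [IsProbabilityMeasure (Ber p)] (hp : 0 < p) (F : (ℕ → Bool) → ENNReal)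
    (Fm : (M : ℕ) → (Fin M → Bool) → ENNReal) (C : ENNReal)
    (h : ∀ a, Gd a → ∀ᶠ M in atTop, Fm M (fun i : Fin M => a ((i : ℕ) + 1)) = F a)
    (hC : ∀ M, ∫⁻ v, Fm M v ∂PB p M ≤ C) : ∫⁻ a, F a ∂St (Ber p) ≤ C := by
  have h1 : ∫⁻ a, F a ∂St (Ber p) =
      ∫⁻ a, liminf (fun M => Fm M (fun i : Fin M => a ((i : ℕ) + 1))) atTop ∂St (Ber p) := by
    refine lintegral_congr_ae ?_
    filter_upwards [ae_gd hp] with a ha
    have h2 : Tendsto (fun M => Fm M (fun i : Fin M => a ((i : ℕ) + 1))) atTop (𝓝 (F a)) :=
      tendsto_const_nhds.congr' ((h a ha).mono fun M hM => hM.symm)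
    exact h2.liminf_eq.symm
  rw [h1]
  refine (lintegral_liminf_le fun M => (meas_disc (Fm M)).comp (meas_sh M)).trans ?_
  have h2 : ∀ M, ∫⁻ a, Fm M (fun i : Fin M => a ((i : ℕ) + 1)) ∂St (Ber p) ≤ C := fun M => by
    rw [lint_law]
    exact hC M
  calc liminf (fun M => ∫⁻ a, Fm M (fun i : Fin M => a ((i : ℕ) + 1)) ∂St (Ber p)) atTop
      ≤ liminf (fun _ : ℕ => C) atTop := liminf_le_liminf (Eventually.of_forall h2)
    _ = C := liminf_const C

end Lg_aux

open Lg_aux in
theorem tLg : S_Lg := by
  intro p hp hp1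
  haveI := ber_prob hp.le hp1
  refine ⟨ae_gd hp, fun s hs hps x y => ?_, fun r => ?_⟩
  · refine fatou hp _ (fun M v => ENNReal.ofReal (s ^ (gF M v (x + y) - gF M v x))) _
      (fun a ha => ?_) fun M => bnd hp hp1 hs hps M x y
    filter_upwards [ev a ha (x + y), ev a ha x] with M h1 h2
    rw [h1, h2]
  · refine fatou hp _ (fun M v => (gF M v r : ENNReal)) _ (fun a ha => ?_)
      fun M => bnd1 hp hp1 M r
    filter_upwards [ev a ha r] with M h1
    rw [h1]

end MP0d3db7D1
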