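import Pool.Agent.Lib.MP_0d3db7.D1.Spec

/-!
# MP_0d3db7_pr, theorem D1, module M4: fourth moments of the centered means
-/

set_option autoImplicit false
set_option linter.unusedSectionVars false

namespace MP0d3db7D1

open MeasureTheory ProbabilityTheory Filter Topology Pool.Agent.MP0d3db7

namespace M4_aux

/-! ### fourth moments -/

theorem ofReal_pow4 (x : ℝ) : ENNReal.ofReal (x ^ 4) = ‖x‖ₑ ^ 4 := by
  have h : x ^ 4 = ‖x‖ ^ 4 := by
    rw [Real.norm_eq_abs]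
    exact (Even.pow_abs (by decide) x).symm
  rw [h, ← ofReal_norm, ENNReal.ofReal_pow (norm_nonneg _)]

section

variable {Ω : Type} [MeasurableSpace Ω] (P : Measure Ω)

theorem eL4 (g : Ω → ℝ) : eLpNorm g 4 P ^ 4 = ∫⁻ x, ENNReal.ofReal (g x ^ 4) ∂P := by
  have h := eLpNorm_nnreal_pow_eq_lintegral (f := g) (μ := P) (p := 4) (by norm_num)
  have h2 : ((4 : NNReal) : ENNReal) = 4 := rfl
  rw [h2] at h
  have h3 : ((4 : NNReal) : ℝ) = ((4 : ℕ) : ℝ) := by norm_num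
  rw [h3, ENNReal.rpow_natCast] at h
  rw [h]
  refine lintegral_congr fun x => ?_
  rw [ENNReal.rpow_natCast, ofReal_pow4]

/-- Jensen -/
theorem jen [IsProbabilityMeasure P] (g : Ω → ℝ) (hg : AEStronglyMeasurable g P) :
    ENNReal.ofReal ((∫ x, g x ∂P) ^ 4) ≤ ∫⁻ x, ENNReal.ofReal (g x ^ 4) ∂P := by
  rw [ofReal_pow4, ← eL4 P g]
  refine pow_le_pow_left₀ bot_le ?_ 4
  refine (enorm_integral_le_lintegral_enorm g).trans ?_
  rw [← eLpNorm_one_eq_lintegral_enorm]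
  exact eLpNorm_le_eLpNorm_of_exponent_le (by norm_num) hg

theorem memLp4 (g : Ω → ℝ) (hg : AEStronglyMeasurable g P)
    (h : ∫⁻ x, ENNReal.ofReal (g x ^ 4) ∂P < ⊤) : MemLp g 4 P := by
  refine ⟨hg, ?_⟩
  rw [← eL4 P g] at h
  by_contra hne
  rw [not_lt, top_le_iff] at hne
  rw [hne] at h
  simp at h

theorem int4 (g : Ω → ℝ) (hg : MemLp g 4 P) : Integrable (fun x => g x ^ 4) P := by
  have h := MemLp.integrable_norm_pow (p := 4) (f := g) (μ := P) (by exact_mod_cast hg) (by norm_num)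
  refine h.congr (Eventually.of_forall fun x => ?_)
  change ‖g x‖ ^ 4 = g x ^ 4
  rw [Real.norm_eq_abs]
  exact Even.pow_abs (by decide) _

theorem int4_le (g : Ω → ℝ) (hg : MemLp g 4 P) {b : ℝ} (hb : 0 ≤ b)
    (h : ∫⁻ x, ENNReal.ofReal (g x ^ 4) ∂P ≤ ENNReal.ofReal b) : ∫ x, g x ^ 4 ∂P ≤ b := by
  have h1 := ofReal_integral_eq_lintegral_ofReal (int4 P g hg)
    (Eventually.of_forall fun x => by positivity)
  rw [← h1] at h
  exact (ENNReal.ofReal_le_ofReal_iff hb).1 h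

end

theorem four (a b : ℝ) : (a - b) ^ 4 ≤ 8 * (a ^ 4 + b ^ 4) := by
  nlinarith [sq_nonneg (a + b), sq_nonneg (a - b), sq_nonneg (a ^ 2 - b ^ 2),
    sq_nonneg (a ^ 2 + b ^ 2 + 2 * a * b), sq_nonneg (a ^ 2 + b ^ 2)]

/-! ### combinatorics -/

theorem tri (a : ℕ → ℕ → ℝ) (n : ℕ) : ∑ k ∈ Finset.range n, ∑ l ∈ Finset.range (n - k), a l k =
    ∑ l ∈ Finset.range n, ∑ k ∈ Finset.range (n - l), a l k := by
  refine Finset.sum_comm' fun k l => ?_
  simp only [Finset.mem_range]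
  omega

theorem incr (a : ℕ → ℕ → ℝ) (k k' : ℕ) (h : k ≤ k') :
    (∑ l ∈ Finset.range k', ∑ j ∈ Finset.range (k' - l), a l j) -
      ∑ l ∈ Finset.range k, ∑ j ∈ Finset.range (k - l), a l j =
    ∑ l ∈ Finset.range k', ∑ j ∈ Finset.Ico (k - l) (k' - l), a l j := by
  have h1 : ∑ l ∈ Finset.range k, ∑ j ∈ Finset.range (k - l), a l j =
      ∑ l ∈ Finset.range k', ∑ j ∈ Finset.range (k - l), a l j := by
    refine Finset.sum_subset (Finset.range_mono h) fun l _ hl => ?_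
    rw [Finset.mem_range, not_lt] at hl
    rw [Nat.sub_eq_zero_of_le hl, Finset.range_zero, Finset.sum_empty]
  rw [h1, ← Finset.sum_sub_distrib]
  refine Finset.sum_congr rfl fun l _ => ?_
  rw [Finset.sum_Ico_eq_sub _ (Nat.sub_le_sub_right h l)]

/-! ### the means -/

section

variable {A B : Type} [MeasurableSpace A] [MeasurableSpace B] {μ : Measure A} {ν : Measure B}
  [IsProbabilityMeasure μ] [IsProbabilityMeasure ν] {f : ℕ → (ℕ → A) → (ℕ → B) → ℝ} {C θ : ℝ}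

/-- the quenched mean of one interval functional -/
noncomputable def e0 (ν : Measure B) (f : ℕ → (ℕ → A) → (ℕ → B) → ℝ) (l : ℕ) (o : ℕ → A) : ℝ :=
  ∫ u, f l o u ∂St ν

theorem e0_meas (hf : IF μ ν f C θ) (l : ℕ) : Measurable (e0 ν f l) := by
  have h : StronglyMeasurable (Function.uncurry fun (o : ℕ → A) (u : ℕ → B) => f l o u) :=
    (hf.meas l).stronglyMeasurable
  exact (h.integral_prod_right (ν := St ν)).measurable

theorem e0_nonneg (hf : IF μ ν f C θ) (l : ℕ) (o : ℕ → A) : 0 ≤ e0 ν f l o :=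
  integral_nonneg fun u => hf.nonneg l o u

theorem e0_dep (hf : IF μ ν f C θ) (l : ℕ) {o o' : ℕ → A} (h : ∀ i ≤ l, o i = o' i) :
    e0 ν f l o = e0 ν f l o' :=
  integral_congr_ae (Eventually.of_forall fun u => hf.dep l o o' u u h fun _ _ => rfl)

theorem e0_mom (hf : IF μ ν f C θ) (l : ℕ) :
    ∫⁻ o, ENNReal.ofReal (e0 ν f l o ^ 4) ∂St μ ≤ ENNReal.ofReal (C * θ ^ (4 * l)) := by
  refine le_trans ?_ (hf.mom l)
  rw [lintegral_prod _ (((hf.meas l).pow_const 4).ennreal_ofReal).aemeasurable]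
  refine lintegral_mono fun o => ?_
  refine jen (St ν) (fun u => f l o u) ?_
  have h : Measurable (fun u => f l o u) := (hf.meas l).comp (measurable_const.prodMk measurable_id)
  exact h.aestronglyMeasurable

theorem e0_sh (hSh : S_Sh) (hf : IF μ ν f C θ) (l k : ℕ) (o : ℕ → A) :
    ∫ u, f l (sh k o) (sh k u) ∂St ν = e0 ν f l (sh k o) := by
  have hm := hSh.1 B ν k
  have h : Measurable (fun u => f l (sh k o) u) :=
    (hf.meas l).comp (measurable_const.prodMk measurable_id)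
  have h2 := integral_map (μ := St ν) (φ := sh k) hm.measurable.aemeasurable
    (f := fun u => f l (sh k o) u) (by rw [hm.map_eq]; exact h.aestronglyMeasurable)
  rw [hm.map_eq] at h2
  exact h2.symm

theorem mh_eq (hSh : S_Sh) (hf : IF μ ν f C θ) (o : ℕ → A) (ho : F4 ν f o) (n : ℕ) :
    mh ν f n o = ∑ l ∈ Finset.range n, ∑ j ∈ Finset.range (n - l), e0 ν f l (sh j o) := by
  have hi : ∀ l k, Integrable (fun u => f l (sh k o) (sh k u)) (St ν) := fun l k =>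
    (ho l k).integrable (by norm_num)
  unfold mh SN
  rw [integral_finsetSum _ fun k _ => integrable_finsetSum _ fun l _ => hi l k]
  rw [← tri (fun l k => e0 ν f l (sh k o))]
  refine Finset.sum_congr rfl fun k _ => ?_
  rw [integral_finsetSum _ fun l _ => hi l k]
  exact Finset.sum_congr rfl fun l _ => e0_sh hSh hf l k o

/-- the mean -/
noncomputable def me (μ : Measure A) (ν : Measure B) (f : ℕ → (ℕ → A) → (ℕ → B) → ℝ) (l : ℕ) : ℝ :=
  ∫ o, e0 ν f l o ∂St μ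

theorem me_nonneg (hf : IF μ ν f C θ) (l : ℕ) : 0 ≤ me μ ν f l :=
  integral_nonneg fun o => e0_nonneg hf l o

theorem me_pow (hf : IF μ ν f C θ) (l : ℕ) : me μ ν f l ^ 4 ≤ C * θ ^ (4 * l) := by
  have h := (jen (St μ) (e0 ν f l) (e0_meas hf l).aestronglyMeasurable).trans (e0_mom hf l)
  have h2 : 0 ≤ C * θ ^ (4 * l) := mul_nonneg hf.c0 (pow_nonneg hf.t0.le _)
  exact (ENNReal.ofReal_le_ofReal_iff h2).1 h

theorem me_le (hf : IF μ ν f C θ) (l : ℕ) : me μ ν f l ≤ (C + 1) * θ ^ l := by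
  have h := me_pow hf l
  have hc := hf.c0
  have ht := pow_nonneg hf.t0.le l
  have h2 : C * θ ^ (4 * l) ≤ ((C + 1) * θ ^ l) ^ 4 := by
    rw [mul_pow, ← pow_mul, mul_comm l 4]
    refine mul_le_mul_of_nonneg_right ?_ (pow_nonneg hf.t0.le _)
    have h3 : (1 : ℝ) ≤ (C + 1) ^ 3 := one_le_pow₀ (by linarith)
    calc C ≤ (C + 1) * 1 := by linarith
      _ ≤ (C + 1) * (C + 1) ^ 3 := by
        refine mul_le_mul_of_nonneg_left h3 (by linarith)
      _ = (C + 1) ^ 4 := by ring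
  exact le_of_pow_le_pow_left₀ (by norm_num) (by positivity) (h.trans h2)

/-- the centered terms -/
noncomputable def zz (μ : Measure A) (ν : Measure B) (f : ℕ → (ℕ → A) → (ℕ → B) → ℝ) (l j : ℕ)
    (o : ℕ → A) : ℝ := e0 ν f l (sh j o) - me μ ν f l

theorem e0_L4 (hf : IF μ ν f C θ) (l : ℕ) : MemLp (e0 ν f l) 4 (St μ) :=
  memLp4 (St μ) _ (e0_meas hf l).aestronglyMeasurable
    ((e0_mom hf l).trans_lt ENNReal.ofReal_lt_top)

theorem e0s_L4 (hSh : S_Sh) (hf : IF μ ν f C θ) (l j : ℕ) :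
    MemLp (fun o => e0 ν f l (sh j o)) 4 (St μ) :=
  (e0_L4 hf l).comp_measurePreserving (hSh.1 A μ j)

theorem zz_meas (hSh : S_Sh) (hf : IF μ ν f C θ) (l j : ℕ) : Measurable (zz μ ν f l j) :=
  ((e0_meas hf l).comp (hSh.1 A μ j).measurable).sub_const _

theorem zz_dep (hf : IF μ ν f C θ) (l j : ℕ) : DependsOn (zz μ ν f l j) (Set.Icc j (j + l)) := by
  intro o o' h
  unfold zz
  rw [e0_dep hf l (o := sh j o) (o' := sh j o') fun i hi => h (j + i) ⟨by omega, by omega⟩]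

theorem zz_L4 (hSh : S_Sh) (hf : IF μ ν f C θ) (l j : ℕ) : MemLp (zz μ ν f l j) 4 (St μ) :=
  (e0s_L4 hSh hf l j).sub (memLp_const _)

theorem int_e0s (hSh : S_Sh) (hf : IF μ ν f C θ) (l j : ℕ) (g : ℝ → ℝ) (hg : Measurable g) :
    ∫ o, g (e0 ν f l (sh j o)) ∂St μ = ∫ o, g (e0 ν f l o) ∂St μ := by
  have hm := hSh.1 A μ j
  have h2 := integral_map (μ := St μ) (φ := sh j) hm.measurable.aemeasurable
    (f := fun o => g (e0 ν f l o)) (hg.comp (e0_meas hf l)).aestronglyMeasurable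
  rw [hm.map_eq] at h2
  exact h2.symm

theorem zz_int (hSh : S_Sh) (hf : IF μ ν f C θ) (l j : ℕ) : ∫ o, zz μ ν f l j o ∂St μ = 0 := by
  unfold zz
  have e : ∫ o, e0 ν f l (sh j o) ∂St μ = ∫ o, e0 ν f l o ∂St μ :=
    int_e0s hSh hf l j id measurable_id
  rw [integral_sub ((e0s_L4 hSh hf l j).integrable (by norm_num)) (integrable_const _), e,
    integral_const, probReal_univ, one_smul]
  exact sub_self _

theorem zz_mom (hSh : S_Sh) (hf : IF μ ν f C θ) (l j : ℕ) :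
    ∫ o, zz μ ν f l j o ^ 4 ∂St μ ≤ 16 * C * θ ^ (4 * l) := by
  have h1 : ∫ o, zz μ ν f l j o ^ 4 ∂St μ ≤
      ∫ o, 8 * (e0 ν f l (sh j o) ^ 4 + me μ ν f l ^ 4) ∂St μ := by
    refine integral_mono (int4 _ _ (zz_L4 hSh hf l j))
      (((int4 _ _ (e0s_L4 hSh hf l j)).add (integrable_const _)).const_mul 8) fun o => ?_
    exact four _ _
  have h2 : ∫ o, 8 * (e0 ν f l (sh j o) ^ 4 + me μ ν f l ^ 4) ∂St μ =
      8 * (∫ o, e0 ν f l o ^ 4 ∂St μ + me μ ν f l ^ 4) := by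
    rw [integral_const_mul, integral_add (int4 _ _ (e0s_L4 hSh hf l j)) (integrable_const _),
      int_e0s hSh hf l j (fun x => x ^ 4) (measurable_id.pow_const 4), integral_const,
      probReal_univ, one_smul]
  have h0 : 0 ≤ C * θ ^ (4 * l) := mul_nonneg hf.c0 (pow_nonneg hf.t0.le _)
  have h3 := int4_le (St μ) _ (e0_L4 hf l) h0 (e0_mom hf l)
  have h4 := me_pow hf l
  rw [h2] at h1
  linarith

/-- the sum for a fixed length -/
noncomputable def XX (μ : Measure A) (ν : Measure B) (f : ℕ → (ℕ → A) → (ℕ → B) → ℝ) (k k' l : ℕ)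
    (o : ℕ → A) : ℝ := ∑ j ∈ Finset.Ico (k - l) (k' - l), zz μ ν f l j o

theorem XX_L4 (hSh : S_Sh) (hf : IF μ ν f C θ) (k k' l : ℕ) : MemLp (XX μ ν f k k' l) 4 (St μ) :=
  memLp_finsetSum _ fun j _ => zz_L4 hSh hf l j

theorem XX_mom (hSh : S_Sh) (hFd : S_Fd) (hf : IF μ ν f C θ) (k k' l : ℕ) (h : k ≤ k') :
    ∫ o, XX μ ν f k k' l o ^ 4 ∂St μ ≤
      3 * ((l : ℝ) + 1) ^ 3 * ((k' : ℝ) - k) ^ 2 * (16 * C * θ ^ (4 * l)) := by
  have h1 := hFd A μ l (Finset.Ico (k - l) (k' - l)) (zz μ ν f l) (16 * C * θ ^ (4 * l))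
    (zz_meas hSh hf l) (zz_dep hf l) (fun j _ => zz_L4 hSh hf l j) (fun j _ => zz_int hSh hf l j)
    (fun j _ => zz_mom hSh hf l j)
  refine h1.trans ?_
  have h2 : 0 ≤ 16 * C * θ ^ (4 * l) := by
    have := hf.c0
    have := pow_nonneg hf.t0.le (4 * l)
    positivity
  refine mul_le_mul_of_nonneg_right ?_ h2
  refine mul_le_mul_of_nonneg_left ?_ (by positivity)
  have h3 : ((Finset.Ico (k - l) (k' - l)).card : ℝ) ≤ (k' : ℝ) - k := by
    rw [Nat.card_Ico]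
    have h4 : (k' - l) - (k - l) ≤ k' - k := by omega
    calc (((k' - l) - (k - l) : ℕ) : ℝ) ≤ ((k' - k : ℕ) : ℝ) := by exact_mod_cast h4
      _ = (k' : ℝ) - k := by rw [Nat.cast_sub h]
  exact pow_le_pow_left₀ (by positivity) h3 2

theorem sum3 (hf : IF μ ν f C θ) : Summable fun l : ℕ => ((l : ℝ) + 1) ^ 3 * θ ^ l := by
  have h := summable_pow_mul_geometric_of_norm_lt_one 3 (r := θ)
    (by rw [Real.norm_eq_abs, abs_of_pos hf.t0]; exact hf.t1)
  have h2 := ((summable_nat_add_iff 1).2 h).mul_left θ⁻¹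
  refine h2.congr fun l => ?_
  have := hf.t0.ne'
  push_cast
  rw [pow_succ θ l]
  field_simp

theorem sum1 (hf : IF μ ν f C θ) : Summable fun l : ℕ => (l : ℝ) * ((C + 1) * θ ^ l) := by
  have h := summable_pow_mul_geometric_of_norm_lt_one 1 (r := θ)
    (by rw [Real.norm_eq_abs, abs_of_pos hf.t0]; exact hf.t1)
  refine (h.mul_left (C + 1)).congr fun l => ?_
  rw [pow_one]
  ring

theorem tot_L4 (hSh : S_Sh) (hf : IF μ ν f C θ) (k k' : ℕ) :
    MemLp (fun o => ∑ l ∈ Finset.range k', XX μ ν f k k' l o) 4 (St μ) :=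
  memLp_finsetSum _ fun l _ => XX_L4 hSh hf k k' l

theorem tot_mom (hSh : S_Sh) (hVw : S_Vw) (hFd : S_Fd) (hf : IF μ ν f C θ) (k k' : ℕ)
    (h : k ≤ k') : ∫ o, (∑ l ∈ Finset.range k', XX μ ν f k k' l o) ^ 4 ∂St μ ≤
      ((1 - θ)⁻¹) ^ 3 * (48 * C * ∑' l : ℕ, ((l : ℝ) + 1) ^ 3 * θ ^ l) * ((k' : ℝ) - k) ^ 2 := by
  have ht0 := hf.t0
  have ht1 := hf.t1
  have hc := hf.c0
  have hX : ∀ l, Integrable (fun o => XX μ ν f k k' l o ^ 4) (St μ) := fun l =>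
    int4 _ _ (XX_L4 hSh hf k k' l)
  have h1 : ∫ o, (∑ l ∈ Finset.range k', XX μ ν f k k' l o) ^ 4 ∂St μ ≤
      ∫ o, (∑ l ∈ Finset.range k', θ ^ l) ^ 3 *
        ∑ l ∈ Finset.range k', XX μ ν f k k' l o ^ 4 / (θ ^ l) ^ 3 ∂St μ := by
    refine integral_mono (int4 _ _ (tot_L4 hSh hf k k')) ?_ fun o => ?_
    · refine Integrable.const_mul ?_ _
      exact integrable_finsetSum _ fun l _ => (hX l).div_const _
    · exact hVw.2 ℕ (Finset.range k') (fun l => XX μ ν f k k' l o) (fun l => θ ^ l)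
        fun l _ => pow_pos ht0 l
  refine h1.trans ?_
  rw [integral_const_mul, integral_finsetSum _ fun l _ => (hX l).div_const _]
  have hg : ∑ l ∈ Finset.range k', θ ^ l ≤ (1 - θ)⁻¹ := by
    rw [← tsum_geometric_of_lt_one ht0.le ht1]
    exact (summable_geometric_of_lt_one ht0.le ht1).sum_le_tsum _ fun l _ => pow_nonneg ht0.le l
  have hg0 : 0 ≤ ∑ l ∈ Finset.range k', θ ^ l := Finset.sum_nonneg fun l _ => pow_nonneg ht0.le l
  have h2 : ∑ l ∈ Finset.range k', ∫ o, XX μ ν f k k' l o ^ 4 / (θ ^ l) ^ 3 ∂St μ ≤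
      (48 * C * ∑' l : ℕ, ((l : ℝ) + 1) ^ 3 * θ ^ l) * ((k' : ℝ) - k) ^ 2 := by
    have h3 : ∀ l ∈ Finset.range k', ∫ o, XX μ ν f k k' l o ^ 4 / (θ ^ l) ^ 3 ∂St μ ≤
        48 * C * ((k' : ℝ) - k) ^ 2 * (((l : ℝ) + 1) ^ 3 * θ ^ l) := by
      intro l _
      rw [integral_div, div_le_iff₀ (pow_pos (pow_pos ht0 l) 3)]
      refine (XX_mom hSh hFd hf k k' l h).trans (le_of_eq ?_)
      have h4 : θ ^ (4 * l) = θ ^ l * (θ ^ l) ^ 3 := by
        rw [← pow_mul, ← pow_add]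
        congr 1
        ring
      rw [h4]
      ring
    refine (Finset.sum_le_sum h3).trans ?_
    rw [← Finset.mul_sum]
    have h5 := (sum3 hf).sum_le_tsum (Finset.range k') fun l _ => by positivity
    have h6 : 0 ≤ 48 * C * ((k' : ℝ) - k) ^ 2 := by positivity
    calc 48 * C * ((k' : ℝ) - k) ^ 2 * ∑ l ∈ Finset.range k', ((l : ℝ) + 1) ^ 3 * θ ^ l ≤
        48 * C * ((k' : ℝ) - k) ^ 2 * ∑' l : ℕ, ((l : ℝ) + 1) ^ 3 * θ ^ l :=
          mul_le_mul_of_nonneg_left h5 h6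
      _ = _ := by ring
  have h7 : 0 ≤ (48 * C * ∑' l : ℕ, ((l : ℝ) + 1) ^ 3 * θ ^ l) * ((k' : ℝ) - k) ^ 2 := by
    have : 0 ≤ ∑' l : ℕ, ((l : ℝ) + 1) ^ 3 * θ ^ l := tsum_nonneg fun l => by positivity
    positivity
  calc (∑ l ∈ Finset.range k', θ ^ l) ^ 3 *
        ∑ l ∈ Finset.range k', ∫ o, XX μ ν f k k' l o ^ 4 / (θ ^ l) ^ 3 ∂St μ ≤
      (∑ l ∈ Finset.range k', θ ^ l) ^ 3 *
        ((48 * C * ∑' l : ℕ, ((l : ℝ) + 1) ^ 3 * θ ^ l) * ((k' : ℝ) - k) ^ 2) :=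
        mul_le_mul_of_nonneg_left h2 (by positivity)
    _ ≤ ((1 - θ)⁻¹) ^ 3 * ((48 * C * ∑' l : ℕ, ((l : ℝ) + 1) ^ 3 * θ ^ l) * ((k' : ℝ) - k) ^ 2) :=
        mul_le_mul_of_nonneg_right (pow_le_pow_left₀ hg0 hg 3) h7
    _ = _ := by ring

theorem sum_me (hf : IF μ ν f C θ) : Summable (me μ ν f) := by
  refine Summable.of_nonneg_of_le (me_nonneg hf) (me_le hf) ?_
  exact (summable_geometric_of_lt_one hf.t0.le hf.t1).mul_left (C + 1)

/-- the bounded remainder -/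
theorem rem (hf : IF μ ν f C θ) (k k' : ℕ) (h : k ≤ k') :
    |((k' : ℝ) - k) * (∑' l, me μ ν f l) -
      ∑ l ∈ Finset.range k', (((k' - l) - (k - l) : ℕ) : ℝ) * me μ ν f l| ≤
      ∑' l : ℕ, (l : ℝ) * ((C + 1) * θ ^ l) := by
  have e1 : ∑ l ∈ Finset.range k', (((k' - l) - (k - l) : ℕ) : ℝ) * me μ ν f l =
      ∑' l, (((k' - l) - (k - l) : ℕ) : ℝ) * me μ ν f l := by
    rw [tsum_eq_sum (s := Finset.range k')]
    intro l hl
    rw [Finset.mem_range, not_lt] at hl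
    rw [Nat.sub_eq_zero_of_le hl, Nat.zero_sub, Nat.cast_zero, zero_mul]
  have s1 : Summable fun l => ((k' : ℝ) - k) * me μ ν f l := (sum_me hf).mul_left _
  have hn : ∀ l : ℕ, (((k' - l) - (k - l) : ℕ) : ℝ) ≤ (k' : ℝ) - k := fun l => by
    have h4 : (k' - l) - (k - l) ≤ k' - k := by omega
    calc (((k' - l) - (k - l) : ℕ) : ℝ) ≤ ((k' - k : ℕ) : ℝ) := by exact_mod_cast h4
      _ = (k' : ℝ) - k := by rw [Nat.cast_sub h]
  have hn' : ∀ l : ℕ, (k' : ℝ) - k - (((k' - l) - (k - l) : ℕ) : ℝ) ≤ l := fun l => by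
    have h4 : k' - k ≤ (k' - l) - (k - l) + l := by omega
    have h5 : ((k' - k : ℕ) : ℝ) ≤ (((k' - l) - (k - l) : ℕ) : ℝ) + l := by exact_mod_cast h4
    rw [Nat.cast_sub h] at h5
    linarith
  have s2 : Summable fun l => (((k' - l) - (k - l) : ℕ) : ℝ) * me μ ν f l :=
    Summable.of_nonneg_of_le (fun l => mul_nonneg (Nat.cast_nonneg _) (me_nonneg hf l))
      (fun l => mul_le_mul_of_nonneg_right (hn l) (me_nonneg hf l)) s1
  rw [e1, ← tsum_mul_left, ← s1.tsum_sub s2, abs_of_nonneg]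
  · refine (s1.sub s2).tsum_le_tsum (fun l => ?_) (sum1 hf)
    rw [← sub_mul]
    exact mul_le_mul (hn' l) (me_le hf l) (me_nonneg hf l) (Nat.cast_nonneg _)
  · refine tsum_nonneg fun l => ?_
    rw [← sub_mul]
    exact mul_nonneg (by linarith [hn l]) (me_nonneg hf l)

theorem decomp (hSh : S_Sh) (hf : IF μ ν f C θ) (o : ℕ → A) (ho : F4 ν f o) (k k' : ℕ)
    (h : k ≤ k') : mh ν f k' o - mh ν f k o = ∑ l ∈ Finset.range k', XX μ ν f k k' l o +
      ∑ l ∈ Finset.range k', (((k' - l) - (k - l) : ℕ) : ℝ) * me μ ν f l := by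
  rw [mh_eq hSh hf o ho, mh_eq hSh hf o ho, incr (fun l j => e0 ν f l (sh j o)) k k' h,
    ← Finset.sum_add_distrib]
  refine Finset.sum_congr rfl fun l _ => ?_
  unfold XX zz
  rw [Finset.sum_sub_distrib, Finset.sum_const, Nat.card_Ico, nsmul_eq_mul]
  ring

end

end M4_aux

open M4_aux in
theorem tM4 (hSh : S_Sh) (hVw : S_Vw) (hFd : S_Fd) (hF4 : S_F4) (hX4 : S_X4) : S_M4 := by
  have _ := hX4
  intro A B _ _ μ ν _ _ f C θ hf
  refine ⟨fun k => ?_, ∑' l, me μ ν f l,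
    8 * (((1 - θ)⁻¹) ^ 3 * (48 * C * ∑' l : ℕ, ((l : ℝ) + 1) ^ 3 * θ ^ l) +
      (∑' l : ℕ, (l : ℝ) * ((C + 1) * θ ^ l)) ^ 4), tsum_nonneg (me_nonneg hf), ?_⟩
  · have hm : Measurable fun x : (ℕ → A) × (ℕ → B) => SN f k x.1 x.2 := by
      unfold SN
      exact Finset.measurable_sum _ fun i _ => Finset.measurable_sum _ fun l _ =>
        (hF4 A B μ ν f C θ hf).1 l i
    have h : StronglyMeasurable (Function.uncurry fun (o : ℕ → A) (u : ℕ → B) => SN f k o u) :=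
      hm.stronglyMeasurable
    exact (h.integral_prod_right (ν := St ν)).measurable
  · intro k k' hk
    set T : (ℕ → A) → ℝ := fun o => ∑ l ∈ Finset.range k', XX μ ν f k k' l o with hT
    set K1 : ℝ := ∑' l : ℕ, (l : ℝ) * ((C + 1) * θ ^ l) with hK1
    set K2 : ℝ := ((1 - θ)⁻¹) ^ 3 * (48 * C * ∑' l : ℕ, ((l : ℝ) + 1) ^ 3 * θ ^ l) with hK2
    have ht0 := hf.t0
    have ht1 := hf.t1
    have hc := hf.c0
    have hK2n : 0 ≤ K2 := by
      have h1 : 0 ≤ ∑' l : ℕ, ((l : ℝ) + 1) ^ 3 * θ ^ l := tsum_nonneg fun l => by positivity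
      have h2 : 0 ≤ (1 - θ)⁻¹ := inv_nonneg.2 (by linarith)
      positivity
    have hae := (hF4 A B μ ν f C θ hf).2.2
    have h1 : ∫⁻ o, ENNReal.ofReal ((mh ν f k' o - mh ν f k o -
        ((k' : ℝ) - k) * ∑' l, me μ ν f l) ^ 4) ∂St μ ≤
        ∫⁻ o, ENNReal.ofReal (8 * (T o ^ 4 + K1 ^ 4)) ∂St μ := by
      refine lintegral_mono_ae ?_
      filter_upwards [hae] with o ho
      refine ENNReal.ofReal_le_ofReal ?_
      have h2 := rem hf k k' hk
      set R : ℝ := ((k' : ℝ) - k) * (∑' l, me μ ν f l) -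
        ∑ l ∈ Finset.range k', (((k' - l) - (k - l) : ℕ) : ℝ) * me μ ν f l with hR
      have h3 : mh ν f k' o - mh ν f k o - ((k' : ℝ) - k) * ∑' l, me μ ν f l = T o - R := by
        rw [decomp hSh hf o ho k k' hk, hR, hT]
        ring
      rw [h3]
      refine (four _ _).trans ?_
      have h4 : R ^ 4 ≤ K1 ^ 4 := by
        rw [← Even.pow_abs (by decide : Even 4) R]
        exact pow_le_pow_left₀ (abs_nonneg _) h2 4
      linarith
    refine h1.trans ?_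
    have hi : Integrable (fun o => 8 * (T o ^ 4 + K1 ^ 4)) (St μ) :=
      ((int4 _ _ (tot_L4 hSh hf k k')).add (integrable_const _)).const_mul 8
    rw [← ofReal_integral_eq_lintegral_ofReal hi (Eventually.of_forall fun o => by positivity)]
    refine ENNReal.ofReal_le_ofReal ?_
    rw [integral_const_mul, integral_add (int4 _ _ (tot_L4 hSh hf k k')) (integrable_const _),
      integral_const, probReal_univ, one_smul]
    have h5 := tot_mom hSh hVw hFd hf k k' hk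
    have h6 : (0 : ℝ) ≤ (k' : ℝ) - k := by
      have : (k : ℝ) ≤ k' := by exact_mod_cast hk
      linarith
    have h7 : ((k' : ℝ) - k) ^ 2 ≤ ((k' : ℝ) - k + 1) ^ 2 := pow_le_pow_left₀ h6 (by linarith) 2
    have h8 : (1 : ℝ) ≤ ((k' : ℝ) - k + 1) ^ 2 := one_le_pow₀ (by linarith)
    have h9 : 0 ≤ K1 ^ 4 := by positivity
    have h10 : K2 * ((k' : ℝ) - k) ^ 2 ≤ K2 * ((k' : ℝ) - k + 1) ^ 2 :=
      mul_le_mul_of_nonneg_left h7 hK2n
    have h11 : K1 ^ 4 * 1 ≤ K1 ^ 4 * ((k' : ℝ) - k + 1) ^ 2 := mul_le_mul_of_nonneg_left h8 h9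
    calc 8 * (∫ o, T o ^ 4 ∂St μ + K1 ^ 4) ≤ 8 * (K2 * ((k' : ℝ) - k) ^ 2 + K1 ^ 4) := by
          linarith
      _ ≤ 8 * (K2 * ((k' : ℝ) - k + 1) ^ 2 + K1 ^ 4 * ((k' : ℝ) - k + 1) ^ 2) := by linarith
      _ = _ := by ring

end MP0d3db7D1
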