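import Pool.Agent.Lib.MP_0d3db7.D1.Spec

/-!
# MP_0d3db7_pr, theorem D1, module Mo: monotonicity and dependence
-/

set_option autoImplicit false

namespace MP0d3db7D1

open MeasureTheory ProbabilityTheory Filter Topology Pool.Agent.MP0d3db7

namespace Mo_aux

theorem lf_pos {a : ℕ → Bool} (h : Gd a) (r : ℕ) :
    lf a (r + 1) = Nat.nth (fun i => a (i + 1) = true) r - r := by
  simp only [lf, if_pos h]

theorem lf_neg {a : ℕ → Bool} (h : ¬ Gd a) (r : ℕ) : lf a (r + 1) = 0 := by
  simp only [lf, if_neg h]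

theorem lf_succ (a : ℕ → Bool) (r : ℕ) : lf a r ≤ lf a (r + 1) := by
  cases r with
  | zero => exact Nat.zero_le _
  | succ r =>
    by_cases h : Gd a
    · rw [lf_pos h, lf_pos h]
      have hinf : (setOf fun i => a (i + 1) = true).Infinite := Nat.frequently_atTop_iff_infinite.1 h
      have h1 : Nat.nth (fun i => a (i + 1) = true) r < Nat.nth (fun i => a (i + 1) = true) (r + 1) :=
        Nat.nth_strictMono hinf (Nat.lt_succ_self r)
      omega
    · rw [lf_neg h, lf_neg h]

theorem lf_mono (a : ℕ → Bool) : Monotone (lf a) := monotone_nat_of_le_succ (lf_succ a)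

theorem G_succ (m : ℕ) : ∀ c : ℕ → ℕ → Bool, G m c ≤ G (m + 1) c := by
  induction m with
  | zero => exact fun c => Nat.zero_le _
  | succ m ih =>
    intro c
    show lf (c 0) (G m _ + 1) ≤ lf (c 0) (G (m + 1) _ + 1)
    exact lf_mono _ (Nat.succ_le_succ (ih _))

theorem G_dep (m : ℕ) : ∀ c c' : ℕ → ℕ → Bool, (∀ i < m, c i = c' i) → G m c = G m c' := by
  induction m with
  | zero => exact fun c c' _ => rfl
  | succ m ih =>
    intro c c' h
    show lf (c 0) (G m _ + 1) = lf (c' 0) (G m _ + 1)
    rw [h 0 (Nat.succ_pos m), ih (fun i => c (i + 1)) (fun i => c' (i + 1))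
      fun i hi => h (i + 1) (Nat.succ_lt_succ hi)]

end Mo_aux

open Mo_aux in
theorem tMo : S_Mo := by
  refine ⟨fun a r r' h => lf_mono a h, fun m c => G_succ m c, fun m c c' h => G_dep m c c' h, ?_⟩
  intro a x x' j h
  induction j with
  | zero => exact h
  | succ j ih => exact lf_mono _ ih

end MP0d3db7D1
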