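import Pool.Agent.Lib.MP_0d3db7.D1.Spec

/-!
# MP_0d3db7_pr, theorem D1, module Ms: measurability (helper37)
-/

set_option autoImplicit false

namespace MP0d3db7D1

open MeasureTheory ProbabilityTheory Filter Topology Pool.Agent.MP0d3db7

namespace Ms_aux

theorem gd_iff (a : ℕ → Bool) : Gd a ↔ ∀ N : ℕ, ∃ i, N ≤ i ∧ a (i + 1) = true := by
  unfold Gd
  rw [Filter.frequently_atTop]

theorem gd_inf {a : ℕ → Bool} (h : Gd a) : {i : ℕ | a (i + 1) = true}.Infinite := by
  rw [Set.infinite_iff_exists_gt] 
  intro N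
  obtain ⟨i, hi, hi'⟩ := (gd_iff a).1 h (N + 1)
  exact ⟨i, hi', by omega⟩

theorem ms_ev (n : ℕ) (b : Bool) : MeasurableSet {a : ℕ → Bool | a n = b} := by
  have h : Measurable fun a : ℕ → Bool => a n := measurable_pi_apply n
  exact h (measurableSet_singleton b)

theorem ms_ev2 (z : ℤ) (n : ℕ) (b : Bool) : MeasurableSet {a : ℤ → ℕ → Bool | a z n = b} := by
  have h : Measurable fun a : ℤ → ℕ → Bool => a z := measurable_pi_apply z
  exact h (ms_ev n b)

theorem ms_gd : MeasurableSet {a : ℕ → Bool | Gd a} := by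
  have h1 : {a : ℕ → Bool | Gd a} = ⋂ N : ℕ, ⋃ i : ℕ, ⋃ _ : N ≤ i, {a | a (i + 1) = true} := by
    ext a
    simp only [Set.mem_iInter, Set.mem_iUnion, exists_prop]
    exact gd_iff a
  rw [h1]
  exact MeasurableSet.iInter fun N => MeasurableSet.iUnion fun i => MeasurableSet.iUnion fun _ =>
    ms_ev (i + 1) true

/-- the number of right arrows among the first `n` -/
def cnt (n : ℕ) (a : ℕ → Bool) : ℕ := Nat.count (fun i => a (i + 1) = true) n

theorem ms_cnt (n : ℕ) : Measurable (cnt n) := by
  induction n with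
  | zero =>
    have : cnt 0 = fun _ => 0 := funext fun a => Nat.count_zero _
    rw [this]
    exact measurable_const
  | succ n ih =>
    have : cnt (n + 1) = fun a => cnt n a + if a (n + 1) = true then 1 else 0 :=
      funext fun a => Nat.count_succ _ _
    rw [this]
    refine ih.add (Measurable.ite ?_ measurable_const measurable_const)
    exact ms_ev (n + 1) true

theorem lf_pos {a : ℕ → Bool} (h : Gd a) (q : ℕ) :
    lf a (q + 1) = Nat.nth (fun i => a (i + 1) = true) q - q := by
  simp only [lf, if_pos h]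

theorem lf_neg {a : ℕ → Bool} (h : ¬ Gd a) (q : ℕ) : lf a (q + 1) = 0 := by
  simp only [lf, if_neg h]

theorem lf_succ (a : ℕ → Bool) (q m : ℕ) : lf a (q + 1) = m ↔
    (Gd a ∧ ∃ n, a (n + 1) = true ∧ cnt n a = q ∧ n - q = m) ∨ (¬ Gd a ∧ m = 0) := by
  by_cases h : Gd a
  · rw [lf_pos h]
    have hi := gd_inf h
    constructor
    · intro h1
      exact Or.inl ⟨h, _, Nat.nth_mem_of_infinite hi q, Nat.count_nth_of_infinite hi q, h1⟩
    · rintro (⟨-, n, h1, h2, h3⟩ | ⟨h1, -⟩)
      · have h4 : Nat.nth (fun i => a (i + 1) = true) q = n := by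
          rw [← h2]
          exact Nat.nth_count (p := fun i => a (i + 1) = true) h1
        rw [h4]
        exact h3
      · exact absurd h h1
  · rw [lf_neg h]
    constructor
    · intro h1
      exact Or.inr ⟨h, h1.symm⟩
    · rintro (⟨h1, -⟩ | ⟨-, h1⟩)
      · exact absurd h1 h
      · exact h1.symm

theorem ms_lf (r : ℕ) : Measurable fun a => lf a r := by
  cases r with
  | zero => exact measurable_const
  | succ q =>
    refine measurable_to_countable' fun m => ?_
    have h1 : (fun a => lf a (q + 1)) ⁻¹' {m} =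
        ({a : ℕ → Bool | Gd a} ∩ ⋃ n : ℕ, {a | a (n + 1) = true} ∩ ({a | cnt n a = q} ∩
          {_a | n - q = m})) ∪ ({a : ℕ → Bool | Gd a}ᶜ ∩ {_a | m = 0}) := by
      ext a
      simp only [Set.mem_preimage, Set.mem_singleton_iff, Set.mem_union, Set.mem_inter_iff,
        Set.mem_iUnion, Set.mem_compl_iff]
      exact lf_succ a q m
    rw [h1]
    refine MeasurableSet.union (ms_gd.inter (MeasurableSet.iUnion fun n => ?_))
      (ms_gd.compl.inter (MeasurableSet.const _))
    exact MeasurableSet.inter (ms_ev (n + 1) true)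
      (MeasurableSet.inter (ms_cnt n (measurableSet_singleton q)) (MeasurableSet.const _))

theorem ms_lf2 : Measurable fun x : (ℕ → Bool) × ℕ => lf x.1 x.2 :=
  measurable_from_prod_countable_left fun r => ms_lf r

theorem ms_G (m : ℕ) : Measurable (G m) := by
  induction m with
  | zero => exact measurable_const
  | succ m ih =>
    have h1 : G (m + 1) = fun c => (fun x : (ℕ → Bool) × ℕ => lf x.1 x.2)
        (c 0, G m (fun i => c (i + 1)) + 1) := rfl
    rw [h1]
    have h2 : Measurable fun c : ℕ → ℕ → Bool => c 0 := measurable_pi_apply 0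
    have h3 : Measurable fun (c : ℕ → ℕ → Bool) i => c (i + 1) :=
      measurable_pi_iff.2 fun i => measurable_pi_apply (i + 1)
    have h4 : Measurable fun c : ℕ → ℕ → Bool => G m (fun i => c (i + 1)) + 1 :=
      (measurable_of_countable (fun k : ℕ => k + 1)).comp (ih.comp h3)
    exact ms_lf2.comp (Measurable.prodMk h2 h4)

theorem ms_SS (n : ℕ) : Measurable (SS n) := by
  have h1 : SS n = fun c => ∑ k ∈ Finset.range n, G (n - k) (fun i => c (k + i)) := rfl
  rw [h1]
  refine Finset.measurable_fun_sum _ fun k _ => ?_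
  have h3 : Measurable fun (c : ℕ → ℕ → Bool) i => c (k + i) :=
    measurable_pi_iff.2 fun i => measurable_pi_apply (k + i)
  exact (ms_G (n - k)).comp h3

theorem ms_Hh (j : ℕ) : Measurable fun x : (ℤ → ℕ → Bool) × ℕ => Hh x.1 x.2 j := by
  induction j with
  | zero => exact measurable_snd
  | succ j ih =>
    have h1 : (fun x : (ℤ → ℕ → Bool) × ℕ => Hh x.1 x.2 (j + 1)) =
        fun x => (fun y : (ℕ → Bool) × ℕ => lf y.1 y.2) (x.1 (-((j : ℤ) + 1)), Hh x.1 x.2 j) := rfl
    rw [h1]
    exact ms_lf2.comp (Measurable.prodMk ((measurable_pi_apply _).comp measurable_fst) ih)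

theorem ms_nu (n : ℕ) : Measurable fun a : ℤ → ℕ → Bool => nu a n := by
  have h1 : (fun a : ℤ → ℕ → Bool => nu a n) =
      fun a => ∑' j : ℕ, (Hh a (G n (ps a)) (j + 1) : ENNReal) := rfl
  rw [h1]
  refine Measurable.tsum fun j => ?_
  have h2 : Measurable fun a : ℤ → ℕ → Bool => (a, G n (ps a)) :=
    Measurable.prodMk measurable_id ((ms_G n).comp
      (measurable_pi_iff.2 fun i => measurable_pi_apply (i : ℤ)))
  exact (measurable_of_countable (fun k : ℕ => (k : ENNReal))).comp ((ms_Hh (j + 1)).comp h2)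

theorem ms_hist (n : ℕ) : ∀ h : List Bool, MeasurableSet {a : ℤ → ℕ → Bool | hist a n = h} := by
  induction n with
  | zero =>
    intro h
    exact MeasurableSet.const ([] = h)
  | succ n ih =>
    intro h
    cases h with
    | nil =>
      have h1 : {a : ℤ → ℕ → Bool | hist a (n + 1) = []} = ∅ := by
        ext a
        simp [hist]
      rw [h1]
      exact MeasurableSet.empty
    | cons b h =>
      have h1 : {a : ℤ → ℕ → Bool | hist a (n + 1) = b :: h} =
          {a | hist a n = h} ∩ {a | a (pos h) (vis h) = b} := by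
        ext a
        simp only [Set.mem_inter_iff]
        constructor
        · intro h2
          have h3 : a (pos (hist a n)) (vis (hist a n)) :: hist a n = b :: h := h2
          rw [List.cons_eq_cons] at h3
          obtain ⟨h4, h5⟩ := h3
          rw [h5] at h4
          exact ⟨h5, h4⟩
        · rintro ⟨h2, h3⟩
          have h4 : hist a n = h := h2
          change a (pos (hist a n)) (vis (hist a n)) :: hist a n = b :: h
          rw [h4]
          rw [List.cons_eq_cons]
          exact ⟨h3, rfl⟩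
      rw [h1]
      refine (ih h).inter ?_
      exact ms_ev2 (pos h) (vis h) b

theorem ms_ar (ι : Type) : Measurable fun x : (ι → ℕ → ℝ) × (ι → ℕ → ℝ) => ar x.1 x.2 := by
  refine measurable_pi_iff.2 fun z => measurable_pi_iff.2 fun i => measurable_to_bool ?_
  have h1 : (fun x : (ι → ℕ → ℝ) × (ι → ℕ → ℝ) => ar x.1 x.2 z i) ⁻¹' {true} =
      {x | x.2 z i < x.1 z i} := by
    ext x
    simp [ar]
  rw [h1]
  exact measurableSet_lt
    ((measurable_pi_apply i).comp ((measurable_pi_apply z).comp measurable_snd))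
    ((measurable_pi_apply i).comp ((measurable_pi_apply z).comp measurable_fst))

end Ms_aux

open Ms_aux in
theorem tMs : S_Ms :=
  ⟨ms_gd, ms_lf2, ms_G, ms_SS, ms_Hh, ms_nu, ms_hist, ms_ar⟩

end MP0d3db7D1
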