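import Pool.Agent.Lib.MP_0d3db7.D1.Spec

/-!
# MP_0d3db7_pr, theorem D1: the negative sites (helper90)
-/

set_option autoImplicit false

namespace MP0d3db7D1

open MeasureTheory ProbabilityTheory Filter Topology Pool.Agent.MP0d3db7

namespace Nu_aux

lemma prob {p : ℝ} (h0 : 0 ≤ p) (h1 : p ≤ 1) : IsProbabilityMeasure (Ber p) := by
  refine ⟨?_⟩
  rw [Ber, Measure.add_apply, Measure.smul_apply, Measure.smul_apply]
  simp only [measure_univ, smul_eq_mul, mul_one]
  rw [← ENNReal.ofReal_add h0 (by linarith)]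
  simp

lemma meas_upd {X : Type} [MeasurableSpace X] (z : ℤ) :
    Measurable (fun x : X × (ℤ → X) => Function.update x.2 z x.1) := by
  refine measurable_pi_lambda _ fun i => ?_
  by_cases h : i = z
  · subst h
    have e : (fun x : X × (ℤ → X) => Function.update x.2 i x.1 i) = fun x => x.1 := by
      funext x
      exact Function.update_self _ _ _
    rw [e]
    exact measurable_fst
  · have e : (fun x : X × (ℤ → X) => Function.update x.2 z x.1 i) = fun x => x.2 i := by
      funext x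
      exact Function.update_of_ne h _ _
    rw [e]
    exact (measurable_pi_apply i).comp measurable_snd

/-- a product measure does not change if one coordinate is chosen again -/
lemma upd {X : Type} [MeasurableSpace X] (μ : Measure X) [IsProbabilityMeasure μ] (z : ℤ) :
    (μ.prod (Measure.infinitePi fun _ : ℤ => μ)).map
      (fun x : X × (ℤ → X) => Function.update x.2 z x.1) = Measure.infinitePi fun _ : ℤ => μ := by
  refine Measure.eq_infinitePi _ ?_
  intro s t ht
  rw [Measure.map_apply (meas_upd z) (MeasurableSet.pi s.countable_toSet fun i _ => ht i)]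
  by_cases hz : z ∈ s
  · have e : (fun x : X × (ℤ → X) => Function.update x.2 z x.1) ⁻¹' Set.pi s t =
        (t z) ×ˢ (Set.pi (s.erase z) t) := by
      ext x
      simp only [Set.mem_preimage, Set.mem_pi, Set.mem_prod, Finset.mem_coe, Finset.mem_erase]
      constructor
      · intro h
        refine ⟨?_, fun i hi => ?_⟩
        · have := h z hz
          rwa [Function.update_self] at this
        · have := h i hi.2
          rwa [Function.update_of_ne hi.1] at this
      · rintro ⟨h1, h2⟩ i hi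
        by_cases h : i = z
        · subst h
          rwa [Function.update_self]
        · rw [Function.update_of_ne h]
          exact h2 i ⟨h, hi⟩
    rw [e, Measure.prod_prod, Measure.infinitePi_pi _ (fun i _ => ht i)]
    exact Finset.mul_prod_erase s (fun i => μ (t i)) hz
  · have e : (fun x : X × (ℤ → X) => Function.update x.2 z x.1) ⁻¹' Set.pi s t =
        Set.univ ×ˢ (Set.pi s t) := by
      ext x
      simp only [Set.mem_preimage, Set.mem_pi, Set.mem_prod, Finset.mem_coe, Set.mem_univ,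
        true_and]
      have hne : ∀ i ∈ s, i ≠ z := fun i hi h => hz (h ▸ hi)
      constructor
      · intro h i hi
        have := h i hi
        rwa [Function.update_of_ne (hne i hi)] at this
      · intro h i hi
        rw [Function.update_of_ne (hne i hi)]
        exact h i hi
    rw [e, Measure.prod_prod, measure_univ, one_mul, Measure.infinitePi_pi _ (fun i _ => ht i)]

/-- one more site -/
lemma step (hMs : S_Ms) (hLg : S_Lg) {p : ℝ} (hp : 0 < p) (hp1 : p ≤ 1)
    (F : (ℤ → ℕ → Bool) → ℕ) (hF : Measurable F) (z : ℤ)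
    (hz : ∀ a b, F (Function.update a z b) = F a) :
    ∫⁻ a, (lf (a z) (F a) : ENNReal) ∂PI ℤ (Ber p) ≤
      ENNReal.ofReal ((1 - p) / p) * ∫⁻ a, (F a : ENNReal) ∂PI ℤ (Ber p) := by
  have := prob hp.le hp1
  have hU : ((St (Ber p)).prod (PI ℤ (Ber p))).map
      (fun x : (ℕ → Bool) × (ℤ → ℕ → Bool) => Function.update x.2 z x.1) = PI ℤ (Ber p) :=
    upd (St (Ber p)) z
  have hcast : Measurable fun n : ℕ => (n : ENNReal) := measurable_from_top
  have hlf : Measurable fun x : (ℕ → Bool) × ℕ => (lf x.1 x.2 : ENNReal) :=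
    hcast.comp hMs.2.1
  have hf : Measurable fun a : ℤ → ℕ → Bool => (lf (a z) (F a) : ENNReal) :=
    hlf.comp ((measurable_pi_apply z).prodMk hF)
  have hr : 0 ≤ (1 - p) / p := div_nonneg (by linarith) hp.le
  calc ∫⁻ a, (lf (a z) (F a) : ENNReal) ∂PI ℤ (Ber p)
      = ∫⁻ a, (lf (a z) (F a) : ENNReal) ∂(((St (Ber p)).prod (PI ℤ (Ber p))).map
          (fun x : (ℕ → Bool) × (ℤ → ℕ → Bool) => Function.update x.2 z x.1)) := by rw [hU]
    _ = ∫⁻ x : (ℕ → Bool) × (ℤ → ℕ → Bool), (lf (Function.update x.2 z x.1 z)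
          (F (Function.update x.2 z x.1)) : ENNReal) ∂(St (Ber p)).prod (PI ℤ (Ber p)) :=
        lintegral_map hf (meas_upd z)
    _ = ∫⁻ x : (ℕ → Bool) × (ℤ → ℕ → Bool), (lf x.1 (F x.2) : ENNReal)
          ∂(St (Ber p)).prod (PI ℤ (Ber p)) := by
        refine lintegral_congr fun x => ?_
        rw [Function.update_self, hz]
    _ = ∫⁻ a, ∫⁻ b, (lf b (F a) : ENNReal) ∂St (Ber p) ∂PI ℤ (Ber p) := by
        rw [lintegral_prod_symm]
        exact (hlf.comp (measurable_fst.prodMk (hF.comp measurable_snd))).aemeasurable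
    _ ≤ ∫⁻ a, ENNReal.ofReal ((1 - p) / p) * (F a : ENNReal) ∂PI ℤ (Ber p) := by
        refine lintegral_mono fun a => ?_
        refine ((hLg p hp hp1).2.2 (F a)).trans (le_of_eq ?_)
        rw [mul_comm, ENNReal.ofReal_mul hr, ENNReal.ofReal_natCast]
    _ = ENNReal.ofReal ((1 - p) / p) * ∫⁻ a, (F a : ENNReal) ∂PI ℤ (Ber p) :=
        lintegral_const_mul _ (hcast.comp hF)

lemma Hh_upd (a : ℤ → ℕ → Bool) (z : ℤ) (b : ℕ → Bool) (x j : ℕ) (hz : z < -(j : ℤ)) :
    Hh (Function.update a z b) x j = Hh a x j := by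
  induction j with
  | zero => rfl
  | succ j ih =>
    show lf (Function.update a z b (-((j : ℤ) + 1))) (Hh (Function.update a z b) x j) =
      lf (a (-((j : ℤ) + 1))) (Hh a x j)
    push_cast at hz
    rw [ih (by linarith), Function.update_of_ne (by intro h; linarith)]

lemma ps_upd (a : ℤ → ℕ → Bool) (z : ℤ) (b : ℕ → Bool) (hz : z < 0) :
    ps (Function.update a z b) = ps a := by
  funext k
  show Function.update a z b (k : ℤ) = a (k : ℤ)
  rw [Function.update_of_ne]
  intro h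
  have : (0 : ℤ) ≤ (k : ℤ) := Int.natCast_nonneg k
  linarith

/-- the means at the negative sites -/
lemma mean (hMs : S_Ms) (hLg : S_Lg) {p : ℝ} (hp : 0 < p) (hp1 : p ≤ 1) (n j : ℕ) :
    ∫⁻ a, (Hh a (G n (ps a)) j : ENNReal) ∂PI ℤ (Ber p) ≤
      ENNReal.ofReal ((1 - p) / p) ^ j * ∫⁻ a, (G n (ps a) : ENNReal) ∂PI ℤ (Ber p) := by
  have hps : Measurable fun a : ℤ → ℕ → Bool => ps a :=
    measurable_pi_lambda _ fun i => measurable_pi_apply _
  have hG : Measurable fun a : ℤ → ℕ → Bool => G n (ps a) := (hMs.2.2.1 n).comp hps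
  induction j with
  | zero =>
    rw [pow_zero, one_mul]
    exact le_of_eq rfl
  | succ j ih =>
    have hF : Measurable fun a : ℤ → ℕ → Bool => Hh a (G n (ps a)) j :=
      (hMs.2.2.2.2.1 j).comp (measurable_id.prodMk hG)
    have h := step hMs hLg hp hp1 (fun a => Hh a (G n (ps a)) j) hF (-((j : ℤ) + 1))
      (fun a b => by
        show Hh (Function.update a _ b) (G n (ps (Function.update a _ b))) j = Hh a (G n (ps a)) j
        rw [ps_upd a _ b (by linarith [Int.natCast_nonneg j]), Hh_upd a _ b _ j (by linarith)])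
    calc ∫⁻ a, (Hh a (G n (ps a)) (j + 1) : ENNReal) ∂PI ℤ (Ber p)
        ≤ ENNReal.ofReal ((1 - p) / p) *
            ∫⁻ a, (Hh a (G n (ps a)) j : ENNReal) ∂PI ℤ (Ber p) := h
      _ ≤ ENNReal.ofReal ((1 - p) / p) * (ENNReal.ofReal ((1 - p) / p) ^ j *
            ∫⁻ a, (G n (ps a) : ENNReal) ∂PI ℤ (Ber p)) := by gcongr
      _ = _ := by rw [← mul_assoc, ← pow_succ']

/-- a bound for the mean of `nu` -/
lemma nu_mean (hMs : S_Ms) (hLg : S_Lg) (hGm : S_Gm) {p : ℝ} (hp : 1 / 2 < p) (hp1 : p < 1) :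
    ∃ D : ENNReal, D ≠ ⊤ ∧ ∀ n, ∫⁻ a, nu a n ∂PI ℤ (Ber p) ≤ D := by
  have hp0 : 0 < p := by linarith
  have := prob hp0.le hp1.le
  obtain ⟨-, -, -, -, -, -, C', hC'⟩ := hGm p hp hp1
  have hr : ENNReal.ofReal ((1 - p) / p) < 1 := by
    rw [← ENNReal.ofReal_one]
    refine (ENNReal.ofReal_lt_ofReal_iff one_pos).2 ?_
    rw [div_lt_one hp0]
    linarith
  refine ⟨(∑' j : ℕ, ENNReal.ofReal ((1 - p) / p) ^ (j + 1)) * ENNReal.ofReal C', ?_, ?_⟩
  · refine ENNReal.mul_ne_top ?_ ENNReal.ofReal_ne_top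
    have e : ∑' j : ℕ, ENNReal.ofReal ((1 - p) / p) ^ (j + 1) =
        ENNReal.ofReal ((1 - p) / p) * (1 - ENNReal.ofReal ((1 - p) / p))⁻¹ := by
      rw [← ENNReal.tsum_geometric, ← ENNReal.tsum_mul_left]
      exact tsum_congr fun j => pow_succ' _ _
    rw [e]
    refine ENNReal.mul_ne_top ENNReal.ofReal_ne_top ?_
    rw [ENNReal.inv_ne_top]
    exact (tsub_pos_of_lt hr).ne'
  · intro n
    have hps : Measurable fun a : ℤ → ℕ → Bool => ps a :=
      measurable_pi_lambda _ fun i => measurable_pi_apply _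
    have hG : Measurable fun a : ℤ → ℕ → Bool => G n (ps a) := (hMs.2.2.1 n).comp hps
    have hcast : Measurable fun n : ℕ => (n : ENNReal) := measurable_from_top
    have hmp : MeasurePreserving (fun a : ℤ → ℕ → Bool => ps a) (PI ℤ (Ber p)) (PI ℕ (Ber p)) := by
      refine ⟨hps, ?_⟩
      have h := Measure.map_infinitePi_infinitePi_of_inj (P := fun _ : ℤ => St (Ber p))
        (f := fun i : ℕ => (i : ℤ)) Nat.cast_injective
      exact h
    have hGn : ∫⁻ a, (G n (ps a) : ENNReal) ∂PI ℤ (Ber p) ≤ ENNReal.ofReal C' := by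
      rw [hmp.lintegral_comp (f := fun c => (G n c : ENNReal)) (hcast.comp (hMs.2.2.1 n))]
      exact hC' n
    have e : ∫⁻ a, nu a n ∂PI ℤ (Ber p) =
        ∑' j : ℕ, ∫⁻ a, (Hh a (G n (ps a)) (j + 1) : ENNReal) ∂PI ℤ (Ber p) := by
      unfold nu
      refine lintegral_tsum fun j => ?_
      exact (hcast.comp ((hMs.2.2.2.2.1 (j + 1)).comp (measurable_id.prodMk hG))).aemeasurable
    rw [e, ← ENNReal.tsum_mul_right]
    refine ENNReal.tsum_le_tsum fun j => ?_
    refine (mean hMs hLg hp0 hp1.le n (j + 1)).trans ?_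
    gcongr

end Nu_aux

open Nu_aux

theorem tNu (hMo : S_Mo) (hMs : S_Ms) (hAr : S_Ar) (hLg : S_Lg) (hGm : S_Gm) : S_Nu := by
  intro μ₀ p hL hp hp1
  have := hL.prob
  have := prob (p := p) (by linarith) hp1.le
  obtain ⟨D, hD, hDn⟩ := nu_mean hMs hLg hGm hp hp1
  have hmeas : ∀ n, Measurable fun x : (ℤ → ℕ → ℝ) × (ℤ → ℕ → ℝ) => nu (ar x.1 x.2) n :=
    fun n => (hMs.2.2.2.2.2.1 n).comp (hMs.2.2.2.2.2.2.2 ℤ)
  have h1 : ∀ n, ∫⁻ o, ∫⁻ u, nu (ar o u) n ∂PI ℤ U01 ∂PI ℤ μ₀ ≤ D := by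
    intro n
    have h := hDn n
    rw [← (hAr.1 ℤ μ₀ p hL).2.2,
      lintegral_map (hMs.2.2.2.2.2.1 n) (hMs.2.2.2.2.2.2.2 ℤ),
      lintegral_prod _ (hmeas n).aemeasurable] at h
    exact h
  have hnu : ∀ (a : ℤ → ℕ → Bool) (n : ℕ), nu a n ≤ nu a (n + 1) := by
    intro a n
    unfold nu
    refine ENNReal.tsum_le_tsum fun j => ?_
    exact Nat.cast_le.2 (hMo.2.2.2 a _ _ _ (hMo.2.1 n _))
  have hmono : Monotone fun n (o : ℤ → ℕ → ℝ) => ∫⁻ u, nu (ar o u) n ∂PI ℤ U01 :=
    monotone_nat_of_le_succ fun n o => lintegral_mono fun u => hnu _ n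
  have hms : ∀ n, Measurable fun o : ℤ → ℕ → ℝ => ∫⁻ u, nu (ar o u) n ∂PI ℤ U01 :=
    fun n => (hmeas n).lintegral_prod_right'
  have h2 : ∫⁻ o, ⨆ n, (∫⁻ u, nu (ar o u) n ∂PI ℤ U01) ∂PI ℤ μ₀ ≤ D := by
    rw [lintegral_iSup hms hmono]
    exact iSup_le h1
  have h3 := ae_lt_top (Measurable.iSup hms) (ne_top_of_le_ne_top hD h2)
  filter_upwards [h3] with o ho
  refine ⟨(⨆ n, ∫⁻ u, nu (ar o u) n ∂PI ℤ U01).toReal, fun n => ?_⟩
  rw [ENNReal.ofReal_toReal ho.ne]
  exact le_iSup (fun n => ∫⁻ u, nu (ar o u) n ∂PI ℤ U01) n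

end MP0d3db7D1
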