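import Pool.Agent.Lib.MP_0d3db7.D1.Spec

/-!
# MP_0d3db7_pr, theorem D1, module Rf: reflection
-/

set_option autoImplicit false

namespace MP0d3db7D1

open MeasureTheory ProbabilityTheory Filter Topology Pool.Agent.MP0d3db7

namespace Rf_aux

theorem pos_not (h : List Bool) : pos (h.map Bool.not) = -pos h := by
  induction h with
  | nil => rfl
  | cons b h ih =>
    rw [List.map_cons]
    simp only [pos]
    rw [ih]
    cases b <;> simp [stp] <;> ring

theorem pv_not (z : ℤ) (h : List Bool) : pv z (h.map Bool.not) = pv (-z) h := by
  induction h with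
  | nil => rfl
  | cons b h ih =>
    rw [List.map_cons]
    simp only [pv]
    rw [ih, pos_not]
    have h1 : (-pos h = z) ↔ (pos h = -z) := by
      constructor <;> intro h' <;> omega
    simp only [h1]

theorem vis_not (h : List Bool) : vis (h.map Bool.not) = vis h := by
  unfold vis
  rw [pos_not, pv_not, neg_neg]

theorem wt_not (w : ℤ → ℕ → ℝ) (h : List Bool) :
    wt w (h.map Bool.not) = wt (fun z i => 1 - w (-z) i) h := by
  induction h with
  | nil => rfl
  | cons b h ih =>
    rw [List.map_cons]
    cases b
    · show wt w (true :: h.map Bool.not) = _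
      simp only [wt]
      rw [ih, pos_not, vis_not]
      ring
    · show wt w (false :: h.map Bool.not) = _
      simp only [wt]
      rw [ih, pos_not, vis_not]

end Rf_aux

/-- REFLECTION. -/
theorem tRf : S_Rf := by
  intro w n g
  unfold quenchE
  refine (Fintype.sum_equiv (Equiv.piCongrRight fun _ : Fin n => Equiv.boolNot) _ _
    fun e => ?_).symm
  have h1 : List.ofFn ((Equiv.piCongrRight fun _ : Fin n => Equiv.boolNot) e) =
      (List.ofFn e).map Bool.not := by
    rw [List.map_ofFn]
    rfl
  rw [h1, Rf_aux.wt_not, Rf_aux.pos_not]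

end MP0d3db7D1
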