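import Pool.Agent.Lib.MP_0d3db7.D1.Spec

/-!
# MP_0d3db7_pr, theorem D1, module Rl: almost sure bound of the remainder
-/

set_option autoImplicit false

namespace MP0d3db7D1

open MeasureTheory ProbabilityTheory Filter Topology Pool.Agent.MP0d3db7

theorem tRl (hF4 : S_F4) (hRv : S_Rv) (hWm : S_Wm) (hSl : S_Sl) : S_Rl := by
  intro A B _ _ μ ν _ _ f C θ hIF
  have hθ : 0 < 1 - θ := by linarith [hIF.t1]
  obtain ⟨hmono, c, hc, hL⟩ := hWm A B μ ν f C θ hIF
  have hF := (hF4 A B μ ν f C θ hIF).2.2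
  have hmono' : ∀ L o, Monotone fun N => WB ν f θ L N o := fun L o =>
    monotone_nat_of_le_succ fun N => hmono L N o
  have h1 : ∀ᵐ o ∂St μ, ∀ L : ℕ, 1 ≤ L → ∀ᶠ J : ℕ in atTop,
      WB ν f θ L (J * L) o ≤ (c + 1) * J := by
    rw [ae_all_iff]
    intro L
    by_cases hL1 : 1 ≤ L
    · obtain ⟨CL, hJ⟩ := hL L hL1
      have h2 := hSl (ℕ → A) (St μ) (fun J o => WB ν f θ L (J * L) o) c CL hc (fun J => (hJ J).1)
        (fun J o => hmono' L o (Nat.mul_le_mul_right L (Nat.le_succ J))) (fun J => (hJ J).2.1)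
        (fun J => (hJ J).2.2)
      filter_upwards [h2] with o ho _
      exact ho 1 one_pos
    · exact Eventually.of_forall fun o h => absurd h hL1
  refine ⟨1 / (1 - θ) * (c + 1), by positivity, ?_⟩
  filter_upwards [h1, hF] with o ho hFo L hL1
  filter_upwards [ho L hL1] with J hJ
  have h3 := (hRv A B μ ν f C θ hIF o hFo L (J * L)).2
  have h4 : 1 / (1 - θ) * WB ν f θ L (J * L) o ≤ 1 / (1 - θ) * ((c + 1) * J) :=
    mul_le_mul_of_nonneg_left hJ (by positivity)
  linarith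

end MP0d3db7D1
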