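import Pool.Agent.Lib.MP_0d3db7.D1.Spec

/-!
# MP_0d3db7_pr, theorem D1, module Rv (helper61): quenched variance of the remainder
-/

set_option autoImplicit false

namespace MP0d3db7D1

open MeasureTheory ProbabilityTheory Filter Topology Pool.Agent.MP0d3db7

namespace Rv_aux

theorem geom_le {θ : ℝ} (h0 : 0 < θ) (h1 : θ < 1) (N : ℕ) :
    ∑ l ∈ Finset.range N, θ ^ l ≤ 1 / (1 - θ) := by
  have h2 : (0 : ℝ) < 1 - θ := by linarith
  rw [le_div_iff₀ h2, geom_sum_mul_neg]
  have h3 : 0 ≤ θ ^ N := by positivity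
  linarith

variable {A B : Type} [MeasurableSpace A] [MeasurableSpace B] {μ : Measure A} {ν : Measure B}
  [IsProbabilityMeasure μ] [IsProbabilityMeasure ν] {f : ℕ → (ℕ → A) → (ℕ → B) → ℝ} {C θ : ℝ}

theorem meas (hF : S_F4) (hf : IF μ ν f C θ) (o : ℕ → A) (l k : ℕ) :
    Measurable fun u : ℕ → B => f l (sh k o) (sh k u) :=
  ((hF A B μ ν f C θ hf).1 l k).comp (measurable_prodMk_left (x := o))

theorem deps (hf : IF μ ν f C θ) (o : ℕ → A) (l k : ℕ) :
    DependsOn (fun u : ℕ → B => f l (sh k o) (sh k u)) (Set.Icc k (k + l)) := by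
  intro u u' h
  refine hf.dep l _ _ _ _ (fun i _ => rfl) fun i hi => ?_
  exact h (k + i) ⟨Nat.le_add_right k i, Nat.add_le_add_left hi k⟩

end Rv_aux

open Rv_aux in
/-- QUENCHED VARIANCE OF THE REMAINDER. -/
theorem tRv (hVw : S_Vw) (hVd : S_Vd) (hF4 : S_F4) : S_Rv := by
  intro A B _ _ μ ν _ _ f C θ hf o ho L N
  have h4 : ∀ l, MemLp (fun u : ℕ → B =>
      ∑ k ∈ (Finset.range (N - l)).filter (fun k => L ≤ k % L + l), f l (sh k o) (sh k u)) 4
        (St ν) := fun l => memLp_finset_sum _ fun k _ => ho l k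
  have hRB : RB f L N o = fun u : ℕ → B => ∑ l ∈ Finset.range N,
      ∑ k ∈ (Finset.range (N - l)).filter (fun k => L ≤ k % L + l), f l (sh k o) (sh k u) := rfl
  refine ⟨?_, ?_⟩
  · rw [hRB]
    exact memLp_finset_sum _ fun l _ => h4 l
  · rw [hRB]
    have h1 := hVw.1 (ℕ → B) (St ν) N (fun l u =>
      ∑ k ∈ (Finset.range (N - l)).filter (fun k => L ≤ k % L + l), f l (sh k o) (sh k u))
      (fun l => θ ^ l) (fun l => pow_pos hf.t0 l)
      (fun l _ => (h4 l).mono_exponent (by norm_num))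
    refine h1.trans ?_
    have h2 : ∀ l, variance (fun u : ℕ → B =>
        ∑ k ∈ (Finset.range (N - l)).filter (fun k => L ≤ k % L + l), f l (sh k o) (sh k u))
          (St ν) / θ ^ l ≤
        ∑ k ∈ (Finset.range (N - l)).filter (fun k => L ≤ k % L + l),
          ((l : ℝ) + 1) * (θ ^ l)⁻¹ * ∫ u, f l (sh k o) (sh k u) ^ 2 ∂St ν := by
      intro l
      have h3 := hVd B ν l ((Finset.range (N - l)).filter (fun k => L ≤ k % L + l))
        (fun k u => f l (sh k o) (sh k u)) (fun k => meas hF4 hf o l k) (fun k => deps hf o l k)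
        (fun k _ => (ho l k).mono_exponent (by norm_num))
      have h5 : 0 < (θ ^ l)⁻¹ := inv_pos.2 (pow_pos hf.t0 l)
      rw [div_eq_mul_inv]
      refine (mul_le_mul_of_nonneg_right h3 h5.le).trans (le_of_eq ?_)
      rw [← Finset.mul_sum]
      ring
    have h6 : 0 ≤ WB ν f θ L N o := by
      unfold WB
      refine Finset.sum_nonneg fun l _ => Finset.sum_nonneg fun k _ => ?_
      have h7 : 0 < (θ ^ l)⁻¹ := inv_pos.2 (pow_pos hf.t0 l)
      have h8 : 0 ≤ ∫ u, f l (sh k o) (sh k u) ^ 2 ∂St ν :=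
        integral_nonneg fun u => sq_nonneg _
      positivity
    calc (∑ l ∈ Finset.range N, θ ^ l) * ∑ l ∈ Finset.range N, variance (fun u : ℕ → B =>
        ∑ k ∈ (Finset.range (N - l)).filter (fun k => L ≤ k % L + l), f l (sh k o) (sh k u))
          (St ν) / θ ^ l
        ≤ (∑ l ∈ Finset.range N, θ ^ l) * WB ν f θ L N o :=
          mul_le_mul_of_nonneg_left (Finset.sum_le_sum fun l _ => h2 l)
            (Finset.sum_nonneg fun l _ => (pow_pos hf.t0 l).le)
      _ ≤ 1 / (1 - θ) * WB ν f θ L N o :=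
          mul_le_mul_of_nonneg_right (geom_le hf.t0 hf.t1 N) h6

end MP0d3db7D1
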