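import Pool.Agent.Lib.MP_0d3db7.D1.Spec

/-!
# MP_0d3db7_pr, theorem D1: shifts and restrictions preserve the product measures
-/

set_option autoImplicit false

namespace MP0d3db7D1

open MeasureTheory ProbabilityTheory Filter Topology Pool.Agent.MP0d3db7

theorem tSh : S_Sh := by
  refine ⟨fun X _ μ _ k => ?_, fun X _ μ _ => ?_⟩
  · refine ⟨measurable_pi_lambda _ fun i => measurable_pi_apply _, ?_⟩
    have h := Measure.map_infinitePi_infinitePi_of_inj (P := fun _ : ℕ => μ) (f := fun i : ℕ => k + i)
      (fun a b h => Nat.add_left_cancel h)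
    exact h
  · refine ⟨measurable_pi_lambda _ fun i => measurable_pi_apply _, ?_⟩
    have h := Measure.map_infinitePi_infinitePi_of_inj (P := fun _ : ℤ => St μ)
      (f := fun i : ℕ => (i : ℤ)) Nat.cast_injective
    exact h

end MP0d3db7D1
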