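import Pool.Agent.Lib.MP_0d3db7.D1.Spec

/-!
# MP_0d3db7_pr, theorem D1: a strong law from second moments, monotone sequences
-/

set_option autoImplicit false

namespace MP0d3db7D1

open MeasureTheory ProbabilityTheory Filter Topology Pool.Agent.MP0d3db7

namespace Sl_aux

/-- Borel-Cantelli at the squares -/
theorem bc {Ω : Type} [MeasurableSpace Ω] (P : Measure Ω) [IsProbabilityMeasure P]
    (W : ℕ → Ω → ℝ) (C e : ℝ) (he : 0 < e) (h2 : ∀ n, MemLp (W n) 2 P)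
    (hv : ∀ n : ℕ, variance (W n) P ≤ C * n) :
    ∀ᵐ o ∂P, ∀ᶠ j : ℕ in atTop,
      |W ((j + 1) ^ 2) o - ∫ o, W ((j + 1) ^ 2) o ∂P| < e * ((j : ℝ) + 1) ^ 2 := by
  have h3 : ∀ j : ℕ, P {o | e * ((j : ℝ) + 1) ^ 2 ≤
      |W ((j + 1) ^ 2) o - ∫ o, W ((j + 1) ^ 2) o ∂P|} ≤
      ENNReal.ofReal (C / e ^ 2 * (1 / ((j : ℝ) + 1) ^ 2)) := by
    intro j
    have hj : (0 : ℝ) < (j : ℝ) + 1 := by positivity
    refine (meas_ge_le_variance_div_sq (h2 _) (by positivity)).trans (ENNReal.ofReal_le_ofReal ?_)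
    have h4 := hv ((j + 1) ^ 2)
    push_cast at h4
    rw [div_le_iff₀ (by positivity)]
    refine h4.trans (le_of_eq ?_)
    field_simp
  have h5 : Summable (fun j : ℕ => C / e ^ 2 * (1 / ((j : ℝ) + 1) ^ 2)) := by
    refine Summable.mul_left _ ?_
    have h6 := (summable_nat_add_iff 1).2 (Real.summable_one_div_nat_pow.2 (by norm_num : 1 < 2))
    simpa using h6
  have h7 : ∑' j : ℕ, P {o | e * ((j : ℝ) + 1) ^ 2 ≤
      |W ((j + 1) ^ 2) o - ∫ o, W ((j + 1) ^ 2) o ∂P|} ≠ ⊤ :=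
    ne_top_of_le_ne_top h5.tsum_ofReal_ne_top (ENNReal.tsum_le_tsum h3)
  filter_upwards [ae_eventually_notMem h7] with o ho
  filter_upwards [ho] with j hj
  exact not_le.1 hj

end Sl_aux

open Sl_aux in
theorem tSl : S_Sl := by
  intro Ω _ P _ W c C hc h2 hmono hE hv
  have h1 : ∀ᵐ o ∂P, ∀ i : ℕ, ∀ᶠ j : ℕ in atTop,
      |W ((j + 1) ^ 2) o - ∫ o, W ((j + 1) ^ 2) o ∂P| < 1 / ((i : ℝ) + 1) * ((j : ℝ) + 1) ^ 2 :=
    ae_all_iff.2 fun i => bc P W C _ (by positivity) h2 hv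
  filter_upwards [h1] with o ho ε hε
  obtain ⟨i, hi⟩ := exists_nat_one_div_lt (half_pos hε)
  set e : ℝ := 1 / ((i : ℝ) + 1) with he
  have he0 : 0 < e := by positivity
  obtain ⟨J, hJ⟩ := eventually_atTop.1 (ho i)
  have hmon : Monotone fun n => W n o := monotone_nat_of_le_succ fun n => hmono n o
  obtain ⟨K, hK⟩ := exists_nat_gt (3 * (c + e) / (ε - e))
  have hd : 0 < ε - e := by linarith
  refine eventually_atTop.2 ⟨(J + K + 1) ^ 2, fun n hn => ?_⟩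
  have hj : J + K + 1 ≤ Nat.sqrt n := Nat.le_sqrt'.2 hn
  set j := Nat.sqrt n with hjd
  have hn1 : n ≤ (j + 1) ^ 2 := (Nat.lt_succ_sqrt' n).le
  have hn2 : j ^ 2 ≤ n := Nat.sqrt_le' n
  have hn2' : (j : ℝ) ^ 2 ≤ n := by exact_mod_cast hn2
  have h3 := (abs_lt.1 (hJ j (by omega))).2
  have h4 := hE ((j + 1) ^ 2)
  push_cast at h4
  have h5 : W n o ≤ (c + e) * ((j : ℝ) + 1) ^ 2 := by
    have h6 : W n o ≤ W ((j + 1) ^ 2) o := hmon hn1
    nlinarith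
  have hj1 : (1 : ℝ) ≤ j := by
    have : 1 ≤ j := by omega
    exact_mod_cast this
  have hjK : (K : ℝ) ≤ j := by
    have : K ≤ j := by omega
    exact_mod_cast this
  have h7 : 3 * (c + e) ≤ (ε - e) * j := by
    have h8 : 3 * (c + e) / (ε - e) < j := hK.trans_le hjK
    rw [div_lt_iff₀ hd] at h8
    linarith
  have h9 : (c + e) * ((j : ℝ) + 1) ^ 2 ≤ (c + ε) * (j : ℝ) ^ 2 := by
    have h10 : (c + e) * (2 * (j : ℝ) + 1) ≤ (ε - e) * (j : ℝ) ^ 2 := by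
      have h11 : (c + e) * (2 * (j : ℝ) + 1) ≤ (c + e) * (3 * j) :=
        mul_le_mul_of_nonneg_left (by linarith) (by linarith)
      have h12 : 3 * (c + e) * j ≤ (ε - e) * j * j :=
        mul_le_mul_of_nonneg_right h7 (by linarith)
      nlinarith
    nlinarith
  calc W n o ≤ (c + e) * ((j : ℝ) + 1) ^ 2 := h5
    _ ≤ (c + ε) * (j : ℝ) ^ 2 := h9
    _ ≤ (c + ε) * n := mul_le_mul_of_nonneg_left hn2' (by linarith)

end MP0d3db7D1
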