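import Pool.Agent.Lib.MP_0d3db7.D1.Spec

/-!
# MP_0d3db7_pr, theorem D1, module Sp (helper69): lower bound of the variance
-/

set_option autoImplicit false

namespace MP0d3db7D1

open MeasureTheory ProbabilityTheory Filter Topology Pool.Agent.MP0d3db7

namespace Sp_aux

/-! ### one arrow replaced -/

/-- the arrow `(k, 1)` is replaced by `b` -/
def rp (k : ℕ) (b : Bool) (c : ℕ → ℕ → Bool) : ℕ → ℕ → Bool :=
  fun i j => if (i, j) = (k, 1) then b else c i j

theorem rp_self (k : ℕ) (b : Bool) (c : ℕ → ℕ → Bool) : rp k b c k 1 = b := by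
  simp [rp]

theorem rp_ne {k : ℕ} {b : Bool} {c : ℕ → ℕ → Bool} {i j : ℕ} (h : (i, j) ≠ (k, 1)) :
    rp k b c i j = c i j := by
  simp only [rp, if_neg h]

theorem rp_eq {k : ℕ} {b : Bool} {c : ℕ → ℕ → Bool} (h : c k 1 = b) : rp k b c = c := by
  funext i j
  by_cases h' : (i, j) = (k, 1)
  · have h1 : i = k := congrArg Prod.fst h'
    have h2 : j = 1 := congrArg Prod.snd h'
    subst h1 h2
    rw [rp_self, h]
  · exact rp_ne h'

theorem gd_rp {k : ℕ} {b : Bool} {c : ℕ → ℕ → Bool} {i : ℕ} (h : Gd (c i)) :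
    Gd (rp k b c i) := by
  unfold Gd at *
  refine (h.and_eventually (eventually_ge_atTop 1)).mono fun j hj => ?_
  rw [rp_ne]
  · exact hj.1
  · intro he
    have h2 : j + 1 = 1 := congrArg Prod.snd he
    have := hj.2
    omega

theorem turn (hTu : S_Tu) {c : ℕ → ℕ → Bool} (hc : ∀ i, Gd (c i)) {L k : ℕ} (hk : k < L) :
    SS L (rp k true c) + 1 ≤ SS L (rp k false c) := by
  refine hTu _ _ L k (fun i => gd_rp (hc i)) (fun i => gd_rp (hc i)) hk (rp_self k true c)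
    (rp_self k false c) fun i j h => ?_
  rw [rp_ne h, rp_ne h]

theorem meas_ar (hMs : S_Ms) (o : ℕ → ℕ → ℝ) : Measurable (fun u : ℕ → ℕ → ℝ => ar o u) :=
  (hMs.2.2.2.2.2.2.2 ℕ).comp measurable_prodMk_left

theorem meas_ar1 (hMs : S_Ms) (o : ℕ → ℕ → ℝ) (z i : ℕ) :
    Measurable (fun u : ℕ → ℕ → ℝ => ar o u z i) :=
  (measurable_pi_apply i).comp ((measurable_pi_apply z).comp (meas_ar hMs o))

/-- independence of the functional with the arrow replaced and of the arrow -/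
theorem indep_rp (hMs : S_Ms) {o : ℕ → ℕ → ℝ}
    (hI : iIndepFun (fun (κ : ℕ × ℕ) (u : ℕ → ℕ → ℝ) => ar o u κ.1 κ.2) (PI ℕ U01))
    (L k : ℕ) (b : Bool) (φ : Bool → ENNReal) :
    IndepFun (fun u => (SS L (rp k b (ar o u)) : ENNReal)) (fun u => φ (ar o u k 1))
      (PI ℕ U01) := by
  let m : ℕ × ℕ → MeasurableSpace (ℕ → ℕ → ℝ) :=
    fun κ => MeasurableSpace.comap (fun u => ar o u κ.1 κ.2) inferInstance
  have hle : ∀ κ, m κ ≤ MeasurableSpace.pi := fun κ => (meas_ar1 hMs o κ.1 κ.2).comap_le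
  have hi : iIndep m (PI ℕ U01) := hI
  have h1 := indep_iSup_of_disjoint hle hi (S := {(k, 1)}ᶜ) (T := {(k, 1)})
    (Set.disjoint_left.2 fun x hx hx' => hx hx')
  rw [IndepFun_iff_Indep]
  refine indep_of_indep_of_le_left (indep_of_indep_of_le_right h1 ?_) ?_
  · have h2 : m (k, 1) ≤ ⨆ i ∈ ({(k, 1)} : Set (ℕ × ℕ)), m i :=
      le_iSup₂_of_le (k, 1) rfl le_rfl
    refine le_trans ?_ h2
    have h3 : Measurable[m (k, 1)] (fun u => ar o u k 1) := comap_measurable _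
    have h4 : Measurable φ := measurable_of_countable φ
    exact (h4.comp h3).comap_le
  · have h5 : Measurable[⨆ i ∈ ({(k, 1)}ᶜ : Set (ℕ × ℕ)), m i] (fun u => rp k b (ar o u)) := by
      refine @measurable_pi_lambda _ _ _ (_) _ _ fun i => ?_
      refine @measurable_pi_lambda _ _ _ (_) _ _ fun j => ?_
      by_cases h' : (i, j) = (k, 1)
      · have : (fun u => rp k b (ar o u) i j) = fun _ => b := by
          funext u
          simp only [rp, if_pos h']
        rw [this]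
        exact measurable_const
      · have : (fun u => rp k b (ar o u) i j) = fun u => ar o u i j := by
          funext u
          exact rp_ne h'
        rw [this]
        have h6 : m (i, j) ≤ ⨆ i ∈ ({(k, 1)}ᶜ : Set (ℕ × ℕ)), m i :=
          le_iSup₂_of_le (i, j) h' le_rfl
        have h7 : Measurable[m (i, j)] (fun u => ar o u i j) := comap_measurable _
        exact h7.mono h6 le_rfl
    have h8 : Measurable (fun n : ℕ => (n : ENNReal)) := measurable_of_countable _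
    exact ((h8.comp (hMs.2.2.2.1 L)).comp h5).comap_le

/-- the main inequality -/
theorem core (hMs : S_Ms) (hTu : S_Tu) {o : ℕ → ℕ → ℝ} (ho : ∀ z i, 0 ≤ o z i ∧ o z i ≤ 1)
    (hI : iIndepFun (fun (κ : ℕ × ℕ) (u : ℕ → ℕ → ℝ) => ar o u κ.1 κ.2) (PI ℕ U01))
    (hP : ∀ z i, (PI ℕ U01).real {u | ar o u z i = true} = o z i)
    (hG : ∀ᵐ u ∂PI ℕ U01, ∀ k, Gd (ar o u k)) {L k : ℕ} (hk : k < L) :
    ENNReal.ofReal (1 - o k 1) *
        ∫⁻ u, (if ar o u k 1 = true then (SS L (ar o u) : ENNReal) else 0) ∂PI ℕ U01 +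
      ENNReal.ofReal (o k 1 * (1 - o k 1)) ≤
    ENNReal.ofReal (o k 1) *
      ∫⁻ u, (if ar o u k 1 = false then (SS L (ar o u) : ENNReal) else 0) ∂PI ℕ U01 := by
  have hT : (PI ℕ U01) {u | ar o u k 1 = true} = ENNReal.ofReal (o k 1) := by
    rw [← hP k 1, ofReal_measureReal]
  have hms : MeasurableSet {u : ℕ → ℕ → ℝ | ar o u k 1 = true} :=
    (meas_ar1 hMs o k 1) (measurableSet_singleton true)
  have hmf : MeasurableSet {u : ℕ → ℕ → ℝ | ar o u k 1 = false} :=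
    (meas_ar1 hMs o k 1) (measurableSet_singleton false)
  have hF : (PI ℕ U01) {u | ar o u k 1 = false} = ENNReal.ofReal (1 - o k 1) := by
    have e : {u : ℕ → ℕ → ℝ | ar o u k 1 = false} = {u | ar o u k 1 = true}ᶜ := by
      ext u
      simp
    rw [e, prob_compl_eq_one_sub hms, hT, ENNReal.ofReal_sub _ (ho k 1).1, ENNReal.ofReal_one]
  have hSm : ∀ b, Measurable (fun u : ℕ → ℕ → ℝ => (SS L (rp k b (ar o u)) : ENNReal)) := by
    intro b
    have h8 : Measurable (fun n : ℕ => (n : ENNReal)) := measurable_of_countable _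
    refine (h8.comp (hMs.2.2.2.1 L)).comp (measurable_pi_lambda _ fun i =>
      measurable_pi_lambda _ fun j => ?_)
    by_cases h' : (i, j) = (k, 1)
    · simp only [rp, if_pos h']
      exact measurable_const
    · simp only [rp, if_neg h']
      exact meas_ar1 hMs o i j
  have hφ : ∀ φ : Bool → ENNReal, Measurable (fun u : ℕ → ℕ → ℝ => φ (ar o u k 1)) :=
    fun φ => (measurable_of_countable φ).comp (meas_ar1 hMs o k 1)
  have hprod : ∀ b : Bool, ∫⁻ u, (if ar o u k 1 = b then (SS L (ar o u) : ENNReal) else 0)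
      ∂PI ℕ U01 = (∫⁻ u, (SS L (rp k b (ar o u)) : ENNReal) ∂PI ℕ U01) *
        (PI ℕ U01) {u | ar o u k 1 = b} := by
    intro b
    have h1 := lintegral_mul_eq_lintegral_mul_lintegral_of_indepFun (hSm b)
      (hφ fun x => if x = b then 1 else 0) (indep_rp hMs hI L k b fun x => if x = b then 1 else 0)
    have h2 : ∫⁻ u, (if ar o u k 1 = b then (1 : ENNReal) else 0) ∂PI ℕ U01 =
        (PI ℕ U01) {u | ar o u k 1 = b} := by
      have hmb : MeasurableSet {u : ℕ → ℕ → ℝ | ar o u k 1 = b} :=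
        (meas_ar1 hMs o k 1) (measurableSet_singleton b)
      rw [← lintegral_indicator_one hmb]
      refine lintegral_congr fun u => ?_
      rw [Set.indicator_apply]
      rfl
    rw [h2] at h1
    rw [← h1]
    refine lintegral_congr fun u => ?_
    rw [Pi.mul_apply]
    by_cases h : ar o u k 1 = b
    · rw [if_pos h, if_pos h, mul_one, rp_eq h]
    · rw [if_neg h, if_neg h, mul_zero]
  rw [hprod true, hprod false, hT, hF]
  have hle : (∫⁻ u, (SS L (rp k true (ar o u)) : ENNReal) ∂PI ℕ U01) + 1 ≤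
      ∫⁻ u, (SS L (rp k false (ar o u)) : ENNReal) ∂PI ℕ U01 := by
    have h1 : (∫⁻ u, (SS L (rp k true (ar o u)) : ENNReal) ∂PI ℕ U01) + 1 =
        ∫⁻ u, ((SS L (rp k true (ar o u)) : ENNReal) + 1) ∂PI ℕ U01 := by
      rw [lintegral_add_right _ measurable_const, lintegral_const, measure_univ, mul_one]
    rw [h1]
    refine lintegral_mono_ae ?_
    filter_upwards [hG] with u hu
    have h2 := turn hTu hu hk
    exact_mod_cast h2
  rw [ENNReal.ofReal_mul (ho k 1).1]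
  calc ENNReal.ofReal (1 - o k 1) * ((∫⁻ u, (SS L (rp k true (ar o u)) : ENNReal) ∂PI ℕ U01) *
        ENNReal.ofReal (o k 1)) + ENNReal.ofReal (o k 1) * ENNReal.ofReal (1 - o k 1)
      = ENNReal.ofReal (o k 1) * (((∫⁻ u, (SS L (rp k true (ar o u)) : ENNReal) ∂PI ℕ U01) + 1) *
          ENNReal.ofReal (1 - o k 1)) := by ring
    _ ≤ _ := by gcongr

/-- the centered arrows -/
noncomputable def xi (o : ℕ → ℕ → ℝ) (k : ℕ) (u : ℕ → ℕ → ℝ) : ℝ :=
  (if ar o u k 1 = false then 1 else 0) - (1 - o k 1)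

theorem xi_meas (hMs : S_Ms) (o : ℕ → ℕ → ℝ) (k : ℕ) : Measurable (xi o k) := by
  have h1 : Measurable (fun b : Bool => (if b = false then (1 : ℝ) else 0) - (1 - o k 1)) :=
    measurable_of_countable _
  exact h1.comp (meas_ar1 hMs o k 1)

theorem xi_bd {o : ℕ → ℕ → ℝ} (ho : ∀ z i, 0 ≤ o z i ∧ o z i ≤ 1) (k : ℕ) (u : ℕ → ℕ → ℝ) :
    ‖xi o k u‖ ≤ 1 := by
  obtain ⟨h0, h1⟩ := ho k 1
  unfold xi
  rw [Real.norm_eq_abs, abs_le]
  split_ifs <;> constructor <;> linarith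

theorem xi_mem (hMs : S_Ms) {o : ℕ → ℕ → ℝ} (ho : ∀ z i, 0 ≤ o z i ∧ o z i ≤ 1) (k : ℕ)
    (r : ENNReal) : MemLp (xi o k) r (PI ℕ U01) :=
  MemLp.of_bound (xi_meas hMs o k).aestronglyMeasurable 1 (Eventually.of_forall (xi_bd ho k))

theorem left_int (hMs : S_Ms) {o : ℕ → ℕ → ℝ}
    (hP : ∀ z i, (PI ℕ U01).real {u | ar o u z i = true} = o z i) (k : ℕ) :
    ∫ u, (if ar o u k 1 = false then (1 : ℝ) else 0) ∂PI ℕ U01 = 1 - o k 1 := by
  have hms : MeasurableSet {u : ℕ → ℕ → ℝ | ar o u k 1 = true} :=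
    (meas_ar1 hMs o k 1) (measurableSet_singleton true)
  have hmf : MeasurableSet {u : ℕ → ℕ → ℝ | ar o u k 1 = false} :=
    (meas_ar1 hMs o k 1) (measurableSet_singleton false)
  have e : {u : ℕ → ℕ → ℝ | ar o u k 1 = false} = {u | ar o u k 1 = true}ᶜ := by
    ext u
    simp
  have h1 := integral_indicator_one (μ := PI ℕ U01) hmf
  rw [e, probReal_compl_eq_one_sub hms, hP, ← e] at h1
  rw [← h1]
  refine integral_congr_ae (Eventually.of_forall fun u => ?_)
  show (if ar o u k 1 = false then (1 : ℝ) else 0) = _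
  rw [Set.indicator_apply]
  rfl

theorem xi_int (hMs : S_Ms) {o : ℕ → ℕ → ℝ} (ho : ∀ z i, 0 ≤ o z i ∧ o z i ≤ 1)
    (hP : ∀ z i, (PI ℕ U01).real {u | ar o u z i = true} = o z i) (k : ℕ) :
    ∫ u, xi o k u ∂PI ℕ U01 = 0 ∧ ∫ u, xi o k u ^ 2 ∂PI ℕ U01 = o k 1 * (1 - o k 1) := by
  have h1 := left_int hMs hP k
  have hB : Integrable (fun u => if ar o u k 1 = false then (1 : ℝ) else 0) (PI ℕ U01) := by
    have h2 := (xi_mem hMs ho k 1).integrable le_rfl
    have h3 := h2.add (integrable_const (1 - o k 1))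
    refine h3.congr (Eventually.of_forall fun u => ?_)
    show xi o k u + (1 - o k 1) = _
    unfold xi
    ring
  constructor
  · unfold xi
    rw [integral_sub hB (integrable_const _), h1, integral_const]
    simp
  · have h4 : (fun u => xi o k u ^ 2) = fun u =>
        (2 * o k 1 - 1) * (if ar o u k 1 = false then (1 : ℝ) else 0) + (1 - o k 1) ^ 2 := by
      funext u
      unfold xi
      split_ifs <;> ring
    rw [h4, integral_add (hB.const_mul _) (integrable_const _), integral_const_mul, h1,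
      integral_const]
    simp
    ring

/-- the variance of the sum of the centered arrows -/
theorem xi_sq (hMs : S_Ms) {o : ℕ → ℕ → ℝ} (ho : ∀ z i, 0 ≤ o z i ∧ o z i ≤ 1)
    (hI : iIndepFun (fun (κ : ℕ × ℕ) (u : ℕ → ℕ → ℝ) => ar o u κ.1 κ.2) (PI ℕ U01))
    (hP : ∀ z i, (PI ℕ U01).real {u | ar o u z i = true} = o z i) (L : ℕ) :
    ∫ u, (∑ k ∈ Finset.range L, xi o k u) ^ 2 ∂PI ℕ U01 =
      ∑ k ∈ Finset.range L, o k 1 * (1 - o k 1) := by
  have hv : ∀ X : (ℕ → ℕ → ℝ) → ℝ, MemLp X 2 (PI ℕ U01) → ∫ u, X u ∂PI ℕ U01 = 0 →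
      ∫ u, X u ^ 2 ∂PI ℕ U01 = variance X (PI ℕ U01) := by
    intro X hX h0
    rw [variance_eq_sub hX, h0]
    simp
  have hsum : (fun u => ∑ k ∈ Finset.range L, xi o k u) = ∑ k ∈ Finset.range L, xi o k := by
    funext u
    rw [Finset.sum_apply]
  have hS2 : MemLp (fun u => ∑ k ∈ Finset.range L, xi o k u) 2 (PI ℕ U01) :=
    memLp_finsetSum _ fun k _ => xi_mem hMs ho k 2
  have hS0 : ∫ u, ∑ k ∈ Finset.range L, xi o k u ∂PI ℕ U01 = 0 := by
    rw [integral_finsetSum _ fun k _ => (xi_mem hMs ho k 1).integrable le_rfl]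
    exact Finset.sum_eq_zero fun k _ => (xi_int hMs ho hP k).1
  rw [hv _ hS2 hS0, hsum, IndepFun.variance_sum (fun k _ => xi_mem hMs ho k 2)]
  · refine Finset.sum_congr rfl fun k _ => ?_
    rw [← hv _ (xi_mem hMs ho k 2) (xi_int hMs ho hP k).1, (xi_int hMs ho hP k).2]
  · intro k _ l _ hkl
    have h1 := hI.indepFun (i := (k, 1)) (j := (l, 1)) fun h => hkl (congrArg Prod.fst h)
    exact h1.comp (φ := fun b : Bool => (if b = false then (1 : ℝ) else 0) - (1 - o k 1))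
      (ψ := fun b : Bool => (if b = false then (1 : ℝ) else 0) - (1 - o l 1))
      (measurable_of_countable _) (measurable_of_countable _)

/-- the covariance with one arrow -/
theorem cov (hMs : S_Ms) (hTu : S_Tu) {o : ℕ → ℕ → ℝ} (ho : ∀ z i, 0 ≤ o z i ∧ o z i ≤ 1)
    (hI : iIndepFun (fun (κ : ℕ × ℕ) (u : ℕ → ℕ → ℝ) => ar o u κ.1 κ.2) (PI ℕ U01))
    (hP : ∀ z i, (PI ℕ U01).real {u | ar o u z i = true} = o z i)
    (hG : ∀ᵐ u ∂PI ℕ U01, ∀ k, Gd (ar o u k)) {L k : ℕ} (hk : k < L)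
    (hF : Integrable (fun u => (SS L (ar o u) : ℝ)) (PI ℕ U01)) :
    o k 1 * (1 - o k 1) ≤ ∫ u, (SS L (ar o u) : ℝ) * xi o k u ∂PI ℕ U01 := by
  obtain ⟨h0, h1⟩ := ho k 1
  have hms : ∀ b : Bool, MeasurableSet {u : ℕ → ℕ → ℝ | ar o u k 1 = b} :=
    fun b => (meas_ar1 hMs o k 1) (measurableSet_singleton b)
  have hint : ∀ b : Bool, Integrable (fun u => if ar o u k 1 = b then (SS L (ar o u) : ℝ) else 0)
      (PI ℕ U01) := by
    intro b
    refine (hF.indicator (hms b)).congr (Eventually.of_forall fun u => ?_)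
    rw [Set.indicator_apply]
    rfl
  have hre : ∀ b : Bool, ∫⁻ u, (if ar o u k 1 = b then (SS L (ar o u) : ENNReal) else 0)
      ∂PI ℕ U01 = ENNReal.ofReal
        (∫ u, (if ar o u k 1 = b then (SS L (ar o u) : ℝ) else 0) ∂PI ℕ U01) := by
    intro b
    rw [ofReal_integral_eq_lintegral_ofReal (hint b) (Eventually.of_forall fun u => by
      show (0 : ℝ) ≤ if ar o u k 1 = b then (SS L (ar o u) : ℝ) else 0
      split_ifs
      · exact Nat.cast_nonneg _
      · exact le_rfl)]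
    refine lintegral_congr fun u => ?_
    split_ifs
    · rw [ENNReal.ofReal_natCast]
    · rw [ENNReal.ofReal_zero]
  have hc := core hMs hTu ho hI hP hG hk
  rw [hre true, hre false] at hc
  set IR := ∫ u, (if ar o u k 1 = true then (SS L (ar o u) : ℝ) else 0) ∂PI ℕ U01 with hIR
  set IL := ∫ u, (if ar o u k 1 = false then (SS L (ar o u) : ℝ) else 0) ∂PI ℕ U01 with hIL
  have hIR0 : 0 ≤ IR := integral_nonneg fun u => by
    show (0 : ℝ) ≤ if ar o u k 1 = true then (SS L (ar o u) : ℝ) else 0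
    split_ifs
    · exact Nat.cast_nonneg _
    · exact le_rfl
  have hIL0 : 0 ≤ IL := integral_nonneg fun u => by
    show (0 : ℝ) ≤ if ar o u k 1 = false then (SS L (ar o u) : ℝ) else 0
    split_ifs
    · exact Nat.cast_nonneg _
    · exact le_rfl
  rw [← ENNReal.ofReal_mul (by linarith), ← ENNReal.ofReal_mul h0, ← ENNReal.ofReal_add
    (mul_nonneg (by linarith) hIR0) (mul_nonneg h0 (by linarith)),
    ENNReal.ofReal_le_ofReal_iff (mul_nonneg h0 hIL0)] at hc
  have hexp : (fun u => (SS L (ar o u) : ℝ) * xi o k u) = fun u =>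
      o k 1 * (if ar o u k 1 = false then (SS L (ar o u) : ℝ) else 0) -
        (1 - o k 1) * (if ar o u k 1 = true then (SS L (ar o u) : ℝ) else 0) := by
    funext u
    unfold xi
    cases h : ar o u k 1
    · simp
      ring
    · simp
      ring
  rw [hexp, integral_sub ((hint false).const_mul _) ((hint true).const_mul _),
    integral_const_mul, integral_const_mul]
  linarith

/-- the lower bound for a good environment -/
theorem low (hMs : S_Ms) (hTe : S_Te) (hTu : S_Tu) {o : ℕ → ℕ → ℝ}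
    (ho : ∀ z i, 0 ≤ o z i ∧ o z i ≤ 1)
    (hI : iIndepFun (fun (κ : ℕ × ℕ) (u : ℕ → ℕ → ℝ) => ar o u κ.1 κ.2) (PI ℕ U01))
    (hP : ∀ z i, (PI ℕ U01).real {u | ar o u z i = true} = o z i)
    (hG : ∀ᵐ u ∂PI ℕ U01, ∀ k, Gd (ar o u k)) {L : ℕ}
    (hF : MemLp (SN fw L o) 4 (St (St U01))) :
    ∑ k ∈ Finset.range L, o k 1 * (1 - o k 1) ≤ vq (St U01) fw L o := by
  have hFe : SN fw L o = fun u => (SS L (ar o u) : ℝ) := funext fun u => hTe L o u
  have hF2 : MemLp (fun u => (SS L (ar o u) : ℝ)) 2 (PI ℕ U01) := by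
    rw [← hFe]
    exact hF.mono_exponent (by norm_num)
  have hF1 : Integrable (fun u => (SS L (ar o u) : ℝ)) (PI ℕ U01) := hF2.integrable (by norm_num)
  set c := ∫ u, (SS L (ar o u) : ℝ) ∂PI ℕ U01 with hc
  have hmh : mh (St U01) fw L o = c := by
    unfold mh
    rw [hFe]
    rfl
  have hvq : vq (St U01) fw L o = ∫ u, ((SS L (ar o u) : ℝ) - c) ^ 2 ∂PI ℕ U01 := by
    unfold vq
    rw [hmh, hFe]
    rfl
  rw [hvq]
  set S : (ℕ → ℕ → ℝ) → ℝ := fun u => ∑ k ∈ Finset.range L, xi o k u with hS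
  have hS2 : MemLp S 2 (PI ℕ U01) := memLp_finsetSum _ fun k _ => xi_mem hMs ho k 2
  have hD2 : MemLp (fun u => (SS L (ar o u) : ℝ) - c) 2 (PI ℕ U01) :=
    hF2.sub (memLp_const c)
  have hDS : Integrable (fun u => ((SS L (ar o u) : ℝ) - c) * S u) (PI ℕ U01) :=
    hD2.integrable_mul hS2
  have h1 : 0 ≤ ∫ u, (((SS L (ar o u) : ℝ) - c) - S u) ^ 2 ∂PI ℕ U01 :=
    integral_nonneg fun u => sq_nonneg _
  have h2 : (fun u => (((SS L (ar o u) : ℝ) - c) - S u) ^ 2) = fun u =>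
      ((SS L (ar o u) : ℝ) - c) ^ 2 - 2 * (((SS L (ar o u) : ℝ) - c) * S u) + S u ^ 2 := by
    funext u
    ring
  have hi1 : Integrable (fun u => ((SS L (ar o u) : ℝ) - c) ^ 2) (PI ℕ U01) := hD2.integrable_sq
  have hi2 : Integrable (fun u => 2 * (((SS L (ar o u) : ℝ) - c) * S u)) (PI ℕ U01) :=
    hDS.const_mul 2
  have hi3 : Integrable (fun u => ((SS L (ar o u) : ℝ) - c) ^ 2 -
      2 * (((SS L (ar o u) : ℝ) - c) * S u)) (PI ℕ U01) := hi1.sub hi2
  have hi4 : Integrable (fun u => S u ^ 2) (PI ℕ U01) := hS2.integrable_sq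
  rw [h2, integral_add hi3 hi4, integral_sub hi1 hi2, integral_const_mul,
    xi_sq hMs ho hI hP L] at h1
  have hFx : ∀ k, Integrable (fun u => (SS L (ar o u) : ℝ) * xi o k u) (PI ℕ U01) :=
    fun k => hF2.integrable_mul (xi_mem hMs ho k 2)
  have h3 : ∫ u, ((SS L (ar o u) : ℝ) - c) * S u ∂PI ℕ U01 =
      ∑ k ∈ Finset.range L, ∫ u, (SS L (ar o u) : ℝ) * xi o k u ∂PI ℕ U01 := by
    have h4 : (fun u => ((SS L (ar o u) : ℝ) - c) * S u) = fun u =>
        ∑ k ∈ Finset.range L, ((SS L (ar o u) : ℝ) * xi o k u - c * xi o k u) := by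
      funext u
      rw [hS]
      show ((SS L (ar o u) : ℝ) - c) * ∑ k ∈ Finset.range L, xi o k u = _
      rw [Finset.mul_sum]
      refine Finset.sum_congr rfl fun k _ => ?_
      ring
    have hx1 : ∀ k, Integrable (xi o k) (PI ℕ U01) := fun k =>
      (xi_mem hMs ho k 1).integrable le_rfl
    have hi5 : ∀ k, Integrable (fun u => (SS L (ar o u) : ℝ) * xi o k u - c * xi o k u)
        (PI ℕ U01) := fun k => (hFx k).sub ((hx1 k).const_mul c)
    rw [h4, integral_finsetSum _ fun k _ => hi5 k]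
    refine Finset.sum_congr rfl fun k _ => ?_
    rw [integral_sub (hFx k) ((hx1 k).const_mul c), integral_const_mul, (xi_int hMs ho hP k).1,
      mul_zero, sub_zero]
  have h5 : ∑ k ∈ Finset.range L, o k 1 * (1 - o k 1) ≤
      ∑ k ∈ Finset.range L, ∫ u, (SS L (ar o u) : ℝ) * xi o k u ∂PI ℕ U01 :=
    Finset.sum_le_sum fun k hk => cov hMs hTu ho hI hP hG (Finset.mem_range.1 hk) hF1
  rw [h3] at h1
  linarith

theorem ber_prob {p : ℝ} (h0 : 0 ≤ p) (h1 : p ≤ 1) : IsProbabilityMeasure (Ber p) := by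
  refine ⟨?_⟩
  unfold Ber
  rw [Measure.add_apply, Measure.smul_apply, Measure.smul_apply, measure_univ, measure_univ,
    smul_eq_mul, smul_eq_mul, mul_one, mul_one, ← ENNReal.ofReal_add h0 (by linarith)]
  simp

end Sp_aux

theorem tSp (hMs : S_Ms) (hAr : S_Ar) (hLg : S_Lg) (hF4 : S_F4) (hX4 : S_X4) (hTe : S_Te)
    (hTu : S_Tu) : S_Sp := by
  intro μ₀ p C θ hLaw hp hIF L
  have := hLaw.prob
  obtain ⟨hAr1, hAr2, _, hAr4⟩ := hAr
  obtain ⟨hp0, hp1, hmap⟩ := hAr1 ℕ μ₀ p hLaw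
  have := Sp_aux.ber_prob hp0 hp1
  have hGd : ∀ᵐ c ∂PI ℕ (Ber p), ∀ k, Gd (c k) := by
    refine ae_all_iff.2 fun k => ?_
    exact (measurePreserving_eval_infinitePi (fun _ : ℕ => St (Ber p)) k).quasiMeasurePreserving.ae
      (hLg p hp hp1).1
  have hm : Measurable fun x : (ℕ → ℕ → ℝ) × (ℕ → ℕ → ℝ) => ar x.1 x.2 := hMs.2.2.2.2.2.2.2 ℕ
  have h2 : ∀ᵐ x ∂(PI ℕ μ₀).prod (PI ℕ U01), ∀ k, Gd (ar x.1 x.2 k) := by
    rw [← hmap] at hGd
    exact ae_of_ae_map hm.aemeasurable hGd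
  have h3 : ∀ᵐ o ∂PI ℕ μ₀, ∀ᵐ u ∂PI ℕ U01, ∀ k, Gd (ar o u k) := Measure.ae_ae_of_ae_prod h2
  have h4 : ∀ᵐ o ∂PI ℕ μ₀, ∀ z i, 0 ≤ o z i ∧ o z i ≤ 1 := hAr4 ℕ μ₀ p hLaw
  obtain ⟨hfm, _, h5⟩ := hF4 _ _ (St μ₀) (St U01) fw C θ hIF
  obtain ⟨_, hX2, K, hXK⟩ := hX4 _ _ (St μ₀) (St U01) fw C θ hIF
  have hae : ∀ᵐ o ∂St (St μ₀), ∑ k ∈ Finset.range L, o k 1 * (1 - o k 1) ≤
      vq (St U01) fw L o := by
    filter_upwards [h3, h4, h5] with o a b c
    exact Sp_aux.low hMs hTe hTu b (hAr2 ℕ o b).1 (hAr2 ℕ o b).2 a (hX2 L o c)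
  -- joint measurability
  have hSN : Measurable fun x : (ℕ → ℕ → ℝ) × (ℕ → ℕ → ℝ) => SN fw L x.1 x.2 := by
    unfold SN
    exact Finset.measurable_fun_sum _ fun k _ => Finset.measurable_fun_sum _ fun l _ => hfm l k
  have hmh : Measurable fun o : ℕ → ℕ → ℝ => mh (St U01) fw L o := by
    unfold mh
    exact (hSN.stronglyMeasurable.integral_prod_right
      (f := fun (o : ℕ → ℕ → ℝ) (u : ℕ → ℕ → ℝ) => SN fw L o u)).measurable
  have hvm : Measurable fun o : ℕ → ℕ → ℝ => vq (St U01) fw L o := by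
    unfold vq
    have h6 : Measurable fun x : (ℕ → ℕ → ℝ) × (ℕ → ℕ → ℝ) =>
        (SN fw L x.1 x.2 - mh (St U01) fw L x.1) ^ 2 :=
      (hSN.sub (hmh.comp measurable_fst)).pow_const 2
    exact (h6.stronglyMeasurable.integral_prod_right
      (f := fun (o : ℕ → ℕ → ℝ) (u : ℕ → ℕ → ℝ) =>
        (SN fw L o u - mh (St U01) fw L o) ^ 2)).measurable
  -- integrability of the squares
  have h4i : Integrable (fun x : (ℕ → ℕ → ℝ) × (ℕ → ℕ → ℝ) => SN fw L x.1 x.2 ^ 4)
      ((St (St μ₀)).prod (St (St U01))) := by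
    refine ⟨(hSN.pow_const 4).aestronglyMeasurable, ?_⟩
    rw [hasFiniteIntegral_iff_ofReal (Eventually.of_forall fun x => by positivity)]
    have h7 := hXK 0 L
    have h8 : ∀ x : (ℕ → ℕ → ℝ) × (ℕ → ℕ → ℝ), SN fw (0 + L) x.1 x.2 - SN fw 0 x.1 x.2 =
        SN fw L x.1 x.2 := by
      intro x
      rw [zero_add]
      simp [SN]
    simp only [h8] at h7
    exact lt_of_le_of_lt h7 ENNReal.ofReal_lt_top
  have h2i : Integrable (fun x : (ℕ → ℕ → ℝ) × (ℕ → ℕ → ℝ) => SN fw L x.1 x.2 ^ 2)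
      ((St (St μ₀)).prod (St (St U01))) := by
    refine ((integrable_const (1 : ℝ)).add h4i).mono' (hSN.pow_const 2).aestronglyMeasurable
      (Eventually.of_forall fun x => ?_)
    rw [Real.norm_eq_abs, abs_of_nonneg (sq_nonneg _)]
    show SN fw L x.1 x.2 ^ 2 ≤ 1 + SN fw L x.1 x.2 ^ 4
    nlinarith [sq_nonneg (SN fw L x.1 x.2 ^ 2 - 1), sq_nonneg (SN fw L x.1 x.2)]
  have hvi : Integrable (fun o : ℕ → ℕ → ℝ => vq (St U01) fw L o) (St (St μ₀)) := by
    refine h2i.integral_prod_left.mono' hvm.aestronglyMeasurable ?_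
    filter_upwards [h5] with o c
    have h9 := hX2 L o c
    have h10 : vq (St U01) fw L o = variance (SN fw L o) (St (St U01)) := by
      rw [variance_eq_integral h9.aestronglyMeasurable.aemeasurable]
      rfl
    rw [Real.norm_eq_abs, abs_of_nonneg (by rw [h10]; exact variance_nonneg _ _), h10]
    exact variance_le_expectation_sq h9.aestronglyMeasurable
  -- the mean of the lower bound
  have hq : Integrable (fun x : ℝ => x * (1 - x)) μ₀ := by
    refine Integrable.of_bound (by fun_prop) 1 ?_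
    filter_upwards [hLaw.supp] with x hx
    rw [Real.norm_eq_abs, abs_le]
    constructor <;> nlinarith [hx.1, hx.2]
  have hmp : ∀ k : ℕ, MeasurePreserving (fun o : ℕ → ℕ → ℝ => o k 1) (St (St μ₀)) μ₀ := fun k =>
    (measurePreserving_eval_infinitePi (fun _ : ℕ => μ₀) 1).comp
      (measurePreserving_eval_infinitePi (fun _ : ℕ => St μ₀) k)
  have hk1 : ∀ k : ℕ, Integrable (fun o : ℕ → ℕ → ℝ => o k 1 * (1 - o k 1)) (St (St μ₀)) :=
    fun k => (hmp k).integrable_comp_of_integrable hq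
  have hk2 : ∀ k : ℕ, ∫ o : ℕ → ℕ → ℝ, o k 1 * (1 - o k 1) ∂St (St μ₀) =
      ∫ x, x * (1 - x) ∂μ₀ := by
    intro k
    have h11 := integral_map (μ := St (St μ₀)) (hmp k).measurable.aemeasurable
      (f := fun x : ℝ => x * (1 - x)) (by rw [(hmp k).map_eq]; exact hq.aestronglyMeasurable)
    rw [(hmp k).map_eq] at h11
    exact h11.symm
  calc (L : ℝ) * ∫ x, x * (1 - x) ∂μ₀
      = ∫ o : ℕ → ℕ → ℝ, ∑ k ∈ Finset.range L, o k 1 * (1 - o k 1) ∂St (St μ₀) := by
        rw [integral_finsetSum _ fun k _ => hk1 k]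
        simp only [hk2]
        rw [Finset.sum_const, Finset.card_range, nsmul_eq_mul]
    _ ≤ VL (St μ₀) (St U01) fw L :=
        integral_mono_ae (integrable_finsetSum _ fun k _ => hk1 k) hvi hae

end MP0d3db7D1
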