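import Pool.Agent.Lib.MP_0d3db7.D1.Spec

/-!
# MP_0d3db7_pr, theorem D1, module Tc (helper69): the law of the hitting times
-/

set_option autoImplicit false

namespace MP0d3db7D1

open MeasureTheory ProbabilityTheory Filter Topology Pool.Agent.MP0d3db7

namespace Tc_aux

theorem exp_sub (A B : ℝ) :
    ‖Complex.exp ((A : ℂ) * Complex.I) - Complex.exp ((B : ℂ) * Complex.I)‖ ≤ |A - B| := by
  have h1 : Complex.exp ((A : ℂ) * Complex.I) - Complex.exp ((B : ℂ) * Complex.I) =
      Complex.exp ((B : ℂ) * Complex.I) *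
        (Complex.exp (Complex.I * ((A - B : ℝ) : ℂ)) - 1) := by
    rw [mul_sub, ← Complex.exp_add, mul_one]
    congr 2
    push_cast
    ring
  rw [h1, norm_mul, Complex.norm_exp_ofReal_mul_I, one_mul]
  exact Real.norm_exp_I_mul_ofReal_sub_one_le

/-- two random variables with close characteristic functions -/
theorem cf_close {Ω : Type} [MeasurableSpace Ω] (P : Measure Ω) [IsProbabilityMeasure P]
    (X Y D : Ω → ℝ) (hX : Measurable X) (hY : Measurable Y) (hD : Integrable D P)
    (h : ∀ u, |X u - Y u| ≤ D u) :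
    ‖∫ u, Complex.exp ((X u : ℂ) * Complex.I) ∂P - ∫ u, Complex.exp ((Y u : ℂ) * Complex.I) ∂P‖ ≤
      ∫ u, D u ∂P := by
  have hi : ∀ Z : Ω → ℝ, Measurable Z →
      Integrable (fun u => Complex.exp ((Z u : ℂ) * Complex.I)) P := by
    intro Z hZ
    refine Integrable.of_bound (by fun_prop) 1 (Eventually.of_forall fun u => ?_)
    rw [Complex.norm_exp_ofReal_mul_I]
  rw [← integral_sub (hi X hX) (hi Y hY)]
  refine (norm_integral_le_integral_norm _).trans (integral_mono_of_nonneg
    (Eventually.of_forall fun u => norm_nonneg _) hD (Eventually.of_forall fun u => ?_))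
  exact (exp_sub (X u) (Y u)).trans (h u)

end Tc_aux

theorem tTc (hSh : S_Sh) (hMs : S_Ms) (hTe : S_Te) (hDt : S_Dt) : S_Tc := by
  intro o s hs hhit hKK hph x
  obtain ⟨K, hK⟩ := hKK
  -- measurability
  have har : Measurable (fun u : ℤ → ℕ → ℝ => ar o u) :=
    (hMs.2.2.2.2.2.2.2 ℤ).comp measurable_prodMk_left
  have hnu : ∀ k, Measurable (fun u : ℤ → ℕ → ℝ => nu (ar o u) k) := fun k =>
    (hMs.2.2.2.2.2.1 k).comp har
  have hps := hSh.2 ℝ U01
  have har' : Measurable (fun u : ℕ → ℕ → ℝ => ar (ps o) u) :=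
    (hMs.2.2.2.2.2.2.2 ℕ).comp measurable_prodMk_left
  have hSN : ∀ k, Measurable (fun u : ℕ → ℕ → ℝ => SN fw k (ps o) u) := by
    intro k
    have h1 : (fun u : ℕ → ℕ → ℝ => SN fw k (ps o) u) = fun u => (SS k (ar (ps o) u) : ℝ) :=
      funext fun u => hTe k (ps o) u
    rw [h1]
    have h2 : Measurable (fun n : ℕ => (n : ℝ)) := measurable_of_countable _
    exact h2.comp ((hMs.2.2.2.1 k).comp har')
  have hSNp : ∀ k, Measurable (fun u : ℤ → ℕ → ℝ => SN fw k (ps o) (ps u)) := fun k =>
    (hSN k).comp hps.measurable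
  let X : ℕ → (ℤ → ℕ → ℝ) → ℝ := fun k u =>
    2 * ((SN fw k (ps o) (ps u) - mh (St U01) fw k (ps o)) / Real.sqrt k)
  let D : ℕ → (ℤ → ℕ → ℝ) → ℝ := fun k u => 2 * (nu (ar o u) k).toReal / Real.sqrt k
  have hXm : ∀ k, Measurable (X k) := fun k =>
    (((hSNp k).sub_const _).div_const _).const_mul 2
  have hDm : ∀ k, Measurable (D k) := fun k => (((hnu k).ennreal_toReal).const_mul 2).div_const _
  have hZm : ∀ k, Measurable (fun u => X k u + D k u) := fun k => (hXm k).add (hDm k)
  -- the events
  have hev : ∀ k : ℕ, 1 ≤ k → (PI ℤ U01).real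
      {u | ∃ m : ℕ, (m : ℝ) ≤ mm o k + x * Real.sqrt k ∧ pos (hist (ar o u) m) = k} =
      (PI ℤ U01).real {u | X k u + D k u ≤ x} := by
    intro k hk
    refine measureReal_congr ?_
    filter_upwards [hhit] with u hu
    obtain ⟨hG, hT⟩ := hu
    have hsq : 0 < Real.sqrt k := Real.sqrt_pos.2 (by exact_mod_cast hk)
    classical
    set N := Nat.find (hT k) with hN
    have hN1 : pos (hist (ar o u) N) = k := Nat.find_spec (hT k)
    have hN2 : ∀ m < N, pos (hist (ar o u) m) ≠ k := fun m hm => Nat.find_min (hT k) hm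
    have hN3 := (hDt (ar o u) hG k N hN1 hN2).2
    have hSS : (SS k (ps (ar o u)) : ℝ) = SN fw k (ps o) (ps u) := (hTe k (ps o) (ps u)).symm
    rw [hSS] at hN3
    have key : (∃ m : ℕ, (m : ℝ) ≤ mm o k + x * Real.sqrt k ∧ pos (hist (ar o u) m) = k) ↔
        X k u + D k u ≤ x := by
      have h1 : (∃ m : ℕ, (m : ℝ) ≤ mm o k + x * Real.sqrt k ∧ pos (hist (ar o u) m) = k) ↔
          (N : ℝ) ≤ mm o k + x * Real.sqrt k := by
        constructor
        · rintro ⟨m, hm1, hm2⟩
          have : N ≤ m := Nat.find_min' (hT k) hm2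
          have h2 : (N : ℝ) ≤ m := by exact_mod_cast this
          linarith
        · intro h
          exact ⟨N, h, hN1⟩
      rw [h1, hN3]
      have h2 : X k u + D k u = (2 * (SN fw k (ps o) (ps u) - mh (St U01) fw k (ps o)) +
          2 * (nu (ar o u) k).toReal) / Real.sqrt k := by
        show 2 * ((SN fw k (ps o) (ps u) - mh (St U01) fw k (ps o)) / Real.sqrt k) +
          2 * (nu (ar o u) k).toReal / Real.sqrt k = _
        ring
      rw [h2, div_le_iff₀ hsq]
      unfold mm
      constructor <;> intro h <;> linarith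
    exact propext key
  -- the law of `X + D`
  let v : NNReal := Real.toNNReal (4 * s)
  have hv : (v : ℝ) = 4 * s := Real.coe_toNNReal _ (by linarith)
  have hv0 : v ≠ 0 := by
    intro h
    rw [h, NNReal.coe_zero] at hv
    linarith
  let Pk : ℕ → ProbabilityMeasure ℝ := fun k =>
    ⟨(PI ℤ U01).map (fun u => X k u + D k u), Measure.isProbabilityMeasure_map (hZm k).aemeasurable⟩
  let Gs : ProbabilityMeasure ℝ := ⟨gaussianReal 0 v, inferInstance⟩
  have hsqrt : Tendsto (fun k : ℕ => Real.sqrt k) atTop atTop :=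
    Real.tendsto_sqrt_atTop.comp tendsto_natCast_atTop_atTop
  have hconv : Tendsto Pk atTop (𝓝 Gs) := by
    rw [ProbabilityMeasure.tendsto_iff_tendsto_charFun]
    intro t
    -- the characteristic function of `X`
    have hcX : ∀ k : ℕ, ∫ u, Complex.exp (((t * X k u : ℝ) : ℂ) * Complex.I) ∂PI ℤ U01 =
        ph (St U01) fw k (ps o) (2 * t) := by
      intro k
      unfold ph
      have h1 : (PI ℤ U01).map (fun a : ℤ → ℕ → ℝ => ps a) = St (St U01) := hps.map_eq
      rw [← h1, integral_map hps.measurable.aemeasurable]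
      · refine integral_congr_ae (Eventually.of_forall fun u => ?_)
        show Complex.exp (((t * (2 * ((SN fw k (ps o) (ps u) - mh (St U01) fw k (ps o)) /
          Real.sqrt k)) : ℝ) : ℂ) * Complex.I) = _
        congr 2
        push_cast
        ring
      · refine Measurable.aestronglyMeasurable ?_
        have h2 := hSN k
        fun_prop
    have hDi : ∀ k : ℕ, Integrable (D k) (PI ℤ U01) ∧
        ∫ u, D k u ∂PI ℤ U01 ≤ 2 * max K 0 / Real.sqrt k := by
      intro k
      have hfin : ∫⁻ u, nu (ar o u) k ∂PI ℤ U01 ≠ ⊤ :=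
        ne_top_of_le_ne_top ENNReal.ofReal_ne_top (hK k)
      have h1 : Integrable (fun u => (nu (ar o u) k).toReal) (PI ℤ U01) :=
        integrable_toReal_of_lintegral_ne_top (hnu k).aemeasurable hfin
      have h2 : ∫ u, (nu (ar o u) k).toReal ∂PI ℤ U01 ≤ max K 0 := by
        rw [integral_toReal (hnu k).aemeasurable (ae_lt_top (hnu k) hfin)]
        refine ENNReal.toReal_le_of_le_ofReal (le_max_right _ _) ((hK k).trans ?_)
        exact ENNReal.ofReal_le_ofReal (le_max_left _ _)
      refine ⟨(h1.const_mul 2).div_const _, ?_⟩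
      show ∫ u, 2 * (nu (ar o u) k).toReal / Real.sqrt k ∂PI ℤ U01 ≤ _
      rw [integral_div, integral_const_mul]
      exact div_le_div_of_nonneg_right (by linarith) (Real.sqrt_nonneg _)
    have hcG : charFun (Gs : Measure ℝ) t =
        Complex.exp ((-((2 * t) ^ 2 * s / 2) : ℝ) : ℂ) := by
      show charFun (gaussianReal 0 v) t = _
      rw [charFun_gaussianReal]
      congr 1
      have : ((v : ℝ) : ℂ) = ((4 * s : ℝ) : ℂ) := by rw [hv]
      rw [this]
      push_cast
      ring
    have hcP : ∀ k : ℕ, charFun (Pk k : Measure ℝ) t =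
        ∫ u, Complex.exp (((t * X k u + t * D k u : ℝ) : ℂ) * Complex.I) ∂PI ℤ U01 := by
      intro k
      show charFun ((PI ℤ U01).map (fun u => X k u + D k u)) t = _
      rw [charFun_apply_real, integral_map (hZm k).aemeasurable (by fun_prop)]
      refine integral_congr_ae (Eventually.of_forall fun u => ?_)
      show Complex.exp ((t : ℂ) * ((X k u + D k u : ℝ) : ℂ) * Complex.I) = _
      congr 2
      push_cast
      ring
    rw [hcG]
    have hlim := hph (2 * t)
    have hbd : ∀ k : ℕ, ‖charFun (Pk k : Measure ℝ) t - ph (St U01) fw k (ps o) (2 * t)‖ ≤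
        |t| * (2 * max K 0 / Real.sqrt k) := by
      intro k
      rw [hcP, ← hcX]
      have h1 := Tc_aux.cf_close (PI ℤ U01) (fun u => t * X k u + t * D k u)
        (fun u => t * X k u) (fun u => |t| * D k u)
        (((hXm k).const_mul t).add ((hDm k).const_mul t)) ((hXm k).const_mul t)
        ((hDi k).1.const_mul |t|) (fun u => by
          show |t * X k u + t * D k u - t * X k u| ≤ |t| * D k u
          have h2 : 0 ≤ D k u := div_nonneg (mul_nonneg (by norm_num) ENNReal.toReal_nonneg)
            (Real.sqrt_nonneg _)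
          have h3 : t * X k u + t * D k u - t * X k u = t * D k u := by ring
          rw [h3, abs_mul, abs_of_nonneg h2])
      refine h1.trans ?_
      rw [integral_const_mul]
      exact mul_le_mul_of_nonneg_left (hDi k).2 (abs_nonneg t)
    have hz : Tendsto (fun k : ℕ => |t| * (2 * max K 0 / Real.sqrt k)) atTop (𝓝 0) := by
      have h1 : Tendsto (fun k : ℕ => 2 * max K 0 / Real.sqrt k) atTop (𝓝 0) :=
        tendsto_const_nhds.div_atTop hsqrt
      simpa using h1.const_mul |t|
    have hdiff := squeeze_zero_norm hbd hz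
    have hfin := hdiff.add hlim
    simp only [zero_add, sub_add_cancel] at hfin
    exact hfin
  -- portmanteau
  have hfr : (Gs : Measure ℝ) (frontier (Set.Iic x)) = 0 := by
    rw [frontier_Iic]
    show gaussianReal 0 v {x} = 0
    have := nullSingletonClass_gaussianReal (μ := 0) hv0
    exact measure_singleton x
  have hp := ProbabilityMeasure.tendsto_measure_of_null_frontier_of_tendsto' hconv hfr
  have hp2 := (ENNReal.tendsto_toReal (measure_ne_top (Gs : Measure ℝ) (Set.Iic x))).comp hp
  refine Tendsto.congr' ?_ hp2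
  filter_upwards [eventually_ge_atTop 1] with k hk
  rw [hev k hk]
  show ((PI ℤ U01).map (fun u => X k u + D k u) (Set.Iic x)).toReal = _
  rw [Measure.map_apply (hZm k) measurableSet_Iic]
  rfl

end MP0d3db7D1
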