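import Pool.Agent.Lib.MP_0d3db7.D1.Spec

/-!
# MP_0d3db7_pr, theorem D1: hitting (helper50)
-/

set_option autoImplicit false

namespace MP0d3db7D1

open MeasureTheory ProbabilityTheory Filter Topology Pool.Agent.MP0d3db7

namespace Th_aux

/-- a path which does not visit `n` stays on the left -/
lemma lt_of_ne (a : ℤ → ℕ → Bool) (n : ℕ) (h : ∀ m, pos (hist a m) ≠ n) (m : ℕ) :
    pos (hist a m) < n := by
  induction m with
  | zero =>
    have h0 := h 0
    have e0 : pos (hist a 0) = 0 := rfl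
    rw [e0] at h0 ⊢
    omega
  | succ m ih =>
    have h1 := h (m + 1)
    have e1 : pos (hist a (m + 1)) =
      pos (hist a m) + stp (a (pos (hist a m)) (vis (hist a m))) := rfl
    have h2 : stp (a (pos (hist a m)) (vis (hist a m))) ≤ 1 := by
      unfold stp
      split_ifs <;> omega
    omega

/-- exponential moments -/
lemma Ex_pow (p z : ℝ) (hz : 0 < z) (m : ℕ) (h : List Bool) :
    Ex (fun _ => p) (fun h => z ^ (pos h)) m h = (p * z + (1 - p) / z) ^ m * z ^ (pos h) := by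
  induction m generalizing h with
  | zero =>
    show z ^ pos h = _
    rw [pow_zero, one_mul]
  | succ m ih =>
    show p * Ex (fun _ => p) _ m (true :: h) + (1 - p) * Ex (fun _ => p) _ m (false :: h) = _
    rw [ih, ih]
    have e1 : z ^ pos (true :: h) = z ^ pos h * z := by
      show z ^ (pos h + 1) = _
      rw [zpow_add_one₀ hz.ne']
    have e2 : z ^ pos (false :: h) = z ^ pos h / z := by
      show z ^ (pos h + -1) = _
      rw [zpow_add₀ hz.ne', zpow_neg_one]
      rfl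
    rw [e1, e2, pow_succ]
    ring

lemma prob {p : ℝ} (h0 : 0 ≤ p) (h1 : p ≤ 1) : IsProbabilityMeasure (Ber p) := by
  refine ⟨?_⟩
  rw [Ber, Measure.add_apply, Measure.smul_apply, Measure.smul_apply]
  simp only [measure_univ, smul_eq_mul, mul_one]
  rw [← ENNReal.ofReal_add h0 (by linarith)]
  simp

lemma hit (hMs : S_Ms) (hAr : S_Ar) (hHi : S_Hi) {p : ℝ} (hp : 1 / 2 < p) (hp1 : p < 1) (n : ℕ) :
    ∀ᵐ a ∂PI ℤ (Ber p), ∃ m, pos (hist a m) = n := by
  have := prob (p := p) (by linarith) hp1.le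
  obtain ⟨c, hc0, hc⟩ : ∃ c : ℝ, 0 < c ∧ c * c = p * (1 - p) :=
    ⟨Real.sqrt (p * (1 - p)), Real.sqrt_pos.2 (mul_pos (by linarith) (by linarith)),
      Real.mul_self_sqrt (mul_nonneg (by linarith) (by linarith))⟩
  have hp0 : 0 < p := by linarith
  have hc1 : c < 1 / 2 := by nlinarith [mul_self_nonneg (p - 1 / 2)]
  have hcp : c < p := by linarith
  obtain ⟨z, hz⟩ : ∃ z : ℝ, z = c / p := ⟨_, rfl⟩
  have hz0 : 0 < z := by rw [hz]; positivity
  have hz1 : z < 1 := by rw [hz, div_lt_one hp0]; exact hcp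
  have hr : p * z + (1 - p) / z = 2 * c := by
    have e1 : p * z = c := by rw [hz]; field_simp
    have e2 : (1 - p) / z = c := by
      rw [div_eq_iff hz0.ne', hz]
      field_simp
      linarith
    rw [e1, e2]
    ring
  have hβ : ∀ h : List Bool, 0 ≤ (fun _ : List Bool => p) h ∧ (fun _ : List Bool => p) h ≤ 1 :=
    fun _ => ⟨hp0.le, hp1.le⟩
  have key : ∀ m : ℕ, (PI ℤ (Ber p)).real {a | ∀ m, pos (hist a m) ≠ n} ≤
      (2 * c) ^ m * z ^ (-(n : ℤ)) := by
    intro m
    have hmeas : MeasurableSet {a : ℤ → ℕ → Bool | pos (hist a m) < n} := by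
      have e : {a : ℤ → ℕ → Bool | pos (hist a m) < n} =
          ⋃ h ∈ {h : List Bool | pos h < n}, {a : ℤ → ℕ → Bool | hist a m = h} := by
        ext a
        simp
      rw [e]
      exact MeasurableSet.biUnion (Set.to_countable _) fun h _ => hMs.2.2.2.2.2.2.1 m h
    have hH := (hHi (ℤ → ℕ → Bool) (PI ℤ (Ber p)) (fun x z i => x z i) (fun _ _ => p)
      (fun z i => (measurable_pi_apply i).comp (measurable_pi_apply z))
      (hAr.2.2.1 ℤ p hp0.le hp1.le).1 (hAr.2.2.1 ℤ p hp0.le hp1.le).2 m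
      (fun h => if pos h < n then 1 else 0)).2
    have h1 : (PI ℤ (Ber p)).real {a | ∀ m, pos (hist a m) ≠ n} ≤
        (PI ℤ (Ber p)).real {a | pos (hist a m) < n} :=
      measureReal_mono fun a ha => lt_of_ne a n ha m
    have h2 : (PI ℤ (Ber p)).real {a | pos (hist a m) < n} =
        ∫ a, (fun h : List Bool => if pos h < n then (1 : ℝ) else 0) (hist (fun z i => a z i) m)
          ∂PI ℤ (Ber p) := by
      rw [← integral_indicator_one hmeas]
      refine integral_congr_ae (Eventually.of_forall fun a => ?_)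
      show Set.indicator {a : ℤ → ℕ → Bool | pos (hist a m) < n} 1 a =
        if pos (hist a m) < n then (1 : ℝ) else 0
      rw [Set.indicator_apply]
      rfl
    rw [h2, hH] at h1
    refine h1.trans ?_
    have h3 : Ex (fun _ => p) (fun h => if pos h < n then (1 : ℝ) else 0) m [] ≤
        Ex (fun _ => p) (fun h => z ^ (-(n : ℤ)) * z ^ (pos h)) m [] := by
      refine Ex_mono hβ m [] fun x _ => ?_
      show (if pos x < n then (1 : ℝ) else 0) ≤ z ^ (-(n : ℤ)) * z ^ (pos x)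
      split_ifs with hx
      · rw [← zpow_add₀ hz0.ne']
        exact one_le_zpow_of_nonpos₀ hz0 hz1.le (by omega)
      · positivity
    refine h3.trans (le_of_eq ?_)
    rw [Ex_mul, Ex_pow p z hz0, hr]
    show z ^ (-(n : ℤ)) * ((2 * c) ^ m * z ^ (0 : ℤ)) = _
    rw [zpow_zero]
    ring
  have hlim : Tendsto (fun m : ℕ => (2 * c) ^ m * z ^ (-(n : ℤ))) atTop (𝓝 0) := by
    have := (tendsto_pow_atTop_nhds_zero_of_lt_one (by linarith : 0 ≤ 2 * c)
      (by linarith : 2 * c < 1)).mul_const (z ^ (-(n : ℤ)))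
    rwa [zero_mul] at this
  have h0 : (PI ℤ (Ber p)).real {a | ∀ m, pos (hist a m) ≠ n} = 0 :=
    le_antisymm (ge_of_tendsto' hlim key) measureReal_nonneg
  rw [ae_iff]
  have e : {a : ℤ → ℕ → Bool | ¬ ∃ m, pos (hist a m) = n} = {a | ∀ m, pos (hist a m) ≠ n} := by
    ext a
    simp
  rw [e]
  exact (measureReal_eq_zero_iff).1 h0

end Th_aux

open Th_aux

theorem tTh (hMs : S_Ms) (hAr : S_Ar) (hLg : S_Lg) (hHi : S_Hi) : S_Th := by
  intro μ₀ p hL hp hp1
  have := hL.prob
  have := prob (p := p) (by linarith) hp1.le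
  have h1 : ∀ᵐ a ∂PI ℤ (Ber p), ∀ z, Gd (a z) := by
    rw [ae_all_iff]
    intro z
    have hm : MeasurePreserving (Function.eval z) (PI ℤ (Ber p)) (St (Ber p)) :=
      measurePreserving_eval_infinitePi _ z
    exact hm.quasiMeasurePreserving.ae (hLg p (by linarith) hp1.le).1
  have h2 : ∀ᵐ a ∂PI ℤ (Ber p), ∀ n : ℕ, ∃ m, pos (hist a m) = n :=
    ae_all_iff.2 fun n => hit hMs hAr hHi hp hp1 n
  have h3 : ∀ᵐ a ∂PI ℤ (Ber p), (∀ z, Gd (a z)) ∧ ∀ n : ℕ, ∃ m, pos (hist a m) = n := h1.and h2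
  rw [← (hAr.1 ℤ μ₀ p hL).2.2] at h3
  exact Measure.ae_ae_of_ae_prod (ae_of_ae_map (hMs.2.2.2.2.2.2.2 ℤ).aemeasurable h3)

end MP0d3db7D1
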