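import Pool.Agent.Lib.MP_0d3db7.D1.Spec

/-!
# MP_0d3db7_pr, theorem D1, module Tu: turning one arrow
-/

set_option autoImplicit false

namespace MP0d3db7D1

open MeasureTheory ProbabilityTheory Filter Topology Pool.Agent.MP0d3db7

namespace Tu_aux

/-- the right arrows -/
def rt (a : ℕ → Bool) (i : ℕ) : Prop := a (i + 1) = true

instance (a : ℕ → Bool) : DecidablePred (rt a) := fun i => by
  unfold rt
  infer_instance

theorem inf {a : ℕ → Bool} (h : Gd a) : (setOf (rt a)).Infinite :=
  Nat.frequently_atTop_iff_infinite.1 h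

theorem lf_succ {a : ℕ → Bool} (h : Gd a) (r : ℕ) : lf a (r + 1) = Nat.nth (rt a) r - r := by
  rw [lf, if_pos h]
  rfl

theorem le_nth {a : ℕ → Bool} (h : Gd a) (r : ℕ) : r ≤ Nat.nth (rt a) r :=
  (Nat.nth_strictMono (inf h)).le_apply

theorem nth_lt {a : ℕ → Bool} (h : Gd a) (r : ℕ) : Nat.nth (rt a) r < Nat.nth (rt a) (r + 1) :=
  Nat.nth_strictMono (inf h) (Nat.lt_succ_self r)

theorem lf_mono {a : ℕ → Bool} (h : Gd a) : Monotone (lf a) := by
  refine monotone_nat_of_le_succ fun r => ?_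
  cases r with
  | zero => exact Nat.zero_le _
  | succ r =>
    rw [lf_succ h, lf_succ h]
    have h1 := nth_lt h r
    omega

theorem count_eq {a a' : ℕ → Bool} (h1 : a 1 = true) (h2 : a' 1 = false)
    (h3 : ∀ j, j ≠ 1 → a j = a' j) (x : ℕ) :
    Nat.count (rt a) (x + 1) = Nat.count (rt a') (x + 1) + 1 := by
  induction x with
  | zero =>
    rw [Nat.count_succ, Nat.count_succ, Nat.count_zero, Nat.count_zero, if_pos, if_neg]
    · show ¬ a' (0 + 1) = true
      rw [zero_add, h2]
      simp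
    · show a (0 + 1) = true
      rw [zero_add, h1]
  | succ x ih =>
    have h4 : rt a (x + 1) ↔ rt a' (x + 1) := by
      unfold rt
      rw [h3 (x + 1 + 1) (by omega)]
    rw [Nat.count_succ, Nat.count_succ (rt a'), ih]
    by_cases h5 : rt a' (x + 1)
    · rw [if_pos h5, if_pos (h4.2 h5)]
    · rw [if_neg h5, if_neg (fun h => h5 (h4.1 h))]

theorem turn {a a' : ℕ → Bool} (ha : Gd a) (ha' : Gd a') (h1 : a 1 = true) (h2 : a' 1 = false)
    (h3 : ∀ j, j ≠ 1 → a j = a' j) (r : ℕ) : lf a (r + 1) + 1 ≤ lf a' (r + 1) := by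
  obtain ⟨x, hx⟩ : ∃ x, x = Nat.nth (rt a') r := ⟨_, rfl⟩
  have h4 : rt a' x := by
    rw [hx]
    exact Nat.nth_mem_of_infinite (inf ha') r
  have h5 : Nat.count (rt a') x = r := by
    rw [hx]
    exact Nat.count_nth_of_infinite (inf ha') r
  have h6 : x ≠ 0 := by
    intro h0
    rw [h0] at h4
    have h7 : a' (0 + 1) = true := h4
    rw [zero_add, h2] at h7
    exact Bool.false_ne_true h7
  obtain ⟨y, rfl⟩ : ∃ y, x = y + 1 := ⟨x - 1, by omega⟩
  have h8 : rt a (y + 1) := by
    have h9 : a (y + 1 + 1) = a' (y + 1 + 1) := h3 _ (by omega)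
    show a (y + 1 + 1) = true
    rw [h9]
    exact h4
  have h10 := Nat.nth_count h8
  rw [count_eq h1 h2 h3 y, h5] at h10
  have h11 := nth_lt ha r
  have h12 := le_nth ha r
  rw [lf_succ ha, lf_succ ha', ← hx]
  omega

/-- the functions `G` of the stacks `j, j + 1, …` -/
noncomputable def gg (n : ℕ) (c : ℕ → ℕ → Bool) (j : ℕ) : ℕ := G (n - j) (fun i => c (j + i))

theorem gg_rec {n j : ℕ} (c : ℕ → ℕ → Bool) (h : j < n) : gg n c j = lf (c j) (gg n c (j + 1) + 1) := by
  unfold gg
  have h1 : n - j = (n - (j + 1)) + 1 := by omega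
  rw [h1]
  show lf (c (j + 0)) (G (n - (j + 1)) (fun i => c (j + (i + 1))) + 1) = _
  have h2 : (fun i => c (j + (i + 1))) = fun i => c (j + 1 + i) := by
    funext i
    congr 1
    omega
  rw [h2, add_zero]

end Tu_aux

open Tu_aux in
theorem tTu : S_Tu := by
  intro c c' n k hc hc' hkn h1 h2 h3
  have hrow : ∀ i, i ≠ k → c i = c' i := by
    intro i hi
    funext j
    exact h3 i j fun h => hi (Prod.ext_iff.1 h).1
  have htail : ∀ j, k < j → gg n c j = gg n c' j := by
    intro j hj
    unfold gg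
    congr 1
    funext i
    exact hrow (j + i) (by omega)
  have hk : gg n c k + 1 ≤ gg n c' k := by
    rw [gg_rec c hkn, gg_rec c' hkn, htail (k + 1) (by omega)]
    exact turn (hc k) (hc' k) h1 h2
      (fun j hj => h3 k j fun h => hj (Prod.ext_iff.1 h).2) _
  have hle : ∀ d, d ≤ k → gg n c (k - d) ≤ gg n c' (k - d) := by
    intro d
    induction d with
    | zero =>
      intro _
      rw [Nat.sub_zero]
      omega
    | succ d ih =>
      intro hd
      have h4 := ih (by omega)
      have h5 : k - (d + 1) + 1 = k - d := by omega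
      rw [gg_rec c (by omega), gg_rec c' (by omega), h5, ← hrow (k - (d + 1)) (by omega)]
      exact lf_mono (hc _) (by omega)
  have hlt : SS n c < SS n c' := by
    show ∑ j ∈ Finset.range n, gg n c j < ∑ j ∈ Finset.range n, gg n c' j
    refine Finset.sum_lt_sum (fun j _ => ?_) ⟨k, Finset.mem_range.2 hkn, by omega⟩
    rcases Nat.lt_or_ge k j with hj | hj
    · exact (htail j hj).le
    · have h6 := hle (k - j) (by omega)
      rwa [Nat.sub_sub_self hj] at h6
  exact hlt

end MP0d3db7D1
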