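import Pool.Agent.Lib.MP_0d3db7.D1.Spec

/-!
# MP_0d3db7_pr, theorem D1: the last block
-/

set_option autoImplicit false

namespace MP0d3db7D1

open MeasureTheory ProbabilityTheory Filter Topology Pool.Agent.MP0d3db7

namespace Up_aux

/-- Jensen for the square -/
lemma sq_int {Ω : Type} [MeasurableSpace Ω] (P : Measure Ω) [IsProbabilityMeasure P] (X : Ω → ℝ)
    (hX : MemLp X 4 P) : (∫ o, X o ^ 2 ∂P) ^ 2 ≤ ∫ o, X o ^ 4 ∂P ∧
    Integrable (fun o => X o ^ 4) P := by
  have h4 : Integrable (fun o => X o ^ 4) P := by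
    have h := hX.integrable_norm_pow (by norm_num : (4 : ℕ) ≠ 0)
    refine h.congr (Eventually.of_forall fun o => ?_)
    simp only [Real.norm_eq_abs]
    exact Even.pow_abs (by decide) _
  have hX2 : MemLp (fun o => X o ^ 2) 2 P := by
    refine (memLp_two_iff_integrable_sq (f := fun o => X o ^ 2)
      (hX.aestronglyMeasurable.pow 2)).2 ?_
    refine h4.congr (Eventually.of_forall fun o => ?_)
    simp only
    ring
  refine ⟨?_, h4⟩
  have h5 := variance_nonneg (fun o => X o ^ 2) P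
  rw [variance_eq_sub hX2] at h5
  have h6 : ∫ o, ((fun o => X o ^ 2) ^ 2) o ∂P = ∫ o, X o ^ 4 ∂P := by
    refine integral_congr_ae (Eventually.of_forall fun o => ?_)
    simp only [Pi.pow_apply]
    ring
  rw [h6] at h5
  linarith

lemma sn_meas {A B : Type} [MeasurableSpace A] [MeasurableSpace B]
    (f : ℕ → (ℕ → A) → (ℕ → B) → ℝ)
    (hm : ∀ l k, Measurable fun x : (ℕ → A) × (ℕ → B) => f l (sh k x.1) (sh k x.2)) (n : ℕ) :
    Measurable (fun x : (ℕ → A) × (ℕ → B) => SN f n x.1 x.2) := by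
  unfold SN
  exact Finset.measurable_sum _ fun k _ => Finset.measurable_sum _ fun l _ => hm l k

end Up_aux

open Up_aux in
theorem tUp (hF4 : S_F4) (hX4 : S_X4) : S_Up := by
  intro A B _ _ μ ν _ _ f C θ hf L hL
  obtain ⟨hm, -, hgood⟩ := hF4 A B μ ν f C θ hf
  obtain ⟨-, hmem, K, hK⟩ := hX4 A B μ ν f C θ hf
  have hS := sn_meas f hm
  set D : ℕ → (ℕ → A) × (ℕ → B) → ℝ := fun n x => SN f n x.1 x.2 - SN f (n / L * L) x.1 x.2
    with hD
  have hDm : ∀ n, Measurable (D n) := fun n => (hS n).sub (hS _)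
  set Z : ℕ → (ℕ → A) → ℝ := fun n o => ∫ u, D n (o, u) ^ 2 ∂St ν with hZ
  have hZm : ∀ n, Measurable (Z n) := fun n =>
    (StronglyMeasurable.integral_prod_right' (ν := St ν)
      ((hDm n).pow_const 2).stronglyMeasurable).measurable
  -- the fourth moment
  have h1 : ∀ n, ∫⁻ o, ENNReal.ofReal (Z n o ^ 2) ∂St μ ≤ ENNReal.ofReal (|K| * L ^ 4) := by
    intro n
    have h2 : ∫⁻ o, ENNReal.ofReal (Z n o ^ 2) ∂St μ ≤
        ∫⁻ o, ∫⁻ u, ENNReal.ofReal (D n (o, u) ^ 4) ∂St ν ∂St μ := by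
      refine lintegral_mono_ae ?_
      filter_upwards [hgood] with o ho
      have h3 : MemLp (fun u => D n (o, u)) 4 (St ν) := (hmem n o ho).sub (hmem _ o ho)
      obtain ⟨h4, h5⟩ := sq_int (St ν) _ h3
      rw [← ofReal_integral_eq_lintegral_ofReal h5 (Eventually.of_forall fun u => by
        simp only [Pi.zero_apply]; positivity)]
      exact ENNReal.ofReal_le_ofReal h4
    refine h2.trans ?_
    rw [← lintegral_prod (fun x : (ℕ → A) × (ℕ → B) => ENNReal.ofReal (D n x ^ 4))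
      (((hDm n).pow_const 4).ennreal_ofReal.aemeasurable)]
    have h6 := hK (n / L * L) (n % L)
    rw [show n / L * L + n % L = n by rw [mul_comm]; exact Nat.div_add_mod n L] at h6
    refine h6.trans (ENNReal.ofReal_le_ofReal ?_)
    have h7 : ((n % L : ℕ) : ℝ) ≤ L := by exact_mod_cast (Nat.mod_lt n hL).le
    have h8 : ((n % L : ℕ) : ℝ) ^ 4 ≤ (L : ℝ) ^ 4 := pow_le_pow_left₀ (by positivity) h7 4
    calc K * ((n % L : ℕ) : ℝ) ^ 4 ≤ |K| * ((n % L : ℕ) : ℝ) ^ 4 :=
          mul_le_mul_of_nonneg_right (le_abs_self K) (by positivity)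
      _ ≤ _ := mul_le_mul_of_nonneg_left h8 (abs_nonneg K)
  -- the sum
  have h9 : ∫⁻ o, ∑' n : ℕ, ENNReal.ofReal ((Z n o / n) ^ 2) ∂St μ ≠ ⊤ := by
    rw [lintegral_tsum fun n => (((hZm n).div_const _).pow_const 2).ennreal_ofReal.aemeasurable]
    have h10 : ∀ n : ℕ, ∫⁻ o, ENNReal.ofReal ((Z n o / n) ^ 2) ∂St μ ≤
        ENNReal.ofReal (|K| * L ^ 4 * (1 / (n : ℝ) ^ 2)) := by
      intro n
      have h11 : ∀ o, ENNReal.ofReal ((Z n o / n) ^ 2) =
          ENNReal.ofReal (Z n o ^ 2) * ENNReal.ofReal (1 / (n : ℝ) ^ 2) := by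
        intro o
        rw [← ENNReal.ofReal_mul (sq_nonneg _)]
        congr 1
        rw [div_pow]
        ring
      simp_rw [h11]
      rw [lintegral_mul_const _ ((hZm n).pow_const 2).ennreal_ofReal,
        ENNReal.ofReal_mul (by positivity)]
      gcongr
      exact h1 n
    refine ne_top_of_le_ne_top ?_ (ENNReal.tsum_le_tsum h10)
    exact ((Real.summable_one_div_nat_pow.2 (by norm_num)).mul_left _).tsum_ofReal_ne_top
  have h12 : ∀ᵐ o ∂St μ, ∑' n : ℕ, ENNReal.ofReal ((Z n o / n) ^ 2) < ⊤ :=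
    ae_lt_top (Measurable.ennreal_tsum fun n =>
      (((hZm n).div_const _).pow_const 2).ennreal_ofReal) h9
  filter_upwards [h12] with o ho
  have h13 := ENNReal.tendsto_atTop_zero_of_tsum_ne_top ho.ne
  have h14 := (ENNReal.tendsto_toReal ENNReal.zero_ne_top).comp h13
  have h15 : Tendsto (fun n : ℕ => (Z n o / n) ^ 2) atTop (𝓝 0) := by
    refine h14.congr fun n => ?_
    simp only [Function.comp]
    exact ENNReal.toReal_ofReal (sq_nonneg _)
  have h16 := (Real.continuous_sqrt.tendsto 0).comp h15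
  rw [Real.sqrt_zero] at h16
  refine (tendsto_zero_iff_abs_tendsto_zero _).2 (h16.congr fun n => ?_)
  simp only [Function.comp, Real.sqrt_sq_eq_abs]
  rfl

end MP0d3db7D1
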