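import Pool.Agent.Lib.MP_0d3db7.D1.Spec

/-!
# MP_0d3db7_pr, theorem D1, module Vd: the variance of a sum of interval functions

Residue classes modulo `l + 1`: in one class the functions are pairwise independent.
-/

set_option autoImplicit false

namespace MP0d3db7D1

open MeasureTheory ProbabilityTheory Filter Topology Pool.Agent.MP0d3db7

namespace Vd_aux

/-- pairwise independence from `S_Ind` -/
lemma indep_pair (hInd : S_Ind) {B : Type} [MeasurableSpace B] (ν : Measure B)
    [IsProbabilityMeasure ν] (l : ℕ) (z : ℕ → (ℕ → B) → ℝ) (hz : ∀ k, Measurable (z k))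
    (hd : ∀ k, DependsOn (z k) (Set.Icc k (k + l))) {i j : ℕ} (hij : i + l < j) :
    IndepFun (z i) (z j) (St ν) := by
  let S : Bool → Finset ℕ := fun b => if b then Finset.Icc i (i + l) else Finset.Icc j (j + l)
  let w : Bool → (ℕ → B) → ℝ := fun b => if b then z i else z j
  have hdis : Disjoint (Finset.Icc i (i + l)) (Finset.Icc j (j + l)) := by
    rw [Finset.disjoint_left]
    intro a ha hb
    rw [Finset.mem_Icc] at ha hb
    omega
  have h := hInd ℕ Bool B ν S w
    (by
      intro a b hab
      cases a <;> cases b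
      · exact absurd rfl hab
      · exact hdis.symm
      · exact hdis
      · exact absurd rfl hab)
    (by
      intro b
      cases b
      · exact hz j
      · exact hz i)
    (by
      intro b
      cases b
      · show DependsOn (z j) ((Finset.Icc j (j + l) : Finset ℕ) : Set ℕ)
        rw [Finset.coe_Icc]
        exact hd j
      · show DependsOn (z i) ((Finset.Icc i (i + l) : Finset ℕ) : Set ℕ)
        rw [Finset.coe_Icc]
        exact hd i)
  exact h.indepFun (i := true) (j := false) (by decide)

/-- the variance of a sum of `m` functions -/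
lemma var_sum_le {Ω : Type} [MeasurableSpace Ω] (P : Measure Ω) [IsProbabilityMeasure P]
    (m : ℕ) (A : ℕ → Ω → ℝ) (hA : ∀ c ∈ Finset.range m, MemLp (A c) 2 P) :
    variance (fun o => ∑ c ∈ Finset.range m, A c o) P ≤
      (m : ℝ) * ∑ c ∈ Finset.range m, variance (A c) P := by
  rw [variance_fun_sum' hA]
  have hc : ∀ i ∈ Finset.range m, ∀ j ∈ Finset.range m,
      covariance (A i) (A j) P ≤ (variance (A i) P + variance (A j) P) / 2 := by
    intro i hi j hj
    have h1 := variance_sub (hA i hi) (hA j hj)
    have h2 := variance_nonneg (A i - A j) P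
    linarith
  calc ∑ i ∈ Finset.range m, ∑ j ∈ Finset.range m, covariance (A i) (A j) P
      ≤ ∑ i ∈ Finset.range m, ∑ j ∈ Finset.range m,
          (variance (A i) P + variance (A j) P) / 2 :=
        Finset.sum_le_sum fun i hi => Finset.sum_le_sum fun j hj => hc i hi j hj
    _ = (m : ℝ) * ∑ c ∈ Finset.range m, variance (A c) P := by
        simp only [add_div, Finset.sum_add_distrib, Finset.sum_const, Finset.card_range,
          nsmul_eq_mul, ← Finset.mul_sum, ← Finset.sum_div]
        ring

end Vd_aux

theorem tVd (hInd : S_Ind) : S_Vd := by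
  intro B _ ν _ l K z hz hd hL
  classical
  have hclass : ∀ c ∈ Finset.range (l + 1),
      variance (fun u => ∑ k ∈ K.filter (fun k => k % (l + 1) = c), z k u) (St ν) ≤
        ∑ k ∈ K.filter (fun k => k % (l + 1) = c), ∫ u, z k u ^ 2 ∂St ν := by
    intro c _
    have hfun : (fun u => ∑ k ∈ K.filter (fun k => k % (l + 1) = c), z k u) =
        ∑ k ∈ K.filter (fun k => k % (l + 1) = c), z k := by
      funext u
      rw [Finset.sum_apply]
    rw [hfun, IndepFun.variance_sum]
    · refine Finset.sum_le_sum fun k _ => ?_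
      exact variance_le_expectation_sq (hz k).aestronglyMeasurable
    · intro k hk
      exact hL k (Finset.mem_filter.1 hk).1
    · intro i hi j hj hij
      have hi' := (Finset.mem_filter.1 (Finset.mem_coe.1 hi)).2
      have hj' := (Finset.mem_filter.1 (Finset.mem_coe.1 hj)).2
      have hi2 := Nat.div_add_mod i (l + 1)
      have hj2 := Nat.div_add_mod j (l + 1)
      rw [hi'] at hi2
      rw [hj'] at hj2
      rcases Nat.lt_trichotomy (i / (l + 1)) (j / (l + 1)) with h | h | h
      · refine Vd_aux.indep_pair hInd ν l z hz hd ?_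
        have h3 : (l + 1) * (i / (l + 1) + 1) ≤ (l + 1) * (j / (l + 1)) :=
          Nat.mul_le_mul_left _ h
        rw [Nat.mul_add] at h3
        omega
      · exfalso
        apply hij
        rw [← hi2, ← hj2, h]
      · refine (Vd_aux.indep_pair hInd ν l z hz hd ?_).symm
        have h3 : (l + 1) * (j / (l + 1) + 1) ≤ (l + 1) * (i / (l + 1)) :=
          Nat.mul_le_mul_left _ h
        rw [Nat.mul_add] at h3
        omega
  have hmem : ∀ c ∈ Finset.range (l + 1),
      MemLp (fun u => ∑ k ∈ K.filter (fun k => k % (l + 1) = c), z k u) 2 (St ν) := by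
    intro c _
    exact memLp_finsetSum _ fun k hk => hL k (Finset.mem_filter.1 hk).1
  have hmaps : ∀ k ∈ K, k % (l + 1) ∈ Finset.range (l + 1) := fun k _ =>
    Finset.mem_range.2 (Nat.mod_lt _ (Nat.succ_pos l))
  have hsplit : (fun u => ∑ k ∈ K, z k u) = fun u => ∑ c ∈ Finset.range (l + 1),
      ∑ k ∈ K.filter (fun k => k % (l + 1) = c), z k u := by
    funext u
    exact (Finset.sum_fiberwise_of_maps_to hmaps fun k => z k u).symm
  rw [hsplit]
  refine (Vd_aux.var_sum_le (St ν) (l + 1)
    (fun c u => ∑ k ∈ K.filter (fun k => k % (l + 1) = c), z k u) hmem).trans ?_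
  rw [Nat.cast_add, Nat.cast_one]
  refine mul_le_mul_of_nonneg_left ?_ (by positivity)
  rw [← Finset.sum_fiberwise_of_maps_to hmaps fun k => ∫ u, z k u ^ 2 ∂St ν]
  exact Finset.sum_le_sum hclass

end MP0d3db7D1
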