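import Pool.Agent.Lib.MP_0d3db7.D1.Spec

/-!
# MP_0d3db7_pr, theorem D1: weighted sums
-/

set_option autoImplicit false

namespace MP0d3db7D1

open MeasureTheory ProbabilityTheory Filter Topology Pool.Agent.MP0d3db7

namespace Vw_aux

lemma cs {ι : Type} (s : Finset ι) (b w : ι → ℝ) (hw : ∀ l ∈ s, 0 < w l) :
    (∑ l ∈ s, b l) ^ 2 ≤ (∑ l ∈ s, w l) * ∑ l ∈ s, b l ^ 2 / w l :=
  Finset.sum_sq_le_sum_mul_sum_of_sq_eq_mul s (fun l hl => (hw l hl).le)
    (fun l hl => div_nonneg (sq_nonneg _) (hw l hl).le)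
    (fun l hl => by field_simp [(hw l hl).ne'])

lemma cs4 {ι : Type} (s : Finset ι) (b w : ι → ℝ) (hw : ∀ l ∈ s, 0 < w l) :
    (∑ l ∈ s, b l) ^ 4 ≤ (∑ l ∈ s, w l) ^ 3 * ∑ l ∈ s, b l ^ 4 / w l ^ 3 := by
  have hW : 0 ≤ ∑ l ∈ s, w l := Finset.sum_nonneg fun l hl => (hw l hl).le
  have h1 := cs s b w hw
  have h2 := cs s (fun l => b l ^ 2 / w l) w hw
  have h3 : ∑ l ∈ s, (b l ^ 2 / w l) ^ 2 / w l = ∑ l ∈ s, b l ^ 4 / w l ^ 3 :=
    Finset.sum_congr rfl fun l hl => by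
      have := (hw l hl).ne'
      field_simp
  rw [h3] at h2
  calc (∑ l ∈ s, b l) ^ 4 = ((∑ l ∈ s, b l) ^ 2) ^ 2 := by ring
    _ ≤ ((∑ l ∈ s, w l) * ∑ l ∈ s, b l ^ 2 / w l) ^ 2 := pow_le_pow_left₀ (sq_nonneg _) h1 2
    _ = (∑ l ∈ s, w l) ^ 2 * (∑ l ∈ s, b l ^ 2 / w l) ^ 2 := by ring
    _ ≤ (∑ l ∈ s, w l) ^ 2 * ((∑ l ∈ s, w l) * ∑ l ∈ s, b l ^ 4 / w l ^ 3) :=
        mul_le_mul_of_nonneg_left h2 (sq_nonneg _)
    _ = _ := by ring

end Vw_aux

open Vw_aux in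
theorem tVw : S_Vw := by
  refine ⟨?_, fun ι s b w hw => cs4 s b w hw⟩
  intro Ω _ P _ n X w hw hX
  have hX' : ∀ l ∈ Finset.range n, MemLp (X l) 2 P := fun l hl => hX l (Finset.mem_range.1 hl)
  have hint : ∀ l ∈ Finset.range n, Integrable (X l) P :=
    fun l hl => (hX' l hl).integrable one_le_two
  have hY : ∀ l ∈ Finset.range n, Integrable (fun o => (X l o - ∫ o', X l o' ∂P) ^ 2) P :=
    fun l hl => ((hX' l hl).sub (memLp_const _)).integrable_sq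
  have hS : MemLp (fun o => ∑ l ∈ Finset.range n, X l o) 2 P := memLp_finsetSum _ hX'
  rw [variance_eq_integral hS.aestronglyMeasurable.aemeasurable]
  have h1 : ∀ o, (∑ l ∈ Finset.range n, X l o - ∫ o', ∑ l ∈ Finset.range n, X l o' ∂P) ^ 2 ≤
      (∑ l ∈ Finset.range n, w l) *
        ∑ l ∈ Finset.range n, (X l o - ∫ o', X l o' ∂P) ^ 2 / w l := by
    intro o
    rw [integral_finsetSum _ hint, ← Finset.sum_sub_distrib]
    exact cs _ _ w fun l _ => hw l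
  have h2 : Integrable (fun o => (∑ l ∈ Finset.range n, w l) *
      ∑ l ∈ Finset.range n, (X l o - ∫ o', X l o' ∂P) ^ 2 / w l) P :=
    (integrable_finsetSum _ fun l hl => (hY l hl).div_const _).const_mul _
  refine (integral_mono_of_nonneg (Eventually.of_forall fun o => sq_nonneg _) h2
    (Eventually.of_forall h1)).trans (le_of_eq ?_)
  rw [integral_const_mul, integral_finsetSum _ fun l hl => (hY l hl).div_const _]
  congr 1
  refine Finset.sum_congr rfl fun l hl => ?_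
  rw [integral_div, variance_eq_integral (hX' l hl).aestronglyMeasurable.aemeasurable]

end MP0d3db7D1
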