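import Pool.Agent.Lib.MP_0d3db7.D1.Bv

/-!
# MP_0d3db7_pr, theorem D1: moments of `WB`
-/

set_option autoImplicit false

namespace MP0d3db7D1

open MeasureTheory ProbabilityTheory Filter Topology Pool.Agent.MP0d3db7

namespace Wm_aux

theorem sq4 {Ω : Type} [MeasurableSpace Ω] (P : Measure Ω) [IsProbabilityMeasure P] {X : Ω → ℝ}
    (hX : MemLp X 4 P) : (∫ u, X u ^ 2 ∂P) ^ 2 ≤ ∫ u, X u ^ 4 ∂P := by
  have hi4 := Bv_aux.int4 hX
  have hsq : MemLp (fun u => X u ^ 2) 2 P := by
    refine (memLp_two_iff_integrable_sq (f := fun u => X u ^ 2)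
      (hX.aestronglyMeasurable.pow 2)).mpr ?_
    refine hi4.congr (Eventually.of_forall fun u => ?_)
    show X u ^ 4 = (X u ^ 2) ^ 2
    ring
  have h := (Bv_aux.sq_int P hsq).1
  have e1 : ∫ u, (X u ^ 2) ^ 2 ∂P = ∫ u, X u ^ 4 ∂P := by
    congr 1
    funext u
    ring
  rw [e1] at h
  exact h

/-- the number of the intervals of length `l` which are not in one block -/
theorem count {L J l : ℕ} (hL : 1 ≤ L) :
    (((Finset.range (J * L - l)).filter (fun k => L ≤ k % L + l)).card : ℝ) ≤ J * l := by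
  have h : ((Finset.range (J * L - l)).filter (fun k => L ≤ k % L + l)).card ≤
      (Finset.range J ×ˢ Finset.range l).card := by
    refine Finset.card_le_card_of_injOn (fun k => (k / L, L - 1 - k % L)) ?_ ?_
    · intro k hk
      rw [Finset.mem_coe, Finset.mem_filter, Finset.mem_range] at hk
      obtain ⟨h1, h2⟩ := hk
      have h3 : k % L < L := Nat.mod_lt _ (by omega)
      rw [Finset.mem_coe, Finset.mem_product, Finset.mem_range, Finset.mem_range]
      refine ⟨?_, ?_⟩
      · show k / L < J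
        rw [Nat.div_lt_iff_lt_mul (by omega)]
        omega
      · show L - 1 - k % L < l
        omega
    · intro k _ k' _ hkk
      have h1 : k / L = k' / L := (Prod.ext_iff.mp hkk).1
      have h2 : L - 1 - k % L = L - 1 - k' % L := (Prod.ext_iff.mp hkk).2
      have h3 : k % L < L := Nat.mod_lt _ (by omega)
      have h4 : k' % L < L := Nat.mod_lt _ (by omega)
      have h5 : k % L = k' % L := by omega
      rw [← Nat.div_add_mod k L, ← Nat.div_add_mod k' L, h1, h5]
  rw [Finset.card_product, Finset.card_range, Finset.card_range] at h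
  exact_mod_cast h

theorem summ (n : ℕ) {θ : ℝ} (h0 : 0 < θ) (h1 : θ < 1) :
    Summable fun l : ℕ => ((l : ℝ) + 1) ^ n * θ ^ l := by
  have h := summable_pow_mul_geometric_of_norm_lt_one (R := ℝ) n (r := θ)
    (by rw [Real.norm_eq_abs, abs_of_pos h0]; exact h1)
  have h2 := ((summable_nat_add_iff 1).mpr h).mul_left θ⁻¹
  refine h2.congr fun l => ?_
  push_cast
  rw [pow_succ]
  field_simp

end Wm_aux

open Wm_aux in
theorem tWm (hVw : S_Vw) (hVd : S_Vd) (hF4 : S_F4) : S_Wm := by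
  intro A B _ _ μ ν _ _ f C θ hf
  obtain ⟨m1, m2, m3⟩ := hF4 A B μ ν f C θ hf
  have hθ0 := hf.t0
  have hθ1 := hf.t1
  have hC0 := hf.c0
  have h1θ : 0 < 1 - θ := by linarith
  set g : ℕ → ℕ → (ℕ → A) → ℝ := fun l k o => ∫ u, f l (sh k o) (sh k u) ^ 2 ∂St ν with hg
  have hg0 : ∀ l k o, 0 ≤ g l k o := fun l k o => integral_nonneg fun u => sq_nonneg _
  have hWB : ∀ L N o, WB ν f θ L N o = ∑ l ∈ Finset.range N,
      ∑ k ∈ (Finset.range (N - l)).filter (fun k => L ≤ k % L + l),
        ((l : ℝ) + 1) * (θ ^ l)⁻¹ * g l k o := fun L N o => rfl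
  have hcl : ∀ l : ℕ, 0 ≤ ((l : ℝ) + 1) * (θ ^ l)⁻¹ := fun l => by positivity
  -- measurability, dependence
  have hgm : ∀ l k, Measurable (g l k) := by
    intro l k
    have h := (((m1 l k).pow_const 2).stronglyMeasurable.integral_prod_right'
      (ν := St ν)).measurable
    exact h
  have hgd : ∀ l k, DependsOn (g l k) (Set.Icc k (k + l)) := by
    intro l k o o' h
    show ∫ u, f l (sh k o) (sh k u) ^ 2 ∂St ν = ∫ u, f l (sh k o') (sh k u) ^ 2 ∂St ν
    congr 1
    funext u
    rw [hf.dep l (sh k o) (sh k o') (sh k u) (sh k u) (fun i hi => h (k + i)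
      ⟨by omega, by omega⟩) fun i _ => rfl]
  -- second moments
  have hgM : ∀ l k, MemLp (g l k) 2 (St μ) ∧ ∫ o, g l k o ^ 2 ∂St μ ≤ C * θ ^ (4 * l) := by
    intro l k
    have hF : MemLp (fun x : (ℕ → A) × (ℕ → B) => f l (sh k x.1) (sh k x.2)) 4
        ((St μ).prod (St ν)) :=
      F4_aux.memLp4 _ _ (m1 l k) (fun x => hf.nonneg l _ _)
        (lt_of_le_of_lt (m2 l k) ENNReal.ofReal_lt_top)
    have hF4i := Bv_aux.int4 hF
    have hM4 : Integrable (fun o : ℕ → A => ∫ u, f l (sh k o) (sh k u) ^ 4 ∂St ν) (St μ) :=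
      hF4i.integral_prod_left
    have hle : ∀ᵐ o ∂St μ, g l k o ^ 2 ≤ ∫ u, f l (sh k o) (sh k u) ^ 4 ∂St ν := by
      filter_upwards [m3] with o ho
      exact sq4 (St ν) (ho l k)
    have hgi : Integrable (fun o => g l k o ^ 2) (St μ) := by
      refine Integrable.mono' hM4 ((hgm l k).pow_const 2).aestronglyMeasurable ?_
      filter_upwards [hle] with o ho
      rw [Real.norm_eq_abs, abs_of_nonneg (sq_nonneg _)]
      exact ho
    refine ⟨(memLp_two_iff_integrable_sq (hgm l k).aestronglyMeasurable).mpr hgi, ?_⟩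
    calc ∫ o, g l k o ^ 2 ∂St μ
        ≤ ∫ o, ∫ u, f l (sh k o) (sh k u) ^ 4 ∂St ν ∂St μ := integral_mono_ae hgi hM4 hle
      _ = ∫ x : (ℕ → A) × (ℕ → B), f l (sh k x.1) (sh k x.2) ^ 4 ∂(St μ).prod (St ν) :=
          (integral_prod _ hF4i).symm
      _ ≤ C * θ ^ (4 * l) := by
          rw [integral_eq_lintegral_of_nonneg_ae (Eventually.of_forall fun x => by positivity)
            hF4i.aestronglyMeasurable]
          exact ENNReal.toReal_le_of_le_ofReal (by positivity) (m2 l k)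
  have hgE : ∀ l k, ∫ o, g l k o ∂St μ ≤ Real.sqrt C * θ ^ (2 * l) := by
    intro l k
    have h1 := (Bv_aux.sq_int (St μ) (hgM l k).1).1
    have h2 : (∫ o, g l k o ∂St μ) ^ 2 ≤ (Real.sqrt C * θ ^ (2 * l)) ^ 2 := by
      rw [mul_pow, Real.sq_sqrt hC0, ← pow_mul]
      refine h1.trans ((hgM l k).2.trans (le_of_eq ?_))
      congr 2
      ring
    exact (le_abs_self _).trans (abs_le_of_sq_le_sq h2 (by positivity))
  refine ⟨fun L N o => ?_, ?_⟩
  · -- monotone
    rw [hWB, hWB]
    calc ∑ l ∈ Finset.range N, ∑ k ∈ (Finset.range (N - l)).filter (fun k => L ≤ k % L + l),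
          ((l : ℝ) + 1) * (θ ^ l)⁻¹ * g l k o
        ≤ ∑ l ∈ Finset.range N, ∑ k ∈ (Finset.range (N + 1 - l)).filter (fun k => L ≤ k % L + l),
          ((l : ℝ) + 1) * (θ ^ l)⁻¹ * g l k o := by
          refine Finset.sum_le_sum fun l _ => ?_
          refine Finset.sum_le_sum_of_subset_of_nonneg ?_
            fun k _ _ => mul_nonneg (hcl l) (hg0 l k o)
          intro k hk
          rw [Finset.mem_filter, Finset.mem_range] at hk ⊢
          exact ⟨by omega, hk.2⟩
      _ ≤ _ := by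
          refine Finset.sum_le_sum_of_subset_of_nonneg ?_ fun l _ _ =>
            Finset.sum_nonneg fun k _ => mul_nonneg (hcl l) (hg0 l k o)
          intro l hl
          rw [Finset.mem_range] at hl ⊢
          omega
  · have hs2 := summ 2 hθ0 hθ1
    have hs3 := summ 3 hθ0 hθ1
    refine ⟨Real.sqrt C * ∑' l : ℕ, ((l : ℝ) + 1) ^ 2 * θ ^ l,
      mul_nonneg (Real.sqrt_nonneg _) (tsum_nonneg fun l => by positivity), fun L hL => ?_⟩
    refine ⟨(1 - θ)⁻¹ * (L * (C * ∑' l : ℕ, ((l : ℝ) + 1) ^ 3 * θ ^ l)), fun J => ?_⟩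
    set N : ℕ := J * L with hN
    set S : ℕ → Finset ℕ := fun l => (Finset.range (N - l)).filter (fun k => L ≤ k % L + l)
      with hS
    have hfun : (fun o => WB ν f θ L N o) = fun o => ∑ l ∈ Finset.range N,
        ∑ k ∈ S l, ((l : ℝ) + 1) * (θ ^ l)⁻¹ * g l k o := funext fun o => hWB L N o
    have hX : ∀ l, MemLp (fun o => ∑ k ∈ S l, ((l : ℝ) + 1) * (θ ^ l)⁻¹ * g l k o) 2 (St μ) :=
      fun l => memLp_finsetSum _ fun k _ => ((hgM l k).1).const_mul _
    refine ⟨?_, ?_, ?_⟩
    · rw [hfun]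
      exact memLp_finsetSum _ fun l _ => hX l
    · -- the mean
      have e1 : ∫ o, WB ν f θ L N o ∂St μ = ∑ l ∈ Finset.range N,
          ∑ k ∈ S l, ((l : ℝ) + 1) * (θ ^ l)⁻¹ * ∫ o, g l k o ∂St μ := by
        rw [hfun, integral_finsetSum _ fun l _ => (hX l).integrable (by norm_num)]
        refine Finset.sum_congr rfl fun l _ => ?_
        rw [integral_finsetSum _ fun k _ => (((hgM l k).1).integrable (by norm_num)).const_mul _]
        exact Finset.sum_congr rfl fun k _ => integral_const_mul _ _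
      rw [e1]
      calc ∑ l ∈ Finset.range N, ∑ k ∈ S l, ((l : ℝ) + 1) * (θ ^ l)⁻¹ * ∫ o, g l k o ∂St μ
          ≤ ∑ l ∈ Finset.range N, Real.sqrt C * J * (((l : ℝ) + 1) ^ 2 * θ ^ l) := by
            refine Finset.sum_le_sum fun l _ => ?_
            calc ∑ k ∈ S l, ((l : ℝ) + 1) * (θ ^ l)⁻¹ * ∫ o, g l k o ∂St μ
                ≤ ∑ k ∈ S l, ((l : ℝ) + 1) * (θ ^ l)⁻¹ * (Real.sqrt C * θ ^ (2 * l)) :=
                  Finset.sum_le_sum fun k _ => mul_le_mul_of_nonneg_left (hgE l k) (hcl l)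
              _ = ((S l).card : ℝ) * (((l : ℝ) + 1) * (θ ^ l)⁻¹ * (Real.sqrt C * θ ^ (2 * l))) := by
                  rw [Finset.sum_const, nsmul_eq_mul]
              _ ≤ (J * ((l : ℝ) + 1)) *
                  (((l : ℝ) + 1) * (θ ^ l)⁻¹ * (Real.sqrt C * θ ^ (2 * l))) := by
                  apply mul_le_mul_of_nonneg_right _
                    (mul_nonneg (hcl l) (by positivity))
                  refine (count hL).trans ?_
                  have : (0 : ℝ) ≤ J := Nat.cast_nonneg J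
                  nlinarith
              _ = Real.sqrt C * J * (((l : ℝ) + 1) ^ 2 * θ ^ l) := by
                  have h2 : θ ^ (2 * l) = θ ^ l * θ ^ l := by rw [two_mul, pow_add]
                  rw [h2]
                  field_simp
        _ = Real.sqrt C * J * ∑ l ∈ Finset.range N, ((l : ℝ) + 1) ^ 2 * θ ^ l :=
            (Finset.mul_sum _ _ _).symm
        _ ≤ Real.sqrt C * J * ∑' l : ℕ, ((l : ℝ) + 1) ^ 2 * θ ^ l :=
            mul_le_mul_of_nonneg_left (hs2.sum_le_tsum _ fun l _ => by positivity) (by positivity)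
        _ = _ := by ring
    · -- the variance
      have hv := hVw.1 (ℕ → A) (St μ) N
        (fun l o => ∑ k ∈ S l, ((l : ℝ) + 1) * (θ ^ l)⁻¹ * g l k o) (fun l => θ ^ l)
        (fun l => pow_pos hθ0 l) (fun l _ => hX l)
      rw [hfun]
      refine hv.trans ?_
      have hgeo : ∑ l ∈ Finset.range N, θ ^ l ≤ (1 - θ)⁻¹ := by
        rw [← tsum_geometric_of_lt_one hθ0.le hθ1]
        exact (summable_geometric_of_lt_one hθ0.le hθ1).sum_le_tsum _ fun l _ => by positivity
      have hvar : ∀ l, variance (fun o => ∑ k ∈ S l, ((l : ℝ) + 1) * (θ ^ l)⁻¹ * g l k o)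
          (St μ) / θ ^ l ≤ N * C * (((l : ℝ) + 1) ^ 3 * θ ^ l) := by
        intro l
        have h1 := hVd A μ l (S l) (fun k o => ((l : ℝ) + 1) * (θ ^ l)⁻¹ * g l k o)
          (fun k => (hgm l k).const_mul _)
          (fun k o o' h => by
            show ((l : ℝ) + 1) * (θ ^ l)⁻¹ * g l k o = ((l : ℝ) + 1) * (θ ^ l)⁻¹ * g l k o'
            rw [hgd l k h])
          (fun k _ => ((hgM l k).1).const_mul _)
        have hcard : ((S l).card : ℝ) ≤ N := by
          have h2 : (S l).card ≤ N := by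
            refine (Finset.card_filter_le _ _).trans ?_
            rw [Finset.card_range]
            omega
          exact_mod_cast h2
        have h3 : ∀ k, ∫ o, (((l : ℝ) + 1) * (θ ^ l)⁻¹ * g l k o) ^ 2 ∂St μ ≤
            (((l : ℝ) + 1) * (θ ^ l)⁻¹) ^ 2 * (C * θ ^ (4 * l)) := by
          intro k
          have e2 : ∫ o, (((l : ℝ) + 1) * (θ ^ l)⁻¹ * g l k o) ^ 2 ∂St μ =
              (((l : ℝ) + 1) * (θ ^ l)⁻¹) ^ 2 * ∫ o, g l k o ^ 2 ∂St μ := by
            rw [← integral_const_mul]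
            congr 1
            funext o
            ring
          rw [e2]
          exact mul_le_mul_of_nonneg_left (hgM l k).2 (sq_nonneg _)
        rw [div_le_iff₀ (pow_pos hθ0 l)]
        refine h1.trans ?_
        calc ((l : ℝ) + 1) * ∑ k ∈ S l, ∫ o, (((l : ℝ) + 1) * (θ ^ l)⁻¹ * g l k o) ^ 2 ∂St μ
            ≤ ((l : ℝ) + 1) * ∑ k ∈ S l, (((l : ℝ) + 1) * (θ ^ l)⁻¹) ^ 2 * (C * θ ^ (4 * l)) :=
              mul_le_mul_of_nonneg_left (Finset.sum_le_sum fun k _ => h3 k) (by positivity)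
          _ = ((l : ℝ) + 1) * (((S l).card : ℝ) *
                ((((l : ℝ) + 1) * (θ ^ l)⁻¹) ^ 2 * (C * θ ^ (4 * l)))) := by
              rw [Finset.sum_const, nsmul_eq_mul]
          _ ≤ ((l : ℝ) + 1) * ((N : ℝ) *
                ((((l : ℝ) + 1) * (θ ^ l)⁻¹) ^ 2 * (C * θ ^ (4 * l)))) := by
              apply mul_le_mul_of_nonneg_left _ (by positivity)
              exact mul_le_mul_of_nonneg_right hcard (by positivity)
          _ = N * C * (((l : ℝ) + 1) ^ 3 * θ ^ l) * θ ^ l := by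
              have h2 : θ ^ (4 * l) = θ ^ l * θ ^ l * (θ ^ l * θ ^ l) := by
                rw [← pow_add, ← pow_add]
                congr 1
                ring
              rw [h2]
              field_simp
      have hsum : ∑ l ∈ Finset.range N,
          variance (fun o => ∑ k ∈ S l, ((l : ℝ) + 1) * (θ ^ l)⁻¹ * g l k o) (St μ) / θ ^ l ≤
          N * C * ∑' l : ℕ, ((l : ℝ) + 1) ^ 3 * θ ^ l := by
        calc _ ≤ ∑ l ∈ Finset.range N, N * C * (((l : ℝ) + 1) ^ 3 * θ ^ l) :=
              Finset.sum_le_sum fun l _ => hvar l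
          _ = N * C * ∑ l ∈ Finset.range N, ((l : ℝ) + 1) ^ 3 * θ ^ l :=
              (Finset.mul_sum _ _ _).symm
          _ ≤ _ := mul_le_mul_of_nonneg_left (hs3.sum_le_tsum _ fun l _ => by positivity)
              (by positivity)
      have hsum0 : 0 ≤ ∑ l ∈ Finset.range N,
          variance (fun o => ∑ k ∈ S l, ((l : ℝ) + 1) * (θ ^ l)⁻¹ * g l k o) (St μ) / θ ^ l :=
        Finset.sum_nonneg fun l _ => div_nonneg (variance_nonneg _ _) (by positivity)
      calc _ ≤ (1 - θ)⁻¹ * (N * C * ∑' l : ℕ, ((l : ℝ) + 1) ^ 3 * θ ^ l) :=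
            mul_le_mul hgeo hsum hsum0 (inv_nonneg.mpr h1θ.le)
        _ = _ := by
            rw [hN]
            push_cast
            ring

end MP0d3db7D1
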