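import Pool.Agent.Lib.MP_0d3db7.D1.Spec

/-!
# MP_0d3db7_pr, theorem D1: fourth moments of the increments
-/

set_option autoImplicit false

namespace MP0d3db7D1

open MeasureTheory ProbabilityTheory Filter Topology Pool.Agent.MP0d3db7

namespace X4_aux

/-- the intervals with right end `r` -/
noncomputable def stp4 {A B : Type} (f : ℕ → (ℕ → A) → (ℕ → B) → ℝ) (r : ℕ)
    (x : (ℕ → A) × (ℕ → B)) : ℝ :=
  ∑ l ∈ Finset.range (r + 1), f l (sh (r - l) x.1) (sh (r - l) x.2)

theorem SN_succ {A B : Type} (f : ℕ → (ℕ → A) → (ℕ → B) → ℝ) (n : ℕ) (o : ℕ → A) (u : ℕ → B) :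
    SN f (n + 1) o u = SN f n o u + stp4 f n (o, u) := by
  have h1 : SN f (n + 1) o u = ∑ k ∈ Finset.range (n + 1),
      ((∑ l ∈ Finset.range (n - k), f l (sh k o) (sh k u)) + f (n - k) (sh k o) (sh k u)) := by
    unfold SN
    refine Finset.sum_congr rfl fun k hk => ?_
    rw [Finset.mem_range] at hk
    have h2 : n + 1 - k = n - k + 1 := by omega
    rw [h2, Finset.sum_range_succ]
  have h3 : ∑ k ∈ Finset.range (n + 1), ∑ l ∈ Finset.range (n - k), f l (sh k o) (sh k u) =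
      SN f n o u := by
    unfold SN
    rw [Finset.sum_range_succ, Nat.sub_self, Finset.sum_range_zero, add_zero]
  have h4 : ∑ k ∈ Finset.range (n + 1), f (n - k) (sh k o) (sh k u) = stp4 f n (o, u) := by
    unfold stp4
    rw [← Finset.sum_range_reflect (fun k => f (n - k) (sh k o) (sh k u)) (n + 1)]
    refine Finset.sum_congr rfl fun l hl => ?_
    rw [Finset.mem_range] at hl
    have h5 : n + 1 - 1 - l = n - l := by omega
    have h6 : n - (n - l) = l := by omega
    rw [h5, h6]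
  rw [h1, Finset.sum_add_distrib, h3, h4]

theorem SN_add {A B : Type} (f : ℕ → (ℕ → A) → (ℕ → B) → ℝ) (n m : ℕ) (o : ℕ → A) (u : ℕ → B) :
    SN f (n + m) o u - SN f n o u = ∑ r ∈ Finset.range m, stp4 f (n + r) (o, u) := by
  induction m with
  | zero => simp
  | succ m ih =>
    rw [Finset.sum_range_succ, ← ih, ← add_assoc, SN_succ]
    ring

end X4_aux

open X4_aux in
theorem tX4 (_hSh : S_Sh) (hVw : S_Vw) (hF4 : S_F4) : S_X4 := by
  intro A B _ _ μ ν _ _ f C θ hf
  obtain ⟨m1, m2, -⟩ := hF4 A B μ ν f C θ hf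
  have hθ0 := hf.t0
  have hθ1 := hf.t1
  have hC0 := hf.c0
  have h1θ : 0 < 1 - θ := by linarith
  have hs0 : ∀ r x, 0 ≤ stp4 f r x := fun r x =>
    Finset.sum_nonneg fun l _ => hf.nonneg l _ _
  have hsm : ∀ r, Measurable (stp4 f r) := fun r =>
    Finset.measurable_sum _ fun l _ => m1 l (r - l)
  refine ⟨fun n o u => ?_, fun n o ho => ?_, C * (1 - θ)⁻¹ ^ 4, fun n m => ?_⟩
  · rw [SN_succ]
    linarith [hs0 n (o, u)]
  · have h : SN f n o = fun u => ∑ k ∈ Finset.range n, ∑ l ∈ Finset.range (n - k),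
        f l (sh k o) (sh k u) := rfl
    rw [h]
    exact memLp_finsetSum _ fun k _ => memLp_finsetSum _ fun l _ => ho l k
  · have hgeo : ∀ r : ℕ, ∑ l ∈ Finset.range (r + 1), θ ^ l ≤ (1 - θ)⁻¹ := by
      intro r
      rw [← tsum_geometric_of_lt_one hθ0.le hθ1]
      exact (summable_geometric_of_lt_one hθ0.le hθ1).sum_le_tsum _ fun l _ => by positivity
    -- one step
    have hstep : ∀ r, ∫⁻ x, ENNReal.ofReal (stp4 f r x ^ 4) ∂(St μ).prod (St ν) ≤
        ENNReal.ofReal (C * (1 - θ)⁻¹ ^ 4) := by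
      intro r
      have h1 : ∀ x : (ℕ → A) × (ℕ → B), ENNReal.ofReal (stp4 f r x ^ 4) ≤
          ∑ l ∈ Finset.range (r + 1), ENNReal.ofReal ((1 - θ)⁻¹ ^ 3 * ((θ ^ l) ^ 3)⁻¹) *
            ENNReal.ofReal (f l (sh (r - l) x.1) (sh (r - l) x.2) ^ 4) := by
        intro x
        have h2 := hVw.2 ℕ (Finset.range (r + 1))
          (fun l => f l (sh (r - l) x.1) (sh (r - l) x.2)) (fun l => θ ^ l)
          (fun l _ => pow_pos hθ0 l)
        have h3 : stp4 f r x ^ 4 ≤ ∑ l ∈ Finset.range (r + 1),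
            (1 - θ)⁻¹ ^ 3 * ((θ ^ l) ^ 3)⁻¹ * f l (sh (r - l) x.1) (sh (r - l) x.2) ^ 4 := by
          refine h2.trans ?_
          have h4 : (∑ l ∈ Finset.range (r + 1), θ ^ l) ^ 3 ≤ (1 - θ)⁻¹ ^ 3 :=
            pow_le_pow_left₀ (Finset.sum_nonneg fun l _ => by positivity) (hgeo r) 3
          refine (mul_le_mul_of_nonneg_right h4
            (Finset.sum_nonneg fun l _ => by positivity)).trans (le_of_eq ?_)
          rw [Finset.mul_sum]
          refine Finset.sum_congr rfl fun l _ => ?_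
          rw [div_eq_mul_inv]
          ring
        refine (ENNReal.ofReal_le_ofReal h3).trans (le_of_eq ?_)
        rw [ENNReal.ofReal_sum_of_nonneg fun l _ => by positivity]
        refine Finset.sum_congr rfl fun l _ => ?_
        rw [ENNReal.ofReal_mul (by positivity)]
      calc ∫⁻ x, ENNReal.ofReal (stp4 f r x ^ 4) ∂(St μ).prod (St ν)
          ≤ ∫⁻ x, ∑ l ∈ Finset.range (r + 1),
            ENNReal.ofReal ((1 - θ)⁻¹ ^ 3 * ((θ ^ l) ^ 3)⁻¹) *
            ENNReal.ofReal (f l (sh (r - l) x.1) (sh (r - l) x.2) ^ 4) ∂(St μ).prod (St ν) :=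
            lintegral_mono h1
        _ = ∑ l ∈ Finset.range (r + 1), ENNReal.ofReal ((1 - θ)⁻¹ ^ 3 * ((θ ^ l) ^ 3)⁻¹) *
            ∫⁻ x, ENNReal.ofReal (f l (sh (r - l) x.1) (sh (r - l) x.2) ^ 4)
              ∂(St μ).prod (St ν) := by
            rw [lintegral_finsetSum _ fun l _ =>
              (((m1 l (r - l)).pow_const 4).ennreal_ofReal).const_mul _]
            refine Finset.sum_congr rfl fun l _ => ?_
            rw [lintegral_const_mul _ (((m1 l (r - l)).pow_const 4).ennreal_ofReal)]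
        _ ≤ ∑ l ∈ Finset.range (r + 1), ENNReal.ofReal ((1 - θ)⁻¹ ^ 3 * ((θ ^ l) ^ 3)⁻¹) *
            ENNReal.ofReal (C * θ ^ (4 * l)) :=
            Finset.sum_le_sum fun l _ => mul_le_mul_right (m2 l (r - l)) _
        _ = ENNReal.ofReal (∑ l ∈ Finset.range (r + 1),
            (1 - θ)⁻¹ ^ 3 * ((θ ^ l) ^ 3)⁻¹ * (C * θ ^ (4 * l))) := by
            rw [ENNReal.ofReal_sum_of_nonneg fun l _ => by positivity]
            exact Finset.sum_congr rfl fun l _ => (ENNReal.ofReal_mul (by positivity)).symm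
        _ ≤ ENNReal.ofReal (C * (1 - θ)⁻¹ ^ 4) := by
            apply ENNReal.ofReal_le_ofReal
            have h5 : ∑ l ∈ Finset.range (r + 1),
                (1 - θ)⁻¹ ^ 3 * ((θ ^ l) ^ 3)⁻¹ * (C * θ ^ (4 * l)) =
                C * (1 - θ)⁻¹ ^ 3 * ∑ l ∈ Finset.range (r + 1), θ ^ l := by
              rw [Finset.mul_sum]
              refine Finset.sum_congr rfl fun l _ => ?_
              have h6 : θ ^ (4 * l) = (θ ^ l) ^ 3 * θ ^ l := by
                rw [← pow_mul, ← pow_add]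
                congr 1
                ring
              rw [h6]
              have h7 : (θ ^ l) ≠ 0 := (pow_pos hθ0 l).ne'
              have h8 : (1 - θ)⁻¹ ^ 3 * ((θ ^ l) ^ 3)⁻¹ * (C * ((θ ^ l) ^ 3 * θ ^ l)) =
                  (((θ ^ l) ^ 3)⁻¹ * (θ ^ l) ^ 3) * (C * (1 - θ)⁻¹ ^ 3 * θ ^ l) := by ring
              rw [h8, inv_mul_cancel₀ (pow_ne_zero 3 h7), one_mul]
            rw [h5]
            calc C * (1 - θ)⁻¹ ^ 3 * ∑ l ∈ Finset.range (r + 1), θ ^ l
                ≤ C * (1 - θ)⁻¹ ^ 3 * (1 - θ)⁻¹ :=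
                  mul_le_mul_of_nonneg_left (hgeo r) (by positivity)
              _ = _ := by ring
    -- all steps
    have hall : ∀ x : (ℕ → A) × (ℕ → B),
        ENNReal.ofReal ((SN f (n + m) x.1 x.2 - SN f n x.1 x.2) ^ 4) ≤
        ENNReal.ofReal ((m : ℝ) ^ 3) * ∑ r ∈ Finset.range m,
          ENNReal.ofReal (stp4 f (n + r) x ^ 4) := by
      intro x
      have h2 := hVw.2 ℕ (Finset.range m) (fun r => stp4 f (n + r) x) (fun _ => 1)
        (fun _ _ => one_pos)
      simp only [Finset.sum_const, Finset.card_range, nsmul_eq_mul, mul_one, one_pow,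
        div_one] at h2
      rw [SN_add]
      refine (ENNReal.ofReal_le_ofReal h2).trans (le_of_eq ?_)
      rw [ENNReal.ofReal_mul (by positivity), ENNReal.ofReal_sum_of_nonneg fun r _ =>
        pow_nonneg (hs0 _ _) 4]
    calc ∫⁻ x, ENNReal.ofReal ((SN f (n + m) x.1 x.2 - SN f n x.1 x.2) ^ 4)
          ∂(St μ).prod (St ν)
        ≤ ∫⁻ x, ENNReal.ofReal ((m : ℝ) ^ 3) * ∑ r ∈ Finset.range m,
          ENNReal.ofReal (stp4 f (n + r) x ^ 4) ∂(St μ).prod (St ν) := lintegral_mono hall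
      _ = ENNReal.ofReal ((m : ℝ) ^ 3) * ∑ r ∈ Finset.range m,
          ∫⁻ x, ENNReal.ofReal (stp4 f (n + r) x ^ 4) ∂(St μ).prod (St ν) := by
          rw [lintegral_const_mul _ (Finset.measurable_sum _ fun r _ =>
            ((hsm (n + r)).pow_const 4).ennreal_ofReal),
            lintegral_finsetSum _ fun r _ => ((hsm (n + r)).pow_const 4).ennreal_ofReal]
      _ ≤ ENNReal.ofReal ((m : ℝ) ^ 3) * ∑ r ∈ Finset.range m,
          ENNReal.ofReal (C * (1 - θ)⁻¹ ^ 4) :=
          mul_le_mul_right (Finset.sum_le_sum fun r _ => hstep (n + r)) _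
      _ = ENNReal.ofReal (C * (1 - θ)⁻¹ ^ 4 * (m : ℝ) ^ 4) := by
          rw [Finset.sum_const, Finset.card_range, nsmul_eq_mul, ← ENNReal.ofReal_natCast,
            ← ENNReal.ofReal_mul (by positivity), ← ENNReal.ofReal_mul (by positivity)]
          congr 1
          ring

end MP0d3db7D1
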