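import Pool.Agent.Lib.MP_0d3db7.D1.Asm
import Pool.Agent.Lib.MP_0d3db7.D1.Deg
import Pool.Agent.Lib.MP_0d3db7.D1.Ind
import Pool.Agent.Lib.MP_0d3db7.D1.Sh
import Pool.Agent.Lib.MP_0d3db7.D1.Vw
import Pool.Agent.Lib.MP_0d3db7.D1.Vd
import Pool.Agent.Lib.MP_0d3db7.D1.Fi
import Pool.Agent.Lib.MP_0d3db7.D1.Fd
import Pool.Agent.Lib.MP_0d3db7.D1.Sl
import Pool.Agent.Lib.MP_0d3db7.D1.Cf
import Pool.Agent.Lib.MP_0d3db7.D1.Bl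
import Pool.Agent.Lib.MP_0d3db7.D1.F4
import Pool.Agent.Lib.MP_0d3db7.D1.X4
import Pool.Agent.Lib.MP_0d3db7.D1.Up
import Pool.Agent.Lib.MP_0d3db7.D1.Bk
import Pool.Agent.Lib.MP_0d3db7.D1.Rv
import Pool.Agent.Lib.MP_0d3db7.D1.Wm
import Pool.Agent.Lib.MP_0d3db7.D1.Rl
import Pool.Agent.Lib.MP_0d3db7.D1.Bv
import Pool.Agent.Lib.MP_0d3db7.D1.Bi
import Pool.Agent.Lib.MP_0d3db7.D1.Gl
import Pool.Agent.Lib.MP_0d3db7.D1.An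
import Pool.Agent.Lib.MP_0d3db7.D1.G1
import Pool.Agent.Lib.MP_0d3db7.D1.M4
import Pool.Agent.Lib.MP_0d3db7.D1.Ch
import Pool.Agent.Lib.MP_0d3db7.D1.Mo
import Pool.Agent.Lib.MP_0d3db7.D1.Ms
import Pool.Agent.Lib.MP_0d3db7.D1.Ar
import Pool.Agent.Lib.MP_0d3db7.D1.Hi
import Pool.Agent.Lib.MP_0d3db7.D1.Lg
import Pool.Agent.Lib.MP_0d3db7.D1.Gm
import Pool.Agent.Lib.MP_0d3db7.D1.Ifw
import Pool.Agent.Lib.MP_0d3db7.D1.Te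
import Pool.Agent.Lib.MP_0d3db7.D1.Nu
import Pool.Agent.Lib.MP_0d3db7.D1.Cr
import Pool.Agent.Lib.MP_0d3db7.D1.Dt
import Pool.Agent.Lib.MP_0d3db7.D1.Th
import Pool.Agent.Lib.MP_0d3db7.D1.Bt
import Pool.Agent.Lib.MP_0d3db7.D1.Tu
import Pool.Agent.Lib.MP_0d3db7.D1.Sp
import Pool.Agent.Lib.MP_0d3db7.D1.Tc
import Pool.Agent.Lib.MP_0d3db7.D1.Iva
import Pool.Agent.Lib.MP_0d3db7.D1.Ivb
import Pool.Agent.Lib.MP_0d3db7.D1.Wk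
import Pool.Agent.Lib.MP_0d3db7.D1.Rf
import Pool.Agent.Lib.MP_0d3db7.D1.Cu

/-!
# MP_0d3db7_pr, theorem D1
-/

set_option autoImplicit false

namespace MP0d3db7D1

open MeasureTheory ProbabilityTheory Filter Topology Pool.Agent.MP0d3db7

/-- **THEOREM D1** -/
theorem main {Ω : Type} [MeasurableSpace Ω] (P : Measure Ω) [IsProbabilityMeasure P]
    (ω : ℤ → ℕ → Ω → ℝ)
    (hm : ∀ z i, Measurable (ω z i)) (h01 : ∀ z i o, ω z i o ∈ Set.Icc (0 : ℝ) 1)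
    (hind : iIndepFun (fun κ : ℤ × ℕ => ω κ.1 κ.2) P)
    (hid : ∀ z i, IdentDistrib (ω z i) (ω 0 1) P P) (hp : ∫ o, ω 0 1 o ∂P ≠ 1 / 2)
    (hnd : 0 < P {o | 0 < ω 0 1 o ∧ ω 0 1 o < 1}) :
    ∃ v : NNReal, v ≠ 0 ∧ ∀ᵐ o ∂P, ∃ c : ℕ → ℝ, ∀ f : BoundedContinuousFunction ℝ ℝ,
      Tendsto (fun n : ℕ => quenchE (fun z i => ω z i o) n fun x => f ((x - c n) / Real.sqrt n))
      atTop (𝓝 (∫ x, f x ∂gaussianReal 0 v)) := by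
  have hF4 := tF4 tSh
  have hX4 := tX4 tSh tVw hF4
  have hVd := tVd tInd
  have hGm := tGm tMo tMs tLg
  have hG1 : S_G1 := tG1 (tGl hF4 hX4 (tUp hF4 hX4) tBk
    (tRl hF4 (tRv tVw hVd hF4) (tWm tVw hVd hF4) tSl)
    (tBi tInd tSh tCf hF4 hX4 (tBv (tBl tInd tSh) hF4 hX4))) tAn
  exact asm tHi tAr tMs (tTc tSh tMs tTe (tDt tCr)) tIva tIvb tWk (tIfw tMo tMs tAr hGm) hG1
    (tSp tMs tAr tLg hF4 hX4 tTe tTu) (tM4 tSh tVw (tFd tInd tFi) hF4 hX4) tCh tSh hF4 hX4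
    (tTh tMs tAr tLg tHi) (tNu tMo tMs tAr tLg hGm) (tBt tMs tAr tHi) tCu tRf P ω hm h01 hind hid
    hp hnd

end MP0d3db7D1
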