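import Pool.Agent.Lib.MP_0d3db7.D1.Defs

/-!
# MP_0d3db7_pr, theorem D1: statements (helper58; the proof is note 4622 of helper87)

Every module: file `MP_0d3db7/D1/Xyz.lean`, `theorem tXyz : S_Xyz` in the namespace `MP0d3db7D1`,
import `Pool.Agent.Lib.MP_0d3db7.D1.Spec`. If the docstring says `From S_A, S_B` the theorem is
`tXyz : S_A → S_B → S_Xyz`; use only those which you need, in this order.

PLAN. For a fixed environment `o` the walk is driven by the arrows `ar o u`, `u` uniform (`S_Hi`). The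
hitting time of `n` is `n + 2 SS n + 2 nu n` (`S_Dt`), `SS n` a sum of interval functionals (`S_Te`)
with exponentially decreasing moments (`S_Ifw`). Quenched central limit theorem for such sums:
`S_G1`; regularity of the means: `S_M4`, `S_Ch`. Inversion: `S_Iva`, `S_Ivb`.
-/

set_option autoImplicit false

namespace MP0d3db7D1

open MeasureTheory ProbabilityTheory Filter Topology Pool.Agent.MP0d3db7

/-! ## Part A: general probability -/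

/-- INDEPENDENCE. PROOF. The coordinates are independent (`iIndepFun_infinitePi`), so are the
restrictions to the disjoint finite sets `S j` (`iIndepFun.finsets`, if needed for a finite set of
indices `j` only: `iIndepFun_iff_finset`). `z j x = z j (extension of the restriction of x to S j by a
fixed point of A)` (`A` is not empty), a measurable function of the restriction
(`iIndepFun.comp`). -/
def S_Ind : Prop :=
  ∀ (ι J A : Type) [MeasurableSpace A] (μ : Measure A) [IsProbabilityMeasure μ] (S : J → Finset ι)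
    (z : J → (ι → A) → ℝ), (∀ j j', j ≠ j' → Disjoint (S j) (S j')) → (∀ j, Measurable (z j)) →
    (∀ j, DependsOn (z j) (S j : Set ι)) → iIndepFun z (Measure.infinitePi fun _ : ι => μ)

/-- SHIFT. PROOF. `Measure.map_infinitePi_infinitePi_of_inj` (`i ↦ k + i`; `k ↦ (k : ℤ)`). -/
def S_Sh : Prop :=
  (∀ (X : Type) [MeasurableSpace X] (μ : Measure X) [IsProbabilityMeasure μ] (k : ℕ),
    MeasurePreserving (sh k) (St μ) (St μ)) ∧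
  ∀ (X : Type) [MeasurableSpace X] (μ : Measure X) [IsProbabilityMeasure μ],
    MeasurePreserving (fun a : ℤ → ℕ → X => ps a) (PI ℤ μ) (PI ℕ μ)

/-- WEIGHTED SUMS. PROOF. First: `Y l = X l - E X l`, `(∑ Y l)² ≤ (∑ w l) ∑ (Y l)² / w l` pointwise
(Cauchy-Schwarz, `Finset.sum_sq_le_sum_mul_sum_of_sq_eq_mul`), integrate. Second: the same
inequality twice, `(∑ b)² ≤ (∑ w) ∑ b² / w` and `(∑ b² / w)² ≤ (∑ w) ∑ b⁴ / w³`. -/
def S_Vw : Prop :=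
  (∀ (Ω : Type) [MeasurableSpace Ω] (P : Measure Ω) [IsProbabilityMeasure P] (n : ℕ)
    (X : ℕ → Ω → ℝ) (w : ℕ → ℝ), (∀ l, 0 < w l) → (∀ l < n, MemLp (X l) 2 P) →
    variance (fun o => ∑ l ∈ Finset.range n, X l o) P ≤
      (∑ l ∈ Finset.range n, w l) * ∑ l ∈ Finset.range n, variance (X l) P / w l) ∧
  ∀ (ι : Type) (s : Finset ι) (b w : ι → ℝ), (∀ l ∈ s, 0 < w l) →
    (∑ l ∈ s, b l) ^ 4 ≤ (∑ l ∈ s, w l) ^ 3 * ∑ l ∈ s, b l ^ 4 / w l ^ 3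

/-- VARIANCE OF SUMS OF INTERVAL FUNCTIONS. From `S_Ind`. PROOF. Split `K` into the residue classes
modulo `l + 1`; in one class the intervals `[k, k + l]` are disjoint, so the `z k` are independent
(`S_Ind`), the variance of the sum is the sum of the variances (`IndepFun.variance_sum`), at most
`∑ E (z k)²`. Sum over the `l + 1` classes: `(∑ a_c)² ≤ (l + 1) ∑ a_c²` for the centered class sums
(`S_Vw` with `w = 1`, or `inner_mul_le_norm_mul_norm`, `sq_sum_le_card_mul_sum_sq`). -/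
def S_Vd : Prop :=
  ∀ (B : Type) [MeasurableSpace B] (ν : Measure B) [IsProbabilityMeasure ν] (l : ℕ) (K : Finset ℕ)
    (z : ℕ → (ℕ → B) → ℝ), (∀ k, Measurable (z k)) → (∀ k, DependsOn (z k) (Set.Icc k (k + l))) →
    (∀ k ∈ K, MemLp (z k) 2 (St ν)) →
    variance (fun u => ∑ k ∈ K, z k u) (St ν) ≤ ((l : ℝ) + 1) * ∑ k ∈ K, ∫ u, z k u ^ 2 ∂St ν

/-- FOURTH MOMENTS OF INDEPENDENT SUMS. PROOF. Induction on the set: for independent centered `S, z`: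
`E (S + z)⁴ = E S⁴ + 6 E S² E z² + E z⁴`, `E S² = ∑ E z² ≤ n √M`, `E z² ≤ √M`, so
`3 n² M + 6 n M + M ≤ 3 (n + 1)² M`. (`iIndepFun.indepFun_finset_sum_of_notMem`,
`IndepFun.integral_mul_eq_mul_integral` for the powers.) -/
def S_Fi : Prop :=
  ∀ (Ω : Type) [MeasurableSpace Ω] (P : Measure Ω) [IsProbabilityMeasure P] (K : Finset ℕ)
    (z : ℕ → Ω → ℝ) (M : ℝ), iIndepFun (fun k : K => z k) P → (∀ k, Measurable (z k)) →
    (∀ k ∈ K, MemLp (z k) 4 P) → (∀ k ∈ K, ∫ u, z k u ∂P = 0) → (∀ k ∈ K, ∫ u, z k u ^ 4 ∂P ≤ M) →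
    ∫ u, (∑ k ∈ K, z k u) ^ 4 ∂P ≤ 3 * (K.card : ℝ) ^ 2 * M

/-- FOURTH MOMENTS OF SUMS OF INTERVAL FUNCTIONS. From `S_Ind`, `S_Fi`. PROOF. Residue classes `K_c`
modulo `l + 1` as in `S_Vd`: `(∑ a_c)⁴ ≤ (l + 1)³ ∑ a_c⁴` (`inner_le_nnorm_mul_nnorm` or
`Finset.inner..`: `inv_pow_sum_le`, `Real.pow_arith_mean_le_arith_mean_pow`, or twice
`sq_sum_le_card_mul_sum_sq`), `S_Fi` for each class, `∑ |K_c|² ≤ |K|²`. -/
def S_Fd : Prop :=
  ∀ (B : Type) [MeasurableSpace B] (ν : Measure B) [IsProbabilityMeasure ν] (l : ℕ) (K : Finset ℕ)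
    (z : ℕ → (ℕ → B) → ℝ) (M : ℝ), (∀ k, Measurable (z k)) →
    (∀ k, DependsOn (z k) (Set.Icc k (k + l))) → (∀ k ∈ K, MemLp (z k) 4 (St ν)) →
    (∀ k ∈ K, ∫ u, z k u ∂St ν = 0) → (∀ k ∈ K, ∫ u, z k u ^ 4 ∂St ν ≤ M) →
    ∫ u, (∑ k ∈ K, z k u) ^ 4 ∂St ν ≤ 3 * ((l : ℝ) + 1) ^ 3 * (K.card : ℝ) ^ 2 * M

/-- A STRONG LAW FROM SECOND MOMENTS, monotone sequences. PROOF. Chebyshev at the squares:
`P (W (j²) - E W (j²) ≥ ε j²) ≤ C / (ε² j²)` (`meas_ge_le_variance_div_sq`), summable;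
Borel-Cantelli: almost surely `W (j²) ≤ (c + ε) j²` for all large `j` (`ε = 1/(i+1)` for all `i`). For
`j² ≤ n < (j + 1)²`: `W n ≤ W ((j + 1)²) ≤ (c + ε) (j + 1)² ≤ (c + 2 ε) n` for large `n`. -/
def S_Sl : Prop :=
  ∀ (Ω : Type) [MeasurableSpace Ω] (P : Measure Ω) [IsProbabilityMeasure P] (W : ℕ → Ω → ℝ)
    (c C : ℝ), 0 ≤ c → (∀ n, MemLp (W n) 2 P) → (∀ n o, W n o ≤ W (n + 1) o) →
    (∀ n : ℕ, ∫ o, W n o ∂P ≤ c * n) → (∀ n : ℕ, variance (W n) P ≤ C * n) →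
    ∀ᵐ o ∂P, ∀ ε : ℝ, 0 < ε → ∀ᶠ n : ℕ in atTop, W n o ≤ (c + ε) * n

/-- THE CHARACTERISTIC FUNCTION OF A SUM. PROOF. Independence: the characteristic function of the sum
is the product (`iIndepFun.charFun_map_sum_eq_prod` or `IndepFun.integral_mul..`). For `|z_j| ≤ 1`,
`|w_j| ≤ 1`: `|∏ z_j - ∏ w_j| ≤ ∑ |z_j - w_j|` (induction). `z_j = E exp(i t Y_j)`,
`w_j = exp(-t² σ_j² / 2)`, `σ_j² = E Y_j²`: `|z_j - 1 + t² σ_j² / 2| ≤ |t|³ E |Y_j|³ / 6`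
(`|exp(i x) - 1 - i x + x²/2| ≤ |x|³ / 6`, e.g. from `Complex.norm_exp_sub_sum_le_norm_mul_exp` for
`|x| ≤ 1` and directly `≤ 2 + |x| + x²/2 ≤ 4 |x|³` for `|x| ≥ 1`, which is too large: then use the
integral form, or Mathlib's Taylor bound `taylor_mean_remainder_bound` for `cos` and `sin`, each
`≤ |x|³ / 6`, sum `≤ |x|³ / 3 ≤ |x|³`), `|exp(-y) - 1 + y| ≤ y²` for `y ≥ 0`. -/
def S_Cf : Prop :=
  ∀ (Ω : Type) [MeasurableSpace Ω] (P : Measure Ω) [IsProbabilityMeasure P] (J : ℕ)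
    (Y : ℕ → Ω → ℝ), iIndepFun Y P → (∀ j, Measurable (Y j)) → (∀ j, MemLp (Y j) 4 P) →
    (∀ j, ∫ u, Y j u ∂P = 0) → ∀ t : ℝ,
    ‖(∫ u, Complex.exp (((t * ∑ j ∈ Finset.range J, Y j u : ℝ) : ℂ) * Complex.I) ∂P) -
        Complex.exp (((-(t ^ 2 / 2 * ∑ j ∈ Finset.range J, ∫ u, Y j u ^ 2 ∂P) : ℝ) : ℂ))‖ ≤
      ∑ j ∈ Finset.range J, (|t| ^ 3 * ∫ u, |Y j u| ^ 3 ∂P + t ^ 4 * (∫ u, Y j u ^ 2 ∂P) ^ 2)

/-- STRONG LAW FOR BLOCKS. From `S_Ind`, `S_Sh`. PROOF. The `h (sh (j L) o)` are independent (`S_Ind`: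
they depend on the sites `[j L, j L + L)`), identically distributed (`S_Sh`), integrable:
`strong_law_ae_real`. -/
def S_Bl : Prop :=
  ∀ (A : Type) [MeasurableSpace A] (μ : Measure A) [IsProbabilityMeasure μ] (h : (ℕ → A) → ℝ)
    (L : ℕ), 1 ≤ L → Measurable h → DependsOn h (Set.Iio L) → Integrable h (St μ) →
    ∀ᵐ o ∂St μ, Tendsto (fun J : ℕ => (∑ j ∈ Finset.range J, h (sh (j * L) o)) / J) atTop
      (𝓝 (∫ o, h o ∂St μ))

/-! ## Part B: the quenched central limit theorem for interval functionals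

In this part `f` satisfies `IF μ ν f C θ`. For fixed `o, l, k` the function `u ↦ f l (sh k o) (sh k u)`
is measurable and depends on the sites `[k, k + l]` only. -/

/-- FIRST PROPERTIES. From `S_Sh`. PROOF. The map `(o, u) ↦ (sh k o, sh k u)` preserves the product
measure. Almost every `o`: the integral over `u` of the fourth power is finite
(`lintegral_prod`, `ae_lt_top`), countable intersection over `l, k`. -/
def S_F4 : Prop :=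
  ∀ (A B : Type) [MeasurableSpace A] [MeasurableSpace B] (μ : Measure A) (ν : Measure B)
    [IsProbabilityMeasure μ] [IsProbabilityMeasure ν] (f : ℕ → (ℕ → A) → (ℕ → B) → ℝ) (C θ : ℝ),
    IF μ ν f C θ →
    (∀ l k, Measurable fun x : (ℕ → A) × (ℕ → B) => f l (sh k x.1) (sh k x.2)) ∧
    (∀ l k, ∫⁻ x, ENNReal.ofReal (f l (sh k x.1) (sh k x.2) ^ 4) ∂(St μ).prod (St ν) ≤
      ENNReal.ofReal (C * θ ^ (4 * l))) ∧
    ∀ᵐ o ∂St μ, F4 ν f o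

/-- FOURTH MOMENTS OF THE INCREMENTS. From `S_Sh`, `S_Vw`, `S_F4`. PROOF.
`SN (n + m) - SN n = ∑_(r ∈ [n, n + m)) ∑_(l ≤ r) f l (sh (r - l) o) (sh (r - l) u)` (intervals with right
end `r`). `S_Vw` (second part) with the weights `θ^l`:
`(..)⁴ ≤ (m / (1 - θ))³ ∑_r ∑_l θ^(-3 l) (f l ..)⁴`; the integral is at most
`m³ (1 - θ)⁻³ m ∑_l C θ^l`. -/
def S_X4 : Prop :=
  ∀ (A B : Type) [MeasurableSpace A] [MeasurableSpace B] (μ : Measure A) (ν : Measure B)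
    [IsProbabilityMeasure μ] [IsProbabilityMeasure ν] (f : ℕ → (ℕ → A) → (ℕ → B) → ℝ) (C θ : ℝ),
    IF μ ν f C θ →
    (∀ n o u, SN f n o u ≤ SN f (n + 1) o u) ∧
    (∀ n o, F4 ν f o → MemLp (SN f n o) 4 (St ν)) ∧
    ∃ K : ℝ, ∀ n m : ℕ, ∫⁻ x, ENNReal.ofReal ((SN f (n + m) x.1 x.2 - SN f n x.1 x.2) ^ 4)
      ∂(St μ).prod (St ν) ≤ ENNReal.ofReal (K * m ^ 4)

/-- THE LAST BLOCK. From `S_F4`, `S_X4`. PROOF. `D n = SN n - SN (n / L * L)`, `E (E_Q D²)² ≤ E D⁴ ≤ K L⁴`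
(`S_X4`, `n - n / L * L < L`). Chebyshev (Markov for the square): `P (E_Q D² > ε n) ≤ K L⁴ / (ε² n²)`,
summable, Borel-Cantelli. -/
def S_Up : Prop :=
  ∀ (A B : Type) [MeasurableSpace A] [MeasurableSpace B] (μ : Measure A) (ν : Measure B)
    [IsProbabilityMeasure μ] [IsProbabilityMeasure ν] (f : ℕ → (ℕ → A) → (ℕ → B) → ℝ) (C θ : ℝ),
    IF μ ν f C θ → ∀ L : ℕ, 1 ≤ L → ∀ᵐ o ∂St μ, Tendsto (fun n : ℕ =>
      (∫ u, (SN f n o u - SN f (n / L * L) o u) ^ 2 ∂St ν) / n) atTop (𝓝 0)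

/-- SPLITTING INTO BLOCKS (combinatorics). PROOF. The intervals `[k, k + l]` in `[0, J L)` with
`k % L + l < L` are those in one block `[j L, j L + L)`: `k = j L + k'`, `k' + l < L`,
`sh k' (sh (j L) o) = sh (j L + k') o`. -/
def S_Bk : Prop :=
  ∀ (A B : Type) (f : ℕ → (ℕ → A) → (ℕ → B) → ℝ) (L J : ℕ), 1 ≤ L → ∀ (o : ℕ → A) (u : ℕ → B),
    SN f (J * L) o u = MB f L J o u + RB f L (J * L) o u

/-- QUENCHED VARIANCE OF THE REMAINDER. From `S_Vw`, `S_Vd`, `S_F4`. PROOF. For fixed `l` the inner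
sum has variance `≤ (l + 1) ∑_k ∫ f²` (`S_Vd`); `S_Vw` with `w l = θ^l`, `∑ θ^l ≤ 1 / (1 - θ)`. -/
def S_Rv : Prop :=
  ∀ (A B : Type) [MeasurableSpace A] [MeasurableSpace B] (μ : Measure A) (ν : Measure B)
    [IsProbabilityMeasure μ] [IsProbabilityMeasure ν] (f : ℕ → (ℕ → A) → (ℕ → B) → ℝ) (C θ : ℝ),
    IF μ ν f C θ → ∀ o, F4 ν f o → ∀ L N : ℕ,
      MemLp (RB f L N o) 4 (St ν) ∧ variance (RB f L N o) (St ν) ≤ 1 / (1 - θ) * WB ν f θ L N o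

/-- MOMENTS OF `WB`. From `S_Vw`, `S_Vd`, `S_F4`. PROOF. `g_l(k) = ∫ f l (sh k o) (sh k u)² du` is a
measurable function of `o` which depends on `[k, k + l]`; `E g_l(k)² ≤ E f⁴ ≤ C θ^(4 l)` (Jensen, for
the `o` in `F4`). Mean: each block of length `L` contains at most `l` of the `k` with
`L ≤ k % L + l`, so there are at most `J l`: `E WB ≤ J ∑_l l (l + 1) θ^(-l) √C θ^(2 l)`, `c` = this sum
over all `l` (without `J`). Variance: `S_Vd` for fixed `l`, at most `J L` terms: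
`≤ (l + 1) J L (l + 1)² θ^(-2 l) C θ^(4 l)`; `S_Vw` with `w l = θ^l`:
`≤ (1 - θ)⁻¹ J L C ∑_l (l + 1)³ θ^l`. Monotone: more terms, all `≥ 0`. -/
def S_Wm : Prop :=
  ∀ (A B : Type) [MeasurableSpace A] [MeasurableSpace B] (μ : Measure A) (ν : Measure B)
    [IsProbabilityMeasure μ] [IsProbabilityMeasure ν] (f : ℕ → (ℕ → A) → (ℕ → B) → ℝ) (C θ : ℝ),
    IF μ ν f C θ → (∀ L N o, WB ν f θ L N o ≤ WB ν f θ L (N + 1) o) ∧
      ∃ c : ℝ, 0 ≤ c ∧ ∀ L : ℕ, 1 ≤ L → ∃ CL : ℝ, ∀ J : ℕ,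
        MemLp (fun o => WB ν f θ L (J * L) o) 2 (St μ) ∧
        ∫ o, WB ν f θ L (J * L) o ∂St μ ≤ c * J ∧
        variance (fun o => WB ν f θ L (J * L) o) (St μ) ≤ CL * J

/-- ALMOST SURE BOUND OF THE REMAINDER. From `S_F4`, `S_Rv`, `S_Wm`, `S_Sl`. PROOF. `S_Sl` for
`W J = WB .. L (J * L)`, `ε = 1`: `K = (c + 1) / (1 - θ)`. -/
def S_Rl : Prop :=
  ∀ (A B : Type) [MeasurableSpace A] [MeasurableSpace B] (μ : Measure A) (ν : Measure B)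
    [IsProbabilityMeasure μ] [IsProbabilityMeasure ν] (f : ℕ → (ℕ → A) → (ℕ → B) → ℝ) (C θ : ℝ),
    IF μ ν f C θ → ∃ K : ℝ, 0 ≤ K ∧ ∀ᵐ o ∂St μ, ∀ L : ℕ, 1 ≤ L → ∀ᶠ J : ℕ in atTop,
      variance (RB f L (J * L) o) (St ν) ≤ K * J

/-- LAWS OF LARGE NUMBERS FOR THE BLOCKS. From `S_Bl`, `S_F4`, `S_X4`. PROOF. `S_Bl` for
`h = vq ν f L`, `h = ∫ |SN f L - mh|³`, `h = (vq ν f L)²`: measurable functions of `o` which depend on
the sites `< L`. Integrable: `|x|³ ≤ 1 + x⁴`, `(vq)² ≤ ∫ (SN - mh)⁴ ≤ 16 ∫ SN⁴` and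
`E SN⁴ ≤ K L⁴` (`S_X4` with `n = 0`; `SN f 0 = 0`). A convergent sequence is bounded. -/
def S_Bv : Prop :=
  ∀ (A B : Type) [MeasurableSpace A] [MeasurableSpace B] (μ : Measure A) (ν : Measure B)
    [IsProbabilityMeasure μ] [IsProbabilityMeasure ν] (f : ℕ → (ℕ → A) → (ℕ → B) → ℝ) (C θ : ℝ),
    IF μ ν f C θ → ∀ L : ℕ, 1 ≤ L → Integrable (vq ν f L) (St μ) ∧ ∀ᵐ o ∂St μ,
      Tendsto (fun J : ℕ => (∑ j ∈ Finset.range J, vq ν f L (sh (j * L) o)) / J) atTop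
        (𝓝 (VL μ ν f L)) ∧
      ∃ K : ℝ, ∀ J : ℕ, ∑ j ∈ Finset.range J,
        (∫ u, |SN f L (sh (j * L) o) u - mh ν f L (sh (j * L) o)| ^ 3 ∂St ν +
          vq ν f L (sh (j * L) o) ^ 2) ≤ K * J

/-- CENTRAL LIMIT THEOREM FOR THE BLOCKS. From `S_Ind`, `S_Sh`, `S_Cf`, `S_F4`, `S_X4`, `S_Bv`. PROOF.
For `o` in `F4` (also all `sh (j L) o` are) with `S_Bv`: `S_Cf` for
`Y j = (SN f L (sh (j L) o) (sh (j L) u) - mh ν f L (sh (j L) o)) / √(J L)`: independent (`S_Ind`, sites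
`[j L, j L + L)`), centered and with the moments `vq / (J L)` (`S_Sh`). The errors are at most
`(|t|³ (J L)^(-3/2) + t⁴ (J L)^(-2)) K J → 0`. -/
def S_Bi : Prop :=
  ∀ (A B : Type) [MeasurableSpace A] [MeasurableSpace B] (μ : Measure A) (ν : Measure B)
    [IsProbabilityMeasure μ] [IsProbabilityMeasure ν] (f : ℕ → (ℕ → A) → (ℕ → B) → ℝ) (C θ : ℝ),
    IF μ ν f C θ → ∀ L : ℕ, 1 ≤ L → ∀ᵐ o ∂St μ,
      (∀ J, MemLp (MB f L J o) 4 (St ν)) ∧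
      (∃ K : ℝ, ∀ J : ℕ, variance (MB f L J o) (St ν) ≤ K * J) ∧
      ∀ t : ℝ, Tendsto (fun J : ℕ => ∫ u, Complex.exp (((t * ((MB f L J o u -
        ∫ u', MB f L J o u' ∂St ν) / Real.sqrt (J * L)) : ℝ) : ℂ) * Complex.I) ∂St ν) atTop
        (𝓝 (Complex.exp ((-(t ^ 2 * (VL μ ν f L / L) / 2) : ℝ) : ℂ)))

/-- FIXED BLOCK LENGTH. From `S_F4`, `S_X4`, `S_Up`, `S_Bk`, `S_Rl`, `S_Bi`. PROOF. `J = n / L`,
`SN n = MB J + RB (J L) + D n`. `|E exp(i (X + Y)) - E exp(i X)| ≤ √(E Y²)`. So `ph n t` and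
`E exp(i t (MB - E MB) / √n)` differ by at most `|t| / √n (√(Var RB) + √(E D²))`,
`Var RB ≤ K J ≤ K n / L`. Replace `√n` by `√(J L)`: `√(J L / n) → 1` and
`|E exp(i t X) - E exp(i t' X)| ≤ |t - t'| √(E X²)`, `E X² ≤ K' J / (J L)`. -/
def S_Gl : Prop :=
  ∀ (A B : Type) [MeasurableSpace A] [MeasurableSpace B] (μ : Measure A) (ν : Measure B)
    [IsProbabilityMeasure μ] [IsProbabilityMeasure ν] (f : ℕ → (ℕ → A) → (ℕ → B) → ℝ) (C θ : ℝ),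
    IF μ ν f C θ → ∃ K : ℝ, 0 ≤ K ∧ ∀ᵐ o ∂St μ, ∀ L : ℕ, 1 ≤ L → ∀ t ε : ℝ, 0 < ε →
      ∀ᶠ n : ℕ in atTop,
        ‖ph ν f n o t - Complex.exp ((-(t ^ 2 * (VL μ ν f L / L) / 2) : ℝ) : ℂ)‖ ≤
          |t| * Real.sqrt (K / L) + ε

/-- ANALYSIS. PROOF. Bounded: fix `t > 0` with `t² a 1 / 2 ≤ 1/4` and `2 t √K ≤ 1/4`; with `ε = 1/8` and
one large `n`: `exp(-t² a L / 2) ≥ exp(-t² a 1 / 2) - 2 t √K - 1/4 ≥ 1/4` for all `L ≥ 1`. Cauchy: for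
`t = 1`: `|exp(-a L / 2) - exp(-a L' / 2)| ≤ √(K/L) + √(K/L') + 2 ε` for every `ε`, so `exp(-a L / 2)`
converges, to a number `> 0` (bounded `a`), so `a L → s`. Then
`|φ n t - exp(-t² s / 2)| ≤ |t| √(K / L) + ε + |exp(-t² a L / 2) - exp(-t² s / 2)|`, `L` large. -/
def S_An : Prop :=
  ∀ (φ : ℕ → ℝ → ℂ) (a : ℕ → ℝ) (K : ℝ), 0 ≤ K → (∀ L, 0 ≤ a L) →
    (∀ L : ℕ, 1 ≤ L → ∀ t ε : ℝ, 0 < ε → ∀ᶠ n : ℕ in atTop,
      ‖φ n t - Complex.exp ((-(t ^ 2 * a L / 2) : ℝ) : ℂ)‖ ≤ |t| * Real.sqrt (K / L) + ε) →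
    ∃ s : ℝ, 0 ≤ s ∧ Tendsto a atTop (𝓝 s) ∧
      ∀ t : ℝ, Tendsto (fun n => φ n t) atTop (𝓝 (Complex.exp ((-(t ^ 2 * s / 2) : ℝ) : ℂ)))

/-- QUENCHED CENTRAL LIMIT THEOREM. From `S_Gl`, `S_An`. PROOF. `S_An` for one good `o` gives the limit
`s` of `VL L / L`, the same for all `o`. -/
def S_G1 : Prop :=
  ∀ (A B : Type) [MeasurableSpace A] [MeasurableSpace B] (μ : Measure A) (ν : Measure B)
    [IsProbabilityMeasure μ] [IsProbabilityMeasure ν] (f : ℕ → (ℕ → A) → (ℕ → B) → ℝ) (C θ : ℝ),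
    IF μ ν f C θ → ∃ s : ℝ, 0 ≤ s ∧ Tendsto (fun L : ℕ => VL μ ν f L / L) atTop (𝓝 s) ∧
      ∀ᵐ o ∂St μ, ∀ t : ℝ, Tendsto (fun n : ℕ => ph ν f n o t) atTop
        (𝓝 (Complex.exp ((-(t ^ 2 * s / 2) : ℝ) : ℂ)))

/-- FOURTH MOMENTS OF THE CENTERED MEANS. From `S_Sh`, `S_Vw`, `S_Fd`, `S_F4`, `S_X4`. PROOF.
`e l j o = ∫ f l (sh j o) (sh j u) du` (depends on `[j, j + l]`), `m l = ∫ e l j ≤ C^(1/4) θ^l` (the same
for all `j`), `κ = ∑ m l`. `mh k' - mh k = ∑_(r ∈ [k, k')) ∑_(l ≤ r) e l (r - l)` for `o` in `F4`. So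
`mh k' - mh k - (k' - k) κ = ∑_(l < k') X l - ∑_(r ∈ [k, k')) ∑_(l > r) m l`,
`X l = ∑_(r ∈ [k, k'), r ≥ l) (e l (r - l) - m l)`; the second sum is between `0` and
`∑_r C^(1/4) θ^r / (1 - θ) ≤ const`. `S_Fd`: `E (X l)⁴ ≤ 3 (l + 1)³ (k' - k)² 16 C θ^(4 l)`; `S_Vw`
(second part, `w l = θ^l`): `E (∑ X l)⁴ ≤ (1 - θ)⁻³ ∑_l 48 C (l + 1)³ θ^l (k' - k)²`. -/
def S_M4 : Prop :=
  ∀ (A B : Type) [MeasurableSpace A] [MeasurableSpace B] (μ : Measure A) (ν : Measure B)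
    [IsProbabilityMeasure μ] [IsProbabilityMeasure ν] (f : ℕ → (ℕ → A) → (ℕ → B) → ℝ) (C θ : ℝ),
    IF μ ν f C θ → (∀ k, Measurable (mh ν f k)) ∧ ∃ κ K : ℝ, 0 ≤ κ ∧ ∀ k k' : ℕ, k ≤ k' →
      ∫⁻ o, ENNReal.ofReal ((mh ν f k' o - mh ν f k o - ((k' : ℝ) - k) * κ) ^ 4) ∂St μ ≤
        ENNReal.ofReal (K * ((k' : ℝ) - k + 1) ^ 2)

/-- REGULARITY BY CHAINING. PROOF. First: `P (|m n - n κ| > ε n) ≤ K (n + 1)² / (ε n)⁴`
(`m 0 = 0`), summable, Borel-Cantelli. Second: fix `D` and `ε ≤ 1`; for `N = 2^i` large let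
`h = ⌊ε √N / (8 (κ + 1))⌋₊ + 1` and consider the pairs `a ≤ b` of multiples of `h` with
`b ≤ 2 D N + h`, `b - a ≤ D √(2 N) + 2 h`: at most `C₁ √N` pairs, for each
`P (|m b - m a - (b - a) κ| > ε √N / 4) ≤ K (b - a + 1)² / (ε √N / 4)⁴ ≤ C₂ / N`. The sum is `≤ C₃ / √N`,
summable over `N = 2^i`; Borel-Cantelli. For `n ∈ [N, 2 N]`, `k ≤ k' ≤ D n`, `k' - k ≤ D √n` take
`a ≤ k < a + h`, `b ≤ k' < b + h`: by monotonicity
`m k' - m k ≤ m (b + h) - m a ≤ (b + h - a) κ + ε √N / 4`, `≤ (k' - k) κ + 2 h κ + ε √N / 4`; and if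
`a + h ≤ b`: `m k' - m k ≥ m b - m (a + h) ≥ (k' - k) κ - 2 h κ - ε √N / 4`; if `b < a + h` then `b ≤ a`,
`k' - k ≤ h` and `m k' - m k ≥ 0 ≥ (k' - k) κ - h κ`. All `D`, all `ε = 1/(i+1)`. -/
def S_Ch : Prop :=
  ∀ (Ω : Type) [MeasurableSpace Ω] (P : Measure Ω) [IsProbabilityMeasure P] (m : ℕ → Ω → ℝ)
    (κ K : ℝ), 0 ≤ κ → (∀ k, Measurable (m k)) → (∀ o, m 0 o = 0) →
    (∀ᵐ o ∂P, ∀ k, m k o ≤ m (k + 1) o) →
    (∀ k k' : ℕ, k ≤ k' → ∫⁻ o, ENNReal.ofReal ((m k' o - m k o - ((k' : ℝ) - k) * κ) ^ 4) ∂P ≤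
      ENNReal.ofReal (K * ((k' : ℝ) - k + 1) ^ 2)) →
    ∀ᵐ o ∂P, Tendsto (fun n : ℕ => m n o / n) atTop (𝓝 κ) ∧
      ∀ (D : ℕ) (ε : ℝ), 0 < ε → ∀ᶠ n : ℕ in atTop, ∀ k k' : ℕ, k ≤ k' → k' ≤ D * n →
        (k' : ℝ) - k ≤ D * Real.sqrt n → |m k' o - m k o - ((k' : ℝ) - k) * κ| ≤ ε * Real.sqrt n

/-! ## Part C: arrows -/

/-- MONOTONICITY AND DEPENDENCE (deterministic). PROOF. `Nat.nth` of an infinite set is strictly
increasing (`Nat.nth_strictMono`), so `nth r - r` is nondecreasing; if `Gd` fails `lf = 0`. Induction on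
`m`, `j`. `Gd` and `lf` use only the arrows `a (i + 1)`. -/
def S_Mo : Prop :=
  (∀ (a : ℕ → Bool) (r r' : ℕ), r ≤ r' → lf a r ≤ lf a r') ∧
  (∀ (m : ℕ) (c : ℕ → ℕ → Bool), G m c ≤ G (m + 1) c) ∧
  (∀ (m : ℕ) (c c' : ℕ → ℕ → Bool), (∀ i < m, c i = c' i) → G m c = G m c') ∧
  ∀ (a : ℤ → ℕ → Bool) (x x' j : ℕ), x ≤ x' → Hh a x j ≤ Hh a x' j

/-- MEASURABILITY. PROOF. `Gd`: countable intersections and unions. `{a | lf a r = m}`: for `r = q + 1`,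
on `Gd`, `Nat.nth .. q = n` iff `a (n + 1) = true` and exactly `q` of the `a (i + 1)`, `i < n`, are `true`
(`Nat.nth_count`, `Nat.count_nth`), a condition on finitely many coordinates. `lf x.1 x.2`:
`measurable_from_prod_countable_left` or `_right`. `G`, `Hh`: induction. `hist a n = b :: h` iff
`hist a (n - 1) = h` and `a (pos h) (vis h) = b`. -/
def S_Ms : Prop :=
  MeasurableSet {a : ℕ → Bool | Gd a} ∧
  (Measurable fun x : (ℕ → Bool) × ℕ => lf x.1 x.2) ∧ (∀ m, Measurable (G m)) ∧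
  (∀ n, Measurable (SS n)) ∧
  (∀ j, Measurable fun x : (ℤ → ℕ → Bool) × ℕ => Hh x.1 x.2 j) ∧
  (∀ n, Measurable fun a : ℤ → ℕ → Bool => nu a n) ∧
  (∀ (n : ℕ) (h : List Bool), MeasurableSet {a : ℤ → ℕ → Bool | hist a n = h}) ∧
  ∀ ι : Type, Measurable fun x : (ι → ℕ → ℝ) × (ι → ℕ → ℝ) => ar x.1 x.2

/-- THE LAW OF THE ARROWS. PROOF. First: `(o, u) ↦ (o z i, u z i)_(z, i)` has independent coordinates
with the law `μ₀ × U01` under the product (`eq_infinitePi` or: the product of two `infinitePi` is the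
`infinitePi` of the products, on boxes `Set.pi s t`), `P (u < o) = ∫ min(max(x, 0), 1) dμ₀ = p`;
`infinitePi_map_pi`. It is easiest to use `Measure.eq_infinitePi` twice (`PI` is `infinitePi` of
`infinitePi`; `infinitePi_map_curry`). Second: `iIndepFun_uncurry_infinitePi'` with
`X z i x = decide (x < o z i)`; `volume (Ico 0 x) = x`. Third: `iIndepFun_uncurry_infinitePi'`,
`infinitePi_map_eval`. -/
def S_Ar : Prop :=
  (∀ (ι : Type) [Countable ι] (μ₀ : Measure ℝ) (p : ℝ), Law μ₀ p → 0 ≤ p ∧ p ≤ 1 ∧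
    ((PI ι μ₀).prod (PI ι U01)).map (fun x => ar x.1 x.2) = PI ι (Ber p)) ∧
  (∀ (ι : Type) [Countable ι] (o : ι → ℕ → ℝ), (∀ z i, 0 ≤ o z i ∧ o z i ≤ 1) →
    iIndepFun (fun (κ : ι × ℕ) (u : ι → ℕ → ℝ) => ar o u κ.1 κ.2) (PI ι U01) ∧
    ∀ z i, (PI ι U01).real {u | ar o u z i = true} = o z i) ∧
  (∀ (ι : Type) [Countable ι] (p : ℝ), 0 ≤ p → p ≤ 1 →
    iIndepFun (fun (κ : ι × ℕ) (a : ι → ℕ → Bool) => a κ.1 κ.2) (PI ι (Ber p)) ∧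
    ∀ z i, (PI ι (Ber p)).real {a | a z i = true} = p) ∧
  ∀ (ι : Type) [Countable ι] (μ₀ : Measure ℝ) (p : ℝ), Law μ₀ p →
    ∀ᵐ o ∂PI ι μ₀, ∀ z i, 0 ≤ o z i ∧ o z i ≤ 1

/-- THE LAW OF THE HISTORY. PROOF. For a history `h` of length `n` the event `hist a n = h` says that
the arrows used by `h` have the right values: with `h = b :: h'`, `hist a (n + 1) = b :: h'` iff
`hist a n = h'` and `a (pos h') (vis h') = b`. The pairs `(pos h', vis h')` along `h` are different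
(`vis` is the number of visits, the present one included: if `pos` is the same, `pv` has increased).
So by independence `P (hist a n = h) = ∏ = wt w h` (induction; the event `hist a n = h'` depends on
the arrows at the pairs `(z, i)` with `1 ≤ i ≤ pv z h'`, and `vis h' = pv (pos h') h' + 1`). Sum over the
`h = List.ofFn e` and `sum_wt`. -/
def S_Hi : Prop :=
  ∀ (X : Type) [MeasurableSpace X] (P : Measure X) [IsProbabilityMeasure P]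
    (a : X → ℤ → ℕ → Bool) (w : ℤ → ℕ → ℝ), (∀ z i, Measurable fun x => a x z i) →
    iIndepFun (fun (κ : ℤ × ℕ) x => a x κ.1 κ.2) P → (∀ z i, P.real {x | a x z i = true} = w z i) →
    ∀ (n : ℕ) (Φ : List Bool → ℝ),
      Integrable (fun x => Φ (hist (a x) n)) P ∧
      ∫ x, Φ (hist (a x) n) ∂P = Ex (fun h => w (pos h) (vis h)) Φ n []

/-- ONE STACK OF I.I.D. ARROWS. PROOF. For a list `l` of arrows let `g l r` be the number of left arrows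
before the `r`-th right arrow, or in all of `l` if there are fewer: `g [] r = 0`, `g l 0 = 0`,
`g (true :: l) (r + 1) = g l r`, `g (false :: l) (r + 1) = g l (r + 1) + 1`. For the first `M` arrows:
`e_M(x, y) = E s^(g (x + y) - g x)` satisfies, by the first arrow,
`e_(M+1)(x + 1, y) = p e_M(x, y) + (1 - p) e_M(x + 1, y)`, and for `y ≥ 1`
`e_(M+1)(0, y) = p e_M(0, y - 1) + (1 - p) s e_M(0, y)`, so with `ψ = p / (1 - (1 - p) s)`, `ψ ≥ 1`,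
`p / ψ + (1 - p) s = 1`: `e_M(x, y) ≤ ψ^y` by induction on `M`. On `Gd` the number `g` of the first `M`
arrows is nondecreasing in `M` and equal to `lf a r` for large `M`; so is the difference
`g (x + y) - g x`; monotone convergence (or Fatou). The mean in the same way:
`E g r ≤ r (1 - p) / p`. `Gd`: `P (a (i + 1) = false for N ≤ i < N + M) = (1 - p)^M`. -/
def S_Lg : Prop :=
  ∀ p : ℝ, 0 < p → p ≤ 1 → (∀ᵐ a ∂St (Ber p), Gd a) ∧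
    (∀ s : ℝ, 1 ≤ s → (1 - p) * s < 1 → ∀ x y : ℕ,
      ∫⁻ a, ENNReal.ofReal (s ^ (lf a (x + y) - lf a x)) ∂St (Ber p) ≤
        ENNReal.ofReal ((p / (1 - (1 - p) * s)) ^ y)) ∧
    ∀ r : ℕ, ∫⁻ a, (lf a r : ENNReal) ∂St (Ber p) ≤ ENNReal.ofReal (r * ((1 - p) / p))

/-- MOMENTS OF THE INTERVAL FUNCTIONALS. From `S_Mo`, `S_Ms`, `S_Lg`. PROOF. `Y l c = G (l+1) c - G l c`,
`Y (l + 1) c = lf (c 0) (x + y + 1) - lf (c 0) (x + 1)` with `x = G l c'`, `y = Y l c'`,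
`c' i = c (i + 1)`, `c 0` and `c'` are independent (`PI ℕ = St × PI ℕ`, e.g. with
`Measure.infinitePi` and `Fin`-splitting, or `S_Ind`-type independence and `eq_infinitePi`). So
`u_(l+1)(s) ≤ u_l(ψ(s))` for `u_l(s) = E s^(Y l)`, `u_0(s) ≤ ψ(s)`, `ψ(s) = p / (1 - (1 - p) s)`,
`ψ(s) - 1 = (1 - p) (s - 1) / (1 - (1 - p) s) ≤ τ (s - 1)` for `1 ≤ s ≤ s₀`,
`τ = (1 - p) / (1 - (1 - p) s₀) < 1` if `1 < s₀ < p / (1 - p)`. So `u_l(s₀) ≤ 1 + τ^(l+1) (s₀ - 1)`.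
`y⁴ ≤ C₀ (s₀^y - 1)` for all natural `y`, so `E (Y l)⁴ ≤ C₀ (s₀ - 1) τ^(l+1)`; `θ = τ^(1/4)`. -/
def S_Gm : Prop :=
  ∀ p : ℝ, 1 / 2 < p → p < 1 → ∃ C θ : ℝ, 0 ≤ C ∧ 0 < θ ∧ θ < 1 ∧
    (∀ l : ℕ, ∫⁻ c, ENNReal.ofReal (((G (l + 1) c : ℝ) - G l c) ^ 4) ∂PI ℕ (Ber p) ≤
      ENNReal.ofReal (C * θ ^ (4 * l))) ∧
    ∃ C' : ℝ, ∀ l : ℕ, ∫⁻ c, (G l c : ENNReal) ∂PI ℕ (Ber p) ≤ ENNReal.ofReal C'

/-- THE FUNCTIONALS OF THE WALK. From `S_Mo`, `S_Ms`, `S_Ar`, `S_Gm`. PROOF. `St (St μ₀) = PI ℕ μ₀`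
(`rfl`), the law of `ar` is `PI ℕ (Ber p)`. -/
def S_Ifw : Prop :=
  ∀ (μ₀ : Measure ℝ) (p : ℝ), Law μ₀ p → 1 / 2 < p → p < 1 →
    ∃ C θ : ℝ, IF (St μ₀) (St U01) fw C θ

/-- TELESCOPING. PROOF. `∑_(l < m) (G (l + 1) c - G l c) = G m c`, `G 0 = 0`;
`ar (sh k o) (sh k u) i = ar o u (k + i)`. -/
def S_Te : Prop :=
  ∀ (n : ℕ) (o u : ℕ → ℕ → ℝ), SN fw n o u = SS n (ar o u)

/-- THE NEGATIVE SITES. From `S_Mo`, `S_Ms`, `S_Ar`, `S_Lg`, `S_Gm`. PROOF. Under `PI ℤ (Ber p)` the stacks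
at the negative sites and those at the sites `≥ 0` are independent:
`E Hh a (G n) (j + 1) ≤ ((1 - p) / p)^(j+1) E (G n)`, sum over `j`: `E nu n ≤ C` for all `n`. `nu` is
nondecreasing in `n`, so `E sup_n E_Q nu n ≤ C` (monotone convergence), finite for almost every
`o`. -/
def S_Nu : Prop :=
  ∀ (μ₀ : Measure ℝ) (p : ℝ), Law μ₀ p → 1 / 2 < p → p < 1 → ∀ᵐ o ∂PI ℤ μ₀, ∃ K : ℝ, ∀ n : ℕ,
    ∫⁻ u, nu (ar o u) n ∂PI ℤ U01 ≤ ENNReal.ofReal K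

/-- CROSSINGS (deterministic). PROOF. (1), (2): induction on `h`. (3): `h` has only the sites with
`|k| ≤ length`. (4) induction on `h`: if the last step starts in `k` it is the step `b`, and
`pos h' + stp b > k` iff `b = true`; otherwise `pos h' > k` too. In the form: the arrow number
`pv k h` of the stack `k` is `true`. (5) Induction on `n`: the arrow `a k i` is used at the `i`-th visit. -/
def S_Cr : Prop :=
  (∀ (h : List Bool) (k : ℤ), pv k h = Lc k h + Rc k h) ∧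
  (∀ (h : List Bool) (k : ℤ), (Rc k h : ℤ) = Lc (k + 1) h + (if 0 ≤ k ∧ k < pos h then 1 else 0) -
    (if pos h ≤ k ∧ k < 0 then 1 else 0)) ∧
  (∀ (h : List Bool) (k : ℤ), (h.length : ℤ) < |k| → Lc k h = 0 ∧ Rc k h = 0) ∧
  (∀ (h : List Bool) (M : ℕ), h.length ≤ M →
    h.length = ∑ k ∈ Finset.Icc (-(M : ℤ)) M, (Lc k h + Rc k h)) ∧
  (∀ (a : ℤ → ℕ → Bool) (n : ℕ) (k : ℤ), k < pos (hist a n) → 0 < pv k (hist a n) →
    a k (pv k (hist a n)) = true) ∧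
  ∀ (a : ℤ → ℕ → Bool) (n : ℕ) (k : ℤ),
    ((Finset.range (pv k (hist a n))).filter fun i => a k (i + 1) = true).card = Rc k (hist a n)

/-- THE HITTING TIME (deterministic). From `S_Cr`. PROOF. `h = hist a N`, `pos h = n`, `n` was not
visited before, so `Lc k h = Rc k h = 0` for `k ≥ n`. For `k < n`: `Lc k h = lf (a k) (Rc k h)`: if
`pv k h = m + 1` then the arrow `m + 1` is `true` and `Rc k h - 1` of the first `m` arrows are, so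
`Nat.nth .. (Rc k h - 1) = m` (`Nat.nth_count`), `lf = m - (Rc k h - 1) = Lc k h`. By (2) of `S_Cr`,
`Rc k h = Lc (k + 1) h + 1` for `0 ≤ k < n`, `= Lc (k + 1) h` for `k < 0`. So `Lc k h = G (n - k) ..`,
`Lc (-j) h = Hh a (G n ..) j`, and `N = ∑ (Lc + Rc) = n + 2 ∑ Lc`. -/
def S_Dt : Prop :=
  ∀ a : ℤ → ℕ → Bool, (∀ z, Gd (a z)) → ∀ n N : ℕ, pos (hist a N) = n →
    (∀ m < N, pos (hist a m) ≠ n) → nu a n ≠ ⊤ ∧
    (N : ℝ) = n + 2 * (SS n (ps a) : ℝ) + 2 * (nu a n).toReal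

/-- HITTING. From `S_Ms`, `S_Ar`, `S_Lg`, `S_Hi`. PROOF. Under the product measure the arrows are
independent with probability `p` (`S_Ar`), so by `S_Hi` the law of the history is that of the random
walk: with `z = √((1 - p) / p)`, `E z^(pos) = (p z + (1 - p) / z)^m = (2 √(p (1 - p)))^m → 0`
(`Ex` by induction; `p = 1` is trivial), so
`P (pos (hist m) < n) ≤ z^(-n) (2 √(p (1 - p)))^m → 0`. A path which starts in `0` and never visits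
`n ≥ 0` has `pos < n` at all times. `Gd`: `S_Lg`. Fubini (`Measure.ae_ae_of_ae_prod`). -/
def S_Th : Prop :=
  ∀ (μ₀ : Measure ℝ) (p : ℝ), Law μ₀ p → 1 / 2 < p → p < 1 → ∀ᵐ o ∂PI ℤ μ₀, ∀ᵐ u ∂PI ℤ U01,
    (∀ z, Gd (ar o u z)) ∧ ∀ n : ℕ, ∃ m, pos (hist (ar o u) m) = n

/-- BACKTRACKING. From `S_Ms`, `S_Ar`, `S_Hi`. PROOF. `ρ = (1 - p) / p`. For the walk with constant
`p` and histories `h` let `g h = ρ^(pos h - k + R)` if `h` has visited `k`, `ρ^R` otherwise: a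
martingale (`p ρ + (1 - p) / ρ = 1`; at the first visit of `k` both formulas agree), so
`P (k visited until n, pos < k - R) ≤ E g = ρ^R`. So with `R = √√n`:
`E_P ∑_(k ≤ n) Q (..) ≤ (n + 1) ρ^R`, summable in `n`; so almost surely
`δ n = ∑_(k ≤ n) Q (..)` is summable. -/
def S_Bt : Prop :=
  ∀ (μ₀ : Measure ℝ) (p : ℝ), Law μ₀ p → 1 / 2 < p → p < 1 → ∀ᵐ o ∂PI ℤ μ₀,
    ∃ δ : ℕ → ℝ, Tendsto δ atTop (𝓝 0) ∧ ∀ n k : ℕ, k ≤ n →
      (PI ℤ U01).real {u | (∃ m ≤ n, pos (hist (ar o u) m) = k) ∧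
        pos (hist (ar o u) n) < (k : ℤ) - (Nat.sqrt (Nat.sqrt n) : ℕ)} ≤ δ n

/-- TURNING ONE ARROW (deterministic). PROOF. For one stack: if `a 1 = true`, `a' 1 = false`, and
`a' i = a i` for `i ≠ 1`, both `Gd`, then for `r ≥ 1`: the right arrows of `a'` are those of `a` without
the first, `Nat.nth p' (r - 1) = Nat.nth p r`, so `lf a' r ≥ lf a r + 1` (`Nat.nth_strictMono`).
`G (n - j)` of the sites `j, …` is nondecreasing for `j ≤ k` (`S_Mo`: `lf` is monotone), equal for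
`j > k`, and at `j = k` it increases by at least one. -/
def S_Tu : Prop :=
  ∀ (c c' : ℕ → ℕ → Bool) (n k : ℕ), (∀ i, Gd (c i)) → (∀ i, Gd (c' i)) → k < n →
    c k 1 = true → c' k 1 = false → (∀ i j, (i, j) ≠ (k, 1) → c i j = c' i j) →
    SS n c + 1 ≤ SS n c'

/-- LOWER BOUND OF THE VARIANCE. From `S_Ms`, `S_Ar`, `S_Lg`, `S_F4`, `S_X4`, `S_Te`, `S_Tu`. PROOF. Fix
`o` with values in `[0, 1]`, in `F4`, and `Gd` for almost every `u`. `F u = SS L (ar o u)`,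
`ξ_k = 1(arrow (k, 1) is left) - (1 - w_k)`, `w_k = o k 1`: independent, centered, variance
`w_k (1 - w_k)`. `F = 1_left F_left + 1_right F_right`, `F_left`, `F_right` (the arrow `(k, 1)` replaced)
are independent of the arrow `(k, 1)`: `E F ξ_k = w_k (1 - w_k) (E F_left - E F_right)
≥ w_k (1 - w_k)` (`S_Tu`; if `w_k (1 - w_k) = 0` then `ξ_k = 0` almost surely; otherwise `F_left`,
`F_right` are integrable). So with `V = ∑_(k < L) w_k (1 - w_k)`: `Cov (F, ∑ ξ_k) ≥ V = Var (∑ ξ_k)`,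
Cauchy-Schwarz: `Var F ≥ V` (`V = 0` trivial). Integrate over `o`. -/
def S_Sp : Prop :=
  ∀ (μ₀ : Measure ℝ) (p C θ : ℝ), Law μ₀ p → 0 < p → IF (St μ₀) (St U01) fw C θ → ∀ L : ℕ,
    (L : ℝ) * ∫ x, x * (1 - x) ∂μ₀ ≤ VL (St μ₀) (St U01) fw L

/-! ## Part D: inversion -/

/-- THE LAW OF THE HITTING TIMES. From `S_Sh`, `S_Ms`, `S_Te`, `S_Dt`. PROOF.
`T k = k + 2 SS k + 2 nu k` for almost every `u` (`S_Dt` for the first visit), `SS k (ps (ar o u)) =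
SN fw k (ps o) (ps u)` (`S_Te`), so
`(T k - mm o k) / √k = 2 (SN - mh) / √k + 2 nu / √k`; its characteristic function differs from
`ph .. (2 t)` (`S_Sh`) by at most `2 |t| K / √k`, so it converges to
`exp(-4 t² s / 2)`, the characteristic function of `gaussianReal 0 (4 s)`. Lévy
(`ProbabilityMeasure.tendsto_iff_tendsto_charFun`), portmanteau
(`ProbabilityMeasure.tendsto_measure_of_null_frontier_of_tendsto`). -/
def S_Tc : Prop :=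
  ∀ (o : ℤ → ℕ → ℝ) (s : ℝ), 0 < s →
    (∀ᵐ u ∂PI ℤ U01, (∀ z, Gd (ar o u z)) ∧ ∀ n : ℕ, ∃ m, pos (hist (ar o u) m) = n) →
    (∃ K : ℝ, ∀ n : ℕ, ∫⁻ u, nu (ar o u) n ∂PI ℤ U01 ≤ ENNReal.ofReal K) →
    (∀ t : ℝ, Tendsto (fun n : ℕ => ph (St U01) fw n (ps o) t) atTop
      (𝓝 (Complex.exp ((-(t ^ 2 * s / 2) : ℝ) : ℂ)))) →
    ∀ x : ℝ, Tendsto (fun k : ℕ => (PI ℤ U01).real
      {u | ∃ m : ℕ, (m : ℝ) ≤ mm o k + x * Real.sqrt k ∧ pos (hist (ar o u) m) = k}) atTop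
      (𝓝 ((gaussianReal 0 (Real.toNNReal (4 * s))).real (Set.Iic x)))

/-- INVERSION, the centering. PROOF. `K n = Nat.findGreatest (fun k => m k ≤ n) n`: `m (K n) ≤ n`
(`m 0 = 0`) and `n < m (K n + 1)` (`m k ≥ k`). `K n → ∞`; `m (K n) / K n → κ`,
`m (K n + 1) / (K n + 1) → κ`, so `K n / n → 1 / κ`. By regularity (`D` large)
`m (K n + 1) - m (K n) ≤ κ + ε √n`. -/
def S_Iva : Prop :=
  ∀ (m : ℕ → ℝ) (κ : ℝ), 0 < κ → m 0 = 0 → (∀ k, m k + 1 ≤ m (k + 1)) →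
    Tendsto (fun n : ℕ => m n / n) atTop (𝓝 κ) →
    (∀ (D : ℕ) (ε : ℝ), 0 < ε → ∀ᶠ n : ℕ in atTop, ∀ k k' : ℕ, k ≤ k' → k' ≤ D * n →
      (k' : ℝ) - k ≤ D * Real.sqrt n → |m k' - m k - ((k' : ℝ) - k) * κ| ≤ ε * Real.sqrt n) →
    ∃ K : ℕ → ℕ, Tendsto (fun n : ℕ => (K n : ℝ) / n) atTop (𝓝 (1 / κ)) ∧
      Tendsto (fun n : ℕ => ((n : ℝ) - m (K n)) / Real.sqrt n) atTop (𝓝 0)

/-- INVERSION. PROOF. First: for `k' n` with `(k' n - K n) / √n → x` (a sequence of natural numbers):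
`k' n / n → 1 / κ`, and regularity (in both directions, `D` large) gives
`(n - m (k' n)) / √n → -x κ`, so `y n = (n - m (k' n)) / √(k' n) → y = -x κ^(3/2)`;
`q (k' n) n = q (k' n) (m (k' n) + y n √(k' n))` is between the values at `y ± ε`, the limit
`Φ(y) = (gaussianReal 0 v).real (Iic y)` is continuous in `y`. Then `z = ⌈K n + x √n⌉`: natural
number `k` for large `n` (`K n / n → 1 / κ > 0`), `q (k + R n) n - δ n ≤ H n k ≤ q k n`, both converge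
to `Φ(-x κ^(3/2)) = P (N(0, v / κ³) ≤ -x) = P (N(0, v / κ³) ≥ x)` (`gaussianReal_map_const_mul`,
symmetry). -/
def S_Ivb : Prop :=
  ∀ (q : ℕ → ℝ → ℝ) (H : ℕ → ℤ → ℝ) (m : ℕ → ℝ) (κ v : ℝ) (K R : ℕ → ℕ) (δ : ℕ → ℝ), 0 < κ →
    0 < v → (∀ k, Monotone (q k)) →
    (∀ x : ℝ, Tendsto (fun k : ℕ => q k (m k + x * Real.sqrt k)) atTop
      (𝓝 ((gaussianReal 0 (Real.toNNReal v)).real (Set.Iic x)))) →
    (∀ (D : ℕ) (ε : ℝ), 0 < ε → ∀ᶠ n : ℕ in atTop, ∀ k k' : ℕ, k ≤ k' → k' ≤ D * n →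
      (k' : ℝ) - k ≤ D * Real.sqrt n → |m k' - m k - ((k' : ℝ) - k) * κ| ≤ ε * Real.sqrt n) →
    Tendsto (fun n : ℕ => (K n : ℝ) / n) atTop (𝓝 (1 / κ)) →
    Tendsto (fun n : ℕ => ((n : ℝ) - m (K n)) / Real.sqrt n) atTop (𝓝 0) →
    Tendsto δ atTop (𝓝 0) → Tendsto (fun n : ℕ => (R n : ℝ) / Real.sqrt n) atTop (𝓝 0) →
    (∀ n k : ℕ, H n k ≤ q k n) → (∀ n k : ℕ, q (k + R n) n ≤ H n k + δ n) →
    ∀ x : ℝ, Tendsto (fun n : ℕ => H n ⌈(K n : ℝ) + x * Real.sqrt n⌉) atTop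
      (𝓝 ((gaussianReal 0 (Real.toNNReal (v / κ ^ 3))).real (Set.Ici x)))

/-- WEAK CONVERGENCE FROM DISTRIBUTION FUNCTIONS. PROOF. For every open set `U`,
`ρ₀ U ≤ liminf ρ n U`: a finite union of half open intervals `[x, y)` in `U` has measure close to
`ρ₀ U` (`ρ₀` has no atoms), `ρ [x, y) = ρ (Ici x) - ρ (Ici y)`; portmanteau
(`ProbabilityMeasure.tendsto_of_forall_isOpen_le_liminf`). Or: Mathlib's
`ProbabilityMeasure.tendsto_iff_forall_cdf..` if it exists, or tightness and step functions. -/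
def S_Wk : Prop :=
  ∀ (ρ : ℕ → Measure ℝ) [∀ n, IsProbabilityMeasure (ρ n)] (ρ₀ : Measure ℝ)
    [IsProbabilityMeasure ρ₀], (∀ x, ρ₀ {x} = 0) →
    (∀ x, Tendsto (fun n => (ρ n).real (Set.Ici x)) atTop (𝓝 (ρ₀.real (Set.Ici x)))) →
    ∀ f : BoundedContinuousFunction ℝ ℝ,
      Tendsto (fun n => ∫ x, f x ∂ρ n) atTop (𝓝 (∫ x, f x ∂ρ₀))

/-- REFLECTION. PROOF. Reflect the paths: `e ↦ !e`; `pos (h.map not) = -pos h`,
`vis (h.map not) = vis h`, `wt w (h.map not) = wt w' h`, `w' z i = 1 - w (-z) i`. -/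
def S_Rf : Prop :=
  ∀ (w : ℤ → ℕ → ℝ) (n : ℕ) (g : ℤ → ℝ),
    quenchE w n g = quenchE (fun z i => 1 - w (-z) i) n (fun z => g (-z))

/-- THE LAW OF THE ENVIRONMENT. PROOF. `iIndepFun.map_fun_eq_infinitePi_map` and
`infinitePi_map_curry`. -/
def S_Cu : Prop :=
  ∀ (Ω : Type) [MeasurableSpace Ω] (P : Measure Ω) [IsProbabilityMeasure P] (ω : ℤ → ℕ → Ω → ℝ),
    (∀ z i, Measurable (ω z i)) → iIndepFun (fun κ : ℤ × ℕ => ω κ.1 κ.2) P →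
    (∀ z i, IdentDistrib (ω z i) (ω 0 1) P P) →
    P.map (fun o z i => ω z i o) = PI ℤ (P.map (ω 0 1))

end MP0d3db7D1
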