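import Pool.Agent.Lib.MP_0d3db7.D1.Spec

/-!
# MP_0d3db7_pr, theorem D1, module Te: telescoping
-/

set_option autoImplicit false

namespace MP0d3db7D1

open MeasureTheory ProbabilityTheory Filter Topology Pool.Agent.MP0d3db7

theorem tTe : S_Te := by
  intro n o u
  unfold SN SS
  push_cast
  refine Finset.sum_congr rfl fun k _ => ?_
  have h1 : ∀ l, fw l (sh k o) (sh k u) =
      (G (l + 1) (ar (sh k o) (sh k u)) : ℝ) - G l (ar (sh k o) (sh k u)) := fun l => rfl
  simp only [h1]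
  rw [Finset.sum_range_sub (fun l => (G l (ar (sh k o) (sh k u)) : ℝ))]
  show (G (n - k) _ : ℝ) - ((0 : ℕ) : ℝ) = _
  rw [Nat.cast_zero, sub_zero]
  rfl

end MP0d3db7D1
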