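import Pool.Agent.Lib.MP_0d3db7.D1.Spec

/-!
# MP_0d3db7_pr, theorem D1, module Wk: weak convergence from distribution functions
-/

set_option autoImplicit false

namespace MP0d3db7D1

open MeasureTheory ProbabilityTheory Filter Topology Pool.Agent.MP0d3db7

namespace Wk_aux

theorem real_Ico (μ : Measure ℝ) [IsProbabilityMeasure μ] {x y : ℝ} (h : x ≤ y) :
    μ.real (Set.Ico x y) = μ.real (Set.Ici x) - μ.real (Set.Ici y) := by
  have h1 : Set.Ico x y = Set.Ici x \ Set.Ici y := by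
    ext z
    simp [Set.mem_Ico]
  rw [h1, measureReal_diff (Set.Ici_subset_Ici.2 h) measurableSet_Ici]

end Wk_aux

open Wk_aux in
theorem tWk : S_Wk := by
  intro ρ _ ρ₀ _ _ h f
  let μ : ℕ → ProbabilityMeasure ℝ := fun n => ⟨ρ n, inferInstance⟩
  let ν : ProbabilityMeasure ℝ := ⟨ρ₀, inferInstance⟩
  have key : Tendsto μ atTop (𝓝 ν) := by
    refine IsPiSystem.tendsto_probabilityMeasure_of_tendsto_of_mem
      (S := {S | ∃ l u : ℝ, l < u ∧ Set.Ico l u = S}) ?_ ?_ ?_ ?_
    · exact isPiSystem_Ico (fun x : ℝ => x) (fun x : ℝ => x)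
    · rintro s ⟨l, u, _, rfl⟩
      exact measurableSet_Ico
    · intro u hu x hx
      obtain ⟨ε, hε, hb⟩ := Metric.isOpen_iff.1 hu x hx
      refine ⟨Set.Ico (x - ε / 2) (x + ε / 2), ⟨_, _, by linarith, rfl⟩,
        Ico_mem_nhds (by linarith) (by linarith), fun y hy => hb ?_⟩
      rw [Metric.mem_ball, Real.dist_eq, abs_lt]
      constructor <;> linarith [hy.1, hy.2]
    · rintro s ⟨l, u, hlu, rfl⟩
      have h1 := (h l).sub (h u)
      have h2 : Tendsto (fun n => (((μ n) (Set.Ico l u) : NNReal) : ℝ)) atTop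
          (𝓝 (((ν (Set.Ico l u) : NNReal) : ℝ))) := by
        have h3 : ∀ n, (((μ n) (Set.Ico l u) : NNReal) : ℝ) = (ρ n).real (Set.Ico l u) :=
          fun n => rfl
        have h4 : ((ν (Set.Ico l u) : NNReal) : ℝ) = ρ₀.real (Set.Ico l u) := rfl
        rw [h4, real_Ico ρ₀ hlu.le]
        simp only [h3]
        refine h1.congr fun n => ?_
        rw [real_Ico (ρ n) hlu.le]
      exact NNReal.tendsto_coe.1 h2
  exact (ProbabilityMeasure.tendsto_iff_forall_integral_tendsto.1 key) f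

end MP0d3db7D1
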